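import Mathlib

/-!
# Finite almost invariant families (amenability of solvable groups)
-/

namespace Pool.Agent.ANM65

open scoped Classical

/-- For each finite set `U` of elements there is a finite family of elements of the group which is
almost invariant under right multiplication by the elements of `U`. -/
def Am (G : Type) [Group G] : Prop :=
  ∀ (U : Finset G) (ε : ℝ), 0 < ε → ∃ (ι : Type) (_ : Fintype ι) (_ : Nonempty ι) (p : ι → G),
    ∀ u ∈ U, ∃ σ : Equiv.Perm ι,
      ((Finset.univ.filter fun i => p i * u ≠ p (σ i)).card : ℝ) ≤ ε * Fintype.card ι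

theorem Am.of_subsingleton (G : Type) [Group G] [Subsingleton G] : Am G := by
  intro U ε hε
  refine ⟨Unit, inferInstance, inferInstance, fun _ => 1, fun u _ => ⟨1, ?_⟩⟩
  rw [Finset.filter_eq_empty_iff.2]
  · simp [hε.le]
  · intro i _ h
    exact h (Subsingleton.elim _ _)

theorem Am.of_comm (G : Type) [CommGroup G] : Am G := by
  intro U ε hε
  induction U using Finset.induction_on with
  | empty =>
    exact ⟨Unit, inferInstance, inferInstance, fun _ => 1, fun u hu => absurd hu (by simp)⟩
  | insert u U _ ih =>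
    obtain ⟨ι, _, _, p, hp⟩ := ih
    obtain ⟨M, hM⟩ := exists_nat_gt (1 / ε)
    refine ⟨ι × Fin (M + 1), inferInstance, inferInstance, fun x => p x.1 * u ^ (x.2 : ℕ), ?_⟩
    intro v hv
    rw [Fintype.card_prod, Fintype.card_fin]
    have hcM : (0 : ℝ) ≤ ((M + 1 : ℕ) : ℝ) := by positivity
    rcases Finset.mem_insert.1 hv with rfl | hv
    · refine ⟨Equiv.prodCongr (Equiv.refl ι) (finRotate (M + 1)), ?_⟩
      have hsub : (Finset.univ.filter fun x : ι × Fin (M + 1) =>
          p x.1 * v ^ (x.2 : ℕ) * v ≠ p ((Equiv.prodCongr (Equiv.refl ι)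
            (finRotate (M + 1))) x).1 * v ^ (((Equiv.prodCongr (Equiv.refl ι)
            (finRotate (M + 1))) x).2 : ℕ)) ⊆
          (Finset.univ : Finset ι) ×ˢ {Fin.last M} := by
        rintro ⟨i, k⟩ h
        rw [Finset.mem_filter] at h
        rw [Finset.mem_product]
        refine ⟨Finset.mem_univ _, ?_⟩
        rw [Finset.mem_singleton]
        by_contra hk
        apply h.2
        have hk' : ((finRotate (M + 1)) k : ℕ) = k + 1 := by
          rw [finRotate_apply, Fin.val_add_one, if_neg hk]
        simp only [Equiv.prodCongr_apply, Prod.map_apply, Equiv.refl_apply, hk', pow_succ,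
          mul_assoc]
      have hcard := Finset.card_le_card hsub
      rw [Finset.card_product, Finset.card_singleton, mul_one, Finset.card_univ] at hcard
      have h1 : (1 : ℝ) ≤ ε * ((M + 1 : ℕ) : ℝ) := by
        rw [div_lt_iff₀ hε] at hM
        push_cast
        nlinarith
      calc _ ≤ ((Fintype.card ι : ℕ) : ℝ) := by exact_mod_cast hcard
        _ = ((Fintype.card ι : ℕ) : ℝ) * 1 := (mul_one _).symm
        _ ≤ ((Fintype.card ι : ℕ) : ℝ) * (ε * ((M + 1 : ℕ) : ℝ)) :=
          mul_le_mul_of_nonneg_left h1 (Nat.cast_nonneg _)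
        _ = _ := by push_cast; ring
    · obtain ⟨σ, hσ⟩ := hp v hv
      refine ⟨Equiv.prodCongr σ (Equiv.refl _), ?_⟩
      have hsub : (Finset.univ.filter fun x : ι × Fin (M + 1) =>
          p x.1 * u ^ (x.2 : ℕ) * v ≠ p ((Equiv.prodCongr σ (Equiv.refl _)) x).1 *
            u ^ (((Equiv.prodCongr σ (Equiv.refl (Fin (M + 1)))) x).2 : ℕ)) ⊆
          (Finset.univ.filter fun i => p i * v ≠ p (σ i)) ×ˢ Finset.univ := by
        rintro ⟨i, k⟩ h
        rw [Finset.mem_filter] at h
        rw [Finset.mem_product]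
        refine ⟨?_, Finset.mem_univ _⟩
        rw [Finset.mem_filter]
        refine ⟨Finset.mem_univ _, fun h2 => h.2 ?_⟩
        simp only [Equiv.prodCongr_apply, Prod.map_apply, Equiv.refl_apply]
        rw [← h2, mul_assoc, mul_comm (u ^ _), ← mul_assoc]
      have hcard := Finset.card_le_card hsub
      rw [Finset.card_product, Finset.card_univ, Fintype.card_fin] at hcard
      calc _ ≤ (((Finset.univ.filter fun i => p i * v ≠ p (σ i)).card * (M + 1) : ℕ) : ℝ) := by
            exact_mod_cast hcard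
        _ = ((Finset.univ.filter fun i => p i * v ≠ p (σ i)).card : ℝ) * ((M + 1 : ℕ) : ℝ) := by
            push_cast; ring
        _ ≤ ε * Fintype.card ι * ((M + 1 : ℕ) : ℝ) := mul_le_mul_of_nonneg_right hσ hcM
        _ = _ := by push_cast; ring

/-- `Am` passes to subgroups. -/
theorem Am.of_injective {G H : Type} [Group G] [Group H] (f : G →* H)
    (hf : Function.Injective f) (hH : Am H) : Am G := by
  intro U ε hε
  obtain ⟨ι, _, _, p, hp⟩ := hH (U.image f) ε hε
  have hr : ∀ h : H, ∃ g : G, f g = ((h : H ⧸ f.range).out)⁻¹ * h := by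
    intro h
    obtain ⟨s, hs⟩ := QuotientGroup.mk_out_eq_mul f.range h
    have h1 : ((h : H ⧸ f.range).out)⁻¹ * h ∈ f.range := by
      rw [hs, mul_inv_rev, mul_assoc, inv_mul_cancel, mul_one]
      exact inv_mem s.2
    exact h1
  choose r hr using hr
  have hru : ∀ h u, r (h * f u) = r h * u := by
    intro h u
    apply hf
    rw [map_mul, hr, hr]
    have h1 : ((h * f u : H) : H ⧸ f.range) = (h : H ⧸ f.range) := by
      rw [QuotientGroup.eq]
      rw [mul_inv_rev, mul_assoc, inv_mul_cancel, mul_one]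
      exact inv_mem ⟨u, rfl⟩
    rw [h1, mul_assoc]
  refine ⟨ι, inferInstance, inferInstance, fun i => r (p i), fun u hu => ?_⟩
  obtain ⟨σ, hσ⟩ := hp (f u) (Finset.mem_image_of_mem f hu)
  refine ⟨σ, le_trans ?_ hσ⟩
  have hsub : (Finset.univ.filter fun i => r (p i) * u ≠ r (p (σ i))) ⊆
      Finset.univ.filter fun i => p i * f u ≠ p (σ i) := by
    intro i hi
    rw [Finset.mem_filter] at hi ⊢
    refine ⟨hi.1, fun h => hi.2 ?_⟩
    rw [← hru, h]
  exact_mod_cast Finset.card_le_card hsub

/-- `Am` passes to extensions. -/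
theorem Am.ext {G H : Type} [Group G] [Group H] (φ : G →* H) (hφ : Function.Surjective φ)
    (hH : Am H) (hN : Am φ.ker) : Am G := by
  intro U ε hε
  obtain ⟨κ, _, _, q, hq⟩ := hH (U.image φ) (ε / 2) (by linarith)
  choose g hg using hφ
  have hq' : ∀ u : G, ∃ τ : Equiv.Perm κ, u ∈ U →
      ((Finset.univ.filter fun j => q j * φ u ≠ q (τ j)).card : ℝ) ≤
        ε / 2 * Fintype.card κ := by
    intro u
    by_cases hu : u ∈ U
    · obtain ⟨τ, hτ⟩ := hq (φ u) (Finset.mem_image_of_mem φ hu)
      exact ⟨τ, fun _ => hτ⟩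
    · exact ⟨1, fun h => absurd h hu⟩
  choose τ hτ using hq'
  -- the correction elements
  have hn : ∀ (j : κ) (u : G), ∃ m : φ.ker, q j * φ u = q (τ u j) →
      g (q j) * u = m.1 * g (q (τ u j)) := by
    intro j u
    by_cases h : q j * φ u = q (τ u j)
    · refine ⟨⟨g (q j) * u * (g (q (τ u j)))⁻¹, ?_⟩, fun _ => by group⟩
      rw [MonoidHom.mem_ker, map_mul, map_mul, map_inv, hg, hg, h, mul_inv_cancel]
    · exact ⟨1, fun h' => absurd h' h⟩
  choose m hm using hn
  obtain ⟨ι, _, _, p, hp⟩ := hN ((Finset.univ ×ˢ U).image fun x : κ × G => m x.1 x.2) (ε / 2)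
    (by linarith)
  have hp' : ∀ (j : κ) (u : G), ∃ σ : Equiv.Perm ι, u ∈ U →
      ((Finset.univ.filter fun i => p i * m j u ≠ p (σ i)).card : ℝ) ≤
        ε / 2 * Fintype.card ι := by
    intro j u
    by_cases hu : u ∈ U
    · obtain ⟨σ, hσ⟩ := hp (m j u) (Finset.mem_image.2 ⟨(j, u), by simp [hu], rfl⟩)
      exact ⟨σ, fun _ => by convert hσ⟩
    · exact ⟨1, fun h => absurd h hu⟩
  choose σ hσ using hp'
  refine ⟨ι × κ, inferInstance, inferInstance, fun x => (p x.1).1 * g (q x.2), fun u hu => ?_⟩
  let ρ : Equiv.Perm (ι × κ) :=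
    { toFun := fun x => (σ x.2 u x.1, τ u x.2)
      invFun := fun x => ((σ ((τ u).symm x.2) u).symm x.1, (τ u).symm x.2)
      left_inv := by rintro ⟨i, j⟩; simp
      right_inv := by rintro ⟨i, j⟩; simp }
  refine ⟨ρ, ?_⟩
  have hsub : (Finset.univ.filter fun x : ι × κ =>
      (p x.1).1 * g (q x.2) * u ≠ (p (ρ x).1).1 * g (q (ρ x).2)) ⊆
      ((Finset.univ : Finset ι) ×ˢ (Finset.univ.filter fun j => q j * φ u ≠ q (τ u j))) ∪
      (Finset.univ.biUnion fun j : κ =>
        (Finset.univ.filter fun i => p i * m j u ≠ p (σ j u i)) ×ˢ {j}) := by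
    rintro ⟨i, j⟩ h
    rw [Finset.mem_filter] at h
    rw [Finset.mem_union]
    by_cases h1 : q j * φ u = q (τ u j)
    · right
      rw [Finset.mem_biUnion]
      refine ⟨j, Finset.mem_univ _, ?_⟩
      rw [Finset.mem_product, Finset.mem_filter]
      refine ⟨⟨Finset.mem_univ _, fun h2 => h.2 ?_⟩, Finset.mem_singleton_self j⟩
      change (p i).1 * g (q j) * u = (p (σ j u i)).1 * g (q (τ u j))
      rw [mul_assoc, hm j u h1, ← mul_assoc, ← h2]
      rfl
    · left
      rw [Finset.mem_product, Finset.mem_filter]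
      exact ⟨Finset.mem_univ _, Finset.mem_univ _, h1⟩
  have hcard := (Finset.card_le_card hsub).trans (Finset.card_union_le _ _)
  have hb := Finset.card_biUnion_le (s := (Finset.univ : Finset κ)) (t := fun j : κ =>
    (Finset.univ.filter fun i => p i * m j u ≠ p (σ j u i)) ×ˢ {j})
  have h1 : (((Finset.univ : Finset ι) ×ˢ
      (Finset.univ.filter fun j => q j * φ u ≠ q (τ u j))).card : ℝ) ≤
      ε / 2 * (Fintype.card ι * Fintype.card κ) := by
    rw [Finset.card_product, Finset.card_univ]
    push_cast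
    have := mul_le_mul_of_nonneg_left (hτ u hu) (Nat.cast_nonneg (α := ℝ) (Fintype.card ι))
    linarith
  have h2 : ((∑ j : κ, ((Finset.univ.filter fun i => p i * m j u ≠ p (σ j u i)) ×ˢ
      ({j} : Finset κ)).card : ℕ) : ℝ) ≤ ε / 2 * (Fintype.card ι * Fintype.card κ) := by
    push_cast
    calc _ ≤ ∑ _j : κ, ε / 2 * (Fintype.card ι : ℝ) := by
          refine Finset.sum_le_sum fun j _ => ?_
          rw [Finset.card_product, Finset.card_singleton, mul_one]
          exact hσ j u hu
      _ = _ := by rw [Finset.sum_const, Finset.card_univ, nsmul_eq_mul]; ring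
  rw [Fintype.card_prod]
  push_cast
  calc _ ≤ (((Finset.univ : Finset ι) ×ˢ
      (Finset.univ.filter fun j => q j * φ u ≠ q (τ u j))).card : ℝ) +
      ((∑ j : κ, ((Finset.univ.filter fun i => p i * m j u ≠ p (σ j u i)) ×ˢ
      ({j} : Finset κ)).card : ℕ) : ℝ) := by
        exact_mod_cast hcard.trans (Nat.add_le_add_left hb _)
    _ ≤ _ := by linarith

/-- Extensions with commutative quotient. -/
theorem Am.ext_comm {G A : Type} [Group G] [CommGroup A] (φ : G →* A) (hN : Am φ.ker) : Am G := by
  refine Am.ext φ.rangeRestrict φ.rangeRestrict_surjective (Am.of_comm _) ?_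
  rw [MonoidHom.ker_rangeRestrict]
  exact hN

/-- If a set `B` has small density along the translates of `t₁, …, t_q`, uniformly, then for each
finite set `U` there is `x` with `x U` disjoint from `B`. -/
theorem Am.exists_avoid {G : Type} [Group G] (hG : Am G) (B : Set G)
    (hB : ∀ ε : ℝ, 0 < ε → ∃ (q : ℕ) (t : Fin (q + 1) → G), ∀ x : G,
      ((Finset.univ.filter fun j => x * t j ∈ B).card : ℝ) ≤ ε * (q + 1)) (U : Finset G) :
    ∃ x : G, ∀ u ∈ U, x * u ∉ B := by
  by_contra hcon
  push Not at hcon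
  set δ : ℝ := 1 / (4 * (U.card + 1)) with hδ
  have hδpos : 0 < δ := by positivity
  obtain ⟨q, t, ht⟩ := hB δ hδpos
  obtain ⟨ι, _, _, p, hp⟩ := hG (U ∪ Finset.univ.image t) δ hδpos
  have hcι : (0 : ℝ) < Fintype.card ι := by exact_mod_cast Fintype.card_pos
  -- translation estimate
  have htr : ∀ u ∈ U ∪ Finset.univ.image t, ∃ σ : Equiv.Perm ι,
      ((Finset.univ.filter fun i => p i * u ≠ p (σ i)).card : ℝ) ≤ δ * Fintype.card ι := hp
  set b : ℝ := ((Finset.univ.filter fun i => p i ∈ B).card : ℝ) with hb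
  have hshift : ∀ u ∈ U ∪ Finset.univ.image t,
      |((Finset.univ.filter fun i => p i * u ∈ B).card : ℝ) - b| ≤ δ * Fintype.card ι := by
    intro u hu
    obtain ⟨σ, hσ⟩ := htr u hu
    have hb' : b = ((Finset.univ.filter fun i => p (σ i) ∈ B).card : ℝ) := by
      rw [hb]
      congr 1
      refine (Finset.card_bij (fun i _ => σ i) ?_ ?_ ?_).symm
      · intro i hi
        rw [Finset.mem_filter] at hi ⊢
        exact ⟨Finset.mem_univ _, hi.2⟩
      · intro i _ j _ h; exact σ.injective h
      · intro j hj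
        rw [Finset.mem_filter] at hj
        refine ⟨σ.symm j, ?_, by simp⟩
        rw [Finset.mem_filter]
        exact ⟨Finset.mem_univ _, by simpa using hj.2⟩
    have s1 : (Finset.univ.filter fun i => p i * u ∈ B) ⊆
        (Finset.univ.filter fun i => p (σ i) ∈ B) ∪
          (Finset.univ.filter fun i => p i * u ≠ p (σ i)) := by
      intro i hi
      rw [Finset.mem_filter] at hi
      rw [Finset.mem_union, Finset.mem_filter, Finset.mem_filter]
      by_cases h : p i * u = p (σ i)
      · left; exact ⟨Finset.mem_univ _, by rw [← h]; exact hi.2⟩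
      · right; exact ⟨Finset.mem_univ _, h⟩
    have s2 : (Finset.univ.filter fun i => p (σ i) ∈ B) ⊆
        (Finset.univ.filter fun i => p i * u ∈ B) ∪
          (Finset.univ.filter fun i => p i * u ≠ p (σ i)) := by
      intro i hi
      rw [Finset.mem_filter] at hi
      rw [Finset.mem_union, Finset.mem_filter, Finset.mem_filter]
      by_cases h : p i * u = p (σ i)
      · left; exact ⟨Finset.mem_univ _, by rw [h]; exact hi.2⟩
      · right; exact ⟨Finset.mem_univ _, h⟩
    have c1 : ((Finset.univ.filter fun i => p i * u ∈ B).card : ℝ) ≤ b +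
        ((Finset.univ.filter fun i => p i * u ≠ p (σ i)).card : ℝ) := by
      rw [hb']
      exact_mod_cast (Finset.card_le_card s1).trans (Finset.card_union_le _ _)
    have c2 : b ≤ ((Finset.univ.filter fun i => p i * u ∈ B).card : ℝ) +
        ((Finset.univ.filter fun i => p i * u ≠ p (σ i)).card : ℝ) := by
      rw [hb']
      exact_mod_cast (Finset.card_le_card s2).trans (Finset.card_union_le _ _)
    rw [abs_le]
    constructor <;> linarith
  -- double counting
  have hdc : ∑ j : Fin (q + 1), ((Finset.univ.filter fun i => p i * t j ∈ B).card : ℝ) ≤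
      δ * (q + 1) * Fintype.card ι := by
    have h1 : ∑ j : Fin (q + 1), ((Finset.univ.filter fun i => p i * t j ∈ B).card : ℝ) =
        ∑ i : ι, ((Finset.univ.filter fun j => p i * t j ∈ B).card : ℝ) := by
      simp only [Finset.card_filter, Nat.cast_sum]
      rw [Finset.sum_comm]
    rw [h1]
    calc _ ≤ ∑ _i : ι, δ * ((q : ℝ) + 1) := Finset.sum_le_sum fun i _ => ht (p i)
      _ = _ := by rw [Finset.sum_const, Finset.card_univ, nsmul_eq_mul]; ring
  have hb2 : b ≤ 2 * δ * Fintype.card ι := by
    have h1 : ∀ j : Fin (q + 1), b - δ * Fintype.card ι ≤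
        ((Finset.univ.filter fun i => p i * t j ∈ B).card : ℝ) := by
      intro j
      have := hshift (t j) (Finset.mem_union_right _ (Finset.mem_image_of_mem t
        (Finset.mem_univ j)))
      rw [abs_le] at this
      linarith [this.1]
    have h2 : ((q : ℝ) + 1) * (b - δ * Fintype.card ι) ≤ δ * (q + 1) * Fintype.card ι := by
      refine le_trans ?_ hdc
      calc ((q : ℝ) + 1) * (b - δ * Fintype.card ι) =
            ∑ _j : Fin (q + 1), (b - δ * Fintype.card ι) := by
            rw [Finset.sum_const, Finset.card_univ, Fintype.card_fin, nsmul_eq_mul]; push_cast; ring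
        _ ≤ _ := Finset.sum_le_sum fun j _ => h1 j
    have h3 : (0 : ℝ) < (q : ℝ) + 1 := by positivity
    have h4 : ((q : ℝ) + 1) * (b - δ * Fintype.card ι) ≤ ((q : ℝ) + 1) * (δ * Fintype.card ι) := by
      linarith
    have h5 := le_of_mul_le_mul_left h4 h3
    linarith
  have hb3 : ∀ u ∈ U, ((Finset.univ.filter fun i => p i * u ∈ B).card : ℝ) ≤
      3 * δ * Fintype.card ι := by
    intro u hu
    have := hshift u (Finset.mem_union_left _ hu)
    rw [abs_le] at this
    linarith [this.2]
  have hcov : (Finset.univ : Finset ι) ⊆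
      U.biUnion fun u => Finset.univ.filter fun i => p i * u ∈ B := by
    intro i _
    obtain ⟨u, hu, hui⟩ := hcon (p i)
    rw [Finset.mem_biUnion]
    exact ⟨u, hu, by rw [Finset.mem_filter]; exact ⟨Finset.mem_univ _, hui⟩⟩
  have hc := (Finset.card_le_card hcov).trans Finset.card_biUnion_le
  rw [Finset.card_univ] at hc
  have hc' : (Fintype.card ι : ℝ) ≤ U.card * (3 * δ * Fintype.card ι) := by
    calc (Fintype.card ι : ℝ) ≤
        ∑ u ∈ U, ((Finset.univ.filter fun i => p i * u ∈ B).card : ℝ) := by exact_mod_cast hc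
      _ ≤ ∑ _u ∈ U, 3 * δ * (Fintype.card ι : ℝ) := Finset.sum_le_sum fun u hu => hb3 u hu
      _ = _ := by rw [Finset.sum_const, nsmul_eq_mul]
  have h6 : (U.card : ℝ) * (3 * δ) < 1 := by
    rw [hδ, mul_one_div, ← mul_div_assoc, div_lt_one (by positivity)]
    have : (0 : ℝ) ≤ U.card := Nat.cast_nonneg _
    linarith
  have h7 : (U.card : ℝ) * (3 * δ * Fintype.card ι) < 1 * Fintype.card ι := by
    calc (U.card : ℝ) * (3 * δ * Fintype.card ι) = (U.card * (3 * δ)) * Fintype.card ι := by ring
      _ < 1 * Fintype.card ι := mul_lt_mul_of_pos_right h6 hcι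
  linarith

end Pool.Agent.ANM65
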