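import Pool.Agent.ANM65.Am
import Pool.Agent.ANM51.Dom

/-!
# Amenability of `A₁N₁`
-/

namespace Pool.Agent.ANM65

open Matrix Pool.Agent.ANM51

set_option linter.unusedSectionVars false

section uni

variable {I D : Type} [Fintype I] [DecidableEq I] [NormedDivisionRing D]

theorem uni_inv {lv : I → ℕ} (hlv : Function.Injective lv) {ℓ : ℕ} {g : (Matrix I I D)ˣ}
    (hg : Uni lv ℓ g.val) (hh : IsTri lv (g⁻¹).val) : Uni lv ℓ (g⁻¹).val := by
  have h1 : g.val * (g⁻¹).val = 1 := Units.mul_inv g
  refine ⟨fun p => ?_, fun p q hne hlt => ?_⟩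
  · have h2 := congrFun (congrFun h1 p) p
    rwa [IsTri.mul_diag hlv hg.isTri hh, hg.1, one_mul, Matrix.one_apply_eq] at h2
  · have h2 := congrFun (congrFun h1 p) q
    rw [Matrix.one_apply_ne hne, Matrix.mul_apply, Finset.sum_eq_single p, hg.1, one_mul] at h2
    · exact h2
    · intro r _ hr
      by_cases h3 : lv r < lv p + ℓ
      · rw [hg.2 p r (Ne.symm hr) h3, zero_mul]
      · rw [hh r q (by omega), mul_zero]
    · intro h; exact absurd (Finset.mem_univ _) h

end uni

variable {n : ℕ} {D : Type} [NormedDivisionRing D] [NormedAlgebra ℝ D]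

/-- the lower central type filtration of `N₁` -/
noncomputable def KK (n : ℕ) (D : Type) [NormedDivisionRing D] [NormedAlgebra ℝ D] (k : ℕ) :
    Subgroup (ANSL n D) where
  carrier := {g | Uni (fun i : Fin (n + 1) => (i : ℕ)) (k + 1) g.1.val}
  one_mem' := by
    change Uni _ _ (1 : Matrix (Fin (n + 1)) (Fin (n + 1)) D)
    exact ⟨fun p => Matrix.one_apply_eq p, fun p q hne _ => Matrix.one_apply_ne hne⟩
  mul_mem' := by
    intro a b ha hb
    change Uni _ _ (a.1.val * b.1.val)
    exact Uni.mul Fin.val_injective (Nat.succ_pos k) ha hb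
  inv_mem' := by
    intro a ha
    change Uni _ _ ((a.1)⁻¹).val
    exact uni_inv Fin.val_injective ha a.2.1.2

/-- the entries on a superdiagonal -/
noncomputable def chi (n : ℕ) (D : Type) [NormedDivisionRing D] [NormedAlgebra ℝ D] (k : ℕ) :
    KK n D k →* Multiplicative (Fin (n + 1) → Fin (n + 1) → D) where
  toFun g := Multiplicative.ofAdd fun p q =>
    if (q : ℕ) = p + (k + 1) then g.1.1.val p q else 0
  map_one' := by
    apply Multiplicative.toAdd.injective
    funext p q
    by_cases h : (q : ℕ) = p + (k + 1)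
    · have hne : p ≠ q := by rintro rfl; omega
      simp only [toAdd_ofAdd, if_pos h]
      exact Matrix.one_apply_ne hne
    · simp only [toAdd_ofAdd, if_neg h]
      rfl
  map_mul' a b := by
    apply Multiplicative.toAdd.injective
    funext p q
    by_cases h : (q : ℕ) = p + (k + 1)
    · have hne : p ≠ q := by rintro rfl; omega
      simp only [toAdd_ofAdd, toAdd_mul, Pi.add_apply, if_pos h]
      exact Uni.mul_entry a.2 b.2 (by omega) hne
    · simp only [toAdd_ofAdd, toAdd_mul, Pi.add_apply, if_neg h, add_zero]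

theorem subsingleton_KK (k : ℕ) (hk : n ≤ k) : Subsingleton (KK n D k) := by
  constructor
  have key : ∀ g : KK n D k, g = 1 := by
    intro g
    apply Subtype.ext
    apply Subtype.ext
    apply Units.ext
    change g.1.1.val = 1
    ext p q
    by_cases h : p = q
    · subst h
      rw [g.2.1, Matrix.one_apply_eq]
    · rw [Matrix.one_apply_ne h]
      have := q.2
      refine g.2.2 p q h ?_
      change (q : ℕ) < p + (k + 1)
      omega
  intro a b
  rw [key a, key b]

/-- the kernel of `chi` is contained in the next subgroup -/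
noncomputable def kerTo (k : ℕ) : (chi n D k).ker →* KK n D (k + 1) where
  toFun g := ⟨g.1.1, by
    have hg : chi n D k g.1 = 1 := g.2
    have hu : Uni (fun i : Fin (n + 1) => (i : ℕ)) (k + 1) g.1.1.1.val := g.1.2
    change Uni (fun i : Fin (n + 1) => (i : ℕ)) (k + 1 + 1) g.1.1.1.val
    refine ⟨hu.1, fun p q hne hlt => ?_⟩
    by_cases h : (q : ℕ) = p + (k + 1)
    · have h1 := congrFun (congrFun (congrArg Multiplicative.toAdd hg) p) q
      change (if (q : ℕ) = p + (k + 1) then g.1.1.1.val p q else 0) = 0 at h1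
      rwa [if_pos h] at h1
    · refine hu.2 p q hne ?_
      change (q : ℕ) < p + (k + 1 + 1) at hlt
      change (q : ℕ) < p + (k + 1)
      omega⟩
  map_one' := rfl
  map_mul' _ _ := rfl

theorem kerTo_injective (k : ℕ) : Function.Injective (kerTo (n := n) (D := D) k) := by
  intro a b h
  have h1 : (kerTo (n := n) (D := D) k a).1 = (kerTo (n := n) (D := D) k b).1 := by rw [h]
  exact Subtype.ext (Subtype.ext h1)

theorem am_KK_aux (m : ℕ) : ∀ k : ℕ, k + m = n → Am (KK n D k) := by
  induction m with
  | zero =>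
    intro k hk
    have := subsingleton_KK (n := n) (D := D) k (by omega)
    exact Am.of_subsingleton _
  | succ m ih =>
    intro k hk
    exact Am.ext_comm (chi n D k) (Am.of_injective (kerTo k) (kerTo_injective k)
      (ih (k + 1) (by omega)))

theorem am_KK_zero : Am (KK n D 0) := am_KK_aux n 0 (by omega)

/-- the logarithms of the diagonal entries -/
noncomputable def chiA (n : ℕ) (D : Type) [NormedDivisionRing D] [NormedAlgebra ℝ D] :
    ANSL n D →* Multiplicative (Fin (n + 1) → ℝ) where
  toFun g := Multiplicative.ofAdd fun p => Real.log ‖g.1.val p p‖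
  map_one' := by
    apply Multiplicative.toAdd.injective
    funext p
    change Real.log ‖(1 : Matrix (Fin (n + 1)) (Fin (n + 1)) D) p p‖ = 0
    rw [Matrix.one_apply_eq, norm_one, Real.log_one]
  map_mul' a b := by
    apply Multiplicative.toAdd.injective
    funext p
    change Real.log ‖(a.1.val * b.1.val) p p‖ = Real.log ‖a.1.val p p‖ + Real.log ‖b.1.val p p‖
    obtain ⟨c, hc, -⟩ := a.2.2
    obtain ⟨d, hd, -⟩ := b.2.2
    rw [IsTri.mul_diag Fin.val_injective a.2.1.1 b.2.1.1, norm_mul, Real.log_mul]
    · rw [(hc p).2, norm_algebraMap', Real.norm_of_nonneg (hc p).1.le]; exact (hc p).1.ne'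
    · rw [(hd p).2, norm_algebraMap', Real.norm_of_nonneg (hd p).1.le]; exact (hd p).1.ne'

/-- the kernel of `chiA` is `N₁` -/
noncomputable def kerToA : (chiA n D).ker →* KK n D 0 where
  toFun g := ⟨g.1, by
    have hg : chiA n D g.1 = 1 := g.2
    obtain ⟨c, hc, -⟩ := g.1.2.2
    have htri := g.1.2.1.1
    change Uni (fun i : Fin (n + 1) => (i : ℕ)) (0 + 1) g.1.1.val
    refine ⟨fun p => ?_, fun p q hne hlt => ?_⟩
    · have h1 := congrFun (congrArg Multiplicative.toAdd hg) p
      change Real.log ‖g.1.1.val p p‖ = 0 at h1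
      rw [(hc p).2, norm_algebraMap', Real.norm_of_nonneg (hc p).1.le] at h1
      have h2 : c p = 1 := by
        have h3 := Real.exp_log (hc p).1
        rw [h1, Real.exp_zero] at h3
        exact h3.symm
      rw [(hc p).2, h2, map_one]
    · refine htri p q ?_
      have : (p : ℕ) ≠ q := fun h => hne (Fin.ext h)
      change (q : ℕ) < p
      change (q : ℕ) < p + (0 + 1) at hlt
      omega⟩
  map_one' := rfl
  map_mul' _ _ := rfl

theorem am_ANSL (n : ℕ) (D : Type) [NormedDivisionRing D] [NormedAlgebra ℝ D] :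
    Am (ANSL n D) := by
  refine Am.ext_comm (chiA n D) (Am.of_injective kerToA ?_ am_KK_zero)
  intro a b h
  have h1 : (kerToA a).1 = (kerToA b).1 := by rw [h]
  exact Subtype.ext h1

end Pool.Agent.ANM65
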