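import Pool.Agent.ANM51.Vec
import Pool.Agent.ANM51.Mult

/-!
# The isometry group of the form, its diagonal subgroup, bounded elements
-/

namespace Pool.Agent.ANM65

open Matrix Pool.Agent.ANM51

set_option linter.unusedSectionVars false

section bd

variable {I D : Type} [Fintype I] [DecidableEq I] [NormedDivisionRing D]

/-- All entries of `g` and of `g⁻¹` have norm at most `R`. -/
def Bd (R : ℝ) (g : (Matrix I I D)ˣ) : Prop :=
  ∀ p q, ‖g.val p q‖ ≤ R ∧ ‖(g⁻¹).val p q‖ ≤ R

theorem Bd.inv {R : ℝ} {g : (Matrix I I D)ˣ} (h : Bd R g) : Bd R g⁻¹ :=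
  fun p q => ⟨(h p q).2, by rw [inv_inv]; exact (h p q).1⟩

theorem Bd.mono {R S : ℝ} {g : (Matrix I I D)ˣ} (h : Bd R g) (hRS : R ≤ S) : Bd S g :=
  fun p q => ⟨(h p q).1.trans hRS, (h p q).2.trans hRS⟩

theorem norm_mul_entry_le {R S : ℝ} {g h : Matrix I I D} (hg : ∀ p q, ‖g p q‖ ≤ R)
    (hh : ∀ p q, ‖h p q‖ ≤ S) (p q : I) : ‖(g * h) p q‖ ≤ Fintype.card I * (R * S) := by
  rw [Matrix.mul_apply]
  refine (norm_sum_le _ _).trans ?_
  rw [← nsmul_eq_mul, ← Finset.card_univ, ← Finset.sum_const]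
  refine Finset.sum_le_sum fun r _ => ?_
  rw [norm_mul]
  exact mul_le_mul (hg p r) (hh r q) (norm_nonneg _) ((norm_nonneg _).trans (hg p r))

theorem Bd.mul {R S : ℝ} {g h : (Matrix I I D)ˣ} (hg : Bd R g) (hh : Bd S h) :
    Bd (Fintype.card I * (R * S)) (g * h) := by
  intro p q
  refine ⟨?_, ?_⟩
  · rw [Units.val_mul]
    exact norm_mul_entry_le (fun p q => (hg p q).1) (fun p q => (hh p q).1) p q
  · rw [_root_.mul_inv_rev, Units.val_mul, mul_comm R S]
    exact norm_mul_entry_le (fun p q => (hh p q).2) (fun p q => (hg p q).2) p q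

end bd

section form

variable {n : ℕ} {D : Type} [NormedDivisionRing D] [NormedAlgebra ℝ D]

/-- The isometry group of the form. -/
noncomputable def FormGrp (n : ℕ) {D : Type} [NormedDivisionRing D] [NormedAlgebra ℝ D]
    (F : FormData D) : Subgroup (Matrix (Fin n ⊕ Fin n) (Fin n ⊕ Fin n) D)ˣ where
  carrier := {g | ctr F (g : Matrix (Fin n ⊕ Fin n) (Fin n ⊕ Fin n) D) * Jmat F n * g = Jmat F n}
  mul_mem' := by
    intro a b ha' hb'
    change ctr F (a * b).val * Jmat F n * (a * b).val = Jmat F n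
    rw [Units.val_mul, ctr_mul]
    calc ctr F (b : Matrix _ _ D) * ctr F (a : Matrix _ _ D) * Jmat F n * (a.val * b.val)
        = ctr F (b : Matrix _ _ D) * (ctr F (a : Matrix _ _ D) * Jmat F n * a.val) * b.val := by
          simp only [mul_assoc]
      _ = Jmat F n := by rw [ha', hb']
  one_mem' := by
    change ctr F (1 : (Matrix _ _ D)ˣ).val * Jmat F n * (1 : (Matrix _ _ D)ˣ).val = Jmat F n
    rw [Units.val_one, ctr_one, one_mul, mul_one]
  inv_mem' := by
    intro a ha'
    change ctr F (a⁻¹).val * Jmat F n * (a⁻¹).val = Jmat F n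
    have h1 : a.val * (a⁻¹).val = 1 := Units.mul_inv a
    have h2 : ctr F (a⁻¹).val * ctr F a.val = 1 := by
      rw [← ctr_mul, h1, ctr_one]
    calc ctr F (a⁻¹).val * Jmat F n * (a⁻¹).val
        = ctr F (a⁻¹).val * (ctr F a.val * Jmat F n * a.val) * (a⁻¹).val := by rw [ha']
      _ = (ctr F (a⁻¹).val * ctr F a.val) * Jmat F n * (a.val * (a⁻¹).val) := by
          simp only [mul_assoc]
      _ = Jmat F n := by rw [h1, h2, one_mul, mul_one]

theorem mem_FormGrp {F : FormData D} {g : (Matrix (Fin n ⊕ Fin n) (Fin n ⊕ Fin n) D)ˣ} :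
    g ∈ FormGrp n F ↔ ctr F g.val * Jmat F n * g.val = Jmat F n := Iff.rfl

theorem ParC_le_FormGrp (F : FormData D) : ParC n F ≤ FormGrp n F := fun _ h => h.2

/-- the weight functionals: `v k` for `k` and `- v k` for `k'` -/
noncomputable def wl : Fin n ⊕ Fin n → (Fin n → ℝ) →ₗ[ℝ] ℝ
  | .inl k => LinearMap.proj k
  | .inr k => -LinearMap.proj k

theorem wl_swap (p : Fin n ⊕ Fin n) (v : Fin n → ℝ) : wl p.swap v = - wl p v := by
  rcases p with i | i
  · rfl
  · simp [wl]

theorem wl_eq (p : Fin n ⊕ Fin n) (v : Fin n → ℝ) : wl p v = ∑ k, (wt p k : ℝ) * v k := by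
  rw [Finset.sum_eq_single (ix p)]
  · rcases p with i | i
    · rw [wt, ix, Pi.single_eq_same]; simp [wl]
    · rw [wt, ix, Pi.neg_apply, Pi.single_eq_same]; simp [wl]
  · intro k _ hk
    rw [wt_apply_of_ne hk, Int.cast_zero, zero_mul]
  · intro h; exact absurd (Finset.mem_univ _) h

variable (D) in
/-- the diagonal matrix with entries `exp (v k)`, `exp (- v k)` -/
noncomputable def borM (v : Fin n → ℝ) : Matrix (Fin n ⊕ Fin n) (Fin n ⊕ Fin n) D :=
  Matrix.diagonal fun p => algebraMap ℝ D (Real.exp (wl p v))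

theorem borM_add (v w : Fin n → ℝ) : borM D (v + w) = borM D v * borM D w := by
  rw [borM, borM, borM, Matrix.diagonal_mul_diagonal]
  congr 1
  funext p
  rw [map_add, Real.exp_add, map_mul]

theorem borM_zero : borM D (0 : Fin n → ℝ) = 1 := by
  rw [borM, ← Matrix.diagonal_one]
  congr 1
  funext p
  rw [map_zero, Real.exp_zero, map_one]

variable (D) in
/-- elements of `A₂` -/
noncomputable def bor (v : Fin n → ℝ) : (Matrix (Fin n ⊕ Fin n) (Fin n ⊕ Fin n) D)ˣ where
  val := borM D v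
  inv := borM D (-v)
  val_inv := by rw [← borM_add, add_neg_cancel, borM_zero]
  inv_val := by rw [← borM_add, neg_add_cancel, borM_zero]

theorem bor_add (v w : Fin n → ℝ) : bor D (v + w) = bor D v * bor D w := Units.ext (borM_add v w)

theorem bor_zero : bor D (0 : Fin n → ℝ) = 1 := Units.ext borM_zero

theorem bor_neg (v : Fin n → ℝ) : bor D (-v) = (bor D v)⁻¹ := by
  rw [eq_inv_iff_mul_eq_one, ← bor_add, neg_add_cancel, bor_zero]

theorem bor_mem (F : FormData D) (v : Fin n → ℝ) : bor D v ∈ FormGrp n F := by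
  change ctr F (borM D v) * Jmat F n * borM D v = Jmat F n
  ext p q
  rw [form_entry F, Jmat_apply, Finset.sum_eq_single p]
  · rw [borM, Matrix.diagonal_apply_eq, F.σ_real]
    by_cases h : q = p.swap
    · rw [if_pos h, h, Matrix.diagonal_apply_eq, ← map_mul, ← Real.exp_add, wl_swap,
        add_neg_cancel, Real.exp_zero, map_one, Algebra.algebraMap_eq_smul_one]
    · rw [if_neg h, Matrix.diagonal_apply_ne _ (Ne.symm h), mul_zero, smul_zero]
  · intro a _ ha
    rw [borM, Matrix.diagonal_apply_ne _ ha, map_zero, zero_mul, smul_zero]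
  · intro h; exact absurd (Finset.mem_univ _) h

theorem conj_bor_entry (v : Fin n → ℝ) (g : (Matrix (Fin n ⊕ Fin n) (Fin n ⊕ Fin n) D)ˣ)
    (p q : Fin n ⊕ Fin n) :
    ((bor D v)⁻¹ * g * bor D v).val p q = Real.exp (-(wl p v - wl q v)) • g.val p q := by
  rw [← bor_neg, Units.val_mul, Units.val_mul]
  change (borM D (-v) * g.val * borM D v) p q = _
  rw [borM, borM, Matrix.mul_diagonal, Matrix.diagonal_mul, map_neg,
    Algebra.algebraMap_eq_smul_one, Algebra.algebraMap_eq_smul_one, smul_mul_assoc, one_mul,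
    smul_mul_assoc, mul_smul_comm, mul_one, smul_smul, ← Real.exp_add]
  congr 2
  ring

/-- entries of the inverse of an element of the isometry group -/
theorem inv_entry_norm {F : FormData D} {g : (Matrix (Fin n ⊕ Fin n) (Fin n ⊕ Fin n) D)ˣ}
    (hg : g ∈ FormGrp n F) (p q : Fin n ⊕ Fin n) :
    ‖(g⁻¹).val p q‖ = ‖g.val q.swap p.swap‖ := by
  have h1 : ctr F g.val * Jmat F n = Jmat F n * (g⁻¹).val := by
    have h2 : ctr F g.val * Jmat F n * g.val = Jmat F n := hg
    calc ctr F g.val * Jmat F n = ctr F g.val * Jmat F n * (g.val * (g⁻¹).val) := by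
          rw [Units.mul_inv, mul_one]
      _ = Jmat F n * (g⁻¹).val := by rw [← mul_assoc, h2]
  have h2 := congrFun (congrFun h1 p.swap) q
  rw [Matrix.mul_apply, Matrix.mul_apply, Finset.sum_eq_single q.swap, Finset.sum_eq_single p,
    Jmat_apply, Jmat_apply, if_pos (Sum.swap_swap q).symm, if_pos (Sum.swap_swap p).symm] at h2
  · have h3 := congrArg norm h2
    rw [norm_mul, norm_mul, norm_algebraMap', norm_algebraMap', ctr, F.norm_σ] at h3
    have h4 : ∀ a : Fin n ⊕ Fin n, ‖jc F n a‖ = 1 := by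
      intro a
      rcases a with i | i
      · rw [jc, norm_one]
      · rw [jc, norm_neg]
        rcases F.hε with h | h <;> rw [h] <;> norm_num
    rw [h4, h4, mul_one, one_mul] at h3
    exact h3.symm
  · intro b _ hb
    rw [Jmat_apply, if_neg, zero_mul]
    intro h
    rw [Sum.swap_swap] at h
    exact hb h
  · intro h; exact absurd (Finset.mem_univ _) h
  · intro b _ hb
    rw [Jmat_apply, if_neg, mul_zero]
    intro h
    apply hb
    rw [h, Sum.swap_swap]
  · intro h; exact absurd (Finset.mem_univ _) h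

theorem bd_of_entries {F : FormData D} {g : (Matrix (Fin n ⊕ Fin n) (Fin n ⊕ Fin n) D)ˣ}
    (hg : g ∈ FormGrp n F) {R : ℝ} (h : ∀ p q, ‖g.val p q‖ ≤ R) : Bd R g :=
  fun p q => ⟨h p q, by rw [inv_entry_norm hg]; exact h _ _⟩

end form

end Pool.Agent.ANM65
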