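import Pool.Agent.ANM65.Base

/-!
# Coarse `AN`-maps: the basic estimates
-/

namespace Pool.Agent.ANM65

open Matrix Pool.Agent.ANM51

set_option linter.unusedSectionVars false

variable {n : ℕ} {D₁ D₂ : Type} [NormedDivisionRing D₁] [NormedAlgebra ℝ D₁]
  [NormedDivisionRing D₂] [NormedAlgebra ℝ D₂]

/-- Coarse embeddings `f : A₁N₁ → G₂` which coarsely intertwine the right actions of the groups
`A₁` and `A₂` by means of a linear map `T`. -/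
structure CAN (F : FormData D₂) (f : ANSL n D₁ → (Matrix (Fin n ⊕ Fin n) (Fin n ⊕ Fin n) D₂)ˣ)
    (T : (Fin (n + 1) → ℝ) →ₗ[ℝ] (Fin n → ℝ)) : Prop where
  mem : ∀ x, f x ∈ FormGrp n F
  up : ∀ R : ℝ, ∃ S : ℝ, ∀ x y : ANSL n D₁, Bd R (x⁻¹ * y).1 → Bd S ((f x)⁻¹ * f y)
  lo : ∀ S : ℝ, ∃ R : ℝ, ∀ x y : ANSL n D₁, Bd S ((f x)⁻¹ * f y) → Bd R (x⁻¹ * y).1
  eqv : ∃ C : ℝ, ∀ (x : ANSL n D₁) (t : Fin (n + 1) → ℝ),
    Bd C ((f x * bor D₂ (T t))⁻¹ * f (x * tor D₁ t))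

/-- the difference element `f(x)⁻¹ f(x u)` for a root element `u` -/
noncomputable def G (f : ANSL n D₁ → (Matrix (Fin n ⊕ Fin n) (Fin n ⊕ Fin n) D₂)ˣ)
    {i j : Fin (n + 1)} (hij : i < j) (x : ANSL n D₁) (z : D₁) :
    (Matrix (Fin n ⊕ Fin n) (Fin n ⊕ Fin n) D₂)ˣ :=
  (f x)⁻¹ * f (x * rt hij z)

theorem G_chain (f : ANSL n D₁ → (Matrix (Fin n ⊕ Fin n) (Fin n ⊕ Fin n) D₂)ˣ)
    {i j : Fin (n + 1)} (hij : i < j) (x : ANSL n D₁) (z z' : D₁) :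
    G f hij x z' = G f hij x z * G f hij (x * rt hij z) (z' - z) := by
  have h : x * rt hij z * rt hij (z' - z) = x * rt hij z' := by
    rw [mul_assoc, ← rt_add hij, add_sub_cancel]
  rw [G, G, G, h]
  group

theorem G_zero (f : ANSL n D₁ → (Matrix (Fin n ⊕ Fin n) (Fin n ⊕ Fin n) D₂)ˣ)
    {i j : Fin (n + 1)} (hij : i < j) (x : ANSL n D₁) : G f hij x 0 = 1 := by
  rw [G, rt_zero, mul_one, inv_mul_cancel]

theorem bd_rt {i j : Fin (n + 1)} (hij : i < j) {w : D₁} (hw : ‖w‖ ≤ 1) :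
    Bd 1 (rt hij w : ANSL n D₁).1 := by
  have key : ∀ v : D₁, ‖v‖ ≤ 1 → ∀ p q, ‖rtM i j v p q‖ ≤ 1 := by
    intro v hv p q
    by_cases h : p = q
    · subst h
      rw [rtM_diag hij, norm_one]
    · rw [rtM, Matrix.add_apply, Matrix.one_apply_ne h, zero_add]
      by_cases h2 : i = p ∧ j = q
      · obtain ⟨rfl, rfl⟩ := h2
        rw [Matrix.single_apply_same]; exact hv
      · rw [Matrix.single_apply_of_ne _ _ _ _ _ h2, norm_zero]; exact zero_le_one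
  intro p q
  exact ⟨key w hw p q, key (-w) (by rwa [norm_neg]) p q⟩

theorem norm_le_of_bd_rt {i j : Fin (n + 1)} (hij : i < j) {w : D₁} {R : ℝ}
    (h : Bd R (rt hij w : ANSL n D₁).1) : ‖w‖ ≤ R := by
  have h1 := (h i j).1
  change ‖rtM i j w i j‖ ≤ R at h1
  rwa [rtM_entry hij] at h1

theorem rt_tor {i j : Fin (n + 1)} (hij : i < j) (s : Fin (n + 1) → ℝ) (z : D₁) :
    rt hij z * tor D₁ s = tor D₁ s * rt hij (Real.exp (-(s i - s j)) • z) := by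
  rw [tor_rt hij, smul_smul, ← Real.exp_add, add_neg_cancel, Real.exp_zero, one_smul]

namespace CAN

variable {F : FormData D₂} {f : ANSL n D₁ → (Matrix (Fin n ⊕ Fin n) (Fin n ⊕ Fin n) D₂)ˣ}
  {T : (Fin (n + 1) → ℝ) →ₗ[ℝ] (Fin n → ℝ)} (hf : CAN F f T)

include hf

theorem G_mem {i j : Fin (n + 1)} (hij : i < j) (x : ANSL n D₁) (z : D₁) :
    G f hij x z ∈ FormGrp n F :=
  mul_mem (inv_mem (hf.mem _)) (hf.mem _)

/-- Upper bound for the conjugates of the difference elements. -/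
theorem conj_bd : ∃ S : ℝ, 1 ≤ S ∧ ∀ (i j : Fin (n + 1)) (hij : i < j) (x : ANSL n D₁) (z : D₁)
    (s : Fin (n + 1) → ℝ), ‖Real.exp (-(s i - s j)) • z‖ ≤ 1 →
    Bd S ((bor D₂ (T s))⁻¹ * G f hij x z * bor D₂ (T s)) := by
  obtain ⟨S₁, h1⟩ := hf.up 1
  obtain ⟨C, hC⟩ := hf.eqv
  set N : ℝ := ((Fintype.card (Fin n ⊕ Fin n) : ℕ) : ℝ) with hN
  refine ⟨max 1 (N * ((N * (C * S₁)) * C)), le_max_left _ _, fun i j hij x z s hz => ?_⟩
  have h2 : (x * tor D₁ s)⁻¹ * (x * rt hij z * tor D₁ s) =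
      rt hij (Real.exp (-(s i - s j)) • z) := by
    rw [mul_assoc x, rt_tor hij]; group
  have h3 := h1 (x * tor D₁ s) (x * rt hij z * tor D₁ s) (by rw [h2]; exact bd_rt hij hz)
  have h4 : (bor D₂ (T s))⁻¹ * G f hij x z * bor D₂ (T s) =
      ((f x * bor D₂ (T s))⁻¹ * f (x * tor D₁ s)) *
      ((f (x * tor D₁ s))⁻¹ * f (x * rt hij z * tor D₁ s)) *
      ((f (x * rt hij z) * bor D₂ (T s))⁻¹ * f (x * rt hij z * tor D₁ s))⁻¹ := by
    rw [G]; group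
  rw [h4]
  exact (((hC x s).mul h3).mul (hC (x * rt hij z) s).inv).mono (le_max_right _ _)

/-- Lower bound for the conjugates of the difference elements. -/
theorem conj_lo (S : ℝ) : ∃ R : ℝ, ∀ (i j : Fin (n + 1)) (hij : i < j) (x : ANSL n D₁) (z : D₁)
    (s : Fin (n + 1) → ℝ), Bd S ((bor D₂ (T s))⁻¹ * G f hij x z * bor D₂ (T s)) →
    ‖Real.exp (-(s i - s j)) • z‖ ≤ R := by
  obtain ⟨C, hC⟩ := hf.eqv
  set N : ℝ := ((Fintype.card (Fin n ⊕ Fin n) : ℕ) : ℝ) with hN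
  obtain ⟨R, hR⟩ := hf.lo (N * ((N * (C * S)) * C))
  refine ⟨R, fun i j hij x z s h => ?_⟩
  have h2 : (x * tor D₁ s)⁻¹ * (x * rt hij z * tor D₁ s) =
      rt hij (Real.exp (-(s i - s j)) • z) := by
    rw [mul_assoc x, rt_tor hij]; group
  have h4 : (f (x * tor D₁ s))⁻¹ * f (x * rt hij z * tor D₁ s) =
      ((f x * bor D₂ (T s))⁻¹ * f (x * tor D₁ s))⁻¹ *
      ((bor D₂ (T s))⁻¹ * G f hij x z * bor D₂ (T s)) *
      ((f (x * rt hij z) * bor D₂ (T s))⁻¹ * f (x * rt hij z * tor D₁ s)) := by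
    rw [G]; group
  have h5 := hR (x * tor D₁ s) (x * rt hij z * tor D₁ s) (by
    rw [h4]
    exact ((hC x s).inv.mul h).mul (hC (x * rt hij z) s))
  rw [h2] at h5
  exact norm_le_of_bd_rt hij h5

end CAN

end Pool.Agent.ANM65
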