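import Pool.Agent.ANM65.Core
import Pool.Agent.ANM65.AmAN
import Pool.Agent.ANM51.FlatRed

/-!
# From flats off a set of density zero to all flats: ultralimits of translates
-/

namespace Pool.Agent.ANM65

open Matrix Filter Topology Pool.Agent.ANM51

set_option linter.unusedSectionVars false

section ulim

variable {J D : Type} [Fintype J] [DecidableEq J] [NormedDivisionRing D] [NormedAlgebra ℝ D]
  [FiniteDimensional ℝ D]

theorem fun_ulim {I : Type} (U : Ultrafilter I) (g : I → J → J → D) (S : ℝ)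
    (h : ∀ᶠ i in (U : Filter I), ∀ p q, ‖g i p q‖ ≤ S) :
    ∃ A : J → J → D, Tendsto g U (𝓝 A) := by
  have hp : ProperSpace D := FiniteDimensional.proper ℝ D
  have hK : IsCompact (Set.pi Set.univ fun _ : J => Set.pi Set.univ fun _ : J =>
      Metric.closedBall (0 : D) S) :=
    isCompact_univ_pi fun _ => isCompact_univ_pi fun _ => isCompact_closedBall _ _
  have hmem : (Set.pi Set.univ fun _ : J => Set.pi Set.univ fun _ : J =>
      Metric.closedBall (0 : D) S) ∈ (U.map g : Filter (J → J → D)) := by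
    rw [Ultrafilter.coe_map, Filter.mem_map]
    filter_upwards [h] with i hi
    intro p _ q _
    rw [mem_closedBall_zero_iff]
    exact hi p q
  obtain ⟨A, -, hA⟩ := hK.ultrafilter_le_nhds (U.map g) (le_principal_iff.2 hmem)
  exact ⟨A, hA⟩

theorem mat_ulim {I : Type} (U : Ultrafilter I) (g : I → Matrix J J D) (S : ℝ)
    (h : ∀ᶠ i in (U : Filter I), ∀ p q, ‖g i p q‖ ≤ S) :
    ∃ A : Matrix J J D, Tendsto g U (𝓝 A) := fun_ulim U g S h

theorem unit_ulim {I : Type} (U : Ultrafilter I) (g : I → (Matrix J J D)ˣ) (S : ℝ)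
    (h : ∀ᶠ i in (U : Filter I), Bd S (g i)) :
    ∃ A : (Matrix J J D)ˣ, Tendsto (fun i => (g i).val) U (𝓝 A.val) ∧
      Tendsto (fun i => ((g i)⁻¹).val) U (𝓝 (A⁻¹).val) := by
  obtain ⟨A, hA⟩ := mat_ulim U (fun i => (g i).val) S (by
    filter_upwards [h] with i hi p q using (hi p q).1)
  obtain ⟨B, hB⟩ := mat_ulim U (fun i => ((g i)⁻¹).val) S (by
    filter_upwards [h] with i hi p q using (hi p q).2)
  have h1 : A * B = 1 := by
    have h2 := hA.mul hB
    refine tendsto_nhds_unique h2 ?_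
    simp only [Units.mul_inv]
    exact tendsto_const_nhds
  have h1' : B * A = 1 := by
    have h2 := hB.mul hA
    refine tendsto_nhds_unique h2 ?_
    simp only [Units.inv_mul]
    exact tendsto_const_nhds
  exact ⟨⟨A, B, h1, h1'⟩, hA, hB⟩

/-- convergence of units together with their inverses -/
def UT {I : Type} (U : Ultrafilter I) (g : I → (Matrix J J D)ˣ) (A : (Matrix J J D)ˣ) : Prop :=
  Tendsto (fun i => (g i).val) U (𝓝 A.val) ∧ Tendsto (fun i => ((g i)⁻¹).val) U (𝓝 (A⁻¹).val)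

theorem UT.mul {I : Type} {U : Ultrafilter I} {g h : I → (Matrix J J D)ˣ}
    {A B : (Matrix J J D)ˣ} (hg : UT U g A) (hh : UT U h B) :
    UT U (fun i => g i * h i) (A * B) := by
  refine ⟨hg.1.mul hh.1, ?_⟩
  simp only [_root_.mul_inv_rev, Units.val_mul]
  exact hh.2.mul hg.2

theorem UT.inv {I : Type} {U : Ultrafilter I} {g : I → (Matrix J J D)ˣ}
    {A : (Matrix J J D)ˣ} (hg : UT U g A) : UT U (fun i => (g i)⁻¹) A⁻¹ := by
  refine ⟨hg.2, ?_⟩
  simp only [inv_inv]
  exact hg.1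

theorem UT.bd {I : Type} {U : Ultrafilter I} {g : I → (Matrix J J D)ˣ}
    {A : (Matrix J J D)ˣ} (hg : UT U g A) {S : ℝ} (h : ∀ᶠ i in (U : Filter I), Bd S (g i)) :
    Bd S A := by
  intro p q
  have e1 : Tendsto (fun i => (g i).val p q) U (𝓝 (A.val p q)) :=
    ((continuous_apply_apply p q).tendsto _).comp hg.1
  have e2 : Tendsto (fun i => ((g i)⁻¹).val p q) U (𝓝 ((A⁻¹).val p q)) :=
    ((continuous_apply_apply p q).tendsto _).comp hg.2
  refine ⟨le_of_tendsto e1.norm ?_, le_of_tendsto e2.norm ?_⟩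
  · filter_upwards [h] with i hi using (hi p q).1
  · filter_upwards [h] with i hi using (hi p q).2

theorem UT.bd' {I : Type} {U : Ultrafilter I} {g : I → (Matrix J J D)ˣ}
    {A : (Matrix J J D)ˣ} (hg : UT U g A) {S : ℝ} (h : Bd S A) :
    ∀ᶠ i in (U : Filter I), Bd (S + 1) (g i) := by
  have e1 : ∀ p q, ∀ᶠ i in (U : Filter I), ‖(g i).val p q‖ ≤ S + 1 ∧
      ‖((g i)⁻¹).val p q‖ ≤ S + 1 := by
    intro p q
    have e1 : Tendsto (fun i => (g i).val p q) U (𝓝 (A.val p q)) :=
      ((continuous_apply_apply p q).tendsto _).comp hg.1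
    have e2 : Tendsto (fun i => ((g i)⁻¹).val p q) U (𝓝 ((A⁻¹).val p q)) :=
      ((continuous_apply_apply p q).tendsto _).comp hg.2
    have f1 := e1.norm.eventually_lt_const (lt_of_le_of_lt (h p q).1 (lt_add_one S))
    have f2 := e2.norm.eventually_lt_const (lt_of_le_of_lt (h p q).2 (lt_add_one S))
    filter_upwards [f1, f2] with i h1 h2 using ⟨h1.le, h2.le⟩
  exact eventually_all.2 fun p => eventually_all.2 fun q => e1 p q

end ulim

variable {n : ℕ} {D₁ D₂ : Type} [NormedDivisionRing D₁] [NormedAlgebra ℝ D₁]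
  [NormedDivisionRing D₂] [NormedAlgebra ℝ D₂] [FiniteDimensional ℝ D₂]

/-- On the ball of radius `R` of the flat `y A₁`, the map `f` is `D`-close to an affine map to a
flat of `G₂/K₂`. -/
def Good (F : FormData D₂) (f : ANSL n D₁ → (Matrix (Fin n ⊕ Fin n) (Fin n ⊕ Fin n) D₂)ˣ)
    (C R : ℝ) (y : ANSL n D₁) : Prop :=
  ∃ h ∈ FormGrp n F, ∃ T : (Fin (n + 1) → ℝ) →ₗ[ℝ] (Fin n → ℝ),
    ∀ t : Fin (n + 1) → ℝ, (∀ i, |t i| ≤ R) → Bd C ((h * bor D₂ (T t))⁻¹ * f (y * tor D₁ t))

open scoped Classical in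
/-- In each flat `x A₁`, the map `f` is `C`-close to affine maps to flats, locally, off a set of
density zero, uniformly in `x`. -/
def DensHyp (F : FormData D₂) (f : ANSL n D₁ → (Matrix (Fin n ⊕ Fin n) (Fin n ⊕ Fin n) D₂)ˣ)
    (C : ℝ) : Prop :=
  ∀ R ε : ℝ, 0 < ε → ∃ (q : ℕ) (t : Fin (q + 1) → Fin (n + 1) → ℝ), ∀ x : ANSL n D₁,
    ((Finset.univ.filter fun j => ¬ Good F f C R (x * tor D₁ (t j))).card : ℝ) ≤ ε * (q + 1)

theorem exists_bd {J D : Type} [Fintype J] [DecidableEq J] [NormedDivisionRing D]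
    (g : (Matrix J J D)ˣ) : ∃ R, Bd R g := by
  refine ⟨(∑ a, ∑ b, ‖g.val a b‖) + ∑ a, ∑ b, ‖(g⁻¹).val a b‖, fun a b => ?_⟩
  have key : ∀ M : Matrix J J D, ∀ a b, ‖M a b‖ ≤ ∑ a, ∑ b, ‖M a b‖ := by
    intro M a b
    refine le_trans ?_ (Finset.single_le_sum (f := fun a => ∑ b, ‖M a b‖)
      (fun a _ => Finset.sum_nonneg fun b _ => norm_nonneg _) (Finset.mem_univ a))
    exact Finset.single_le_sum (f := fun b => ‖M a b‖) (fun b _ => norm_nonneg _)
      (Finset.mem_univ b)
  have h0 : ∀ M : Matrix J J D, 0 ≤ ∑ a, ∑ b, ‖M a b‖ := fun M =>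
    Finset.sum_nonneg fun a _ => Finset.sum_nonneg fun b _ => norm_nonneg _
  have h1 := key g.val a b
  have h2 := key (g⁻¹).val a b
  have h3 := h0 g.val
  have h4 := h0 (g⁻¹).val
  constructor <;> linarith

theorem ut_bor {I : Type} {U : Ultrafilter I} {v : I → Fin n → ℝ} {w : Fin n → ℝ}
    (h : Tendsto v U (𝓝 w)) : UT U (fun i => bor D₂ (v i)) (bor D₂ w) := by
  have hc : Continuous (borM D₂ : (Fin n → ℝ) → _) := by
    unfold borM
    refine Continuous.matrix_diagonal (continuous_pi fun p => ?_)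
    refine (continuous_algebraMap ℝ D₂).comp (Real.continuous_exp.comp ?_)
    exact LinearMap.continuous_of_finiteDimensional (wl p)
  refine ⟨(hc.tendsto w).comp h, ?_⟩
  simp only [← bor_neg]
  exact (hc.tendsto (-w)).comp h.neg

theorem exists_translates {F : FormData D₂}
    {f : ANSL n D₁ → (Matrix (Fin n ⊕ Fin n) (Fin n ⊕ Fin n) D₂)ˣ} {C : ℝ}
    (hd : DensHyp F f C) (U : Finset (ANSL n D₁)) (R : ℝ) :
    ∃ x : ANSL n D₁, ∀ u ∈ U, Good F f C R (x * u) := by
  classical
  obtain ⟨x, hx⟩ := (am_ANSL n D₁).exists_avoid {y | ¬ Good F f C R y} (fun ε hε => by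
    obtain ⟨q, t, ht⟩ := hd R ε hε
    refine ⟨q, fun j => tor D₁ (t j), fun x => ?_⟩
    refine le_trans (le_of_eq ?_) (ht x)
    congr 2
    ext j
    simp only [Set.mem_ofPred_eq, Finset.mem_filter]) U
  refine ⟨x, fun u hu => ?_⟩
  have := hx u hu
  simpa using this

theorem dens_to_flat {F : FormData D₂}
    {f : ANSL n D₁ → (Matrix (Fin n ⊕ Fin n) (Fin n ⊕ Fin n) D₂)ˣ}
    (hmem : ∀ x, f x ∈ FormGrp n F) (hf : CoarseEmb f) {C : ℝ} (hd : DensHyp F f C) :
    ∃ f' : ANSL n D₁ → (Matrix (Fin n ⊕ Fin n) (Fin n ⊕ Fin n) D₂)ˣ,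
      CoarseEmb f' ∧ FlatHyp F f' C := by
  classical
  -- translates
  choose x hx using fun i : Finset (ANSL n D₁) × ℕ => exists_translates hd i.1 (i.2 : ℝ)
  set U : Ultrafilter (Finset (ANSL n D₁) × ℕ) := Ultrafilter.of atTop with hU
  have hUle : (U : Filter (Finset (ANSL n D₁) × ℕ)) ≤ atTop := Ultrafilter.of_le atTop
  have hev : ∀ (y : ANSL n D₁) (R : ℝ), ∀ᶠ i in (U : Filter (Finset (ANSL n D₁) × ℕ)),
      y ∈ i.1 ∧ R ≤ (i.2 : ℝ) := by
    intro y R
    apply hUle
    obtain ⟨k, hk⟩ := exists_nat_ge R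
    filter_upwards [eventually_ge_atTop (({y} : Finset (ANSL n D₁)), k)] with i hi
    obtain ⟨h1, h2⟩ := hi
    refine ⟨h1 (Finset.mem_singleton_self y), hk.trans ?_⟩
    exact_mod_cast h2
  set g : Finset (ANSL n D₁) × ℕ → ANSL n D₁ →
      (Matrix (Fin n ⊕ Fin n) (Fin n ⊕ Fin n) D₂)ˣ := fun i y => (f (x i))⁻¹ * f (x i * y) with hg
  -- boundedness
  have hgb : ∀ y, ∃ S, ∀ i, Bd S (g i y) := by
    intro y
    obtain ⟨R, hR⟩ := exists_bd y.1
    obtain ⟨S, hS⟩ := hf.up R
    refine ⟨S, fun i => hS (x i) (x i * y) ?_⟩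
    rw [inv_mul_cancel_left]; exact hR
  have hlim : ∀ y, ∃ A, UT U (fun i => g i y) A := by
    intro y
    obtain ⟨S, hS⟩ := hgb y
    exact unit_ulim U (fun i => g i y) S (Eventually.of_forall hS)
  choose f' hf' using hlim
  have hdiff : ∀ a b, UT U (fun i => (f (x i * a))⁻¹ * f (x i * b)) ((f' a)⁻¹ * f' b) := by
    intro a b
    have h1 := (hf' a).inv.mul (hf' b)
    have h2 : (fun i => (g i a)⁻¹ * g i b) = fun i => (f (x i * a))⁻¹ * f (x i * b) := by
      funext i
      simp only [hg]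
      group
    rw [h2] at h1
    exact h1
  have hshift : ∀ i a b, (x i * a)⁻¹ * (x i * b) = a⁻¹ * b := by
    intro i a b; group
  refine ⟨f', ⟨fun R => ?_, fun R => ?_⟩, fun y => ?_⟩
  · obtain ⟨S, hS⟩ := hf.up R
    refine ⟨S, fun a b hab => (hdiff a b).bd (Eventually.of_forall fun i => hS _ _ ?_)⟩
    rw [hshift]; exact hab
  · obtain ⟨S, hS⟩ := hf.lo (R + 1)
    refine ⟨S, fun a b hab => ?_⟩
    obtain ⟨i, hi⟩ := ((hdiff a b).bd' hab).exists
    have := hS _ _ hi
    rwa [hshift] at this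
  · -- the flat through `y`
    have hex : ∀ i : Finset (ANSL n D₁) × ℕ, ∃ k ∈ FormGrp n F,
        ∃ T : (Fin (n + 1) → ℝ) →ₗ[ℝ] (Fin n → ℝ), y ∈ i.1 → ∀ t : Fin (n + 1) → ℝ,
          (∀ l, |t l| ≤ (i.2 : ℝ)) → Bd C ((k * bor D₂ (T t))⁻¹ * g i (y * tor D₁ t)) := by
      intro i
      by_cases hy : y ∈ i.1
      · obtain ⟨h, hh, T, hT⟩ := hx i y hy
        refine ⟨(f (x i))⁻¹ * h, mul_mem (inv_mem (hmem _)) hh, T, fun _ t ht => ?_⟩
        have h1 := hT t ht
        have h2 : ((f (x i))⁻¹ * h * bor D₂ (T t))⁻¹ * g i (y * tor D₁ t) =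
            (h * bor D₂ (T t))⁻¹ * f (x i * y * tor D₁ t) := by
          simp only [hg]
          rw [← mul_assoc (x i)]
          group
        rw [h2]; exact h1
      · exact ⟨1, one_mem _, 0, fun h => absurd h hy⟩
    choose k hk T hT using hex
    -- boundedness of `k`
    obtain ⟨S, hS⟩ := hgb y
    have hkb : ∀ᶠ i in (U : Filter (Finset (ANSL n D₁) × ℕ)),
        Bd (Fintype.card (Fin n ⊕ Fin n) * (S * C)) (k i) := by
      filter_upwards [hev y 0] with i hi
      have h1 := hT i hi.1 0 (fun l => by simp)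
      have h0 : tor D₁ (0 : Fin (n + 1) → ℝ) = 1 := by
        apply Subtype.ext; apply Units.ext; exact torM_zero
      rw [map_zero, bor_zero, mul_one, h0, mul_one] at h1
      have h2 : k i = g i y * ((k i)⁻¹ * g i y)⁻¹ := by group
      rw [h2]
      exact (hS i).mul h1.inv
    obtain ⟨K, hK⟩ := unit_ulim U k _ hkb
    have hKT : UT U k K := hK
    -- boundedness of `T`
    have hTb : ∀ t : Fin (n + 1) → ℝ, ∃ v : Fin n → ℝ, Tendsto (fun i => T i t) U (𝓝 v) := by
      intro t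
      obtain ⟨S', hS'⟩ := hgb (y * tor D₁ t)
      set M : ℝ := Fintype.card (Fin n ⊕ Fin n) * ((Fintype.card (Fin n ⊕ Fin n) *
        ((Fintype.card (Fin n ⊕ Fin n) * (S * C)) * S')) * C) with hM
      have hb : ∀ᶠ i in (U : Filter (Finset (ANSL n D₁) × ℕ)), Bd M (bor D₂ (T i t)) := by
        filter_upwards [hev y (∑ l, |t l|), hkb] with i hi hki
        have h1 := hT i hi.1 t (fun l => le_trans (Finset.single_le_sum
          (f := fun l => |t l|) (fun l _ => abs_nonneg _) (Finset.mem_univ l)) hi.2)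
        have h2 : bor D₂ (T i t) = ((k i)⁻¹ * g i (y * tor D₁ t)) *
            ((k i * bor D₂ (T i t))⁻¹ * g i (y * tor D₁ t))⁻¹ := by group
        rw [h2]
        exact (hki.inv.mul (hS' i)).mul h1.inv
      have hcpt : IsCompact (Set.pi Set.univ fun _ : Fin n => Set.Icc (-Real.log M) (Real.log M)) :=
        isCompact_univ_pi fun _ => isCompact_Icc
      have hmem' : (Set.pi Set.univ fun _ : Fin n => Set.Icc (-Real.log M) (Real.log M)) ∈
          (U.map (fun i => T i t) : Filter (Fin n → ℝ)) := by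
        rw [Ultrafilter.coe_map, Filter.mem_map]
        filter_upwards [hb] with i hi
        intro l _
        have h1 := (hi (.inl l) (.inl l))
        have h2 : ‖borM D₂ (T i t) (.inl l) (.inl l)‖ ≤ M := h1.1
        have h3 : ‖borM D₂ (-T i t) (.inl l) (.inl l)‖ ≤ M := h1.2
        rw [borM, Matrix.diagonal_apply_eq, norm_algebraMap',
          Real.norm_of_nonneg (Real.exp_pos _).le] at h2 h3
        have h4 := Real.log_le_log (Real.exp_pos _) h2
        have h5 := Real.log_le_log (Real.exp_pos _) h3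
        rw [Real.log_exp] at h4 h5
        rw [map_neg] at h5
        have h6 : wl (Sum.inl l : Fin n ⊕ Fin n) (T i t) = T i t l := rfl
        rw [h6] at h4 h5
        constructor <;> linarith
      obtain ⟨v, -, hv⟩ := hcpt.ultrafilter_le_nhds (U.map fun i => T i t)
        (le_principal_iff.2 hmem')
      exact ⟨v, hv⟩
    choose T' hT' using hTb
    let TL : (Fin (n + 1) → ℝ) →ₗ[ℝ] (Fin n → ℝ) :=
      { toFun := T'
        map_add' := fun s t => tendsto_nhds_unique (hT' (s + t)) (by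
          simp only [map_add]
          exact (hT' s).add (hT' t))
        map_smul' := fun r t => tendsto_nhds_unique (hT' (r • t)) (by
          simp only [map_smul, RingHom.id_apply]
          exact (hT' t).const_smul r) }
    refine ⟨K, ?_, TL, fun t => ?_⟩
    · -- the form
      rw [mem_FormGrp]
      have hc : Tendsto (fun i => ctr F (k i).val * Jmat F n * (k i).val) U
          (𝓝 (ctr F K.val * Jmat F n * K.val)) := by
        have hct : Continuous (ctr F : Matrix (Fin n ⊕ Fin n) (Fin n ⊕ Fin n) D₂ → _) := by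
          refine continuous_matrix fun p q => ?_
          exact (LinearMap.continuous_of_finiteDimensional F.σ).comp
            (continuous_apply_apply q p)
        exact (((hct.tendsto _).comp hKT.1).mul_const _).mul hKT.1
      refine tendsto_nhds_unique hc ?_
      have : (fun i => ctr F (k i).val * Jmat F n * (k i).val) = fun _ => Jmat F n := by
        funext i; exact hk i
      rw [this]
      exact tendsto_const_nhds
    · have h1 : UT U (fun i => (k i * bor D₂ (T i t))⁻¹ * g i (y * tor D₁ t))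
          ((K * bor D₂ (TL t))⁻¹ * f' (y * tor D₁ t)) :=
        (hKT.mul (ut_bor (hT' t))).inv.mul (hf' _)
      refine h1.bd ?_
      filter_upwards [hev y (∑ l, |t l|)] with i hi
      exact hT i hi.1 t (fun l => le_trans (Finset.single_le_sum
        (f := fun l => |t l|) (fun l _ => abs_nonneg _) (Finset.mem_univ l)) hi.2)

/-- **Restrictions on the multiplicities for coarse embeddings which are flat off a set of density
zero.** -/
theorem dens_core (hn : 2 ≤ n) [FiniteDimensional ℝ D₁] {F : FormData D₂}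
    {f : ANSL n D₁ → (Matrix (Fin n ⊕ Fin n) (Fin n ⊕ Fin n) D₂)ˣ}
    (hmem : ∀ x, f x ∈ FormGrp n F) (hf : CoarseEmb f) {C : ℝ} (hd : DensHyp F f C) :
    Module.finrank ℝ D₁ ≤ Module.finrank ℝ F.L ∨
      (n = 3 ∧ Module.finrank ℝ D₁ ≤ Module.finrank ℝ (FM F)) := by
  obtain ⟨f₁, h1, h2⟩ := dens_to_flat hmem hf hd
  obtain ⟨f₂, T, C', h3, h4, h5⟩ := flat_reduction h1 h2
  exact CAN.core (f := f₂) (T := T) hn ⟨h3, h4.up, h4.lo, ⟨C', h5⟩⟩

end Pool.Agent.ANM65
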