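import Pool.Agent.ANM65.Riem
import Pool.Agent.ANM65.Ulim

/-!
# Quasi-isometric embeddings are coarse embeddings
-/

namespace Pool.Agent.ANM65

open Matrix Pool.Agent.ANM51

set_option linter.unusedSectionVars false

/-- A left invariant distance is comparable to the logarithm of the size of the entries. -/
structure Comp {I D : Type} [Fintype I] [DecidableEq I] [NormedDivisionRing D]
    (d : (Matrix I I D)ˣ → (Matrix I I D)ˣ → ℝ) : Prop where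
  bd : ∀ g h, Bd (Real.exp (d g h)) (g⁻¹ * h)
  le : ∀ R, ∃ S, ∀ g h, Bd R (g⁻¹ * h) → d g h ≤ S

theorem dX_comp {I D : Type} [Fintype I] [DecidableEq I] [NormedDivisionRing D]
    [InnerProductSpace ℝ D] [SMulCommClass ℝ D D] [FiniteDimensional ℝ D] :
    Comp (dX (D := D) (ι := I)) := by
  refine ⟨fun g h => bd_of_symLen (g⁻¹ * h), fun R => ?_⟩
  exact ⟨_, fun g h hb => symLen_le_of_bd (le_max_left 1 R) (hb.mono (le_max_right 1 R))⟩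

variable {n : ℕ} {D₁ D₂ : Type} [NormedDivisionRing D₁] [NormedAlgebra ℝ D₁]
  [NormedDivisionRing D₂] [NormedAlgebra ℝ D₂] {F : FormData D₂}

/-- Quasi-isometric embeddings `A₁N₁ → A₂N₂`. -/
def IsQIE
    (d₁ : (Matrix (Fin (n + 1)) (Fin (n + 1)) D₁)ˣ → (Matrix (Fin (n + 1)) (Fin (n + 1)) D₁)ˣ → ℝ)
    (d₂ : (Matrix (Fin n ⊕ Fin n) (Fin n ⊕ Fin n) D₂)ˣ →
      (Matrix (Fin n ⊕ Fin n) (Fin n ⊕ Fin n) D₂)ˣ → ℝ)
    (f : ANSL n D₁ → ANC n F) : Prop :=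
  ∃ K C : ℝ, 1 ≤ K ∧ 0 ≤ C ∧ ∀ x y : ANSL n D₁,
    d₁ x.1 y.1 / K - C ≤ d₂ (f x).1 (f y).1 ∧ d₂ (f x).1 (f y).1 ≤ K * d₁ x.1 y.1 + C

theorem IsQIE.coarse
    {d₁ : (Matrix (Fin (n + 1)) (Fin (n + 1)) D₁)ˣ → (Matrix (Fin (n + 1)) (Fin (n + 1)) D₁)ˣ → ℝ}
    {d₂ : (Matrix (Fin n ⊕ Fin n) (Fin n ⊕ Fin n) D₂)ˣ →
      (Matrix (Fin n ⊕ Fin n) (Fin n ⊕ Fin n) D₂)ˣ → ℝ}
    (h₁ : Comp d₁) (h₂ : Comp d₂) {f : ANSL n D₁ → ANC n F} (hf : IsQIE d₁ d₂ f) :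
    CoarseEmb fun x => (f x).1 := by
  obtain ⟨K, C, hK, hC, h⟩ := hf
  have hK0 : 0 < K := by linarith
  refine ⟨fun R => ?_, fun R => ?_⟩
  · obtain ⟨S, hS⟩ := h₁.le R
    refine ⟨Real.exp (K * S + C), fun x y hb => (h₂.bd _ _).mono ?_⟩
    rw [Real.exp_le_exp]
    have h3 : d₁ x.1 y.1 ≤ S := hS _ _ hb
    have h4 := mul_le_mul_of_nonneg_left h3 hK0.le
    linarith [(h x y).2]
  · obtain ⟨S, hS⟩ := h₂.le R
    refine ⟨Real.exp (K * (S + C)), fun x y hb => (h₁.bd _ _).mono ?_⟩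
    rw [Real.exp_le_exp]
    have h3 : d₂ (f x).1 (f y).1 ≤ S := hS _ _ hb
    have h4 := (h x y).1
    have h5 : d₁ x.1 y.1 / K ≤ S + C := by linarith
    rw [div_le_iff₀ hK0] at h5
    linarith

theorem ANC_mem_FormGrp (g : ANC n F) : g.1 ∈ FormGrp n F := g.2.1.2

end Pool.Agent.ANM65
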