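import Pool.Agent.ANM65.Psi
import Pool.Agent.ANM51.Star

/-!
# Coarse `AN`-maps: restrictions on the multiplicities
-/

namespace Pool.Agent.ANM65

open Matrix Pool.Agent.ANM51

set_option linter.unusedSectionVars false

variable {n : ℕ}

/-- representing two roots with the same support -/
theorem common_form {p q p' q' : Fin n ⊕ Fin n} (hpq : p ≠ q) (hsw : q ≠ p.swap)
    (hpq' : p' ≠ q') (hsw' : q' ≠ p'.swap)
    (hS : ({ix p, ix q} : Finset (Fin n)) = {ix p', ix q'})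
    (h1 : wt p - wt q ≠ wt p' - wt q') (h2 : wt p - wt q ≠ -(wt p' - wt q')) :
    ∃ P Q : Fin n ⊕ Fin n, Q ≠ P.swap ∧ P ≠ Q ∧ wt P - wt Q = wt p - wt q ∧
      wt P - wt Q.swap = wt p' - wt q' := by
  have hne := ix_ne hpq hsw
  have hne' := ix_ne hpq' hsw'
  have hp' : ix p' = ix p ∨ ix p' = ix q := by
    have : ix p' ∈ ({ix p, ix q} : Finset (Fin n)) := by rw [hS]; simp
    rwa [Finset.mem_insert, Finset.mem_singleton] at this
  have hq' : ix q' = ix p ∨ ix q' = ix q := by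
    have : ix q' ∈ ({ix p, ix q} : Finset (Fin n)) := by rw [hS]; simp
    rwa [Finset.mem_insert, Finset.mem_singleton] at this
  have hsw2 : p.swap ≠ q.swap.swap := by
    rw [Sum.swap_swap]; exact fun h => hsw h.symm
  have hpq2 : q.swap ≠ p.swap := fun h => hpq (swap_inj h).symm
  rcases hp' with hp' | hp'
  · have hq'' : ix q' = ix q := by
      rcases hq' with h | h
      · exact absurd (hp'.trans h.symm) hne'
      · exact h
    rcases eq_or_swap_of_ix hp'.symm with e1 | e1 <;>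
      rcases eq_or_swap_of_ix hq''.symm with e2 | e2
    · exact absurd (by rw [e1, e2]) h1
    · exact ⟨p, q, hsw, hpq, rfl, by rw [e1, e2]⟩
    · exact ⟨q.swap, p.swap, hsw2, hpq2, by rw [wt_swap, wt_swap]; abel,
        by rw [e1, e2, Sum.swap_swap, wt_swap, wt_swap]; abel⟩
    · exact absurd (by rw [e1, e2, wt_swap, wt_swap]; abel) h2
  · have hq'' : ix q' = ix p := by
      rcases hq' with h | h
      · exact h
      · exact absurd (hp'.trans h.symm) hne'
    rcases eq_or_swap_of_ix hp'.symm with e1 | e1 <;>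
      rcases eq_or_swap_of_ix hq''.symm with e2 | e2
    · exact absurd (by rw [e1, e2]; abel) h2
    · exact ⟨p, q, hsw, hpq, rfl, by rw [e1, e2, wt_swap, wt_swap]; abel⟩
    · exact ⟨q.swap, p.swap, hsw2, hpq2, by rw [wt_swap, wt_swap]; abel,
        by rw [e1, e2, Sum.swap_swap]⟩
    · exact absurd (by rw [e1, e2, wt_swap, wt_swap]; abel) h1

theorem RootAt.congr {T : (Fin (n + 1) → ℝ) →ₗ[ℝ] (Fin n → ℝ)} {i j : Fin (n + 1)}
    {p q p' q' : Fin n ⊕ Fin n} {c : ℝ} (h : RootAt T i j p q c) (hne : p' ≠ q')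
    (hw : wt p' - wt q' = wt p - wt q) : RootAt T i j p' q' c := by
  refine ⟨hne, h.pos, fun s => ?_⟩
  rw [← h.eq, wl_eq, wl_eq, wl_eq, wl_eq, ← Finset.sum_sub_distrib, ← Finset.sum_sub_distrib]
  refine Finset.sum_congr rfl fun k _ => ?_
  have h1 := congrFun hw k
  simp only [Pi.sub_apply] at h1
  rw [← sub_mul, ← sub_mul, ← Int.cast_sub, ← Int.cast_sub, h1]

theorem root_ne {T : (Fin (n + 1) → ℝ) →ₗ[ℝ] (Fin n → ℝ)} {i j k l : Fin (n + 1)}
    (hij : i < j) (hkl : k < l) (hne : i ≠ k ∨ j ≠ l)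
    {p q p' q' : Fin n ⊕ Fin n} {c c' : ℝ} (h : RootAt T i j p q c) (h' : RootAt T k l p' q' c') :
    wt p - wt q ≠ wt p' - wt q' ∧ wt p - wt q ≠ -(wt p' - wt q') := by
  constructor
  · intro hw
    have h1 := (h'.congr h.ne hw)
    have key : ∀ s : Fin (n + 1) → ℝ, c * (s i - s j) = c' * (s k - s l) := fun s => by
      rw [← h.eq, h1.eq]
    have hc := h.pos
    have hc' := h'.pos
    rcases hne with hne | hne
    · have h2 := key (Pi.single i 1)
      have h3 := key (Pi.single k 1)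
      rw [Pi.single_eq_same, Pi.single_eq_of_ne (ne_of_gt hij), Pi.single_eq_of_ne (Ne.symm hne)]
        at h2
      rw [Pi.single_eq_same, Pi.single_eq_of_ne (ne_of_gt hkl), Pi.single_eq_of_ne hne] at h3
      by_cases h4 : l = i
      · rw [h4, Pi.single_eq_same] at h2; linarith
      · rw [Pi.single_eq_of_ne h4] at h2; linarith
    · have h2 := key (Pi.single j 1)
      rw [Pi.single_eq_same, Pi.single_eq_of_ne (ne_of_lt hij), Pi.single_eq_of_ne (Ne.symm hne)]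
        at h2
      have h3 := key (Pi.single l 1)
      rw [Pi.single_eq_same, Pi.single_eq_of_ne (ne_of_lt hkl), Pi.single_eq_of_ne hne] at h3
      by_cases h4 : k = j
      · rw [h4, Pi.single_eq_same] at h2; linarith
      · rw [Pi.single_eq_of_ne h4] at h2; linarith
  · intro hw
    have hw' : wt q - wt p = wt p' - wt q' := by
      rw [← neg_sub, hw, neg_neg]
    have h1 := h'.congr (Ne.symm h.ne) hw'
    have h2 := h.eq (fun m => -((m : ℕ) : ℝ))
    have h3 := h1.eq (fun m => -((m : ℕ) : ℝ))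
    have hc := h.pos
    have hc' := h'.pos
    have e1 : ((i : ℕ) : ℝ) < ((j : ℕ) : ℝ) := by exact_mod_cast hij
    have e2 : ((k : ℕ) : ℝ) < ((l : ℕ) : ℝ) := by exact_mod_cast hkl
    have e3 : 0 < c * (-((i : ℕ) : ℝ) - -((j : ℕ) : ℝ)) := mul_pos hc (by linarith)
    have e4 : 0 < c' * (-((k : ℕ) : ℝ) - -((l : ℕ) : ℝ)) := mul_pos hc' (by linarith)
    linarith

variable {D₁ D₂ : Type} [NormedDivisionRing D₁] [NormedAlgebra ℝ D₁]
  [NormedDivisionRing D₂] [NormedAlgebra ℝ D₂]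

namespace CAN

section gen

variable {F : FormData D₂} {f : ANSL n D₁ → (Matrix (Fin n ⊕ Fin n) (Fin n ⊕ Fin n) D₂)ˣ}
  {T : (Fin (n + 1) → ℝ) →ₗ[ℝ] (Fin n → ℝ)} (hf : CAN F f T)

include hf

/-- additivity of short roots -/
theorem root_add {i j k : Fin (n + 1)} (hij : i < j) (hjk : j < k)
    {p₁ q₁ p₂ q₂ p₃ q₃ : Fin n ⊕ Fin n} {c₁ c₂ c₃ : ℝ}
    (h₁ : RootAt T i j p₁ q₁ c₁) (h₂ : RootAt T j k p₂ q₂ c₂) (h₃ : RootAt T i k p₃ q₃ c₃)
    (s₁ : q₁ ≠ p₁.swap) (s₂ : q₂ ≠ p₂.swap) (s₃ : q₃ ≠ p₃.swap) :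
    (wt p₁ - wt q₁) + (wt p₂ - wt q₂) = wt p₃ - wt q₃ := by
  have hne := root_ne hij hjk (Or.inl (ne_of_lt hij)) h₁ h₂
  have key : ∀ m, c₁⁻¹ * ((wt p₁ - wt q₁) m : ℝ) + c₂⁻¹ * ((wt p₂ - wt q₂) m : ℝ) =
      c₃⁻¹ * ((wt p₃ - wt q₃) m : ℝ) := by
    intro m
    obtain ⟨s, hs⟩ := hf.T_surj (Pi.single m 1)
    have e1 := h₁.eq s
    have e2 := h₂.eq s
    have e3 := h₃.eq s
    rw [hs, wl_single, wl_single] at e1 e2 e3
    simp only [Pi.sub_apply]
    push_cast
    rw [e1, e2, e3, inv_mul_cancel_left₀ h₁.pos.ne', inv_mul_cancel_left₀ h₂.pos.ne',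
      inv_mul_cancel_left₀ h₃.pos.ne']
    ring
  obtain ⟨e1, e2⟩ := short_comb (short_wt_sub h₁.ne s₁).1 (short_wt_sub h₂.ne s₂).1
    (short_wt_sub h₃.ne s₃).1 hne.1 hne.2 (inv_pos.2 h₁.pos) (inv_pos.2 h₂.pos)
    (inv_pos.2 h₃.pos) key
  funext m
  have h4 := key m
  rw [e1, e2, ← mul_add] at h4
  have h5 := mul_left_cancel₀ (inv_pos.2 h₃.pos).ne' h4
  rw [Pi.add_apply]
  exact_mod_cast h5

variable [FiniteDimensional ℝ D₁] [FiniteDimensional ℝ D₂]

/-- a short root -/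
theorem exists_short {i j : Fin (n + 1)} (hij : i < j)
    (hL : Module.finrank ℝ F.L < Module.finrank ℝ D₁) :
    ∃ p q c, RootAt T i j p q c ∧ q ≠ p.swap := by
  obtain ⟨p, q, c, h⟩ := hf.exists_root hij
  refine ⟨p, q, c, h, ?_⟩
  rintro rfl
  exact absurd (hf.long_bound hij h) (not_le.2 hL)

theorem eq_three (hn : 2 ≤ n) (hL : Module.finrank ℝ F.L < Module.finrank ℝ D₁) : n = 3 := by
  have hlt : ∀ i : Fin n, (Fin.castSucc i) < Fin.last n := fun i => Fin.castSucc_lt_last i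
  choose p q c hr hsw using fun i : Fin n => hf.exists_short (hlt i) hL
  refine star_triangle hn (fun i => sup (wt (p i) - wt (q i))) (fun i => ?_) ?_
  · exact (short_wt_sub (hr i).ne (hsw i)).1.2
  · have key : ∀ i j : Fin n, i < j →
        IP (wt (p i) - wt (q i)) (wt (p j) - wt (q j)) = 1 := by
      intro i j hij
      have hij' : Fin.castSucc i < Fin.castSucc j := by
        rw [Fin.lt_def]; exact hij
      obtain ⟨p', q', c', hr', hsw'⟩ := hf.exists_short hij' hL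
      have hadd := hf.root_add hij' (hlt j) hr' (hr j) (hr i) hsw' (hsw j) (hsw i)
      apply IP_eq_one_of_short (short_wt_sub (hr i).ne (hsw i)).1
        (short_wt_sub (hr j).ne (hsw j)).1
      rw [← hadd, add_sub_cancel_right]
      exact (short_wt_sub hr'.ne hsw').1
    intro i j hij
    rcases lt_or_gt_of_ne hij with h | h
    · exact (short_wt_sub (hr i).ne (hsw i)).1.inter_card_of_odd
        (short_wt_sub (hr j).ne (hsw j)).1 (key i j h)
    · rw [Finset.inter_comm]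
      exact (short_wt_sub (hr j).ne (hsw j)).1.inter_card_of_odd
        (short_wt_sub (hr i).ne (hsw i)).1 (key j i h)

end gen

/-- The remaining case `n = 3`. -/
theorem three {F : FormData D₂} {f : ANSL 3 D₁ → (Matrix (Fin 3 ⊕ Fin 3) (Fin 3 ⊕ Fin 3) D₂)ˣ}
    {T : (Fin (3 + 1) → ℝ) →ₗ[ℝ] (Fin 3 → ℝ)} (hf : CAN F f T)
    [FiniteDimensional ℝ D₁] [FiniteDimensional ℝ D₂]
    (hL : Module.finrank ℝ F.L < Module.finrank ℝ D₁) :
    Module.finrank ℝ D₁ ≤ Module.finrank ℝ (FM F) := by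
  have l01 : (0 : Fin (3 + 1)) < 1 := by decide
  have l02 : (0 : Fin (3 + 1)) < 2 := by decide
  have l03 : (0 : Fin (3 + 1)) < 3 := by decide
  have l12 : (1 : Fin (3 + 1)) < 2 := by decide
  have l13 : (1 : Fin (3 + 1)) < 3 := by decide
  have l23 : (2 : Fin (3 + 1)) < 3 := by decide
  obtain ⟨p₁, q₁, c₁, h01, s01⟩ := hf.exists_short l01 hL
  obtain ⟨p₂, q₂, c₂, h02, s02⟩ := hf.exists_short l02 hL
  obtain ⟨p₃, q₃, c₃, h03, s03⟩ := hf.exists_short l03 hL
  obtain ⟨p₄, q₄, c₄, h12, s12⟩ := hf.exists_short l12 hL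
  obtain ⟨p₅, q₅, c₅, h13, s13⟩ := hf.exists_short l13 hL
  obtain ⟨p₆, q₆, c₆, h23, s23⟩ := hf.exists_short l23 hL
  have a1 := hf.root_add l01 l13 h01 h13 h03 s01 s13 s03
  have a2 := hf.root_add l02 l23 h02 h23 h03 s02 s23 s03
  have a3 := hf.root_add l12 l23 h12 h23 h13 s12 s23 s13
  have S01 := short_wt_sub h01.ne s01
  have S02 := short_wt_sub h02.ne s02
  have S03 := short_wt_sub h03.ne s03
  have S12 := short_wt_sub h12.ne s12
  have S13 := short_wt_sub h13.ne s13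
  have S23 := short_wt_sub h23.ne s23
  have i1 : IP (wt p₃ - wt q₃) (wt p₆ - wt q₆) = 1 :=
    IP_eq_one_of_short S03.1 S23.1 (by rw [← a2, add_sub_cancel_right]; exact S02.1)
  have i2 : IP (wt p₅ - wt q₅) (wt p₆ - wt q₆) = 1 :=
    IP_eq_one_of_short S13.1 S23.1 (by rw [← a3, add_sub_cancel_right]; exact S12.1)
  have i3 : IP (wt p₁ - wt q₁) (wt p₆ - wt q₆) = 0 := by
    have : wt p₁ - wt q₁ = (wt p₃ - wt q₃) - (wt p₅ - wt q₅) := by
      rw [← a1, add_sub_cancel_right]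
    rw [this, IP_sub_left, i1, i2, sub_self]
  have c1 := S01.1.inter_card_of_zero S23.1 i3
  have c2 : 1 ≤ (sup (wt p₁ - wt q₁) ∩ sup (wt p₆ - wt q₆)).card := by
    have h1 := Finset.card_union_add_card_inter (sup (wt p₁ - wt q₁)) (sup (wt p₆ - wt q₆))
    have h2 : (sup (wt p₁ - wt q₁) ∪ sup (wt p₆ - wt q₆)).card ≤ 3 := by
      refine (Finset.card_le_univ _).trans ?_
      rw [Fintype.card_fin]
    rw [S01.1.2, S23.1.2] at h1
    omega
  have c3 : sup (wt p₁ - wt q₁) = sup (wt p₆ - wt q₆) := by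
    have h1 : sup (wt p₁ - wt q₁) ∩ sup (wt p₆ - wt q₆) = sup (wt p₁ - wt q₁) :=
      Finset.eq_of_subset_of_card_le Finset.inter_subset_left (by rw [S01.1.2]; omega)
    have h2 : sup (wt p₁ - wt q₁) ∩ sup (wt p₆ - wt q₆) = sup (wt p₆ - wt q₆) :=
      Finset.eq_of_subset_of_card_le Finset.inter_subset_right (by rw [S23.1.2]; omega)
    rw [← h1, h2]
  have hne := root_ne l01 l23 (Or.inl (by decide)) h01 h23
  obtain ⟨P, Q, hsw, hPQ, e1, e2⟩ := common_form h01.ne s01 h23.ne s23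
    (by rw [← S01.2, ← S23.2, c3]) hne.1 hne.2
  have hcomm : ∀ x y : D₁, rt l01 x * rt l23 y = rt l23 y * rt l01 x :=
    fun x y => rt_comm l01 l23 (by decide) (by decide) x y
  refine hf.comm_bound l01 l23 hcomm (h01.congr hPQ e1) (h23.congr ?_ e2) hsw
  intro h
  exact hsw (by rw [h, Sum.swap_swap])

variable {F : FormData D₂} {f : ANSL n D₁ → (Matrix (Fin n ⊕ Fin n) (Fin n ⊕ Fin n) D₂)ˣ}
  {T : (Fin (n + 1) → ℝ) →ₗ[ℝ] (Fin n → ℝ)}

/-- **The core theorem.** If there is a coarse embedding which coarsely intertwines the actions of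
the groups `A`, then `dim D₁ ≤ dim {σ z = ε z}`, or `n = 3` and `dim D₁ ≤ dim {σ z = - ε z}`. -/
theorem core (hn : 2 ≤ n) (hf : CAN F f T) [FiniteDimensional ℝ D₁] [FiniteDimensional ℝ D₂] :
    Module.finrank ℝ D₁ ≤ Module.finrank ℝ F.L ∨
      (n = 3 ∧ Module.finrank ℝ D₁ ≤ Module.finrank ℝ (FM F)) := by
  by_cases hL : Module.finrank ℝ D₁ ≤ Module.finrank ℝ F.L
  · exact Or.inl hL
  · push Not at hL
    right
    have h3 := hf.eq_three hn hL
    subst h3
    exact ⟨rfl, hf.three hL⟩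

end CAN

end Pool.Agent.ANM65
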