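import Mathlib

/-!
# A two-sided Hölder map does not lower the dimension
-/

namespace Pool.Agent.ANM65

open MeasureTheory NNReal ENNReal

/-- If `κ ‖z - z'‖ ^ c ≤ ‖ψ z - ψ z'‖ ≤ κ' ‖z - z'‖ ^ c` for all `z, z'`, then
`dim E ≤ dim V`. -/
theorem finrank_le_of_holder {E V : Type} [NormedAddCommGroup E] [NormedSpace ℝ E]
    [FiniteDimensional ℝ E] [NormedAddCommGroup V] [NormedSpace ℝ V] [FiniteDimensional ℝ V]
    (ψ : E → V) {c κ κ' : ℝ} (hc : 0 < c) (hκ : 0 < κ)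
    (h1 : ∀ z z', κ * ‖z - z'‖ ^ c ≤ ‖ψ z - ψ z'‖)
    (h2 : ∀ z z', ‖ψ z - ψ z'‖ ≤ κ' * ‖z - z'‖ ^ c) :
    Module.finrank ℝ E ≤ Module.finrank ℝ V := by
  classical
  rcases subsingleton_or_nontrivial E with hE | hE
  · rw [Module.finrank_zero_of_subsingleton]; exact Nat.zero_le _
  -- `c ≤ 1`
  have hc1 : c ≤ 1 := by
    obtain ⟨e, he⟩ := exists_ne (0 : E)
    have he' : 0 < ‖e‖ := norm_pos_iff.2 he
    have key : ∀ N : ℕ, κ * ‖(N : ℝ) • e‖ ^ c ≤ N * (κ' * ‖e‖ ^ c) := by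
      intro N
      have h3 : ‖ψ ((N : ℝ) • e) - ψ 0‖ ≤ N * (κ' * ‖e‖ ^ c) := by
        induction N with
        | zero => simp
        | succ N ih =>
          have h4 : ψ (((N + 1 : ℕ) : ℝ) • e) - ψ 0 =
              (ψ (((N + 1 : ℕ) : ℝ) • e) - ψ ((N : ℝ) • e)) + (ψ ((N : ℝ) • e) - ψ 0) := by abel
          rw [h4]
          refine (norm_add_le _ _).trans ?_
          have h5 := h2 (((N + 1 : ℕ) : ℝ) • e) ((N : ℝ) • e)
          have h6 : ((N + 1 : ℕ) : ℝ) • e - (N : ℝ) • e = e := by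
            rw [← sub_smul]; push_cast; rw [add_sub_cancel_left, one_smul]
          rw [h6] at h5
          push_cast at h5 ih ⊢
          linarith
      have h7 := h1 ((N : ℝ) • e) 0
      rw [sub_zero] at h7
      exact h7.trans h3
    by_contra hcon
    push Not at hcon
    have hlim : Filter.Tendsto (fun N : ℕ => (N : ℝ) ^ (c - 1)) Filter.atTop Filter.atTop :=
      (_root_.tendsto_rpow_atTop (by linarith)).comp tendsto_natCast_atTop_atTop
    obtain ⟨N, hN⟩ := (hlim.eventually_gt_atTop (κ' / κ)).exists_forall_of_atTop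
    have hN1 := hN (N + 1) (by omega)
    have h8 := key (N + 1)
    have hNpos : (0 : ℝ) < ((N + 1 : ℕ) : ℝ) := by positivity
    rw [norm_smul, Real.norm_of_nonneg hNpos.le, Real.mul_rpow hNpos.le he'.le] at h8
    have h9 : ((N + 1 : ℕ) : ℝ) ^ c = ((N + 1 : ℕ) : ℝ) ^ (c - 1) * ((N + 1 : ℕ) : ℝ) := by
      rw [← Real.rpow_add_one hNpos.ne']; congr 1; ring
    rw [h9] at h8
    have hec : 0 < ‖e‖ ^ c := Real.rpow_pos_of_pos he' c
    have h10 : κ * ((N + 1 : ℕ) : ℝ) ^ (c - 1) ≤ κ' := by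
      have h11 : (κ * ((N + 1 : ℕ) : ℝ) ^ (c - 1)) * (((N + 1 : ℕ) : ℝ) * ‖e‖ ^ c) ≤
          κ' * (((N + 1 : ℕ) : ℝ) * ‖e‖ ^ c) := by
        calc _ = κ * (((N + 1 : ℕ) : ℝ) ^ (c - 1) * ((N + 1 : ℕ) : ℝ) * ‖e‖ ^ c) := by ring
          _ ≤ ((N + 1 : ℕ) : ℝ) * (κ' * ‖e‖ ^ c) := h8
          _ = _ := by ring
      exact le_of_mul_le_mul_right h11 (by positivity)
    rw [div_lt_iff₀ hκ] at hN1
    linarith
  -- injectivity and the inverse
  have hinj : Function.Injective ψ := by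
    intro z z' hz
    have h3 := h1 z z'
    rw [hz, sub_self, norm_zero] at h3
    by_contra hne
    have : 0 < ‖z - z'‖ := norm_pos_iff.2 (sub_ne_zero.2 hne)
    have : 0 < κ * ‖z - z'‖ ^ c := mul_pos hκ (Real.rpow_pos_of_pos this c)
    linarith
  set g : V → E := Function.invFun ψ with hg
  have hgψ : ∀ z, g (ψ z) = z := Function.leftInverse_invFun hinj
  obtain ⟨r, hr⟩ : ∃ r : ℝ≥0, (r : ℝ) = 1 / c := ⟨⟨1 / c, by positivity⟩, rfl⟩
  obtain ⟨C, hC⟩ : ∃ C : ℝ≥0, (C : ℝ) = (1 / κ) ^ (1 / c) := ⟨⟨(1 / κ) ^ (1 / c), by positivity⟩, rfl⟩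
  have hH : HolderOnWith C r g (Set.range ψ) := by
    rintro _ ⟨z, rfl⟩ _ ⟨z', rfl⟩
    rw [hgψ, hgψ, edist_dist, edist_dist, dist_eq_norm, dist_eq_norm]
    have h3 := h1 z z'
    have h4 : ‖z - z'‖ ≤ (C : ℝ) * ‖ψ z - ψ z'‖ ^ (r : ℝ) := by
      have h5 : ‖z - z'‖ ^ c ≤ (1 / κ) * ‖ψ z - ψ z'‖ := by
        rw [one_div, ← div_eq_inv_mul, le_div_iff₀ hκ, mul_comm]; exact h3
      have h6 : ‖z - z'‖ = (‖z - z'‖ ^ c) ^ (1 / c) := by
        rw [← Real.rpow_mul (norm_nonneg _), mul_one_div_cancel hc.ne', Real.rpow_one]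
      rw [h6]
      refine (Real.rpow_le_rpow (by positivity) h5 (by positivity)).trans ?_
      rw [Real.mul_rpow (by positivity) (norm_nonneg _), hC, hr]
    have h7 : (C : ℝ≥0∞) = ENNReal.ofReal (C : ℝ) := (ENNReal.ofReal_coe_nnreal).symm
    rw [h7, ENNReal.ofReal_rpow_of_nonneg (norm_nonneg (ψ z - ψ z')) r.coe_nonneg,
      ← ENNReal.ofReal_mul C.coe_nonneg]
    exact ENNReal.ofReal_le_ofReal h4
  have hrpos : 0 < r := by
    rw [← NNReal.coe_pos, hr]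
    positivity
  have himg : g '' (Set.range ψ) = Set.univ := by
    ext z
    simp only [Set.mem_univ, iff_true]
    exact ⟨ψ z, ⟨z, rfl⟩, hgψ z⟩
  have h3 := hH.dimH_image_le hrpos
  rw [himg, Real.dimH_univ_eq_finrank] at h3
  have h4 : dimH (Set.range ψ) ≤ Module.finrank ℝ V := by
    rw [← Real.dimH_univ_eq_finrank V]
    exact dimH_mono (Set.subset_univ _)
  have h5 : ((Module.finrank ℝ E : ℕ) : ℝ≥0∞) ≤ ((Module.finrank ℝ V : ℕ) : ℝ≥0∞) := by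
    refine h3.trans ?_
    refine (ENNReal.div_le_div_right h4 _).trans ?_
    refine ENNReal.div_le_of_le_mul ?_
    have h6 : (1 : ℝ≥0∞) ≤ r := by
      rw [← ENNReal.coe_one, ENNReal.coe_le_coe, ← NNReal.coe_le_coe, hr, NNReal.coe_one,
        le_div_iff₀ hc]
      linarith
    calc ((Module.finrank ℝ V : ℕ) : ℝ≥0∞) = (Module.finrank ℝ V : ℕ) * 1 := (mul_one _).symm
      _ ≤ _ := by gcongr
  exact_mod_cast h5

end Pool.Agent.ANM65
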