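import Pool.Agent.ANM65.Can

/-!
# Linear algebra for the roots
-/

namespace Pool.Agent.ANM65

open Matrix Pool.Agent.ANM51

set_option linter.unusedSectionVars false

variable {n : ℕ}

theorem exp_bdd {a C : ℝ} (h : ∀ r : ℝ, Real.exp (r * a) ≤ C) : a = 0 := by
  by_contra ha
  have h1 := h ((C + 1) / a)
  rw [div_mul_cancel₀ _ ha] at h1
  have h2 := Real.add_one_le_exp (C + 1)
  linarith

theorem lin_of_bdd_below {i j : Fin (n + 1)} (hij : i < j) (l : (Fin (n + 1) → ℝ) →ₗ[ℝ] ℝ)
    {L m : ℝ} (h : ∀ s : Fin (n + 1) → ℝ, L ≤ s i - s j → m ≤ l s) :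
    ∃ c : ℝ, 0 ≤ c ∧ ∀ s, l s = c * (s i - s j) := by
  have he : ∀ r : ℝ, (r • (Pi.single i 1 : Fin (n + 1) → ℝ)) i -
      (r • (Pi.single i 1 : Fin (n + 1) → ℝ)) j = r := by
    intro r
    rw [Pi.smul_apply, Pi.smul_apply, Pi.single_eq_same, Pi.single_eq_of_ne (ne_of_gt hij)]
    simp
  have h0 : ∀ s : Fin (n + 1) → ℝ, s i = s j → l s = 0 := by
    intro s hs
    by_contra hne
    have h1 := h (L • Pi.single i 1 + ((m - l (L • Pi.single i 1) - 1) / l s) • s) (by
      have := he L
      simp only [Pi.add_apply]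
      rw [Pi.smul_apply (a := (m - l (L • Pi.single i 1) - 1) / l s),
        Pi.smul_apply (a := (m - l (L • Pi.single i 1) - 1) / l s), hs]
      linarith)
    rw [map_add, map_smul l ((m - l (L • Pi.single i 1) - 1) / l s), smul_eq_mul,
      div_mul_cancel₀ _ hne] at h1
    linarith
  refine ⟨l (Pi.single i 1), ?_, fun s => ?_⟩
  · by_contra hc
    push Not at hc
    set c := l (Pi.single i 1) with hcdef
    set r := max L ((m - 1) / c) with hr
    have h1 := h (r • Pi.single i 1) (by rw [he]; exact le_max_left _ _)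
    rw [map_smul, smul_eq_mul, ← hcdef] at h1
    have h2 : r * c ≤ (m - 1) / c * c := mul_le_mul_of_nonpos_right (le_max_right _ _) hc.le
    rw [div_mul_cancel₀ _ hc.ne] at h2
    linarith
  · have h1 := h0 (s - (s i - s j) • Pi.single i 1) (by
      have := he (s i - s j)
      simp only [Pi.sub_apply]
      linarith)
    rw [map_sub, map_smul, smul_eq_mul, sub_eq_zero] at h1
    rw [h1, mul_comm]

theorem wl_single (p : Fin n ⊕ Fin n) (k : Fin n) :
    wl p (Pi.single k 1) = (wt p k : ℝ) := by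
  rw [wl_eq, Finset.sum_eq_single k]
  · rw [Pi.single_eq_same, mul_one]
  · intro l _ hl
    rw [Pi.single_eq_of_ne hl, mul_zero]
  · intro h; exact absurd (Finset.mem_univ _) h

theorem abs_wt_sum (p : Fin n ⊕ Fin n) : ∑ k, |(wt p k : ℝ)| = 1 := by
  rw [Finset.sum_eq_single (ix p)]
  · rcases wt_apply_ix p with h | h <;> rw [h] <;> simp
  · intro k _ hk
    rw [wt_apply_of_ne hk]; simp
  · intro h; exact absurd (Finset.mem_univ _) h

theorem abs_root {p q : Fin n ⊕ Fin n} (hpq : p ≠ q) (k : Fin n) :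
    |((wt p - wt q) k : ℝ)| = |(wt p k : ℝ)| + |(wt q k : ℝ)| := by
  rw [Pi.sub_apply]
  push_cast
  by_cases h : ix p = ix q
  · rcases eq_or_swap_of_ix h with h1 | h1
    · exact absurd h1.symm hpq
    · rw [h1, wt_swap, Pi.neg_apply]
      push_cast
      rw [sub_neg_eq_add, abs_neg, ← two_mul, ← two_mul, abs_mul]
      norm_num
  · by_cases hk : k = ix p
    · have h2 : wt q k = 0 := wt_apply_of_ne (by rw [hk]; exact h)
      rw [h2]; simp
    · rw [wt_apply_of_ne hk]; simp

theorem abs_root_sum {p q : Fin n ⊕ Fin n} (hpq : p ≠ q) :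
    ∑ k, |((wt p - wt q) k : ℝ)| = 2 := by
  rw [Finset.sum_congr rfl fun k _ => abs_root hpq k, Finset.sum_add_distrib, abs_wt_sum,
    abs_wt_sum]
  norm_num

/-- Proportional roots are equal. -/
theorem root_prop {p q p' q' : Fin n ⊕ Fin n} (hpq : p ≠ q) (hpq' : p' ≠ q') {a b : ℝ}
    (ha : 0 < a) (hb : 0 < b)
    (h : ∀ k, a * ((wt p - wt q) k : ℝ) = b * ((wt p' - wt q') k : ℝ)) :
    wt p - wt q = wt p' - wt q' ∧ a = b := by
  have h1 : ∑ k, |a * ((wt p - wt q) k : ℝ)| = ∑ k, |b * ((wt p' - wt q') k : ℝ)| :=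
    Finset.sum_congr rfl fun k _ => by rw [h k]
  simp only [abs_mul, ← Finset.mul_sum] at h1
  rw [abs_root_sum hpq, abs_root_sum hpq', abs_of_pos ha, abs_of_pos hb] at h1
  have hab : a = b := by linarith
  refine ⟨?_, hab⟩
  funext k
  have h2 := h k
  rw [← hab] at h2
  exact_mod_cast mul_left_cancel₀ ha.ne' h2

theorem short_comb {u v w : Fin n → ℤ} (hu : Short u) (hv : Short v) (hw : Short w)
    (huv : u ≠ v) (huv' : u ≠ -v) {a b c : ℝ} (ha : 0 < a) (hb : 0 < b) (hc : 0 < c)
    (h : ∀ k, a * (u k : ℝ) + b * (v k : ℝ) = c * (w k : ℝ)) : a = c ∧ b = c := by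
  have habs : ∀ x : Fin n → ℤ, Short x → ∀ k, k ∈ sup x → |(x k : ℝ)| = 1 := by
    intro x hx k hk
    rw [mem_sup] at hk
    rcases hx.1 k with h1 | h1 | h1
    · exact absurd h1 hk
    · rw [h1]; simp
    · rw [h1]; simp
  have hz : ∀ x : Fin n → ℤ, ∀ k, k ∉ sup x → x k = 0 := by
    intro x k hk
    rw [mem_sup, not_not] at hk; exact hk
  have habs' : ∀ x : Fin n → ℤ, Short x → ∀ k, x k ≠ 0 → |(x k : ℝ)| = 1 :=
    fun x hx k hk => habs x hx k (mem_sup.2 hk)
  by_cases hs : sup u = sup v
  · exfalso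
    have hws : sup w = sup u := by
      apply Finset.eq_of_subset_of_card_le
      · intro k hk
        by_contra hku
        have h1 := h k
        rw [hz u k hku, hz v k (by rw [← hs]; exact hku)] at h1
        simp only [Int.cast_zero, mul_zero, add_zero] at h1
        have h2 := (mul_eq_zero.1 h1.symm).resolve_left hc.ne'
        exact (mem_sup.1 hk) (by exact_mod_cast h2)
      · rw [hu.2, hw.2]
    have hcases : ∀ k, k ∈ sup u → u k = v k ∨ u k = - v k := by
      intro k hk
      have hkv : k ∈ sup v := by rw [← hs]; exact hk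
      rw [mem_sup] at hk hkv
      rcases hu.1 k with h1 | h1 | h1 <;> rcases hv.1 k with h2 | h2 | h2 <;>
        first
          | exact absurd h1 hk
          | exact absurd h2 hkv
          | (rw [h1, h2]; decide)
    have hex1 : ∃ k, k ∈ sup u ∧ u k = v k := by
      by_contra hcon
      push Not at hcon
      apply huv'
      funext k
      by_cases hk : k ∈ sup u
      · rcases hcases k hk with h1 | h1
        · exact absurd h1 (hcon k hk)
        · rw [h1, Pi.neg_apply]
      · rw [hz u k hk, Pi.neg_apply, hz v k (by rw [← hs]; exact hk), neg_zero]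
    have hex2 : ∃ k, k ∈ sup u ∧ u k = - v k := by
      by_contra hcon
      push Not at hcon
      apply huv
      funext k
      by_cases hk : k ∈ sup u
      · rcases hcases k hk with h1 | h1
        · exact h1
        · exact absurd h1 (hcon k hk)
      · rw [hz u k hk, hz v k (by rw [← hs]; exact hk)]
    obtain ⟨k, hk, hk'⟩ := hex1
    obtain ⟨l, hl, hl'⟩ := hex2
    have e1 := h k
    have e2 := h l
    rw [hk', ← add_mul] at e1
    have e3 : (u l : ℝ) = - (v l : ℝ) := by rw [hl']; push_cast; ring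
    rw [e3, mul_neg, ← sub_eq_neg_add, ← sub_mul] at e2
    have e4 := congrArg abs e1
    have e5 := congrArg abs e2
    rw [abs_mul, abs_mul, habs v hv k (by rw [← hs]; exact hk),
      habs w hw k (by rw [hws]; exact hk), abs_of_pos hc, abs_of_pos (by linarith)] at e4
    rw [abs_mul, abs_mul, habs v hv l (by rw [← hs]; exact hl),
      habs w hw l (by rw [hws]; exact hl), abs_of_pos hc] at e5
    rcases abs_cases (b - a) with ⟨h6, _⟩ | ⟨h6, _⟩ <;> rw [h6] at e5 <;> linarith
  · have hex1 : ∃ k, k ∈ sup u ∧ k ∉ sup v := by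
      by_contra hcon
      push Not at hcon
      exact hs (Finset.eq_of_subset_of_card_le hcon (by rw [hu.2, hv.2]))
    have hex2 : ∃ k, k ∈ sup v ∧ k ∉ sup u := by
      by_contra hcon
      push Not at hcon
      exact hs (Finset.eq_of_subset_of_card_le hcon (by rw [hu.2, hv.2])).symm
    obtain ⟨k, hk, hk'⟩ := hex1
    obtain ⟨l, hl, hl'⟩ := hex2
    have e1 := h k
    have e2 := h l
    rw [hz v k hk', Int.cast_zero, mul_zero, add_zero] at e1
    rw [hz u l hl', Int.cast_zero, mul_zero, zero_add] at e2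
    have w1 : w k ≠ 0 := by
      intro h0
      rw [h0, Int.cast_zero, mul_zero] at e1
      exact (mem_sup.1 hk) (by exact_mod_cast (mul_eq_zero.1 e1).resolve_left ha.ne')
    have w2 : w l ≠ 0 := by
      intro h0
      rw [h0, Int.cast_zero, mul_zero] at e2
      exact (mem_sup.1 hl) (by exact_mod_cast (mul_eq_zero.1 e2).resolve_left hb.ne')
    have e3 := congrArg abs e1
    have e4 := congrArg abs e2
    rw [abs_mul, abs_mul, habs u hu k hk, habs' w hw k w1, abs_of_pos ha, abs_of_pos hc] at e3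
    rw [abs_mul, abs_mul, habs v hv l hl, habs' w hw l w2, abs_of_pos hb, abs_of_pos hc] at e4
    constructor <;> linarith

variable {D₁ D₂ : Type} [NormedDivisionRing D₁] [NormedAlgebra ℝ D₁]
  [NormedDivisionRing D₂] [NormedAlgebra ℝ D₂]

namespace CAN

variable {F : FormData D₂} {f : ANSL n D₁ → (Matrix (Fin n ⊕ Fin n) (Fin n ⊕ Fin n) D₂)ˣ}
  {T : (Fin (n + 1) → ℝ) →ₗ[ℝ] (Fin n → ℝ)} (hf : CAN F f T)

include hf

theorem T_ker {t : Fin (n + 1) → ℝ} (ht : T t = 0) (i j : Fin (n + 1)) : t i = t j := by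
  obtain ⟨C, hC⟩ := hf.eqv
  obtain ⟨R, hR⟩ := hf.lo C
  have key : ∀ k, t k - (∑ l, t l) / (n + 1) = 0 := by
    intro k
    refine exp_bdd (C := R) fun r => ?_
    have h1 := hC 1 (r • t)
    rw [map_smul, ht, smul_zero, bor_zero, mul_one, one_mul] at h1
    have h2 := (hR 1 (tor D₁ (r • t)) h1 k k).1
    rw [inv_one, one_mul] at h2
    change ‖torM D₁ (r • t) k k‖ ≤ R at h2
    rw [torM_diag, norm_algebraMap', tval, Real.norm_of_nonneg (Real.exp_pos _).le] at h2
    convert h2 using 2
    simp only [Pi.smul_apply, smul_eq_mul, ← Finset.mul_sum]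
    ring
  have h1 := key i
  have h2 := key j
  linarith

theorem T_surj : Function.Surjective T := by
  let e : (Fin n → ℝ) →ₗ[ℝ] (Fin (n + 1) → ℝ) :=
    { toFun := fun v => Fin.snoc (α := fun _ => ℝ) v 0
      map_add' := fun v w => by
        funext i
        refine Fin.lastCases ?_ (fun i => ?_) i
        · simp
        · simp
      map_smul' := fun r v => by
        funext i
        refine Fin.lastCases ?_ (fun i => ?_) i
        · simp
        · simp }
  have hinj : Function.Injective (T ∘ₗ e) := by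
    refine (injective_iff_map_eq_zero _).2 fun v hv => ?_
    funext k
    have h1 := hf.T_ker (t := e v) hv (Fin.castSucc k) (Fin.last n)
    change Fin.snoc (α := fun _ => ℝ) v 0 (Fin.castSucc k) =
      Fin.snoc (α := fun _ => ℝ) v 0 (Fin.last n) at h1
    rw [Fin.snoc_castSucc, Fin.snoc_last] at h1
    exact h1
  have hsurj := LinearMap.injective_iff_surjective.1 hinj
  intro y
  obtain ⟨v, hv⟩ := hsurj y
  exact ⟨e v, hv⟩

theorem vec_of_T {p q p' q' : Fin n ⊕ Fin n} {a b : ℝ}
    (h : ∀ s, a * (wl p (T s) - wl q (T s)) = b * (wl p' (T s) - wl q' (T s))) (k : Fin n) :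
    a * ((wt p - wt q) k : ℝ) = b * ((wt p' - wt q') k : ℝ) := by
  obtain ⟨s, hs⟩ := hf.T_surj (Pi.single k 1)
  have h1 := h s
  rw [hs, wl_single, wl_single, wl_single, wl_single] at h1
  simp only [Pi.sub_apply]
  push_cast
  exact h1

theorem exists_T_ne {p q : Fin n ⊕ Fin n} (hpq : p ≠ q) : ∃ s, wl p (T s) - wl q (T s) ≠ 0 := by
  by_contra hcon
  push Not at hcon
  apply hpq
  apply wt_injective
  funext k
  have h1 := hf.vec_of_T (a := 1) (b := 0) (p := p) (q := q) (p' := p) (q' := q)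
    (fun s => by rw [hcon s]; ring) k
  rw [one_mul, zero_mul, Pi.sub_apply] at h1
  have h2 : wt p k - wt q k = 0 := by exact_mod_cast h1
  omega

end CAN

end Pool.Agent.ANM65
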