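import Pool.Agent.ANM65.Riem
import Pool.Agent.ANM51.Inst

/-!
# Octonions and the Jordan algebra `H_3(𝕆)`
-/

namespace Pool.Agent.ANM65

open Matrix Pool.Agent.ANM51
open scoped Quaternion

set_option linter.unusedSectionVars false

/-- The octonions: pairs of quaternions, with the Euclidean norm. -/
abbrev OO := WithLp 2 (ℍ[ℝ] × ℍ[ℝ])

/-- octonions from two quaternions -/
noncomputable def oo (a b : ℍ[ℝ]) : OO := WithLp.toLp 2 (a, b)

@[simp] theorem oo_fst (a b : ℍ[ℝ]) : (oo a b).fst = a := rfl
@[simp] theorem oo_snd (a b : ℍ[ℝ]) : (oo a b).snd = b := rfl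

theorem oo_ext {x y : OO} (h1 : x.fst = y.fst) (h2 : x.snd = y.snd) : x = y := by
  apply WithLp.ofLp_injective
  exact Prod.ext h1 h2

@[simp] theorem oo_add_fst (x y : OO) : (x + y).fst = x.fst + y.fst := rfl
@[simp] theorem oo_add_snd (x y : OO) : (x + y).snd = x.snd + y.snd := rfl
@[simp] theorem oo_neg_fst (x : OO) : (-x).fst = -x.fst := rfl
@[simp] theorem oo_neg_snd (x : OO) : (-x).snd = -x.snd := rfl
@[simp] theorem oo_zero_fst : (0 : OO).fst = 0 := rfl
@[simp] theorem oo_zero_snd : (0 : OO).snd = 0 := rfl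
@[simp] theorem oo_smul_fst (r : ℝ) (x : OO) : (r • x).fst = r • x.fst := rfl
@[simp] theorem oo_smul_snd (r : ℝ) (x : OO) : (r • x).snd = r • x.snd := rfl

/-- The product of octonions (Cayley-Dickson). -/
noncomputable def omul (x y : OO) : OO :=
  oo (x.fst * y.fst - star y.snd * x.snd) (y.snd * x.fst + x.snd * star y.fst)

/-- The conjugation of octonions. -/
noncomputable def oconj (x : OO) : OO := oo (star x.fst) (-x.snd)

@[simp] theorem omul_fst (x y : OO) : (omul x y).fst = x.fst * y.fst - star y.snd * x.snd := rfl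
@[simp] theorem omul_snd (x y : OO) :
    (omul x y).snd = y.snd * x.fst + x.snd * star y.fst := rfl
@[simp] theorem oconj_fst (x : OO) : (oconj x).fst = star x.fst := rfl
@[simp] theorem oconj_snd (x : OO) : (oconj x).snd = -x.snd := rfl

/-- The space of `3 × 3` matrices of octonions with the norm `(∑ |X_ij|²)^(1/2)`. -/
abbrev MO := PiLp 2 (fun _ : Fin 3 × Fin 3 => OO)

/-- The Jordan algebra `H_3(𝕆)` of Hermitian matrices, as a Euclidean space. -/
noncomputable def JJ : Submodule ℝ MO where
  carrier := {X | ∀ k l, X (l, k) = oconj (X (k, l))}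
  add_mem' := by
    intro X Y hX hY k l
    refine oo_ext ?_ ?_
    · have h1 := congrArg (fun z : OO => z.fst) (hX k l)
      have h2 := congrArg (fun z : OO => z.fst) (hY k l)
      simp only [oconj_fst] at h1 h2
      simp [h1, h2]
    · have h1 := congrArg (fun z : OO => z.snd) (hX k l)
      have h2 := congrArg (fun z : OO => z.snd) (hY k l)
      simp only [oconj_snd] at h1 h2
      simp [h1, h2]
      abel
  zero_mem' := by
    intro k l
    refine oo_ext ?_ ?_ <;> simp
  smul_mem' := by
    intro r X hX k l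
    refine oo_ext ?_ ?_
    · have h1 := congrArg (fun z : OO => z.fst) (hX k l)
      simp only [oconj_fst] at h1
      simp [h1]
    · have h1 := congrArg (fun z : OO => z.snd) (hX k l)
      simp only [oconj_snd] at h1
      simp [h1]

theorem mem_JJ {X : MO} : X ∈ JJ ↔ ∀ k l, X (l, k) = oconj (X (k, l)) := Iff.rfl

/-- The map `X ↦ (1 + z E_ij) X (1 + z E_ij)^*` on matrices of octonions. -/
noncomputable def tmap (i j : Fin 3) (z : OO) (X : MO) : MO :=
  WithLp.toLp 2 fun kl : Fin 3 × Fin 3 =>
    X kl + (if kl.1 = i then omul z (X (j, kl.2)) else 0) +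
      (if kl.2 = i then omul (X (kl.1, j)) (oconj z) else 0) +
      (if kl.1 = i ∧ kl.2 = i then omul (omul z (X (j, j))) (oconj z) else 0)

theorem tmap_apply (i j : Fin 3) (z : OO) (X : MO) (k l : Fin 3) :
    tmap i j z X (k, l) = X (k, l) + (if k = i then omul z (X (j, l)) else 0) +
      (if l = i then omul (X (k, j)) (oconj z) else 0) +
      (if k = i ∧ l = i then omul (omul z (X (j, j))) (oconj z) else 0) := rfl

theorem omul_add_right (z x y : OO) : omul z (x + y) = omul z x + omul z y := by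
  refine oo_ext ?_ ?_
  · simp only [omul_fst, oo_add_fst, oo_add_snd, star_add, mul_add, add_mul]; abel
  · simp only [omul_snd, oo_add_fst, oo_add_snd, star_add, mul_add, add_mul]; abel

theorem omul_add_left (x y z : OO) : omul (x + y) z = omul x z + omul y z := by
  refine oo_ext ?_ ?_
  · simp only [omul_fst, oo_add_fst, oo_add_snd, mul_add, add_mul]; abel
  · simp only [omul_snd, oo_add_fst, oo_add_snd, mul_add, add_mul]; abel

theorem qstar_smul (r : ℝ) (q : ℍ[ℝ]) : star (r • q) = r • star q := by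
  ext <;> simp

theorem omul_smul_right (r : ℝ) (z x : OO) : omul z (r • x) = r • omul z x := by
  refine oo_ext ?_ ?_
  · simp only [omul_fst, oo_smul_fst, oo_smul_snd, qstar_smul, mul_smul_comm, smul_mul_assoc,
      smul_sub]
  · simp only [omul_snd, oo_smul_fst, oo_smul_snd, qstar_smul, mul_smul_comm, smul_mul_assoc,
      smul_add]

theorem omul_smul_left (r : ℝ) (z x : OO) : omul (r • z) x = r • omul z x := by
  refine oo_ext ?_ ?_
  · simp only [omul_fst, oo_smul_fst, oo_smul_snd, mul_smul_comm, smul_mul_assoc, smul_sub]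
  · simp only [omul_snd, oo_smul_fst, oo_smul_snd, mul_smul_comm, smul_mul_assoc, smul_add]

theorem oconj_add (x y : OO) : oconj (x + y) = oconj x + oconj y := by
  refine oo_ext ?_ ?_
  · simp
  · simp; abel

theorem oconj_smul (r : ℝ) (x : OO) : oconj (r • x) = r • oconj x := by
  refine oo_ext ?_ ?_ <;> simp

theorem oconj_oconj (x : OO) : oconj (oconj x) = x := by
  refine oo_ext ?_ ?_ <;> simp

theorem oconj_omul (x y : OO) : oconj (omul x y) = omul (oconj y) (oconj x) := by
  refine oo_ext ?_ ?_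
  · simp
  · simp

/-- the unit -/
noncomputable def oone : OO := oo 1 0

theorem omul_oone (x : OO) : omul x oone = x := by
  refine oo_ext ?_ ?_ <;> simp [oone]

theorem oone_omul (x : OO) : omul oone x = x := by
  refine oo_ext ?_ ?_ <;> simp [oone]

theorem self_add_star' (a : ℍ[ℝ]) (h : star a = a) : a = (a.re : ℍ[ℝ]) := by
  ext
  · simp
  · have := congrArg (fun q : ℍ[ℝ] => q.imI) h
    simp at this ⊢
    linarith
  · have := congrArg (fun q : ℍ[ℝ] => q.imJ) h
    simp at this ⊢
    linarith
  · have := congrArg (fun q : ℍ[ℝ] => q.imK) h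
    simp at this ⊢
    linarith

/-- the diagonal entries of a Hermitian matrix are real -/
theorem diag_real {X : MO} (hX : X ∈ JJ) (i : Fin 3) : X (i, i) = (X (i, i)).fst.re • oone := by
  have h := hX i i
  refine oo_ext ?_ ?_
  · have h1 := congrArg (fun z : OO => z.fst) h
    simp only [oconj_fst] at h1
    rw [oo_smul_fst, oone, oo_fst]
    have h2 := self_add_star' _ h1.symm
    nth_rewrite 1 [h2]
    ext <;> simp
  · have h1 := congrArg (fun z : OO => z.snd) h
    simp only [oconj_snd] at h1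
    rw [oo_smul_snd, oone, oo_snd, smul_zero]
    have h2 : (2 : ℝ) • (X (i, i)).snd = 0 := by
      rw [two_smul]
      nth_rewrite 1 [h1]
      exact neg_add_cancel _
    exact (smul_eq_zero.1 h2).resolve_left two_ne_zero

theorem tmap_mem {i j : Fin 3} (z : OO) {X : MO} (hX : X ∈ JJ) : tmap i j z X ∈ JJ := by
  intro k l
  rw [tmap_apply, tmap_apply, oconj_add, oconj_add, oconj_add, ← hX k l]
  have h1 : oconj (if k = i then omul z (X (j, l)) else 0) =
      (if k = i then omul (X (l, j)) (oconj z) else 0) := by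
    by_cases h : k = i
    · rw [if_pos h, if_pos h, oconj_omul, ← hX j l]
    · rw [if_neg h, if_neg h]
      refine oo_ext ?_ ?_ <;> simp
  have h2 : oconj (if l = i then omul (X (k, j)) (oconj z) else 0) =
      (if l = i then omul z (X (j, k)) else 0) := by
    by_cases h : l = i
    · rw [if_pos h, if_pos h, oconj_omul, ← hX k j, oconj_oconj]
    · rw [if_neg h, if_neg h]
      refine oo_ext ?_ ?_ <;> simp
  have h3 : oconj (if k = i ∧ l = i then omul (omul z (X (j, j))) (oconj z) else 0) =
      (if l = i ∧ k = i then omul (omul z (X (j, j))) (oconj z) else 0) := by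
    by_cases h : k = i ∧ l = i
    · rw [if_pos h, if_pos h.symm, diag_real hX j, omul_smul_right, omul_oone, omul_smul_left,
        oconj_smul, oconj_omul, oconj_oconj]
    · rw [if_neg h, if_neg fun h' => h h'.symm]
      refine oo_ext ?_ ?_ <;> simp
  rw [h1, h2, h3]
  abel

theorem omul_zero_right (z : OO) : omul z 0 = 0 := by
  refine oo_ext ?_ ?_ <;> simp

theorem omul_zero_left (z : OO) : omul 0 z = 0 := by
  refine oo_ext ?_ ?_ <;> simp

theorem tmap_add (i j : Fin 3) (z : OO) (X Y : MO) :
    tmap i j z (X + Y) = tmap i j z X + tmap i j z Y := by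
  ext1 ⟨k, l⟩
  rw [PiLp.add_apply, tmap_apply, tmap_apply, tmap_apply]
  simp only [PiLp.add_apply, omul_add_right, omul_add_left]
  split_ifs <;> abel

theorem tmap_smul (i j : Fin 3) (z : OO) (r : ℝ) (X : MO) :
    tmap i j z (r • X) = r • tmap i j z X := by
  ext1 ⟨k, l⟩
  rw [PiLp.smul_apply, tmap_apply, tmap_apply]
  simp only [PiLp.smul_apply, omul_smul_right, omul_smul_left]
  split_ifs <;> simp only [smul_add, smul_zero]

/-- the map `X ↦ (1 + z E_ij) X (1 + z E_ij)^*` of `H_3(𝕆)` -/
noncomputable def TJ (i j : Fin 3) (z : OO) : JJ →ₗ[ℝ] JJ where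
  toFun X := ⟨tmap i j z X.1, tmap_mem z X.2⟩
  map_add' X Y := Subtype.ext (tmap_add i j z X.1 Y.1)
  map_smul' r X := Subtype.ext (tmap_smul i j z r X.1)

theorem omul_neg_left (z x : OO) : omul (-z) x = -omul z x := by
  have h := omul_smul_left (-1) z x
  simpa using h

theorem oconj_neg (x : OO) : oconj (-x) = -oconj x := by
  have h := oconj_smul (-1) x
  simpa using h

theorem omul_neg_right (z x : OO) : omul z (-x) = -omul z x := by
  have h := omul_smul_right (-1) z x
  simpa using h

theorem tmap_neg {i j : Fin 3} (hij : i ≠ j) (z : OO) {X : MO} (hX : X ∈ JJ) :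
    tmap i j (-z) (tmap i j z X) = X := by
  have hji : j ≠ i := hij.symm
  ext1 ⟨k, l⟩
  rw [tmap_apply, tmap_apply, tmap_apply, tmap_apply, tmap_apply]
  by_cases hk : k = i <;> by_cases hl : l = i
  · subst hk
    subst hl
    simp only [if_true, hji, if_false, true_and, and_true, add_zero, and_self]
    have h := diag_real hX j
    rw [h]
    simp only [omul_add_right, omul_add_left, omul_neg_left, omul_neg_right, oconj_neg,
      omul_smul_right, omul_smul_left, omul_oone, oone_omul]
    abel
  · subst hk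
    simp only [if_true, hl, hji, if_false, and_false, add_zero, omul_neg_left]
    abel
  · subst hl
    simp only [if_true, hk, hji, if_false, false_and, add_zero, oconj_neg, omul_neg_right]
    abel
  · simp only [hk, hl, if_false, false_and, add_zero]

/-- the units of `TJ` -/
noncomputable def TU {i j : Fin 3} (hij : i ≠ j) (z : OO) : (Module.End ℝ JJ)ˣ where
  val := TJ i j z
  inv := TJ i j (-z)
  val_inv := by
    ext1 X
    apply Subtype.ext
    have h := tmap_neg hij (-z) X.2
    rwa [neg_neg] at h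
  inv_val := by
    ext1 X
    apply Subtype.ext
    exact tmap_neg hij z X.2

/-- the map `X ↦ D X D`, `D = diag (a 0, a 1, a 2)` -/
noncomputable def dmap (a : Fin 3 → ℝ) (X : MO) : MO :=
  WithLp.toLp 2 fun kl : Fin 3 × Fin 3 => (a kl.1 * a kl.2) • X kl

theorem dmap_apply (a : Fin 3 → ℝ) (X : MO) (k l : Fin 3) :
    dmap a X (k, l) = (a k * a l) • X (k, l) := rfl

noncomputable def DJ (a : Fin 3 → ℝ) : JJ →ₗ[ℝ] JJ where
  toFun X := ⟨dmap a X.1, by
    intro k l
    rw [dmap_apply, dmap_apply, oconj_smul, ← X.2 k l, mul_comm (a l)]⟩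
  map_add' X Y := by
    apply Subtype.ext
    ext1 ⟨k, l⟩
    change (a k * a l) • (X.1 (k, l) + Y.1 (k, l)) = _
    rw [smul_add]
    rfl
  map_smul' r X := by
    apply Subtype.ext
    ext1 ⟨k, l⟩
    change (a k * a l) • (r • X.1 (k, l)) = r • ((a k * a l) • X.1 (k, l))
    rw [smul_comm]

theorem DJ_mul (a b : Fin 3 → ℝ) : DJ (a * b) = DJ a * DJ b := by
  ext1 X
  apply Subtype.ext
  ext1 ⟨k, l⟩
  change ((a * b) k * (a * b) l) • X.1 (k, l) = (a k * a l) • ((b k * b l) • X.1 (k, l))
  rw [smul_smul, Pi.mul_apply, Pi.mul_apply]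
  congr 1
  ring

theorem DJ_one : DJ 1 = 1 := by
  ext1 X
  apply Subtype.ext
  ext1 ⟨k, l⟩
  change ((1 : Fin 3 → ℝ) k * (1 : Fin 3 → ℝ) l) • X.1 (k, l) = X.1 (k, l)
  rw [Pi.one_apply, Pi.one_apply, mul_one, one_smul]

/-- the units of `DJ` -/
noncomputable def DU (a : Fin 3 → ℝ) (ha : ∀ i, 0 < a i) : (Module.End ℝ JJ)ˣ where
  val := DJ a
  inv := DJ a⁻¹
  val_inv := by
    rw [← DJ_mul, ← DJ_one]
    congr 1
    funext i
    exact mul_inv_cancel₀ (ha i).ne'
  inv_val := by
    rw [← DJ_mul, ← DJ_one]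
    congr 1
    funext i
    exact inv_mul_cancel₀ (ha i).ne'

/-- **The group `A₁N₁` of `E_6(-26)`**: the group of linear maps of `H_3(𝕆)` generated by
`X ↦ D X D` with `D` diagonal positive of determinant one, and `X ↦ (1 + z E_ij) X (1 + z E_ij)^*`
with `i < j` and `z ∈ 𝕆`. -/
noncomputable def ANE6 : Subgroup (JJ →L[ℝ] JJ)ˣ :=
  Subgroup.closure {g |
    (∃ a : Fin 3 → ℝ, (∀ i, 0 < a i) ∧ ∏ i, a i = 1 ∧ ∀ X, (g : JJ →L[ℝ] JJ) X = DJ a X) ∨
    ∃ (i j : Fin 3) (z : OO), i < j ∧ ∀ X, (g : JJ →L[ℝ] JJ) X = TJ i j z X}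

end Pool.Agent.ANM65
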