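import Pool.Agent.ANM65.OctRho

/-!
# The embedding of `A₁N₁` of `SL_3(ℍ)` in `A₁N₁` of `E_6(-26)`
-/

namespace Pool.Agent.ANM65

open Matrix Pool.Agent.ANM51
open scoped Quaternion

set_option linter.unusedSectionVars false

/-- the representation restricted to torus elements -/
theorem rhoU_tor (s : Fin 3 → ℝ) :
    rhoU (torU ℍ[ℝ] (n := 2) s) = DU (tval (n := 2) s) (tval_pos (n := 2) s) := by
  apply Units.ext
  rw [rhoU_val]
  change rhoJ (torM ℍ[ℝ] (n := 2) s) (torM ℍ[ℝ] (n := 2) (-s)) = DJ (tval (n := 2) s)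
  ext1 X
  apply Subtype.ext
  rw [rhoJ_apply]
  change _ = dmap (tval (n := 2) s) X.1
  have hprod : tval (n := 2) s 0 * tval (n := 2) s 1 * tval (n := 2) s 2 = 1 := by
    have h := tval_prod (n := 2) s
    rwa [Fin.prod_univ_three] at h
  have hinv : ∀ i : Fin 3, tval (n := 2) (-s) i * tval (n := 2) s i = 1 := by
    intro i
    rw [← tval_add, neg_add_cancel, tval_zero]
  ext1 ⟨k, l⟩
  refine oo_ext ?_ ?_
  · rw [mkJ_apply, oo_fst, dmap_apply, oo_smul_fst]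
    rw [torM, Matrix.diagonal_conjTranspose, Matrix.mul_diagonal, Matrix.diagonal_mul]
    change algebraMap ℝ ℍ[ℝ] (tval s k) * (X.1 (k, l)).fst *
      star (algebraMap ℝ ℍ[ℝ] (tval s l)) = _
    have h1 : star (algebraMap ℝ ℍ[ℝ] (tval (n := 2) s l)) = algebraMap ℝ ℍ[ℝ] (tval s l) := by
      rw [Algebra.algebraMap_eq_smul_one, qstar_smul, star_one]
    rw [h1, ← Algebra.commutes, ← Algebra.smul_def, ← Algebra.smul_def, smul_smul,
      mul_comm (tval s l)]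
  · rw [mkJ_apply, oo_snd, dmap_apply, oo_smul_snd]
    have hX : ∀ a b, (X.1 (a, b)).snd = bmat (wpart X.1) a b := by
      intro a b
      nth_rewrite 1 [← mkJ_parts X.2]
      rfl
    have hw : ∀ m, (wpart X.1 ᵥ* torM ℍ[ℝ] (n := 2) (-s)) m = tval (n := 2) (-s) m •
        wpart X.1 m := by
      intro m
      rw [torM, Matrix.vecMul_diagonal, ← Algebra.commutes, ← Algebra.smul_def]
    rw [hX]
    have e0 : tval (n := 2) (-s) 0 = tval (n := 2) s 1 * tval (n := 2) s 2 := by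
      have h1 := hinv 0
      have h2 := tval_pos (n := 2) s 0
      apply mul_right_cancel₀ h2.ne'
      rw [h1, ← hprod]; ring
    have e1 : tval (n := 2) (-s) 1 = tval (n := 2) s 0 * tval (n := 2) s 2 := by
      have h1 := hinv 1
      have h2 := tval_pos (n := 2) s 1
      apply mul_right_cancel₀ h2.ne'
      rw [h1, ← hprod]; ring
    have e2 : tval (n := 2) (-s) 2 = tval (n := 2) s 0 * tval (n := 2) s 1 := by
      have h1 := hinv 2
      have h2 := tval_pos (n := 2) s 2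
      apply mul_right_cancel₀ h2.ne'
      rw [h1, ← hprod]
    fin_cases k <;> fin_cases l <;> simp [bmat, hw, e0, e1, e2]
    all_goals rw [mul_comm]

theorem val_sl2 (α β γ : ℍ[ℝ]) (s : Fin 3 → ℝ) (i j : Fin 3) :
    (rt (n := 2) (D := ℍ[ℝ]) (i := 1) (j := 2) (by decide) γ *
      rt (n := 2) (i := 0) (j := 2) (by decide) β *
      rt (n := 2) (i := 0) (j := 1) (by decide) α * tor ℍ[ℝ] (n := 2) s).1.val i j =
      (!![1, α, β; 0, 1, γ; 0, 0, 1] i j) * algebraMap ℝ ℍ[ℝ] (tval (n := 2) s j) := by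
  change (rtM (n := 2) 1 2 γ * rtM (n := 2) 0 2 β * rtM (n := 2) 0 1 α * torM ℍ[ℝ] (n := 2) s) i j
    = _
  rw [torM, Matrix.mul_diagonal]
  congr 1
  have h1 : rtM (n := 2) 1 2 γ * rtM (n := 2) 0 2 β * rtM (n := 2) 0 1 α =
      1 + Matrix.single 1 2 γ + Matrix.single 0 2 β + Matrix.single 0 1 α := by
    have h1 : (Matrix.single 1 2 γ : Matrix (Fin 3) (Fin 3) ℍ[ℝ]) * Matrix.single 0 2 β = 0 :=
      Matrix.single_mul_single_of_ne _ _ _ _ (by decide) _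
    have h2 : (Matrix.single 1 2 γ : Matrix (Fin 3) (Fin 3) ℍ[ℝ]) * Matrix.single 0 1 α = 0 :=
      Matrix.single_mul_single_of_ne _ _ _ _ (by decide) _
    have h3 : (Matrix.single 0 2 β : Matrix (Fin 3) (Fin 3) ℍ[ℝ]) * Matrix.single 0 1 α = 0 :=
      Matrix.single_mul_single_of_ne _ _ _ _ (by decide) _
    simp only [rtM, add_mul, mul_add, one_mul, mul_one, h1, h2, h3, add_zero]
  rw [h1]
  simp only [Matrix.add_apply]
  fin_cases i <;> fin_cases j <;> simp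

/-- every element of `A₁N₁` is a product of root elements and a torus element -/
theorem sl2_decomp (g : ANSL 2 ℍ[ℝ]) : ∃ (α β γ : ℍ[ℝ]) (s : Fin 3 → ℝ),
    g = rt (n := 2) (i := 1) (j := 2) (by decide) γ *
      rt (n := 2) (i := 0) (j := 2) (by decide) β *
      rt (n := 2) (i := 0) (j := 1) (by decide) α * tor ℍ[ℝ] (n := 2) s := by
  obtain ⟨htri, c, hc, hprod⟩ := g.2
  have hs : ∀ i, tval (n := 2) (fun i => Real.log (c i)) i = c i := by
    intro i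
    have h1 : ∑ j, Real.log (c j) = 0 := by
      rw [← Real.log_prod fun j _ => (hc j).1.ne', hprod, Real.log_one]
    rw [tval, h1, zero_div, sub_zero, Real.exp_log (hc i).1]
  have hcne : ∀ i, algebraMap ℝ ℍ[ℝ] (c i) ≠ 0 := fun i => by
    rw [Ne, map_eq_zero]; exact (hc i).1.ne'
  refine ⟨g.1.val 0 1 * (algebraMap ℝ ℍ[ℝ] (c 1))⁻¹, g.1.val 0 2 * (algebraMap ℝ ℍ[ℝ] (c 2))⁻¹,
    g.1.val 1 2 * (algebraMap ℝ ℍ[ℝ] (c 2))⁻¹, fun i => Real.log (c i), ?_⟩
  apply Subtype.ext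
  apply Units.ext
  ext1 i j
  rw [val_sl2, hs]
  have h0 : ∀ i j : Fin 3, j < i → g.1.val i j = 0 := fun i j hij => htri.1 i j hij
  fin_cases i <;> fin_cases j
  · simpa using (hc 0).2
  · change g.1.val 0 1 = (g.1.val 0 1 * (algebraMap ℝ ℍ[ℝ] (c 1))⁻¹) * algebraMap ℝ ℍ[ℝ] (c 1)
    rw [mul_assoc, inv_mul_cancel₀ (hcne 1), mul_one]
  · change g.1.val 0 2 = (g.1.val 0 2 * (algebraMap ℝ ℍ[ℝ] (c 2))⁻¹) * algebraMap ℝ ℍ[ℝ] (c 2)
    rw [mul_assoc, inv_mul_cancel₀ (hcne 2), mul_one]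
  · simpa using h0 1 0 (by decide)
  · simpa using (hc 1).2
  · change g.1.val 1 2 = (g.1.val 1 2 * (algebraMap ℝ ℍ[ℝ] (c 2))⁻¹) * algebraMap ℝ ℍ[ℝ] (c 2)
    rw [mul_assoc, inv_mul_cancel₀ (hcne 2), mul_one]
  · simpa using h0 2 0 (by decide)
  · simpa using h0 2 1 (by decide)
  · simpa using (hc 2).2

/-- linear maps as continuous linear maps -/
noncomputable def cE : (Module.End ℝ JJ)ˣ →* (JJ →L[ℝ] JJ)ˣ :=
  Units.map (Module.End.toContinuousLinearMap JJ).toMulEquiv.toMonoidHom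

theorem cE_apply (g : (Module.End ℝ JJ)ˣ) (X : JJ) : (cE g : JJ →L[ℝ] JJ) X = g.val X := rfl

theorem rhoU_mem (g : ANSL 2 ℍ[ℝ]) : cE (rhoU g.1) ∈ ANE6 := by
  obtain ⟨α, β, γ, s, rfl⟩ := sl2_decomp g
  have hr : ∀ (i j : Fin 3) (hij : i < j) (z : ℍ[ℝ]),
      cE (rhoU (rt (n := 2) hij z : ANSL 2 ℍ[ℝ]).1) ∈ ANE6 := by
    intro i j hij z
    change cE (rhoU (rtU (n := 2) hij z)) ∈ ANE6
    rw [rhoU_rt]
    exact Subgroup.subset_closure (Or.inr ⟨i, j, _, hij, fun X => rfl⟩)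
  have ht : cE (rhoU (tor ℍ[ℝ] (n := 2) s).1) ∈ ANE6 := by
    change cE (rhoU (torU ℍ[ℝ] (n := 2) s)) ∈ ANE6
    rw [rhoU_tor]
    exact Subgroup.subset_closure (Or.inl ⟨_, tval_pos (n := 2) s, tval_prod (n := 2) s,
      fun X => rfl⟩)
  change cE (rhoU (_ * _ * _ * _)) ∈ ANE6
  rw [map_mul, map_mul, map_mul, map_mul, map_mul, map_mul]
  exact mul_mem (mul_mem (mul_mem (hr _ _ _ _) (hr _ _ _ _)) (hr _ _ _ _)) ht

end Pool.Agent.ANM65
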