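import Pool.Agent.ANM65.OctDom
import Pool.Agent.ANM65.Comp

/-!
# `A₁N₁` of `SL_3(ℍ)` is quasi-isometrically embedded in `A₁N₁` of `E_6(-26)`
-/

namespace Pool.Agent.ANM65

open Matrix Pool.Agent.ANM51
open scoped Quaternion

set_option linter.unusedSectionVars false

/-- Quasi-isometric embeddings. -/
def IsQIEmb {X Y : Type} (dX : X → X → ℝ) (dY : Y → Y → ℝ) (f : X → Y) : Prop :=
  ∃ K C : ℝ, 1 ≤ K ∧ 0 ≤ C ∧ ∀ x y : X,
    dX x y / K - C ≤ dY (f x) (f y) ∧ dY (f x) (f y) ≤ K * dX x y + C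

theorem IsQIEmb.comp {X Y Z : Type} {dX : X → X → ℝ} {dY : Y → Y → ℝ} {dZ : Z → Z → ℝ}
    {f : X → Y} {g : Y → Z} (hg : IsQIEmb dY dZ g) (hf : IsQIEmb dX dY f) :
    IsQIEmb dX dZ (g ∘ f) := by
  obtain ⟨K, C, hK, hC, h⟩ := hf
  obtain ⟨K', C', hK', hC', h'⟩ := hg
  have hK0 : 0 < K := by linarith
  have hK0' : 0 < K' := by linarith
  refine ⟨K * K', K' * C + C / K' + C', by nlinarith, by positivity, fun x y => ?_⟩
  obtain ⟨h1, h2⟩ := h x y
  obtain ⟨h3, h4⟩ := h' (f x) (f y)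
  constructor
  · have h5 : (dX x y / K - C) / K' ≤ dY (f x) (f y) / K' :=
      div_le_div_of_nonneg_right h1 hK0'.le
    have h6 : (dX x y / K - C) / K' = dX x y / (K * K') - C / K' := by
      rw [sub_div, div_div]
    have h7 : 0 ≤ K' * C := by positivity
    change dX x y / (K * K') - (K' * C + C / K' + C') ≤ dZ (g (f x)) (g (f y))
    linarith
  · have h5 : K' * dY (f x) (f y) ≤ K' * (K * dX x y + C) := mul_le_mul_of_nonneg_left h2 hK0'.le
    have h6 : 0 ≤ C / K' := by positivity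
    change dZ (g (f x)) (g (f y)) ≤ K * K' * dX x y + (K' * C + C / K' + C')
    linarith

theorem oo_norm_le (a b : ℍ[ℝ]) : ‖oo a b‖ ≤ ‖a‖ + ‖b‖ := by
  rw [WithLp.prod_norm_eq_of_L2, oo_fst, oo_snd, Real.sqrt_le_left (by positivity)]
  nlinarith [norm_nonneg a, norm_nonneg b]

theorem MO_norm_le (X : MO) {c : ℝ} (h : ∀ k l, ‖X (k, l)‖ ≤ c) : ‖X‖ ≤ 9 * c := by
  have h3 : X = ∑ i, (PiLp.single 2 i (X i) : MO) := by
    ext k
    simp
  calc ‖X‖ = ‖∑ i, (PiLp.single 2 i (X i) : MO)‖ := by rw [← h3]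
    _ ≤ ∑ i, ‖(PiLp.single 2 i (X i) : MO)‖ := norm_sum_le _ _
    _ = ∑ i, ‖X i‖ := by simp
    _ ≤ ∑ _i : Fin 3 × Fin 3, c := Finset.sum_le_sum fun i _ => h i.1 i.2
    _ = 9 * c := by rw [Finset.sum_const, Finset.card_univ]; simp

theorem fst_le (X : MO) (k l : Fin 3) : ‖(X (k, l)).fst‖ ≤ ‖X‖ :=
  (WithLp.norm_fst_le _ _).trans (PiLp.norm_apply_le X (k, l))

theorem snd_le (X : MO) (k l : Fin 3) : ‖(X (k, l)).snd‖ ≤ ‖X‖ :=
  (WithLp.norm_snd_le _ _).trans (PiLp.norm_apply_le X (k, l))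

theorem wpart_le (X : MO) (k : Fin 3) : ‖wpart X k‖ ≤ ‖X‖ := by
  fin_cases k
  · exact snd_le X 1 2
  · exact snd_le X 2 0
  · exact snd_le X 0 1

theorem bmat_le {w : Fin 3 → ℍ[ℝ]} {c : ℝ} (hc : 0 ≤ c) (h : ∀ k, ‖w k‖ ≤ c) (k l : Fin 3) :
    ‖bmat w k l‖ ≤ c := by
  fin_cases k <;> fin_cases l <;> simp [bmat, hc, h]

theorem mkJ_norm_le {A : Matrix (Fin 3) (Fin 3) ℍ[ℝ]} {w : Fin 3 → ℍ[ℝ]} {c : ℝ} (hc : 0 ≤ c)
    (hA : ∀ k l, ‖A k l‖ ≤ c) (hw : ∀ k, ‖w k‖ ≤ c) : ‖mkJ A w‖ ≤ 18 * c := by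
  refine (MO_norm_le (mkJ A w) (c := 2 * c) fun k l => ?_).trans (by linarith)
  rw [mkJ_apply]
  refine (oo_norm_le _ _).trans ?_
  have h1 := hA k l
  have h2 := bmat_le hc hw k l
  linarith

theorem rhoJ_norm_le {g g' : Matrix (Fin 3) (Fin 3) ℍ[ℝ]} {R : ℝ} (hR : 1 ≤ R)
    (hg : ∀ k l, ‖g k l‖ ≤ R) (hg' : ∀ k l, ‖g' k l‖ ≤ R) (X : JJ) :
    ‖rhoJ g g' X‖ ≤ (162 * R ^ 2) * ‖X‖ := by
  have hX : (0 : ℝ) ≤ ‖X.1‖ := norm_nonneg _
  have hR0 : 0 ≤ R := by linarith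
  change ‖mkJ (g * apart X.1 * gᴴ) (wpart X.1 ᵥ* g')‖ ≤ (162 * R ^ 2) * ‖X.1‖
  refine (mkJ_norm_le (c := 9 * R ^ 2 * ‖X.1‖) (by positivity) (fun k l => ?_) fun k => ?_).trans
    (by linarith)
  · rw [Matrix.mul_apply]
    refine (norm_sum_le _ _).trans ?_
    have h1 : ∀ a, ‖(g * apart X.1) k a‖ ≤ 3 * R * ‖X.1‖ := by
      intro a
      rw [Matrix.mul_apply]
      refine (norm_sum_le _ _).trans ?_
      calc _ ≤ ∑ _b : Fin 3, R * ‖X.1‖ := Finset.sum_le_sum fun b _ => by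
            rw [norm_mul]
            exact mul_le_mul (hg k b) (fst_le X.1 b a) (norm_nonneg _) hR0
        _ = _ := by rw [Finset.sum_const, Finset.card_univ, nsmul_eq_mul, Fintype.card_fin]; ring
    calc _ ≤ ∑ _a : Fin 3, (3 * R * ‖X.1‖) * R := Finset.sum_le_sum fun a _ => by
          rw [norm_mul, Matrix.conjTranspose_apply, norm_star]
          exact mul_le_mul (h1 a) (hg l a) (norm_nonneg _) (by positivity)
      _ = _ := by rw [Finset.sum_const, Finset.card_univ, nsmul_eq_mul, Fintype.card_fin]; ring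
  · rw [Matrix.vecMul, dotProduct]
    refine (norm_sum_le _ _).trans ?_
    calc _ ≤ ∑ _a : Fin 3, ‖X.1‖ * R := Finset.sum_le_sum fun a _ => by
          rw [norm_mul]
          exact mul_le_mul (wpart_le X.1 a) (hg' a k) (norm_nonneg _) hX
      _ = 3 * R * ‖X.1‖ := by
          rw [Finset.sum_const, Finset.card_univ, nsmul_eq_mul, Fintype.card_fin]; ring
      _ ≤ 9 * R ^ 2 * ‖X.1‖ := by
          refine mul_le_mul_of_nonneg_right ?_ hX
          nlinarith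

/-- The distance of `E_6(-26)`: the norm of the vector of the logarithms of the singular values of
`g⁻¹ h` as an operator of the Euclidean space `H_3(𝕆)`. -/
noncomputable def dE6 (g h : (JJ →L[ℝ] JJ)ˣ) : ℝ :=
  symLen (E := JJ) ((g⁻¹ * h : (JJ →L[ℝ] JJ)ˣ) : JJ →L[ℝ] JJ).toLinearMap

theorem symLen_rhoU_le {g : (Matrix (Fin 3) (Fin 3) ℍ[ℝ])ˣ} {R : ℝ} (hR : 1 ≤ R)
    (h : Bd R g) : symLen (E := JJ) (rhoU g).val ≤
      Real.sqrt (Module.finrank ℝ JJ) * Real.log (162 * R ^ 2) := by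
  have h1 := rhoJ_norm_le hR (fun k l => (h k l).1) (fun k l => (h k l).2)
  have h2 := rhoJ_norm_le hR (fun k l => (h k l).2) (fun k l => (h k l).1)
  refine symLen_le _ (by nlinarith) h1 fun X => ?_
  have h3 := h2 ((rhoU g).val X)
  have h4 : rhoJ (g⁻¹).val g.val ((rhoU g).val X) = X := by
    have h5 : (rhoU g⁻¹).val * (rhoU g).val = 1 := by
      rw [← Units.val_mul, ← map_mul, inv_mul_cancel, map_one, Units.val_one]
    have h6 := congrArg (fun f : Module.End ℝ JJ => f X) h5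
    rw [rhoU_val g⁻¹, inv_inv] at h6
    exact h6
  rwa [h4] at h3

theorem rhoU_injective (g : (Matrix (Fin 3) (Fin 3) ℍ[ℝ])ˣ) :
    Function.Injective ((rhoU g).val : JJ →ₗ[ℝ] JJ) := by
  intro X Y h
  have h5 : (rhoU g⁻¹).val * (rhoU g).val = 1 := by
    rw [← Units.val_mul, ← map_mul, inv_mul_cancel, map_one, Units.val_one]
  have h6 := congrArg (fun f : Module.End ℝ JJ => f X) h5
  have h7 := congrArg (fun f : Module.End ℝ JJ => f Y) h5
  change (rhoU g⁻¹).val ((rhoU g).val X) = X at h6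
  change (rhoU g⁻¹).val ((rhoU g).val Y) = Y at h7
  rw [← h6, ← h7, h]

theorem bd_of_rhoU (g : (Matrix (Fin 3) (Fin 3) ℍ[ℝ])ˣ) :
    Bd (18 * Real.exp (symLen (E := JJ) (rhoU g).val)) g := by
  set s := symLen (E := JJ) (rhoU g).val with hs
  have hs0 : 0 ≤ s := symLen_nonneg _
  have he : 1 ≤ Real.exp s := Real.one_le_exp hs0
  have key := norm_le_exp (E := JJ) (rhoU g).val
  intro k l
  constructor
  · -- apply to the identity
    let X : JJ := ⟨mkJ 1 0, mkJ_mem (by simp) 0⟩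
    have hX : ‖X‖ ≤ 18 := by
      have h1 : ‖mkJ 1 0‖ ≤ 18 * 1 := mkJ_norm_le zero_le_one (fun a b => by
        by_cases h : a = b
        · rw [h, Matrix.one_apply_eq, norm_one]
        · rw [Matrix.one_apply_ne h, norm_zero]; exact zero_le_one) (fun a => by
          rw [Pi.zero_apply, norm_zero]; exact zero_le_one)
      rw [mul_one] at h1
      exact h1
    have h1 := key X
    rw [← hs] at h1
    have h2 : ((((rhoU g).val : JJ →ₗ[ℝ] JJ) X).1 (k, k)).fst =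
        ((∑ a, ‖g.val k a‖ ^ 2 : ℝ) : ℍ[ℝ]) := by
      change (g.val * apart (mkJ 1 0) * (g.val)ᴴ) k k = _
      have hc : ((∑ a, ‖g.val k a‖ ^ 2 : ℝ) : ℍ[ℝ]) = ∑ a, ((‖g.val k a‖ ^ 2 : ℝ) : ℍ[ℝ]) :=
        map_sum (algebraMap ℝ ℍ[ℝ]) (fun a => ‖g.val k a‖ ^ 2) Finset.univ
      rw [apart_mkJ, mul_one, Matrix.mul_apply, hc]
      refine Finset.sum_congr rfl fun a _ => ?_
      rw [Matrix.conjTranspose_apply, Quaternion.self_mul_star, Quaternion.normSq_eq_norm_mul_self,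
        sq]
    have h3 : (∑ a, ‖g.val k a‖ ^ 2 : ℝ) ≤ 18 * Real.exp s := by
      have h4 : ‖((((rhoU g).val : JJ →ₗ[ℝ] JJ) X).1 (k, k)).fst‖ ≤
          ‖((rhoU g).val : JJ →ₗ[ℝ] JJ) X‖ := fst_le _ k k
      rw [h2, Quaternion.norm_coe, Real.norm_of_nonneg
        (Finset.sum_nonneg fun a _ => sq_nonneg _)] at h4
      have h5 : Real.exp s * ‖X‖ ≤ Real.exp s * 18 :=
        mul_le_mul_of_nonneg_left hX (Real.exp_pos s).le
      linarith
    have h4 : ‖g.val k l‖ ^ 2 ≤ ∑ a, ‖g.val k a‖ ^ 2 :=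
      Finset.single_le_sum (f := fun a => ‖g.val k a‖ ^ 2) (fun a _ => sq_nonneg _)
        (Finset.mem_univ l)
    refine abs_le_of_sq_le_sq' ?_ (by positivity) |>.2
    nlinarith
  · let X : JJ := ⟨mkJ 0 (Pi.single k 1), mkJ_mem (by simp) _⟩
    have hX : ‖X‖ ≤ 18 := by
      have h1 : ‖mkJ 0 (Pi.single k 1)‖ ≤ 18 * 1 := mkJ_norm_le zero_le_one (fun a b => by
        rw [Matrix.zero_apply, norm_zero]; exact zero_le_one) (fun a => by
          by_cases h : a = k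
          · rw [h, Pi.single_eq_same, norm_one]
          · rw [Pi.single_eq_of_ne h, norm_zero]; exact zero_le_one)
      rw [mul_one] at h1
      exact h1
    have h1 := key X
    rw [← hs] at h1
    have h2 : wpart (((rhoU g).val : JJ →ₗ[ℝ] JJ) X).1 l = (g⁻¹).val k l := by
      change wpart (mkJ _ (wpart (mkJ 0 (Pi.single k 1)) ᵥ* (g⁻¹).val)) l = _
      rw [wpart_mkJ, wpart_mkJ, Matrix.single_one_vecMul]
      rfl
    have h3 := wpart_le (((rhoU g).val : JJ →ₗ[ℝ] JJ) X).1 l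
    rw [h2] at h3
    have h4 : Real.exp s * ‖X‖ ≤ Real.exp s * 18 :=
      mul_le_mul_of_nonneg_left hX (Real.exp_pos s).le
    have h5 : ‖(((rhoU g).val : JJ →ₗ[ℝ] JJ) X).1‖ ≤ Real.exp s * ‖X‖ := h1
    linarith

/-- The embedding of `A₁N₁` of `SL_3(ℍ)` in `A₁N₁` of `E_6(-26)`. -/
noncomputable def rhoE (g : ANSL 2 ℍ[ℝ]) : ANE6 := ⟨cE (rhoU g.1), rhoU_mem g⟩

theorem rhoE_qi : IsQIEmb (fun x y : ANSL 2 ℍ[ℝ] => dX x.1 y.1) (fun x y : ANE6 => dE6 x.1 y.1)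
    rhoE := by
  have hfr : ∀ m : ℕ, 0 ≤ Real.sqrt m := fun m => Real.sqrt_nonneg _
  set a := Real.sqrt (Module.finrank ℝ JJ) with ha
  set b := Real.sqrt (Module.finrank ℝ (PiLp 2 (fun _ : Fin (2 + 1) => ℍ[ℝ]))) with hb
  have ha0 : 0 ≤ a := hfr _
  have hb0 : 0 ≤ b := hfr _
  have hl1 : 0 ≤ Real.log 162 := Real.log_nonneg (by norm_num)
  have hl2 : 0 ≤ Real.log 180 := Real.log_nonneg (by norm_num)
  refine ⟨1 + 2 * a + b, a * Real.log 162 + b * Real.log 180, by linarith,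
    by positivity, fun x y => ?_⟩
  have hval : dE6 (rhoE x).1 (rhoE y).1 = symLen (E := JJ) (rhoU (x.1⁻¹ * y.1)).val := by
    have h1 : (rhoE x).1⁻¹ * (rhoE y).1 = cE (rhoU (x.1⁻¹ * y.1)) := by
      rw [map_mul, map_mul, map_inv, map_inv]
      rfl
    rw [dE6, h1]
    rfl
  change dX x.1 y.1 / _ - _ ≤ dE6 (rhoE x).1 (rhoE y).1 ∧
    dE6 (rhoE x).1 (rhoE y).1 ≤ _ * dX x.1 y.1 + _
  rw [hval]
  set s := symLen (E := JJ) (rhoU (x.1⁻¹ * y.1)).val with hs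
  set t := dX x.1 y.1 with ht
  have hs0 : 0 ≤ s := symLen_nonneg _
  have ht0 : 0 ≤ t := symLen_nonneg _
  constructor
  · have h1 := symLen_le_of_bd (g := x.1⁻¹ * y.1) (R := 18 * Real.exp s)
      (by have := Real.one_le_exp hs0; linarith) (bd_of_rhoU _)
    have h2 : (1 + (Fintype.card (Fin (2 + 1)) : ℝ) * Fintype.card (Fin (2 + 1))) *
        (18 * Real.exp s) = 180 * Real.exp s := by
      rw [Fintype.card_fin]; push_cast; ring
    rw [h2, Real.log_mul (by norm_num) (Real.exp_pos s).ne', Real.log_exp] at h1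
    have h3 : t ≤ b * (Real.log 180 + s) := h1
    have h4 : 0 ≤ b * Real.log 180 := by positivity
    have h5 : 0 ≤ a * Real.log 162 := by positivity
    have hK : 0 < 1 + 2 * a + b := by linarith
    have h6 : t / (1 + 2 * a + b) ≤ s + b * Real.log 180 := by
      rw [div_le_iff₀ hK]
      have h7 : b * Real.log 180 ≤ b * Real.log 180 * (1 + 2 * a + b) :=
        le_mul_of_one_le_right h4 (by linarith)
      nlinarith
    linarith
  · have h1 := symLen_rhoU_le (g := x.1⁻¹ * y.1) (R := Real.exp t) (Real.one_le_exp ht0)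
      (bd_of_symLen _)
    rw [Real.log_mul (by norm_num) (by positivity), Real.log_pow, Real.log_exp] at h1
    have h2 : s ≤ a * (Real.log 162 + 2 * t) := by
      push_cast at h1
      exact h1
    have h4 : 0 ≤ b * Real.log 180 := by positivity
    nlinarith

end Pool.Agent.ANM65
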