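import Pool.Agent.ANM65.Oct

/-!
# The representation of quaternionic matrices on `H_3(𝕆) = H_3(ℍ) ⊕ ℍ³`
-/

namespace Pool.Agent.ANM65

open Matrix Pool.Agent.ANM51
open scoped Quaternion

set_option linter.unusedSectionVars false

/-- the quaternionic part of a matrix of octonions -/
noncomputable def apart (X : MO) : Matrix (Fin 3) (Fin 3) ℍ[ℝ] := fun k l => (X (k, l)).fst

/-- the vector of the second components -/
noncomputable def wpart (X : MO) : Fin 3 → ℍ[ℝ] := ![(X (1, 2)).snd, (X (2, 0)).snd, (X (0, 1)).snd]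

/-- the antisymmetric matrix of a vector -/
noncomputable def bmat (w : Fin 3 → ℍ[ℝ]) : Matrix (Fin 3) (Fin 3) ℍ[ℝ] :=
  !![0, w 2, -w 1; -w 2, 0, w 0; w 1, -w 0, 0]

/-- a matrix of octonions from its two parts -/
noncomputable def mkJ (A : Matrix (Fin 3) (Fin 3) ℍ[ℝ]) (w : Fin 3 → ℍ[ℝ]) : MO :=
  WithLp.toLp 2 fun kl : Fin 3 × Fin 3 => oo (A kl.1 kl.2) (bmat w kl.1 kl.2)

theorem mkJ_apply (A : Matrix (Fin 3) (Fin 3) ℍ[ℝ]) (w : Fin 3 → ℍ[ℝ]) (k l : Fin 3) :
    mkJ A w (k, l) = oo (A k l) (bmat w k l) := rfl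

theorem apart_mkJ (A : Matrix (Fin 3) (Fin 3) ℍ[ℝ]) (w : Fin 3 → ℍ[ℝ]) :
    apart (mkJ A w) = A := rfl

theorem wpart_mkJ (A : Matrix (Fin 3) (Fin 3) ℍ[ℝ]) (w : Fin 3 → ℍ[ℝ]) :
    wpart (mkJ A w) = w := by
  funext k
  fin_cases k <;> rfl

theorem bmat_add (v w : Fin 3 → ℍ[ℝ]) : bmat (v + w) = bmat v + bmat w := by
  ext1 k l
  fin_cases k <;> fin_cases l <;> simp [bmat] <;> abel

theorem bmat_smul (r : ℝ) (w : Fin 3 → ℍ[ℝ]) : bmat (r • w) = r • bmat w := by
  ext1 k l
  fin_cases k <;> fin_cases l <;> simp [bmat]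

theorem bmat_antisymm (w : Fin 3 → ℍ[ℝ]) (k l : Fin 3) : bmat w l k = -bmat w k l := by
  fin_cases k <;> fin_cases l <;> simp [bmat]

theorem mkJ_mem {A : Matrix (Fin 3) (Fin 3) ℍ[ℝ]} (hA : Aᴴ = A) (w : Fin 3 → ℍ[ℝ]) :
    mkJ A w ∈ JJ := by
  intro k l
  refine oo_ext ?_ ?_
  · rw [mkJ_apply, mkJ_apply, oconj_fst, oo_fst, oo_fst]
    nth_rewrite 1 [← hA]
    rfl
  · rw [mkJ_apply, mkJ_apply, oconj_snd, oo_snd, oo_snd, bmat_antisymm]

theorem apart_herm {X : MO} (hX : X ∈ JJ) : (apart X)ᴴ = apart X := by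
  ext1 k l
  rw [Matrix.conjTranspose_apply]
  change star (X (l, k)).fst = (X (k, l)).fst
  rw [hX l k]
  rfl

theorem mkJ_parts {X : MO} (hX : X ∈ JJ) : mkJ (apart X) (wpart X) = X := by
  ext1 ⟨k, l⟩
  have h0 : ∀ i, (X (i, i)).snd = 0 := by
    intro i
    rw [diag_real hX i]
    simp [oone]
  have h1 : ∀ i j, (X (j, i)).snd = -(X (i, j)).snd := fun i j => by rw [hX i j]; rfl
  rw [mkJ_apply]
  refine oo_ext rfl ?_
  rw [oo_snd]
  fin_cases k <;> fin_cases l
  · simp [bmat, h0]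
  · simp [bmat, wpart]
  · change -(X (2, 0)).snd = (X (0, 2)).snd
    rw [h1 2 0]
  · change -(X (0, 1)).snd = (X (1, 0)).snd
    rw [h1 0 1]
  · simp [bmat, h0]
  · simp [bmat, wpart]
  · simp [bmat, wpart]
  · change -(X (1, 2)).snd = (X (2, 1)).snd
    rw [h1 1 2]
  · simp [bmat, h0]

theorem apart_add (X Y : MO) : apart (X + Y) = apart X + apart Y := rfl

theorem apart_smul (r : ℝ) (X : MO) : apart (r • X) = r • apart X := rfl

theorem wpart_add (X Y : MO) : wpart (X + Y) = wpart X + wpart Y := by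
  funext k
  fin_cases k <;> rfl

theorem wpart_smul (r : ℝ) (X : MO) : wpart (r • X) = r • wpart X := by
  funext k
  fin_cases k <;> rfl

theorem mkJ_add (A A' : Matrix (Fin 3) (Fin 3) ℍ[ℝ]) (w w' : Fin 3 → ℍ[ℝ]) :
    mkJ (A + A') (w + w') = mkJ A w + mkJ A' w' := by
  ext1 ⟨k, l⟩
  refine oo_ext rfl ?_
  rw [mkJ_apply, oo_snd, bmat_add]
  rfl

theorem mkJ_smul (r : ℝ) (A : Matrix (Fin 3) (Fin 3) ℍ[ℝ]) (w : Fin 3 → ℍ[ℝ]) :
    mkJ (r • A) (r • w) = r • mkJ A w := by
  ext1 ⟨k, l⟩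
  refine oo_ext rfl ?_
  rw [mkJ_apply, oo_snd, bmat_smul]
  rfl

theorem smul_vecMul' (r : ℝ) (w : Fin 3 → ℍ[ℝ]) (M : Matrix (Fin 3) (Fin 3) ℍ[ℝ]) :
    (r • w) ᵥ* M = r • (w ᵥ* M) := by
  funext k
  simp only [Matrix.vecMul, dotProduct, Pi.smul_apply, Finset.smul_sum, smul_mul_assoc]

/-- `(A, w) ↦ (g A g^*, w g')` on `H_3(𝕆)` -/
noncomputable def rhoJ (g g' : Matrix (Fin 3) (Fin 3) ℍ[ℝ]) : JJ →ₗ[ℝ] JJ where
  toFun X := ⟨mkJ (g * apart X.1 * gᴴ) (wpart X.1 ᵥ* g'), mkJ_mem (by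
    rw [Matrix.conjTranspose_mul, Matrix.conjTranspose_mul, Matrix.conjTranspose_conjTranspose,
      apart_herm X.2, mul_assoc]) _⟩
  map_add' X Y := by
    apply Subtype.ext
    change mkJ (g * apart (X.1 + Y.1) * gᴴ) (wpart (X.1 + Y.1) ᵥ* g') = _
    rw [apart_add, wpart_add, mul_add, add_mul, Matrix.add_vecMul, mkJ_add]
    rfl
  map_smul' r X := by
    apply Subtype.ext
    change mkJ (g * apart (r • X.1) * gᴴ) (wpart (r • X.1) ᵥ* g') = _
    rw [apart_smul, wpart_smul, mul_smul_comm, smul_mul_assoc, smul_vecMul', mkJ_smul]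
    rfl

theorem rhoJ_apply (g g' : Matrix (Fin 3) (Fin 3) ℍ[ℝ]) (X : JJ) :
    (rhoJ g g' X).1 = mkJ (g * apart X.1 * gᴴ) (wpart X.1 ᵥ* g') := rfl

theorem rhoJ_mul (g g' h h' : Matrix (Fin 3) (Fin 3) ℍ[ℝ]) :
    rhoJ (g * h) (h' * g') = rhoJ g g' * rhoJ h h' := by
  ext1 X
  apply Subtype.ext
  change _ = (rhoJ g g' (rhoJ h h' X)).1
  rw [rhoJ_apply, rhoJ_apply, rhoJ_apply, apart_mkJ, wpart_mkJ, Matrix.vecMul_vecMul,
    Matrix.conjTranspose_mul]
  congr 1
  simp only [mul_assoc]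

theorem rhoJ_one : rhoJ 1 1 = 1 := by
  ext1 X
  apply Subtype.ext
  rw [rhoJ_apply, Matrix.conjTranspose_one, one_mul, mul_one, Matrix.vecMul_one, mkJ_parts X.2]
  rfl

/-- the representation of the group of invertible quaternionic matrices -/
noncomputable def rhoU : (Matrix (Fin 3) (Fin 3) ℍ[ℝ])ˣ →* (Module.End ℝ JJ)ˣ where
  toFun g :=
    { val := rhoJ g.val (g⁻¹).val
      inv := rhoJ (g⁻¹).val g.val
      val_inv := by rw [← rhoJ_mul, Units.mul_inv, rhoJ_one]
      inv_val := by rw [← rhoJ_mul, Units.inv_mul, rhoJ_one] }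
  map_one' := by
    apply Units.ext
    change rhoJ (1 : (Matrix (Fin 3) (Fin 3) ℍ[ℝ])ˣ).val _ = 1
    rw [inv_one, Units.val_one, rhoJ_one]
  map_mul' g h := by
    apply Units.ext
    change rhoJ (g * h).val ((g * h)⁻¹).val = rhoJ g.val (g⁻¹).val * rhoJ h.val (h⁻¹).val
    rw [_root_.mul_inv_rev, Units.val_mul, Units.val_mul, rhoJ_mul]

theorem rhoU_val (g : (Matrix (Fin 3) (Fin 3) ℍ[ℝ])ˣ) : (rhoU g).val = rhoJ g.val (g⁻¹).val := rfl

/-- the representation restricted to root elements -/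
theorem rhoU_rt {i j : Fin 3} (hij : i < j) (z : ℍ[ℝ]) :
    rhoU (rtU (n := 2) hij z) = TU (ne_of_lt hij) (oo z 0) := by
  apply Units.ext
  rw [rhoU_val]
  change rhoJ (rtM (n := 2) i j z) (rtM (n := 2) i j (-z)) = TJ i j (oo z 0)
  ext1 X
  apply Subtype.ext
  rw [rhoJ_apply]
  change _ = tmap i j (oo z 0) X.1
  ext1 ⟨k, l⟩
  have hfst : (rtM (n := 2) i j z * apart X.1 * (rtM (n := 2) i j z)ᴴ) k l =
      (tmap i j (oo z 0) X.1 (k, l)).fst := by
    have h1 : rtM (n := 2) i j z * apart X.1 * (rtM (n := 2) i j z)ᴴ = apart X.1 +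
        Matrix.single i j z * apart X.1 + apart X.1 * Matrix.single j i (star z) +
        Matrix.single i j z * apart X.1 * Matrix.single j i (star z) := by
      rw [rtM, Matrix.conjTranspose_add, Matrix.conjTranspose_one, Matrix.conjTranspose_single]
      simp only [add_mul, mul_add, one_mul, mul_one]
      abel
    rw [h1, tmap_apply]
    simp only [Matrix.add_apply]
    have e1 : (Matrix.single i j z * apart X.1) k l =
        (if k = i then omul (oo z 0) (X.1 (j, l)) else 0).fst := by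
      by_cases hk : k = i
      · subst hk
        rw [Matrix.single_mul_apply_same, if_pos rfl]
        simp [apart]
      · rw [Matrix.single_mul_apply_of_ne _ _ _ _ _ hk, if_neg hk]
        rfl
    have e2 : (apart X.1 * Matrix.single j i (star z)) k l =
        (if l = i then omul (X.1 (k, j)) (oconj (oo z 0)) else 0).fst := by
      by_cases hl : l = i
      · subst hl
        rw [Matrix.mul_single_apply_same, if_pos rfl]
        simp [apart]
      · rw [Matrix.mul_single_apply_of_ne _ _ _ _ _ hl, if_neg hl]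
        rfl
    have e3 : (Matrix.single i j z * apart X.1 * Matrix.single j i (star z)) k l =
        (if k = i ∧ l = i then omul (omul (oo z 0) (X.1 (j, j))) (oconj (oo z 0)) else 0).fst := by
      by_cases hl : l = i
      · subst hl
        rw [Matrix.mul_single_apply_same]
        by_cases hk : k = l
        · subst hk
          rw [Matrix.single_mul_apply_same, if_pos ⟨rfl, rfl⟩]
          simp [apart]
        · rw [Matrix.single_mul_apply_of_ne _ _ _ _ _ hk, if_neg fun h => hk h.1, zero_mul]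
          rfl
      · rw [Matrix.mul_single_apply_of_ne _ _ _ _ _ hl, if_neg fun h => hl h.2]
        rfl
    rw [e1, e2, e3]
    rfl
  have hsnd : bmat (wpart X.1 ᵥ* rtM (n := 2) i j (-z)) k l =
      (tmap i j (oo z 0) X.1 (k, l)).snd := by
    have hX : ∀ a b, (X.1 (a, b)).snd = bmat (wpart X.1) a b := by
      intro a b
      nth_rewrite 1 [← mkJ_parts X.2]
      rfl
    have hw : ∀ m, (wpart X.1 ᵥ* rtM (n := 2) i j (-z)) m =
        wpart X.1 m - (if m = j then wpart X.1 i * z else 0) := by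
      intro m
      rw [rtM, Matrix.vecMul_add, Matrix.vecMul_one, Pi.add_apply, sub_eq_add_neg]
      congr 1
      rw [Matrix.vecMul, dotProduct, Finset.sum_eq_single i]
      · by_cases hm : m = j
        · subst hm
          rw [Matrix.single_apply_same, if_pos rfl, mul_neg]
        · rw [Matrix.single_apply_of_ne, if_neg hm, mul_zero, neg_zero]
          exact fun h => hm h.2.symm
      · intro b _ hb
        rw [Matrix.single_apply_of_ne, mul_zero]
        exact fun h => hb h.1.symm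
      · intro h; exact absurd (Finset.mem_univ _) h
    rw [tmap_apply]
    simp only [oo_add_snd]
    have e1 : (if k = i then omul (oo z 0) (X.1 (j, l)) else 0 : OO).snd =
        if k = i then bmat (wpart X.1) j l * z else 0 := by
      split_ifs
      · simp [hX]
      · rfl
    have e2 : (if l = i then omul (X.1 (k, j)) (oconj (oo z 0)) else 0 : OO).snd =
        if l = i then bmat (wpart X.1) k j * z else 0 := by
      split_ifs
      · simp [hX]
      · rfl
    have e3 : (if k = i ∧ l = i then omul (omul (oo z 0) (X.1 (j, j))) (oconj (oo z 0))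
        else 0 : OO).snd = 0 := by
      split_ifs
      · rw [diag_real X.2 j]
        simp [oone]
      · rfl
    rw [e1, e2, e3, hX, add_zero]
    simp only [bmat, hw]
    fin_cases i <;> fin_cases j <;> first
      | exact absurd hij (by decide)
      | (fin_cases k <;> fin_cases l <;> simp [sub_eq_add_neg, add_comm])
  refine oo_ext ?_ ?_
  · rw [mkJ_apply, oo_fst]; exact hfst
  · rw [mkJ_apply, oo_snd]; exact hsnd

end Pool.Agent.ANM65
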