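import Pool.Agent.ANM65.Lin
import Pool.Agent.ANM65.Hold

/-!
# Root patterns
-/

namespace Pool.Agent.ANM65

open Matrix Pool.Agent.ANM51

set_option linter.unusedSectionVars false

variable {n : ℕ}

section pat

variable {D : Type} [NormedDivisionRing D] [NormedAlgebra ℝ D]

/-- All off-diagonal entries vanish, except perhaps those at `(p, q)` and at its partner
`(q', p')`. -/
def Pat (p q : Fin n ⊕ Fin n) (g : Matrix (Fin n ⊕ Fin n) (Fin n ⊕ Fin n) D) : Prop :=
  ∀ a b, a ≠ b → g a b ≠ 0 → (a = p ∧ b = q) ∨ (a = q.swap ∧ b = p.swap)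

theorem swap_eq_iff {p q : Fin n ⊕ Fin n} : p.swap = q ↔ p = q.swap := by
  constructor
  · rintro rfl; rw [Sum.swap_swap]
  · rintro rfl; rw [Sum.swap_swap]

theorem swap_inj {p q : Fin n ⊕ Fin n} (h : p.swap = q.swap) : p = q := by
  rw [swap_eq_iff, Sum.swap_swap] at h; exact h

theorem Pat.mul_diag {p q : Fin n ⊕ Fin n} (hpq : p ≠ q)
    {g h : Matrix (Fin n ⊕ Fin n) (Fin n ⊕ Fin n) D} (hg : Pat p q g) (hh : Pat p q h)
    (a : Fin n ⊕ Fin n) : (g * h) a a = g a a * h a a := by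
  rw [Matrix.mul_apply, Finset.sum_eq_single a]
  · intro r _ hr
    by_contra hne
    have h1 := hg a r (Ne.symm hr) (left_ne_zero_of_mul hne)
    have h2 := hh r a hr (right_ne_zero_of_mul hne)
    rcases h1 with ⟨rfl, rfl⟩ | ⟨rfl, rfl⟩
    · rcases h2 with ⟨h3, -⟩ | ⟨h3, -⟩
      · exact hpq h3.symm
      · exact swap_ne h3.symm
    · rcases h2 with ⟨h3, -⟩ | ⟨h3, -⟩
      · exact swap_ne h3
      · exact hpq (swap_inj h3)
  · intro h; exact absurd (Finset.mem_univ _) h

theorem Pat.mul_pq {p q : Fin n ⊕ Fin n} (hpq : p ≠ q)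
    {g h : Matrix (Fin n ⊕ Fin n) (Fin n ⊕ Fin n) D} (hg : Pat p q g) :
    (g * h) p q = g p p * h p q + g p q * h q q := by
  rw [mul_apply_split g h hpq, Finset.sum_eq_zero, add_zero]
  intro r hr
  rw [Finset.mem_erase, Finset.mem_erase] at hr
  by_contra hne
  rcases hg p r (Ne.symm hr.2.1) (left_ne_zero_of_mul hne) with ⟨-, h1⟩ | ⟨h1, h2⟩
  · exact hr.1 h1
  · apply hr.1
    rw [h2, h1, Sum.swap_swap]

theorem Pat.diag {F : FormData D} {p q : Fin n ⊕ Fin n} (hpq : p ≠ q)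
    {g : Matrix (Fin n ⊕ Fin n) (Fin n ⊕ Fin n) D} (hg : Pat p q g)
    (hform : ctr F g * Jmat F n * g = Jmat F n) (a : Fin n ⊕ Fin n) :
    F.σ (g a a) * g a.swap a.swap = 1 := by
  have h1 := form_entry F (g := g) a a.swap
  rw [hform, Jmat_apply, if_pos rfl, Finset.sum_eq_single a] at h1
  · rw [Algebra.algebraMap_eq_smul_one] at h1
    exact (smul_right_injective D (jc_ne_zero F a) h1).symm
  · intro b _ hb
    have hb' : b.swap ≠ a.swap := fun h => hb (swap_inj h)
    by_contra hne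
    have h2 : F.σ (g b a) * g b.swap a.swap ≠ 0 := fun h => hne (by rw [h, smul_zero])
    have h3 : g b a ≠ 0 := fun h => h2 (by rw [h, map_zero, zero_mul])
    have h4 : g b.swap a.swap ≠ 0 := right_ne_zero_of_mul h2
    rcases hg b a hb h3 with ⟨rfl, rfl⟩ | ⟨rfl, rfl⟩
    · rcases hg _ _ hb' h4 with ⟨h5, -⟩ | ⟨h5, -⟩
      · exact swap_ne h5
      · exact hpq (swap_inj h5)
    · rw [Sum.swap_swap, Sum.swap_swap] at h4
      rcases hg _ _ (Ne.symm hpq) h4 with ⟨h5, -⟩ | ⟨h5, -⟩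
      · exact hpq h5.symm
      · exact swap_ne h5.symm
  · intro h; exact absurd (Finset.mem_univ _) h

theorem Pat.partner {F : FormData D} {p q : Fin n ⊕ Fin n} (hpq : p ≠ q)
    {g : Matrix (Fin n ⊕ Fin n) (Fin n ⊕ Fin n) D} (hg : Pat p q g)
    (hform : ctr F g * Jmat F n * g = Jmat F n) :
    jc F n q • (F.σ (g q q) * g q.swap p.swap) +
      jc F n p • (F.σ (g p q) * g p.swap p.swap) = 0 := by
  have h1 := form_entry F (g := g) q p.swap
  rw [hform, Jmat_apply, if_neg (fun h => hpq (swap_inj h)),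
    ← Finset.add_sum_erase _ _ (Finset.mem_univ q),
    ← Finset.add_sum_erase _ _ (Finset.mem_erase.2 ⟨hpq, Finset.mem_univ p⟩),
    Finset.sum_eq_zero, add_zero] at h1
  · exact h1.symm
  · intro a ha
    rw [Finset.mem_erase, Finset.mem_erase] at ha
    by_contra hne
    have h2 : F.σ (g a q) * g a.swap p.swap ≠ 0 := fun h => hne (by rw [h, smul_zero])
    have h3 : g a q ≠ 0 := fun h => h2 (by rw [h, map_zero, zero_mul])
    rcases hg a q ha.2.1 h3 with ⟨h4, -⟩ | ⟨h4, h5⟩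
    · exact ha.1 h4
    · apply ha.1
      rw [h4, h5, Sum.swap_swap]

theorem jc_norm (F : FormData D) (a : Fin n ⊕ Fin n) : ‖jc F n a‖ = 1 := by
  rcases a with i | i
  · rw [jc, norm_one]
  · rw [jc, norm_neg]
    rcases F.hε with h | h <;> rw [h] <;> norm_num

theorem jc_mul_swap (F : FormData D) (a : Fin n ⊕ Fin n) :
    jc F n a * jc F n a.swap = - F.ε := by
  rcases a with i | i
  · rw [Sum.swap_inl, jc, jc, one_mul]
  · rw [Sum.swap_inr, jc, jc, mul_one]

theorem jc_mul_self (F : FormData D) (a : Fin n ⊕ Fin n) : jc F n a * jc F n a = 1 := by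
  rcases a with i | i
  · rw [jc, one_mul]
  · rw [jc, neg_mul_neg, F.ε_mul_self]

theorem Pat.norm_partner {F : FormData D} {p q : Fin n ⊕ Fin n} (hpq : p ≠ q)
    {g : Matrix (Fin n ⊕ Fin n) (Fin n ⊕ Fin n) D} (hg : Pat p q g)
    (hform : ctr F g * Jmat F n * g = Jmat F n) :
    ‖g q q‖ * ‖g q.swap p.swap‖ = ‖g p q‖ * ‖g p.swap p.swap‖ := by
  have h := eq_neg_of_add_eq_zero_left (Pat.partner hpq hg hform)
  have h2 := congrArg norm h
  rwa [norm_neg, norm_smul, norm_smul, jc_norm, jc_norm, one_mul, one_mul, norm_mul, norm_mul,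
    F.norm_σ, F.norm_σ] at h2

theorem Pat.norm_diag {F : FormData D} {p q : Fin n ⊕ Fin n} (hpq : p ≠ q)
    {g : Matrix (Fin n ⊕ Fin n) (Fin n ⊕ Fin n) D} (hg : Pat p q g)
    (hform : ctr F g * Jmat F n * g = Jmat F n) (a : Fin n ⊕ Fin n) :
    ‖g a a‖ * ‖g a.swap a.swap‖ = 1 := by
  have h := congrArg norm (Pat.diag hpq hg hform a)
  rwa [norm_mul, F.norm_σ, norm_one] at h

end pat

/-- The root `wt p - wt q` corresponds to the root `s i - s j` under `T`. -/
structure RootAt (T : (Fin (n + 1) → ℝ) →ₗ[ℝ] (Fin n → ℝ)) (i j : Fin (n + 1))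
    (p q : Fin n ⊕ Fin n) (c : ℝ) : Prop where
  ne : p ≠ q
  pos : 0 < c
  eq : ∀ s, wl p (T s) - wl q (T s) = c * (s i - s j)

variable {D₁ D₂ : Type} [NormedDivisionRing D₁] [NormedAlgebra ℝ D₁]
  [NormedDivisionRing D₂] [NormedAlgebra ℝ D₂]

namespace CAN

variable {F : FormData D₂} {f : ANSL n D₁ → (Matrix (Fin n ⊕ Fin n) (Fin n ⊕ Fin n) D₂)ˣ}
  {T : (Fin (n + 1) → ℝ) →ₗ[ℝ] (Fin n → ℝ)} (hf : CAN F f T)

include hf

theorem root_of_entry {i j : Fin (n + 1)} (hij : i < j) {x : ANSL n D₁} {z : D₁}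
    {a b : Fin n ⊕ Fin n} (hab : a ≠ b) (hne : (G f hij x z).val a b ≠ 0) :
    ∃ c, RootAt T i j a b c := by
  have hz : z ≠ 0 := by
    rintro rfl
    rw [G_zero, Units.val_one, Matrix.one_apply_ne hab] at hne
    exact hne rfl
  have hz' : 0 < ‖z‖ := norm_pos_iff.2 hz
  obtain ⟨S, hS1, hS⟩ := hf.conj_bd
  have hg : 0 < ‖(G f hij x z).val a b‖ := norm_pos_iff.2 hne
  obtain ⟨c, hc, hcs⟩ := lin_of_bdd_below hij ((wl a - wl b) ∘ₗ T) (L := Real.log ‖z‖)
    (m := Real.log (‖(G f hij x z).val a b‖ / S)) (fun s hs => by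
      have h1 := (hS i j hij x z s (by
        rw [norm_smul, Real.norm_of_nonneg (Real.exp_pos _).le, ← Real.exp_log hz',
          ← Real.exp_add, Real.exp_le_one_iff]
        linarith) a b).1
      rw [conj_bor_entry, norm_smul, Real.norm_of_nonneg (Real.exp_pos _).le] at h1
      have h2 : ‖(G f hij x z).val a b‖ / S ≤ Real.exp (wl a (T s) - wl b (T s)) := by
        rw [div_le_iff₀ (by linarith)]
        calc ‖(G f hij x z).val a b‖ = Real.exp (wl a (T s) - wl b (T s)) *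
              (Real.exp (-(wl a (T s) - wl b (T s))) * ‖(G f hij x z).val a b‖) := by
              rw [← mul_assoc, ← Real.exp_add, add_neg_cancel, Real.exp_zero, one_mul]
          _ ≤ _ := mul_le_mul_of_nonneg_left h1 (Real.exp_pos _).le
      have h3 := Real.log_le_log (by positivity) h2
      rw [Real.log_exp] at h3
      exact h3)
  refine ⟨c, hab, lt_of_le_of_ne hc ?_, fun s => hcs s⟩
  rintro rfl
  obtain ⟨s, hs⟩ := hf.exists_T_ne hab
  apply hs
  have := hcs s
  rw [zero_mul] at this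
  exact this

theorem root_unique {i j : Fin (n + 1)} {p q p' q' : Fin n ⊕ Fin n} {c c' : ℝ}
    (h : RootAt T i j p q c) (h' : RootAt T i j p' q' c') :
    wt p - wt q = wt p' - wt q' ∧ c' = c := by
  refine root_prop h.ne h'.ne h'.pos h.pos ?_
  refine hf.vec_of_T fun s => ?_
  rw [h.eq, h'.eq]; ring

theorem pat {i j : Fin (n + 1)} (hij : i < j) {p q : Fin n ⊕ Fin n} {c : ℝ}
    (hr : RootAt T i j p q c) (x : ANSL n D₁) (z : D₁) : Pat p q (G f hij x z).val := by
  intro a b hab hne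
  obtain ⟨c', h'⟩ := hf.root_of_entry hij hab hne
  exact wt_sub_eq (hf.root_unique hr h').1 hr.ne

theorem exists_root {i j : Fin (n + 1)} (hij : i < j) : ∃ p q c, RootAt T i j p q c := by
  by_cases hcon : ∃ a b, a ≠ b ∧ (G f hij 1 (1 : D₁)).val a b ≠ 0
  · obtain ⟨a, b, hab, hne⟩ := hcon
    obtain ⟨c, hc⟩ := hf.root_of_entry hij hab hne
    exact ⟨a, b, c, hc⟩
  · exfalso
    push Not at hcon
    set g := G f hij 1 (1 : D₁) with hg
    have hmem : g ∈ FormGrp n F := hf.G_mem hij 1 1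
    obtain ⟨B, hB⟩ : ∃ B, ∀ a b, ‖g.val a b‖ ≤ B := by
      refine ⟨∑ a, ∑ b, ‖g.val a b‖, fun a b => ?_⟩
      refine le_trans ?_ (Finset.single_le_sum (f := fun a => ∑ b, ‖g.val a b‖)
        (fun a _ => Finset.sum_nonneg fun b _ => norm_nonneg _) (Finset.mem_univ a))
      exact Finset.single_le_sum (f := fun b => ‖g.val a b‖) (fun b _ => norm_nonneg _)
        (Finset.mem_univ b)
    obtain ⟨R, hR⟩ := hf.conj_lo B
    have h1 := hR i j hij 1 1 (Pi.single i (-(|R| + 1))) (by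
      refine bd_of_entries (F := F) (mul_mem (mul_mem (inv_mem (bor_mem F _)) hmem)
        (bor_mem F _)) fun a b => ?_
      rw [conj_bor_entry, norm_smul, Real.norm_of_nonneg (Real.exp_pos _).le]
      by_cases hab : a = b
      · subst hab
        rw [sub_self, neg_zero, Real.exp_zero, one_mul]
        exact hB a a
      · have h0 : g.val a b = 0 := hcon a b hab
        rw [h0, norm_zero, mul_zero]
        exact (norm_nonneg _).trans (hB a b))
    rw [Pi.single_eq_same, Pi.single_eq_of_ne (ne_of_gt hij), sub_zero, neg_neg, norm_smul,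
      norm_one, mul_one, Real.norm_of_nonneg (Real.exp_pos _).le] at h1
    have h2 := Real.add_one_le_exp (|R| + 1)
    have h3 := le_abs_self R
    linarith

/-- All the estimates for the difference elements of a root subgroup. -/
theorem est {i j : Fin (n + 1)} (hij : i < j) {p q : Fin n ⊕ Fin n} {c : ℝ}
    (hr : RootAt T i j p q c) : ∃ S κ : ℝ, 1 ≤ S ∧ 0 < κ ∧ ∀ (x : ANSL n D₁) (z : D₁),
      (∀ a, ‖(G f hij x z).val a a‖ ≤ S ∧ S⁻¹ ≤ ‖(G f hij x z).val a a‖) ∧
      ‖(G f hij x z).val p q‖ ≤ S * ‖z‖ ^ c ∧ κ * ‖z‖ ^ c ≤ ‖(G f hij x z).val p q‖ := by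
  obtain ⟨S, hS1, hS⟩ := hf.conj_bd
  obtain ⟨R, hR⟩ := hf.conj_lo (S * S * S)
  have hSpos : 0 < S := by linarith
  set L : ℝ := |R| + 1 with hL
  refine ⟨S, Real.exp (-(c * L)), hS1, Real.exp_pos _, fun x z => ?_⟩
  rcases eq_or_ne z 0 with rfl | hz
  · rw [G_zero, norm_zero, Real.zero_rpow hr.pos.ne', mul_zero, mul_zero, Units.val_one]
    refine ⟨fun a => ?_, ?_, norm_nonneg _⟩
    · rw [Matrix.one_apply_eq, norm_one]
      exact ⟨hS1, inv_le_one_of_one_le₀ hS1⟩
    · rw [Matrix.one_apply_ne hr.ne, norm_zero]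
  have hz' : 0 < ‖z‖ := norm_pos_iff.2 hz
  set g := (G f hij x z).val with hg
  have hpat : Pat p q g := hf.pat hij hr x z
  have hform : ctr F g * Jmat F n * g = Jmat F n := hf.G_mem hij x z
  -- upper bounds
  have hup := hS i j hij x z (Pi.single i (Real.log ‖z‖)) (by
    rw [Pi.single_eq_same, Pi.single_eq_of_ne (ne_of_gt hij), sub_zero, norm_smul,
      Real.norm_of_nonneg (Real.exp_pos _).le, Real.exp_neg, Real.exp_log hz',
      inv_mul_cancel₀ hz'.ne'])
  have hdiag : ∀ a, ‖g a a‖ ≤ S := by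
    intro a
    have h1 := (hup a a).1
    rw [conj_bor_entry, sub_self, neg_zero, Real.exp_zero, one_smul] at h1
    exact h1
  have hnd := Pat.norm_diag (F := F) hr.ne hpat hform
  have hdiag' : ∀ a, S⁻¹ ≤ ‖g a a‖ := by
    intro a
    rw [inv_le_iff_one_le_mul₀ hSpos, ← hnd a]
    exact mul_le_mul_of_nonneg_left (hdiag _) (norm_nonneg _)
  refine ⟨fun a => ⟨hdiag a, hdiag' a⟩, ?_, ?_⟩
  · have h1 := (hup p q).1
    rw [conj_bor_entry, hr.eq, Pi.single_eq_same, Pi.single_eq_of_ne (ne_of_gt hij), sub_zero,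
      norm_smul, Real.norm_of_nonneg (Real.exp_pos _).le] at h1
    have h2 : ‖z‖ ^ c = Real.exp (c * Real.log ‖z‖) := by
      rw [Real.rpow_def_of_pos hz', mul_comm]
    rw [h2]
    calc ‖g p q‖ = Real.exp (c * Real.log ‖z‖) * (Real.exp (-(c * Real.log ‖z‖)) * ‖g p q‖) := by
          rw [← mul_assoc, ← Real.exp_add, add_neg_cancel, Real.exp_zero, one_mul]
      _ ≤ Real.exp (c * Real.log ‖z‖) * S := mul_le_mul_of_nonneg_left h1 (Real.exp_pos _).le
      _ = _ := mul_comm _ _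
  · -- lower bound
    set s : Fin (n + 1) → ℝ := Pi.single i (Real.log ‖z‖ - L) with hs
    have hsij : s i - s j = Real.log ‖z‖ - L := by
      rw [hs, Pi.single_eq_same, Pi.single_eq_of_ne (ne_of_gt hij), sub_zero]
    have hnb : ¬ Bd (S * S * S) ((bor D₂ (T s))⁻¹ * G f hij x z * bor D₂ (T s)) := by
      intro hb
      have h1 := hR i j hij x z s hb
      rw [hsij, norm_smul, Real.norm_of_nonneg (Real.exp_pos _).le, neg_sub, Real.exp_sub,
        Real.exp_log hz', div_mul_cancel₀ _ hz'.ne'] at h1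
      have h2 := Real.add_one_le_exp L
      have h3 := le_abs_self R
      linarith
    have hex : ∃ a b, S * S * S < ‖((bor D₂ (T s))⁻¹ * G f hij x z * bor D₂ (T s)).val a b‖ := by
      by_contra hcon
      push Not at hcon
      exact hnb (bd_of_entries (F := F) (mul_mem (mul_mem (inv_mem (bor_mem F _))
        (hf.G_mem hij x z)) (bor_mem F _)) hcon)
    obtain ⟨a, b, hab⟩ := hex
    rw [conj_bor_entry, norm_smul, Real.norm_of_nonneg (Real.exp_pos _).le, ← hg] at hab
    have hS3 : S ≤ S * S * S := by nlinarith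
    have hne : a ≠ b := by
      rintro rfl
      rw [sub_self, neg_zero, Real.exp_zero, one_mul] at hab
      have := hdiag a
      linarith
    have hnz : g a b ≠ 0 := by
      intro h0
      rw [h0, norm_zero, mul_zero] at hab
      have : 0 < S * S * S := by positivity
      linarith
    have hgoal : 1 < Real.exp (-(c * (Real.log ‖z‖ - L))) * ‖g p q‖ := by
      rcases hpat a b hne hnz with ⟨rfl, rfl⟩ | ⟨rfl, rfl⟩
      · rw [hr.eq, hsij] at hab
        linarith
      · rw [wl_swap, wl_swap] at hab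
        have h1 : -wl q (T s) - -wl p (T s) = c * (s i - s j) := by
          rw [← hr.eq]; ring
        rw [h1, hsij] at hab
        have h2 := Pat.norm_partner (F := F) hr.ne hpat hform
        have h3 : ‖g q.swap p.swap‖ ≤ S * S * ‖g p q‖ := by
          have h4 : S⁻¹ * ‖g q.swap p.swap‖ ≤ ‖g p q‖ * S := by
            calc S⁻¹ * ‖g q.swap p.swap‖ ≤ ‖g q q‖ * ‖g q.swap p.swap‖ :=
                  mul_le_mul_of_nonneg_right (hdiag' q) (norm_nonneg _)
              _ = ‖g p q‖ * ‖g p.swap p.swap‖ := h2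
              _ ≤ ‖g p q‖ * S := mul_le_mul_of_nonneg_left (hdiag _) (norm_nonneg _)
          calc ‖g q.swap p.swap‖ = S * (S⁻¹ * ‖g q.swap p.swap‖) := by
                rw [← mul_assoc, mul_inv_cancel₀ hSpos.ne', one_mul]
            _ ≤ S * (‖g p q‖ * S) := mul_le_mul_of_nonneg_left h4 hSpos.le
            _ = _ := by ring
        have h5 : S * S * S < S * S * (Real.exp (-(c * (Real.log ‖z‖ - L))) * ‖g p q‖) := by
          refine hab.trans_le ?_
          calc _ ≤ Real.exp (-(c * (Real.log ‖z‖ - L))) * (S * S * ‖g p q‖) :=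
                mul_le_mul_of_nonneg_left h3 (Real.exp_pos _).le
            _ = _ := by ring
        have h6 := lt_of_mul_lt_mul_left h5 (by positivity)
        linarith
    have h2 : ‖z‖ ^ c = Real.exp (c * Real.log ‖z‖) := by
      rw [Real.rpow_def_of_pos hz', mul_comm]
    rw [h2, ← Real.exp_add]
    have h3 : -(c * L) + c * Real.log ‖z‖ = c * (Real.log ‖z‖ - L) := by ring
    rw [h3]
    calc Real.exp (c * (Real.log ‖z‖ - L)) = Real.exp (c * (Real.log ‖z‖ - L)) * 1 := by ring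
      _ ≤ Real.exp (c * (Real.log ‖z‖ - L)) * (Real.exp (-(c * (Real.log ‖z‖ - L))) * ‖g p q‖) :=
          mul_le_mul_of_nonneg_left hgoal.le (Real.exp_pos _).le
      _ = ‖g p q‖ := by rw [← mul_assoc, ← Real.exp_add, add_neg_cancel, Real.exp_zero, one_mul]

end CAN

end Pool.Agent.ANM65
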