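import Pool.Agent.ANM65.Pat

/-!
# The leading coordinate of a root subgroup: Hölder estimates and dimension bounds
-/

namespace Pool.Agent.ANM65

open Matrix Pool.Agent.ANM51

set_option linter.unusedSectionVars false

variable {n : ℕ} {D₁ D₂ : Type} [NormedDivisionRing D₁] [NormedAlgebra ℝ D₁]
  [NormedDivisionRing D₂] [NormedAlgebra ℝ D₂]

theorem σ_inv (F : FormData D₂) (x : D₂) : F.σ x⁻¹ = (F.σ x)⁻¹ := by
  by_cases hx : x = 0
  · rw [hx, _root_.inv_zero, map_zero, _root_.inv_zero]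
  · apply eq_inv_of_mul_eq_one_left
    rw [← F.anti, mul_inv_cancel₀ hx, F.σ_one]

theorem σ_ne (F : FormData D₂) {x : D₂} (hx : x ≠ 0) : F.σ x ≠ 0 := by
  intro h
  apply hx
  rw [← F.invol x, h, map_zero]

/-- The space `{z : σ z = - ε z}`. -/
noncomputable def FM (F : FormData D₂) : Submodule ℝ D₂ :=
  LinearMap.ker (F.σ + F.ε • LinearMap.id)

theorem mem_FM (F : FormData D₂) (z : D₂) : z ∈ FM F ↔ F.σ z = -(F.ε • z) := by
  rw [FM, LinearMap.mem_ker, LinearMap.add_apply, LinearMap.smul_apply, LinearMap.id_apply,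
    add_eq_zero_iff_eq_neg]

/-- the leading coordinate -/
noncomputable def psi (f : ANSL n D₁ → (Matrix (Fin n ⊕ Fin n) (Fin n ⊕ Fin n) D₂)ˣ)
    {i j : Fin (n + 1)} (hij : i < j) (p q : Fin n ⊕ Fin n) (x : ANSL n D₁) (z : D₁) : D₂ :=
  (G f hij x z).val p q * ((G f hij x z).val q q)⁻¹

namespace CAN

variable {F : FormData D₂} {f : ANSL n D₁ → (Matrix (Fin n ⊕ Fin n) (Fin n ⊕ Fin n) D₂)ˣ}
  {T : (Fin (n + 1) → ℝ) →ₗ[ℝ] (Fin n → ℝ)} (hf : CAN F f T)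

include hf

theorem diag_ne {i j : Fin (n + 1)} (hij : i < j) {p q : Fin n ⊕ Fin n} {c : ℝ}
    (hr : RootAt T i j p q c) (x : ANSL n D₁) (z : D₁) (a : Fin n ⊕ Fin n) :
    (G f hij x z).val a a ≠ 0 := by
  intro h
  have h1 := Pat.norm_diag (F := F) hr.ne (hf.pat hij hr x z) (hf.G_mem hij x z) a
  rw [h, norm_zero, zero_mul] at h1
  exact zero_ne_one h1

theorem psi_sub {i j : Fin (n + 1)} (hij : i < j) {p q : Fin n ⊕ Fin n} {c : ℝ}
    (hr : RootAt T i j p q c) (x : ANSL n D₁) (z z' : D₁) :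
    psi f hij p q x z' - psi f hij p q x z =
      (G f hij x z).val p p * ((G f hij (x * rt hij z) (z' - z)).val p q *
        ((G f hij (x * rt hij z) (z' - z)).val q q)⁻¹) * ((G f hij x z).val q q)⁻¹ := by
  rw [psi, psi, G_chain f hij x z z', Units.val_mul]
  set g := (G f hij x z).val with hg
  set h := (G f hij (x * rt hij z) (z' - z)).val with hh
  have hpg : Pat p q g := hf.pat hij hr x z
  have hph : Pat p q h := hf.pat hij hr _ _
  have hgq : g q q ≠ 0 := hf.diag_ne hij hr x z q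
  have hhq : h q q ≠ 0 := hf.diag_ne hij hr _ _ q
  rw [Pat.mul_pq hr.ne hpg, Pat.mul_diag hr.ne hpg hph, _root_.mul_inv_rev, add_mul]
  have h1 : g p q * h q q * ((h q q)⁻¹ * (g q q)⁻¹) = g p q * (g q q)⁻¹ := by
    rw [mul_assoc, mul_inv_cancel_left₀ hhq]
  rw [h1, add_sub_cancel_right]
  simp only [mul_assoc]

theorem psi_holder {i j : Fin (n + 1)} (hij : i < j) {p q : Fin n ⊕ Fin n} {c : ℝ}
    (hr : RootAt T i j p q c) : ∃ κ κ' : ℝ, 0 < κ ∧ ∀ (x : ANSL n D₁) (z z' : D₁),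
      κ * ‖z - z'‖ ^ c ≤ ‖psi f hij p q x z - psi f hij p q x z'‖ ∧
      ‖psi f hij p q x z - psi f hij p q x z'‖ ≤ κ' * ‖z - z'‖ ^ c := by
  obtain ⟨S, κ, hS1, hκ, hest⟩ := hf.est hij hr
  have hS : 0 < S := by linarith
  refine ⟨S⁻¹ * (κ * S⁻¹) * S⁻¹, S * (S * S) * S, by positivity, fun x z z' => ?_⟩
  rw [hf.psi_sub hij hr x z' z, norm_mul, norm_mul, norm_mul, norm_inv, norm_inv]
  obtain ⟨h1, -, -⟩ := hest x z'
  obtain ⟨h2, h3, h4⟩ := hest (x * rt hij z') (z - z')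
  set g := (G f hij x z').val with hg
  set h := (G f hij (x * rt hij z') (z - z')).val with hh
  have hpos : ∀ a, 0 < ‖g a a‖ := fun a => lt_of_lt_of_le (by positivity) (h1 a).2
  have hpos' : ∀ a, 0 < ‖h a a‖ := fun a => lt_of_lt_of_le (by positivity) (h2 a).2
  have i1 : S⁻¹ ≤ ‖g q q‖⁻¹ := inv_anti₀ (hpos q) (h1 q).1
  have i2 : ‖g q q‖⁻¹ ≤ S := by
    rw [inv_le_comm₀ (hpos q) hS]; exact (h1 q).2
  have i3 : S⁻¹ ≤ ‖h q q‖⁻¹ := inv_anti₀ (hpos' q) (h2 q).1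
  have i4 : ‖h q q‖⁻¹ ≤ S := by
    rw [inv_le_comm₀ (hpos' q) hS]; exact (h2 q).2
  have hzc : 0 ≤ ‖z - z'‖ ^ c := Real.rpow_nonneg (norm_nonneg _) _
  constructor
  · calc S⁻¹ * (κ * S⁻¹) * S⁻¹ * ‖z - z'‖ ^ c = S⁻¹ * ((κ * ‖z - z'‖ ^ c) * S⁻¹) * S⁻¹ := by ring
      _ ≤ ‖g p p‖ * (‖h p q‖ * ‖h q q‖⁻¹) * ‖g q q‖⁻¹ := by
        have := (h1 p).2
        gcongr
  · calc ‖g p p‖ * (‖h p q‖ * ‖h q q‖⁻¹) * ‖g q q‖⁻¹
        ≤ S * ((S * ‖z - z'‖ ^ c) * S) * S := by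
          have := (h1 p).1
          gcongr
      _ = _ := by ring

theorem psi_long {i j : Fin (n + 1)} (hij : i < j) {p : Fin n ⊕ Fin n} {c : ℝ}
    (hr : RootAt T i j p p.swap c) (x : ANSL n D₁) (z : D₁) :
    psi f hij p p.swap x z ∈ F.L := by
  rw [F.mem_L, psi]
  set g := (G f hij x z).val with hg
  have hpg : Pat p p.swap g := hf.pat hij hr x z
  have hgq : g p.swap p.swap ≠ 0 := hf.diag_ne hij hr x z _
  have h1 := Pat.partner (F := F) hr.ne hpg (hf.G_mem hij x z)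
  rw [Sum.swap_swap] at h1
  have h2 := congrArg (fun w => jc F n p • w) h1
  simp only [smul_add, smul_zero, smul_smul] at h2
  rw [jc_mul_self, jc_mul_swap, one_smul, neg_smul, neg_add_eq_zero] at h2
  rw [F.anti, σ_inv]
  have h3 : F.σ (g p p.swap) = F.ε • (F.σ (g p.swap p.swap) * g p p.swap) *
      (g p.swap p.swap)⁻¹ := by
    rw [h2, mul_assoc, mul_inv_cancel₀ hgq, mul_one]
  rw [h3, smul_mul_assoc, mul_smul_comm, mul_assoc (F.σ _), ← mul_assoc (F.σ _)⁻¹,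
    inv_mul_cancel₀ (σ_ne F hgq), one_mul]

theorem psi_ne {i j : Fin (n + 1)} (hij : i < j) {p q : Fin n ⊕ Fin n} {c : ℝ}
    (hr : RootAt T i j p q c) (x : ANSL n D₁) : psi f hij p q x 1 ≠ 0 := by
  obtain ⟨κ, κ', hκ, h⟩ := hf.psi_holder hij hr
  have h0 : psi f hij p q x 0 = 0 := by
    rw [psi, G_zero, Units.val_one, Matrix.one_apply_ne hr.ne, zero_mul]
  intro h1
  have h2 := (h x 1 0).1
  rw [h0, h1, sub_zero, sub_zero, norm_one, Real.one_rpow, norm_zero, mul_one] at h2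
  linarith

variable [FiniteDimensional ℝ D₁] [FiniteDimensional ℝ D₂]

theorem long_bound {i j : Fin (n + 1)} (hij : i < j) {p : Fin n ⊕ Fin n} {c : ℝ}
    (hr : RootAt T i j p p.swap c) : Module.finrank ℝ D₁ ≤ Module.finrank ℝ F.L := by
  obtain ⟨κ, κ', hκ, h⟩ := hf.psi_holder hij hr
  refine finrank_le_of_holder (E := D₁) (V := F.L)
    (fun z => ⟨psi f hij p p.swap 1 z, hf.psi_long hij hr 1 z⟩) hr.pos hκ
    (fun z z' => (h 1 z z').1) (fun z z' => (h 1 z z').2)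

omit hf [FiniteDimensional ℝ D₁] [FiniteDimensional ℝ D₂] in
theorem mix_pp {p q : Fin n ⊕ Fin n} (hpq : p ≠ q) (hsw : q ≠ p.swap)
    {A B : Matrix (Fin n ⊕ Fin n) (Fin n ⊕ Fin n) D₂} (hA : Pat p q A) (hB : Pat p q.swap B) :
    (A * B) p p.swap = A p q * B q p.swap ∧ (A * B) p q.swap = A p p * B p q.swap ∧
      (A * B) p q = A p q * B q q ∧ ∀ a, (A * B) a a = A a a * B a a := by
  have hrow : ∀ r, A p r ≠ 0 → r = p ∨ r = q := by
    intro r hr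
    by_cases h : r = p
    · left; exact h
    · right
      rcases hA p r (Ne.symm h) hr with ⟨-, h1⟩ | ⟨h1, -⟩
      · exact h1
      · exact absurd (by rw [h1, Sum.swap_swap]) hsw
  have hsum : ∀ b, (A * B) p b = A p p * B p b + A p q * B q b := by
    intro b
    rw [Matrix.mul_apply, ← Finset.add_sum_erase _ _ (Finset.mem_univ p),
      ← Finset.add_sum_erase _ _ (Finset.mem_erase.2 ⟨Ne.symm hpq, Finset.mem_univ q⟩),
      Finset.sum_eq_zero, add_zero]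
    intro r hr
    rw [Finset.mem_erase, Finset.mem_erase] at hr
    by_contra hne
    rcases hrow r (left_ne_zero_of_mul hne) with h | h
    · exact hr.2.1 h
    · exact hr.1 h
  have hB0 : ∀ a b, a ≠ b → ¬ (a = p ∧ b = q.swap) → ¬ (a = q ∧ b = p.swap) → B a b = 0 := by
    intro a b hab h1 h2
    by_contra hne
    rcases hB a b hab hne with h3 | h3
    · exact h1 h3
    · rw [Sum.swap_swap] at h3; exact h2 h3
  refine ⟨?_, ?_, ?_, fun a => ?_⟩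
  · rw [hsum, hB0 p p.swap (Ne.symm swap_ne) (fun h => hpq (swap_inj h.2)) (fun h => hpq h.1),
      mul_zero, zero_add]
  · rw [hsum, hB0 q q.swap (Ne.symm swap_ne) (fun h => hpq h.1.symm)
      (fun h => hpq (swap_inj h.2).symm), mul_zero, add_zero]
  · rw [hsum, hB0 p q hpq (fun h => swap_ne h.2.symm) (fun h => hpq h.1), mul_zero, zero_add]
  · rw [Matrix.mul_apply, Finset.sum_eq_single a]
    · intro r _ hr
      by_contra hne
      have h1 := hA a r (Ne.symm hr) (left_ne_zero_of_mul hne)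
      have h2 := hB r a hr (right_ne_zero_of_mul hne)
      rw [Sum.swap_swap] at h2
      rcases h1 with ⟨rfl, rfl⟩ | ⟨rfl, rfl⟩
      · rcases h2 with ⟨h3, -⟩ | ⟨-, h3⟩
        · exact hpq h3.symm
        · exact swap_ne h3.symm
      · rcases h2 with ⟨h3, -⟩ | ⟨h3, -⟩
        · exact swap_ne h3
        · exact hsw h3.symm
    · intro h; exact absurd (Finset.mem_univ _) h

omit hf [FiniteDimensional ℝ D₁] [FiniteDimensional ℝ D₂] in
theorem comm_alg {u1 b1 a1 a2 b2 v2 a3 b3 v3 a4 b4 u4 X Y : D₂} {jp jq jq' : ℝ}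
    (ha1 : a1 ≠ 0) (ha2 : a2 ≠ 0) (ha3 : a3 ≠ 0) (ha4 : a4 ≠ 0) (hb1 : b1 ≠ 0) (hb2 : b2 ≠ 0)
    (hb3 : b3 ≠ 0) (hb4 : b4 ≠ 0) (hjp : jp * jp = 1) (hjq : jq * jq = 1)
    (hjq' : jq * jq' = -F.ε)
    (hY : jq • (F.σ b4 * Y) + jp • (F.σ u4 * (F.σ a4)⁻¹) = 0)
    (hX : jq' • (b2⁻¹ * X) + jp • (F.σ v2 * (F.σ a2)⁻¹) = 0)
    (e1 : u1 * X = v3 * Y) (e2 : a1 * v2 = v3 * (F.σ b4)⁻¹) (e3 : u1 * b2 = a3 * u4)
    (e4 : b1 * b2 = b3 * b4) (e5 : a1 * a2 = a3 * a4) :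
    F.σ (u1 * b1⁻¹ * F.σ (v3 * F.σ b3)) = -(F.ε • (u1 * b1⁻¹ * F.σ (v3 * F.σ b3))) := by
  have hσ : ∀ {x : D₂}, x ≠ 0 → F.σ x ≠ 0 := fun h => σ_ne F h
  -- solve for `u4`, `v2`, `b4`, `a4`
  have hu4 : u4 = a3⁻¹ * (u1 * b2) := by rw [e3, inv_mul_cancel_left₀ ha3]
  have hv2 : v2 = a1⁻¹ * (v3 * (F.σ b4)⁻¹) := by rw [← e2, inv_mul_cancel_left₀ ha1]
  have hb4' : b4 = b3⁻¹ * (b1 * b2) := by rw [e4, inv_mul_cancel_left₀ hb3]
  have ha4' : a4 = a3⁻¹ * (a1 * a2) := by rw [e5, inv_mul_cancel_left₀ ha3]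
  -- solve for `X`, `Y`
  have hY' : jq • (F.σ b4 * Y) = -(jp • (F.σ u4 * (F.σ a4)⁻¹)) := eq_neg_of_add_eq_zero_left hY
  have hX' : jq' • (b2⁻¹ * X) = -(jp • (F.σ v2 * (F.σ a2)⁻¹)) := eq_neg_of_add_eq_zero_left hX
  have hYY : Y = -((jp * jq) • ((F.σ b4)⁻¹ * (F.σ u4 * (F.σ a4)⁻¹))) := by
    have h1 := congrArg (fun w => jq • ((F.σ b4)⁻¹ * w)) hY'
    simp only [mul_smul_comm, smul_smul, hjq, one_smul, mul_neg, smul_neg] at h1
    rw [inv_mul_cancel_left₀ (hσ hb4)] at h1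
    rw [h1, mul_comm jq jp]
  have hXX : jq' • X = -(jp • (b2 * (F.σ v2 * (F.σ a2)⁻¹))) := by
    have h1 := congrArg (fun w => b2 * w) hX'
    simp only [mul_smul_comm, mul_neg] at h1
    rw [mul_inv_cancel_left₀ hb2] at h1
    exact h1
  have e1' : u1 * (jq' • X) = jq' • (v3 * Y) := by rw [mul_smul_comm, e1]
  rw [hXX, hYY] at e1'
  -- `e1'` : the main relation
  have h2 := congrArg (fun w => jq • (jp • w)) e1'
  simp only [mul_neg, smul_neg, mul_smul_comm, smul_smul, neg_inj] at h2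
  have c1 : jq * (jp * jp) = jq := by rw [hjp, mul_one]
  have c2 : jq * (jp * (jq' * (jp * jq))) = jq * (jq * jq') * (jp * jp) := by ring
  rw [c1, c2, hjp, mul_one, hjq'] at h2
  -- simplify both sides
  have l1 : b2 * (F.σ v2 * (F.σ a2)⁻¹) =
      b2 * b4⁻¹ * F.σ v3 * ((F.σ a1)⁻¹ * (F.σ a2)⁻¹) := by
    rw [hv2, F.anti, F.anti, σ_inv, σ_inv, F.invol]
    simp only [mul_assoc]
  have l2 : b2 * b4⁻¹ = b1⁻¹ * b3 := by
    rw [hb4', _root_.mul_inv_rev, _root_.mul_inv_rev, inv_inv, mul_assoc b2⁻¹, mul_inv_cancel_left₀ hb2]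
  have l3 : (F.σ b4)⁻¹ * (F.σ u4 * (F.σ a4)⁻¹) =
      F.σ b3 * ((F.σ b1)⁻¹ * F.σ u1) * ((F.σ a1)⁻¹ * (F.σ a2)⁻¹) := by
    rw [hb4', hu4, ha4']
    simp only [F.anti, σ_inv, _root_.mul_inv_rev, inv_inv, mul_assoc]
    rw [inv_mul_cancel_left₀ (hσ hb2), inv_mul_cancel_left₀ (hσ ha3)]
  rw [l1, l2, l3] at h2
  have hA : (F.σ a1)⁻¹ * (F.σ a2)⁻¹ ≠ 0 := mul_ne_zero (inv_ne_zero (hσ ha1)) (inv_ne_zero (hσ ha2))
  have h3 : jq • (u1 * (b1⁻¹ * b3 * F.σ v3)) =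
      (jq * -F.ε) • (v3 * (F.σ b3 * ((F.σ b1)⁻¹ * F.σ u1))) := by
    apply mul_right_cancel₀ hA
    rw [smul_mul_assoc, smul_mul_assoc]
    simp only [mul_assoc] at h2 ⊢
    exact h2
  have h4 := congrArg (fun w => jq • w) h3
  simp only [smul_smul, ← mul_assoc, hjq, one_smul, one_mul] at h4
  have hε : F.ε * F.ε = 1 := F.ε_mul_self
  simp only [F.anti, F.invol, σ_inv]
  have h5 : u1 * b1⁻¹ * (b3 * F.σ v3) = -(F.ε • (v3 * F.σ b3 * ((F.σ b1)⁻¹ * F.σ u1))) := by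
    rw [← neg_smul]
    simp only [← mul_assoc]
    exact h4
  rw [h5, smul_neg, neg_neg, smul_smul, hε, one_smul]

theorem comm_bound {i j k l : Fin (n + 1)} (hij : i < j) (hkl : k < l)
    (hcomm : ∀ x y : D₁, rt hij x * rt hkl y = rt hkl y * rt hij x)
    {p q : Fin n ⊕ Fin n} {c c' : ℝ} (h1 : RootAt T i j p q c) (h2 : RootAt T k l p q.swap c')
    (hsw : q ≠ p.swap) : Module.finrank ℝ D₁ ≤ Module.finrank ℝ (FM F) := by
  have key : ∀ z w : D₁, psi f hij p q 1 z * F.σ (psi f hkl p q.swap 1 w) ∈ FM F := by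
    intro z w
    rw [mem_FM]
    set G1 := G f hij 1 z with hG1
    set G2 := G f hkl (1 * rt hij z) w with hG2
    set G3 := G f hkl 1 w with hG3
    set G4 := G f hij (1 * rt hkl w) z with hG4
    have hprod : G1.val * G2.val = G3.val * G4.val := by
      rw [← Units.val_mul, ← Units.val_mul, hG1, hG2, hG3, hG4, G, G, G, G, one_mul, one_mul,
        hcomm z w]
      congr 1
      group
    have hP1 : Pat p q G1.val := hf.pat hij h1 _ _
    have hP4 : Pat p q G4.val := hf.pat hij h1 _ _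
    have hP2 : Pat p q.swap G2.val := hf.pat hkl h2 _ _
    have hP3 : Pat p q.swap G3.val := hf.pat hkl h2 _ _
    have hF1 : ctr F G1.val * Jmat F n * G1.val = Jmat F n := hf.G_mem hij _ _
    have hF2 : ctr F G2.val * Jmat F n * G2.val = Jmat F n := hf.G_mem hkl _ _
    have hF3 : ctr F G3.val * Jmat F n * G3.val = Jmat F n := hf.G_mem hkl _ _
    have hF4 : ctr F G4.val * Jmat F n * G4.val = Jmat F n := hf.G_mem hij _ _
    have hd1 : ∀ a, G1.val a a ≠ 0 := hf.diag_ne hij h1 _ _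
    have hd4 : ∀ a, G4.val a a ≠ 0 := hf.diag_ne hij h1 _ _
    have hd2 : ∀ a, G2.val a a ≠ 0 := hf.diag_ne hkl h2 _ _
    have hd3 : ∀ a, G3.val a a ≠ 0 := hf.diag_ne hkl h2 _ _
    have hpq := h1.ne
    have hpq' := h2.ne
    have hsw' : q.swap ≠ p.swap := fun h => hpq (swap_inj h).symm
    obtain ⟨m1, m2, m3, m4⟩ := mix_pp hpq hsw hP1 hP2
    obtain ⟨n1, n2, n3, n4⟩ := mix_pp (q := q.swap) hpq' hsw' hP3
      (by rw [Sum.swap_swap]; exact hP4)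
    rw [hprod] at m1 m2 m3 m4
    rw [Sum.swap_swap] at n2
    -- diagonal relations
    have dg : ∀ {g : Matrix (Fin n ⊕ Fin n) (Fin n ⊕ Fin n) D₂} {r s : Fin n ⊕ Fin n},
        r ≠ s → Pat r s g → ctr F g * Jmat F n * g = Jmat F n → ∀ a,
        g a.swap a.swap = (F.σ (g a a))⁻¹ := by
      intro g r s hrs hP hF a
      have h := Pat.diag hrs hP hF a
      exact eq_inv_of_mul_eq_one_right h
    have k4 := Pat.partner hpq hP4 hF4
    have k2 := Pat.partner hpq' hP2 hF2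
    rw [dg hpq hP4 hF4 p] at k4
    rw [dg hpq' hP2 hF2 p, Sum.swap_swap, dg hpq' hP2 hF2 q, σ_inv, F.invol] at k2
    have r3 : psi f hkl p q.swap 1 w = G3.val p q.swap * F.σ (G3.val q q) := by
      rw [psi, ← hG3, dg hpq' hP3 hF3 q, inv_inv]
    have r1 : psi f hij p q 1 z = G1.val p q * (G1.val q q)⁻¹ := rfl
    rw [r1, r3]
    refine comm_alg (F := F) (a1 := G1.val p p) (a2 := G2.val p p) (a3 := G3.val p p)
      (a4 := G4.val p p) (b2 := G2.val q q) (b4 := G4.val q q) (v2 := G2.val p q.swap)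
      (u4 := G4.val p q) (X := G2.val q p.swap) (Y := G4.val q.swap p.swap)
      (jp := jc F n p) (jq := jc F n q) (jq' := jc F n q.swap) (hd1 _) (hd2 _) (hd3 _) (hd4 _)
      (hd1 _) (hd2 _) (hd3 _) (hd4 _) (jc_mul_self F p) (jc_mul_self F q) (jc_mul_swap F q)
      k4 k2 ?_ ?_ ?_ ?_ ?_
    · rw [← m1, n1]
    · rw [← m2, n3, dg hpq hP4 hF4 q]
    · rw [← m3, n2]
    · rw [← m4, n4]
    · rw [← m4, n4]
  obtain ⟨κ, κ', hκ, h⟩ := hf.psi_holder hij h1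
  set y : D₂ := F.σ (psi f hkl p q.swap 1 1) with hy
  have hy0 : 0 < ‖y‖ := norm_pos_iff.2 (σ_ne F (hf.psi_ne hkl h2 1))
  refine finrank_le_of_holder (E := D₁) (V := FM F)
    (fun z => ⟨psi f hij p q 1 z * y, key z 1⟩) h1.pos (mul_pos hκ hy0) (κ' := κ' * ‖y‖)
    (fun z z' => ?_) (fun z z' => ?_)
  · change κ * ‖y‖ * ‖z - z'‖ ^ c ≤ ‖psi f hij p q 1 z * y - psi f hij p q 1 z' * y‖
    rw [← sub_mul, norm_mul]
    have := mul_le_mul_of_nonneg_right (h 1 z z').1 hy0.le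
    linarith
  · change ‖psi f hij p q 1 z * y - psi f hij p q 1 z' * y‖ ≤ κ' * ‖y‖ * ‖z - z'‖ ^ c
    rw [← sub_mul, norm_mul]
    have := mul_le_mul_of_nonneg_right (h 1 z z').2 hy0.le
    linarith

end CAN

end Pool.Agent.ANM65
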