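import Pool.Agent.ANM65.Base

/-!
# The Riemannian metric: the norm of the logarithms of the singular values
-/

namespace Pool.Agent.ANM65

open Matrix RealInnerProductSpace

set_option linter.unusedSectionVars false

section symLen

variable {E : Type} [NormedAddCommGroup E] [InnerProductSpace ℝ E] [FiniteDimensional ℝ E]

/-- The Euclidean norm of the vector of the logarithms of the singular values of `T` (the square
roots of the eigenvalues of `T* T`). -/
noncomputable def symLen (T : E →ₗ[ℝ] E) : ℝ :=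
  Real.sqrt (∑ i, (Real.log
    ((LinearMap.isSymmetric_adjoint_mul_self T).eigenvalues rfl i) / 2) ^ 2)

theorem symLen_nonneg (T : E →ₗ[ℝ] E) : 0 ≤ symLen T := Real.sqrt_nonneg _

theorem norm_sq_eq_sum (T : E →ₗ[ℝ] E) (v : E) :
    ‖T v‖ ^ 2 = ∑ i, (LinearMap.isSymmetric_adjoint_mul_self T).eigenvalues rfl i *
      ⟪(LinearMap.isSymmetric_adjoint_mul_self T).eigenvectorBasis rfl i, v⟫ ^ 2 := by
  set hS := LinearMap.isSymmetric_adjoint_mul_self T
  set b := hS.eigenvectorBasis rfl with hb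
  have h1 : ‖T v‖ ^ 2 = ⟪v, (T.adjoint * T) v⟫ := by
    rw [← real_inner_self_eq_norm_sq]
    change _ = ⟪v, T.adjoint (T v)⟫
    rw [LinearMap.adjoint_inner_right]
  rw [h1, ← b.sum_inner_mul_inner]
  refine Finset.sum_congr rfl fun i _ => ?_
  have h2 : ⟪b i, (T.adjoint * T) v⟫ = hS.eigenvalues rfl i * ⟪b i, v⟫ := by
    rw [← hS (b i) v, hb, hS.apply_eigenvectorBasis, inner_smul_left]
    rfl
  rw [h2, real_inner_comm (b i) v]
  ring

theorem norm_sq_eq_sum' (T : E →ₗ[ℝ] E) (v : E) :
    ‖v‖ ^ 2 = ∑ i,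
      ⟪(LinearMap.isSymmetric_adjoint_mul_self T).eigenvectorBasis rfl i, v⟫ ^ 2 := by
  set b := (LinearMap.isSymmetric_adjoint_mul_self T).eigenvectorBasis rfl
  rw [← real_inner_self_eq_norm_sq, ← b.sum_inner_mul_inner]
  refine Finset.sum_congr rfl fun i _ => ?_
  rw [real_inner_comm (b i) v]
  ring

theorem eigen_eq (T : E →ₗ[ℝ] E) (i) :
    (LinearMap.isSymmetric_adjoint_mul_self T).eigenvalues rfl i =
      ‖T ((LinearMap.isSymmetric_adjoint_mul_self T).eigenvectorBasis rfl i)‖ ^ 2 := by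
  rw [norm_sq_eq_sum, Finset.sum_eq_single i]
  · rw [real_inner_self_eq_norm_sq, OrthonormalBasis.norm_eq_one]; norm_num
  · intro j _ hj
    rw [OrthonormalBasis.inner_eq_zero _ hj]; ring
  · intro h; exact absurd (Finset.mem_univ _) h

theorem abs_log_le (T : E →ₗ[ℝ] E) (i) :
    |Real.log ((LinearMap.isSymmetric_adjoint_mul_self T).eigenvalues rfl i)| ≤ 2 * symLen T := by
  have h1 : (Real.log ((LinearMap.isSymmetric_adjoint_mul_self T).eigenvalues rfl i) / 2) ^ 2 ≤
      ∑ j, (Real.log ((LinearMap.isSymmetric_adjoint_mul_self T).eigenvalues rfl j) / 2) ^ 2 :=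
    Finset.single_le_sum (f := fun j => (Real.log
      ((LinearMap.isSymmetric_adjoint_mul_self T).eigenvalues rfl j) / 2) ^ 2)
      (fun j _ => sq_nonneg _) (Finset.mem_univ i)
  have h2 := Real.abs_le_sqrt h1
  rw [abs_div, abs_of_pos (by norm_num : (0 : ℝ) < 2), div_le_iff₀ (by norm_num)] at h2
  rw [symLen]
  linarith

theorem norm_le_exp (T : E →ₗ[ℝ] E) (v : E) : ‖T v‖ ≤ Real.exp (symLen T) * ‖v‖ := by
  refine le_of_sq_le_sq ?_ (by positivity)
  rw [mul_pow, norm_sq_eq_sum T v, norm_sq_eq_sum' T v, Finset.mul_sum]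
  refine Finset.sum_le_sum fun i _ => mul_le_mul_of_nonneg_right ?_ (sq_nonneg _)
  have h1 := abs_log_le T i
  set l := (LinearMap.isSymmetric_adjoint_mul_self T).eigenvalues rfl i
  have h0 : 0 ≤ l := by rw [show l = _ from eigen_eq T i]; positivity
  rw [← Real.exp_nat_mul]
  push_cast
  rcases h0.eq_or_lt with h0 | h0
  · rw [← h0]; positivity
  · rw [← Real.log_le_iff_le_exp h0]
    exact (le_abs_self _).trans h1

theorem norm_ge_exp (T : E →ₗ[ℝ] E) (hT : Function.Injective T) (v : E) :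
    ‖v‖ ≤ Real.exp (symLen T) * ‖T v‖ := by
  refine le_of_sq_le_sq ?_ (by positivity)
  rw [mul_pow, norm_sq_eq_sum T v, norm_sq_eq_sum' T v, Finset.mul_sum]
  refine Finset.sum_le_sum fun i _ => ?_
  rw [← mul_assoc]
  refine le_mul_of_one_le_left (sq_nonneg _) ?_
  have h1 := abs_log_le T i
  have h2 := eigen_eq T i
  set l := (LinearMap.isSymmetric_adjoint_mul_self T).eigenvalues rfl i
  have h0 : 0 < l := by
    rw [h2]
    have h3 : T ((LinearMap.isSymmetric_adjoint_mul_self T).eigenvectorBasis rfl i) ≠ 0 := by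
      intro h
      have h4 := hT (h.trans (map_zero T).symm)
      have h5 := ((LinearMap.isSymmetric_adjoint_mul_self T).eigenvectorBasis rfl).norm_eq_one i
      rw [h4, norm_zero] at h5
      exact zero_ne_one h5
    positivity
  have h3 : Real.exp (symLen T) ^ 2 * l = Real.exp (2 * symLen T + Real.log l) := by
    rw [Real.exp_add, Real.exp_log h0, ← Real.exp_nat_mul]
    push_cast
    rfl
  rw [h3, Real.one_le_exp_iff]
  have := neg_abs_le (Real.log l)
  linarith

theorem symLen_le (T : E →ₗ[ℝ] E) {a : ℝ} (ha : 1 ≤ a) (h1 : ∀ v, ‖T v‖ ≤ a * ‖v‖)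
    (h2 : ∀ v, ‖v‖ ≤ a * ‖T v‖) :
    symLen T ≤ Real.sqrt (Module.finrank ℝ E) * Real.log a := by
  have hla : 0 ≤ Real.log a := Real.log_nonneg ha
  have ha0 : 0 < a := by linarith
  rw [symLen]
  have key : ∑ i, (Real.log
      ((LinearMap.isSymmetric_adjoint_mul_self T).eigenvalues rfl i) / 2) ^ 2 ≤
      (Module.finrank ℝ E) * Real.log a ^ 2 := by
    calc _ ≤ ∑ _i : Fin (Module.finrank ℝ E), Real.log a ^ 2 := by
          refine Finset.sum_le_sum fun i _ => ?_
          have e := eigen_eq T i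
          set b := (LinearMap.isSymmetric_adjoint_mul_self T).eigenvectorBasis rfl
          have hb : ‖b i‖ = 1 := b.norm_eq_one i
          have u1 := h1 (b i)
          have u2 := h2 (b i)
          rw [hb, mul_one] at u1
          rw [hb] at u2
          have hpos : 0 < ‖T (b i)‖ := by
            by_contra hcon
            push Not at hcon
            have := le_antisymm hcon (norm_nonneg _)
            rw [this, mul_zero] at u2
            linarith
          rw [e, Real.log_pow]
          push_cast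
          rw [mul_div_cancel_left₀ _ (by norm_num : (2 : ℝ) ≠ 0)]
          refine sq_le_sq' ?_ ?_
          · have : Real.log 1 ≤ Real.log (a * ‖T (b i)‖) := Real.log_le_log one_pos u2
            rw [Real.log_one, Real.log_mul ha0.ne' hpos.ne'] at this
            linarith
          · exact Real.log_le_log hpos u1
      _ = _ := by rw [Finset.sum_const, Finset.card_univ, Fintype.card_fin, nsmul_eq_mul]
  refine (Real.sqrt_le_sqrt key).trans ?_
  rw [Real.sqrt_mul (Nat.cast_nonneg _), Real.sqrt_sq hla]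

end symLen

section mat

variable {D : Type} [NormedDivisionRing D] [InnerProductSpace ℝ D] [SMulCommClass ℝ D D]
  {ι : Type} [Fintype ι] [DecidableEq ι]

/-- The linear operator `v ↦ M v` of the Euclidean space `D ^ ι`. -/
noncomputable def opOf (M : Matrix ι ι D) :
    PiLp 2 (fun _ : ι => D) →ₗ[ℝ] PiLp 2 (fun _ : ι => D) where
  toFun v := WithLp.toLp 2 (M *ᵥ (WithLp.ofLp v))
  map_add' u v := by
    ext i
    simp [Matrix.mulVec_add]
  map_smul' r v := by
    ext i
    simp [Matrix.mulVec_smul]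

theorem opOf_apply (M : Matrix ι ι D) (v : PiLp 2 (fun _ : ι => D)) (i : ι) :
    opOf M v i = ∑ j, M i j * v j := rfl

theorem opOf_mul (M N : Matrix ι ι D) (v : PiLp 2 (fun _ : ι => D)) :
    opOf (M * N) v = opOf M (opOf N v) := by
  ext i
  change ((M * N) *ᵥ (WithLp.ofLp v)) i = (M *ᵥ (N *ᵥ (WithLp.ofLp v))) i
  rw [Matrix.mulVec_mulVec]

theorem opOf_one (v : PiLp 2 (fun _ : ι => D)) : opOf (1 : Matrix ι ι D) v = v := by
  ext i
  change ((1 : Matrix ι ι D) *ᵥ (WithLp.ofLp v)) i = v i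
  rw [Matrix.one_mulVec]

theorem opOf_injective (g : (Matrix ι ι D)ˣ) : Function.Injective (opOf g.val) := by
  intro u v h
  have h1 := congrArg (opOf (g⁻¹).val) h
  rwa [← opOf_mul, ← opOf_mul, Units.inv_mul, opOf_one, opOf_one] at h1

theorem norm_single (j : ι) (x : D) : ‖(PiLp.single 2 j x : PiLp 2 (fun _ : ι => D))‖ = ‖x‖ := by
  simp

theorem entry_le_norm (M : Matrix ι ι D) (i j : ι) :
    ‖M i j‖ ≤ ‖opOf M (PiLp.single 2 j (1 : D))‖ := by
  have h1 : opOf M (PiLp.single 2 j (1 : D)) i = M i j := by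
    rw [opOf_apply, Finset.sum_eq_single j]
    · simp
    · intro k _ hk
      simp [hk]
    · intro h; exact absurd (Finset.mem_univ _) h
  rw [← h1]
  exact PiLp.norm_apply_le _ i

theorem opOf_norm_le {M : Matrix ι ι D} {R : ℝ} (hR : 0 ≤ R) (h : ∀ p q, ‖M p q‖ ≤ R)
    (v : PiLp 2 (fun _ : ι => D)) :
    ‖opOf M v‖ ≤ (Fintype.card ι * (Fintype.card ι * R)) * ‖v‖ := by
  have h1 : ∀ i, ‖opOf M v i‖ ≤ (Fintype.card ι * R) * ‖v‖ := by
    intro i
    rw [opOf_apply]
    refine (norm_sum_le _ _).trans ?_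
    calc _ ≤ ∑ _j : ι, R * ‖v‖ := Finset.sum_le_sum fun j _ => by
          rw [norm_mul]
          exact mul_le_mul (h i j) (PiLp.norm_apply_le v j) (norm_nonneg _) hR
      _ = _ := by rw [Finset.sum_const, Finset.card_univ, nsmul_eq_mul]; ring
  have h2 : ‖opOf M v‖ ≤ ∑ i, ‖opOf M v i‖ := by
    have h3 : opOf M v = ∑ i, (PiLp.single 2 i (opOf M v i) : PiLp 2 (fun _ : ι => D)) := by
      ext k
      simp
    calc ‖opOf M v‖ = ‖∑ i, (PiLp.single 2 i (opOf M v i) : PiLp 2 (fun _ : ι => D))‖ := by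
          rw [← h3]
      _ ≤ ∑ i, ‖(PiLp.single 2 i (opOf M v i) : PiLp 2 (fun _ : ι => D))‖ := norm_sum_le _ _
      _ = _ := by simp
  refine h2.trans ?_
  calc _ ≤ ∑ _i : ι, (Fintype.card ι * R) * ‖v‖ := Finset.sum_le_sum fun i _ => h1 i
    _ = _ := by rw [Finset.sum_const, Finset.card_univ, nsmul_eq_mul]; ring

variable [FiniteDimensional ℝ D]

/-- The left invariant metric of the symmetric space: the norm of the vector of the logarithms of
the singular values of `g⁻¹ h`, as an operator of the Euclidean space `D ^ ι`. -/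
noncomputable def dX (g h : (Matrix ι ι D)ˣ) : ℝ := symLen (opOf (g⁻¹ * h).val)

theorem bd_of_symLen (g : (Matrix ι ι D)ˣ) : Bd (Real.exp (symLen (opOf g.val))) g := by
  intro p q
  constructor
  · refine (entry_le_norm g.val p q).trans ?_
    have h := norm_le_exp (opOf g.val) (PiLp.single 2 q (1 : D))
    rwa [norm_single, norm_one, mul_one] at h
  · refine (entry_le_norm (g⁻¹).val p q).trans ?_
    have h := norm_ge_exp (opOf g.val) (opOf_injective g)
      (opOf (g⁻¹).val (PiLp.single 2 q (1 : D)))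
    rwa [← opOf_mul, Units.mul_inv, opOf_one, norm_single, norm_one, mul_one] at h

theorem symLen_le_of_bd {g : (Matrix ι ι D)ˣ} {R : ℝ} (hR : 1 ≤ R) (h : Bd R g) :
    symLen (opOf g.val) ≤ Real.sqrt (Module.finrank ℝ (PiLp 2 (fun _ : ι => D))) *
      Real.log ((1 + Fintype.card ι * Fintype.card ι) * R) := by
  have hc : (0 : ℝ) ≤ (Fintype.card ι : ℝ) * Fintype.card ι := by positivity
  have ha : (1 : ℝ) ≤ (1 + Fintype.card ι * Fintype.card ι) * R := by nlinarith
  have key : ∀ M : Matrix ι ι D, (∀ p q, ‖M p q‖ ≤ R) → ∀ v : PiLp 2 (fun _ : ι => D),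
      ‖opOf M v‖ ≤ ((1 + Fintype.card ι * Fintype.card ι) * R) * ‖v‖ := by
    intro M hM v
    refine (opOf_norm_le (by linarith) hM v).trans ?_
    refine mul_le_mul_of_nonneg_right ?_ (norm_nonneg _)
    nlinarith
  refine symLen_le _ ha (key _ fun p q => (h p q).1) fun v => ?_
  have h1 := key _ (fun p q => (h p q).2) (opOf g.val v)
  rwa [← opOf_mul, Units.inv_mul, opOf_one] at h1

end mat

end Pool.Agent.ANM65
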