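import Pool.Agent.ANM51.Inst
import Pool.Agent.ANM65.Oct
import Pool.Agent.ANQ.SoEx

/-!
# The symmetric spaces: solvable groups with a distance
-/

namespace Pool.Agent.ANMS

open Matrix Pool.Agent.ANM51 Pool.Agent.ANM65 Pool.Agent.ANQ
open scoped Quaternion

/-! ### Spaces and their distances -/

/-- A symmetric space `X = K\G` as its solvable Iwasawa group `AN` with a distance. -/
structure SymSpace where
  /-- the group `AN` -/
  AN : Type
  [grp : Group AN]
  [top : TopologicalSpace AN]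
  /-- the distance of `X` -/
  dist : AN → AN → ℝ

attribute [instance] SymSpace.grp SymSpace.top

/-- The space with the group `AN = S`, a subgroup of the topological group `G`, and with the
distance `d`. -/
def space {G : Type} [Group G] [TopologicalSpace G] (S : Subgroup G) (d : G → G → ℝ) :
    SymSpace where
  AN := S
  dist x y := d x y

/-- The Euclidean norm of the vector of the logarithms of the singular values of `T` (the square
roots of the eigenvalues of `T* T`). -/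
noncomputable def logLen {E : Type} [NormedAddCommGroup E] [InnerProductSpace ℝ E]
    [FiniteDimensional ℝ E] (T : E →ₗ[ℝ] E) : ℝ :=
  Real.sqrt (∑ i, (Real.log
    ((LinearMap.isSymmetric_adjoint_mul_self T).eigenvalues rfl i) / 2) ^ 2)

section EV

/-- The space `D ^ I` of column vectors. -/
def EV (I D : Type) : Type := PiLp 2 fun _ : I => D

variable {I D : Type} [Fintype I] [NormedDivisionRing D] [InnerProductSpace ℝ D]

/-- The norm `(∑ |v_i|²)^(1/2)` of `D ^ I`. -/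
noncomputable instance : NormedAddCommGroup (EV I D) := PiLp.normedAddCommGroup 2 fun _ : I => D

noncomputable instance : InnerProductSpace ℝ (EV I D) := PiLp.innerProductSpace fun _ : I => D

/-- `v ↦ M v` -/
def mulEV (M : Matrix I I D) (v : EV I D) : EV I D := WithLp.toLp 2 (M *ᵥ (WithLp.ofLp v))

variable [DecidableEq I] [SMulCommClass ℝ D D]

theorem mulEV_add (M : Matrix I I D) (u v : EV I D) : mulEV M (u + v) = mulEV M u + mulEV M v :=
  (opOf M).map_add u v

theorem mulEV_smul (M : Matrix I I D) (r : ℝ) (v : EV I D) : mulEV M (r • v) = r • mulEV M v :=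
  (opOf M).map_smul r v

/-- The linear operator `v ↦ M v` of the Euclidean space `D ^ I`. -/
def opEV (M : Matrix I I D) : EV I D →ₗ[ℝ] EV I D where
  toFun := mulEV M
  map_add' := mulEV_add M
  map_smul' := mulEV_smul M

theorem finite_EV [FiniteDimensional ℝ D] : FiniteDimensional ℝ (EV I D) :=
  (inferInstance : FiniteDimensional ℝ (PiLp 2 fun _ : I => D))

/-- The distance of the symmetric space of a group `G` of matrices over `D = ℝ, ℂ, ℍ`: the
Euclidean norm of the vector of the logarithms of the singular values of `g⁻¹ h`. -/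
noncomputable def dMat [FiniteDimensional ℝ D] (g h : (Matrix I I D)ˣ) : ℝ :=
  haveI := finite_EV (I := I) (D := D)
  logLen (opEV (g⁻¹ * h).val)

theorem dMat_eq [FiniteDimensional ℝ D] : dMat (I := I) (D := D) = dX := rfl

end EV

/-- `X₁` quasi-isometrically embeds in `X₂`. -/
def QIEmbeds (X₁ X₂ : SymSpace) : Prop :=
  ∃ f : X₁.AN → X₂.AN, ∃ K C : ℝ, 1 ≤ K ∧ 0 ≤ C ∧ ∀ x y : X₁.AN,
    X₁.dist x y / K - C ≤ X₂.dist (f x) (f y) ∧ X₂.dist (f x) (f y) ≤ K * X₁.dist x y + C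

/-- There is an AN-map: an injective continuous homomorphism `A₁N₁ → A₂N₂`. -/
def ANEmbeds (X₁ X₂ : SymSpace) : Prop :=
  ∃ φ : X₁.AN →* X₂.AN, Continuous φ ∧ Function.Injective φ

/-! ### The groups `SO₀(2, 2 + k)` -/

/-- The matrix of the quadratic form `2 (x₁ x₁' + x₂ x₂') + ∑ z_l²` of signature `(2, 2 + k)` on
`ℝ^{4 + k}`, with the coordinates `x₁, x₂, x₁', x₂', z₁, …, z_k`. -/
def soForm (k : ℕ) : Matrix ((Fin 2 ⊕ Fin 2) ⊕ Fin k) ((Fin 2 ⊕ Fin 2) ⊕ Fin k) ℝ :=
  Matrix.fromBlocks (Matrix.fromBlocks 0 1 1 0) 0 0 1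

/-- The order `x₁ < x₂ < {z₁, …, z_k} < x₂' < x₁'` of the coordinates. -/
def soLev (k : ℕ) : (Fin 2 ⊕ Fin 2) ⊕ Fin k → ℕ :=
  Sum.elim (Sum.elim (fun i => i) fun i => 4 - i) fun _ => 2

/-- The elements of `A₂N₂` of `SO₀(2, 2 + k)`: the matrices which preserve the form and which are
(together with the inverse) upper triangular for the order of the coordinates, with positive
diagonal entries and with the identity block at `z₁, …, z_k`. -/
def IsSO (k : ℕ) (g : (Matrix ((Fin 2 ⊕ Fin 2) ⊕ Fin k) ((Fin 2 ⊕ Fin 2) ⊕ Fin k) ℝ)ˣ) : Prop :=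
  g ∈ TriGrp ((Fin 2 ⊕ Fin 2) ⊕ Fin k) ℝ (soLev k) ∧ g.valᵀ * soForm k * g.val = soForm k ∧
    (∀ p, 0 < g.val (.inl p) (.inl p)) ∧
    ∀ a b : Fin k, g.val (.inr a) (.inr b) = if a = b then 1 else 0

theorem soLev_eq (k : ℕ) : soLev k = levSO := by
  funext p
  rcases p with (i | i) | z <;> rfl

theorem soForm_eq (k : ℕ) : soForm k = JSO k := by
  ext p q
  rcases p with (i | i) | z <;> rcases q with (j | j) | y <;>
    simp [soForm, JSO, barSO, Matrix.one_apply, eq_comm]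

theorem isSO_iff {k : ℕ} {g : (Matrix (ISO k) (ISO k) ℝ)ˣ} : IsSO k g ↔ g ∈ ANSO k := by
  rw [IsSO, soLev_eq, soForm_eq]
  exact Iff.rfl

theorem isSO_mul {k : ℕ}
    {g h : (Matrix ((Fin 2 ⊕ Fin 2) ⊕ Fin k) ((Fin 2 ⊕ Fin 2) ⊕ Fin k) ℝ)ˣ} (hg : IsSO k g)
    (hh : IsSO k h) : IsSO k (g * h) :=
  isSO_iff.2 ((ANSO k).mul_mem (isSO_iff.1 hg) (isSO_iff.1 hh))

theorem isSO_one (k : ℕ) : IsSO k 1 := isSO_iff.2 (ANSO k).one_mem

theorem isSO_inv {k : ℕ}
    {g : (Matrix ((Fin 2 ⊕ Fin 2) ⊕ Fin k) ((Fin 2 ⊕ Fin 2) ⊕ Fin k) ℝ)ˣ} (hg : IsSO k g) :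
    IsSO k g⁻¹ := isSO_iff.2 ((ANSO k).inv_mem (isSO_iff.1 hg))

/-- The group `A₂N₂` of `SO₀(2, 2 + k)`. -/
def ANO (k : ℕ) :
    Subgroup (Matrix ((Fin 2 ⊕ Fin 2) ⊕ Fin k) ((Fin 2 ⊕ Fin 2) ⊕ Fin k) ℝ)ˣ where
  carrier := {g | IsSO k g}
  mul_mem' := isSO_mul
  one_mem' := isSO_one k
  inv_mem' := isSO_inv

theorem ANO_eq (k : ℕ) : ANO k = ANSO k := Subgroup.ext fun _ => isSO_iff

/-! ### Octonions and the Jordan algebra `H_3(𝕆)` -/

/-- The octonions `𝕆`, as pairs of quaternions. -/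
def Oct : Type := WithLp 2 (ℍ[ℝ] × ℍ[ℝ])

/-- The Euclidean norm of `𝕆 = ℍ × ℍ`. -/
noncomputable instance : NormedAddCommGroup Oct := WithLp.instProdNormedAddCommGroup 2 ℍ[ℝ] ℍ[ℝ]

noncomputable instance : InnerProductSpace ℝ Oct := WithLp.instProdInnerProductSpace

/-- the octonion with the components `a` and `b` -/
def Oct.mk (a b : ℍ[ℝ]) : Oct := WithLp.toLp 2 (a, b)

/-- the first component -/
def Oct.a (x : Oct) : ℍ[ℝ] := (WithLp.ofLp x).1

/-- the second component -/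
def Oct.b (x : Oct) : ℍ[ℝ] := (WithLp.ofLp x).2

/-- The product of octonions (Cayley-Dickson). -/
noncomputable def Oct.mul (x y : Oct) : Oct :=
  Oct.mk (x.a * y.a - star y.b * x.b) (y.b * x.a + x.b * star y.a)

/-- The conjugation of octonions. -/
noncomputable def Oct.conj (x : Oct) : Oct := Oct.mk (star x.a) (-x.b)

/-- The space of `3 × 3` matrices of octonions. -/
def MOct : Type := PiLp 2 fun _ : Fin 3 × Fin 3 => Oct

/-- The norm `(∑ |X_ij|²)^(1/2)`. -/
noncomputable instance : NormedAddCommGroup MOct :=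
  PiLp.normedAddCommGroup 2 fun _ : Fin 3 × Fin 3 => Oct

noncomputable instance : InnerProductSpace ℝ MOct :=
  PiLp.innerProductSpace fun _ : Fin 3 × Fin 3 => Oct

/-- the entry `X_kl` -/
def MOct.entry (X : MOct) (k l : Fin 3) : Oct := WithLp.ofLp X (k, l)

/-- Hermitian matrices -/
def IsHerm (X : MOct) : Prop := ∀ k l, X.entry l k = (X.entry k l).conj

theorem herm_add {X Y : MOct} (hX : IsHerm X) (hY : IsHerm Y) : IsHerm (X + Y) :=
  JJ.add_mem (x := X) (y := Y) hX hY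

theorem herm_zero : IsHerm 0 := JJ.zero_mem

theorem herm_smul (r : ℝ) {X : MOct} (hX : IsHerm X) : IsHerm (r • X) :=
  JJ.smul_mem (x := X) r hX

/-- The space `H_3(𝕆)` of Hermitian matrices. -/
def HH : Submodule ℝ MOct where
  carrier := {X | IsHerm X}
  add_mem' := herm_add
  zero_mem' := herm_zero
  smul_mem' := herm_smul

/-- The Euclidean space `H_3(𝕆)`. -/
def HO : Type := HH

noncomputable instance : NormedAddCommGroup HO := HH.normedAddCommGroup

noncomputable instance : InnerProductSpace ℝ HO := HH.innerProductSpace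

theorem finite_HO : FiniteDimensional ℝ HO := (inferInstance : FiniteDimensional ℝ JJ)

/-- the entry `X_kl` -/
def HO.entry (X : HO) (k l : Fin 3) : Oct := (Subtype.val X : MOct).entry k l

/-- `Y = D X D`, `D = diag (a 0, a 1, a 2)` -/
def DiagAct (a : Fin 3 → ℝ) (X Y : HO) : Prop :=
  ∀ k l, Y.entry k l = (a k * a l) • X.entry k l

/-- `Y = (1 + z E_ij) X (1 + z E_ij)^*` -/
def RootAct (i j : Fin 3) (z : Oct) (X Y : HO) : Prop :=
  ∀ k l, Y.entry k l = X.entry k l + (if k = i then z.mul (X.entry j l) else 0) +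
    (if l = i then (X.entry k j).mul z.conj else 0) +
    (if k = i ∧ l = i then (z.mul (X.entry j j)).mul z.conj else 0)

/-! ### The exceptional groups -/

section GLc

variable (V : Type) [NormedAddCommGroup V] [NormedSpace ℝ V]

/-- The group `GL(V)` of the continuous linear automorphisms of `V`. -/
def GLc : Type := (V →L[ℝ] V)ˣ

noncomputable instance : Group (GLc V) := (Units.instGroup : Group (V →L[ℝ] V)ˣ)

noncomputable instance : TopologicalSpace (GLc V) :=
  (Units.instTopologicalSpaceUnits : TopologicalSpace (V →L[ℝ] V)ˣ)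

variable {V}

/-- the linear map `g` -/
def GLc.lin (g : GLc V) : V →ₗ[ℝ] V := (Units.val g).toLinearMap

/-- `g v` -/
def GLc.app (g : GLc V) (v : V) : V := g.lin v

end GLc

/-- **The group `A₁N₁` of `E_6(-26)`**: the group of linear maps of `H_3(𝕆)` generated by
`X ↦ D X D` with `D` diagonal positive of determinant one, and `X ↦ (1 + z E_ij) X (1 + z E_ij)^*`
with `i < j` and `z ∈ 𝕆`. -/
noncomputable def AN6 : Subgroup (GLc HO) :=
  Subgroup.closure {g |
    (∃ a : Fin 3 → ℝ, (∀ i, 0 < a i) ∧ ∏ i, a i = 1 ∧ ∀ X, DiagAct a X (g.app X)) ∨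
    ∃ (i j : Fin 3) (z : Oct), i < j ∧ ∀ X, RootAct i j z X (g.app X)}

/-- The distance of `E_6(-26)`: the Euclidean norm of the vector of the logarithms of the singular
values of `g⁻¹ h` as an operator of the Euclidean space `H_3(𝕆)`. -/
noncomputable def d6 (g h : GLc HO) : ℝ :=
  haveI := finite_HO
  logLen (g⁻¹ * h).lin

/-- **The group `A₂N₂` of `E_7(-25)`**: the group of affine maps `X ↦ g X + v` of `H_3(𝕆)`,
written as linear maps `(X, t) ↦ (g X + t v, t)` of `H_3(𝕆) × ℝ`, generated by the translations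
by `v ∈ H_3(𝕆)`, by `X ↦ D X D` with `D` diagonal positive, and by
`X ↦ (1 + z E_ij) X (1 + z E_ij)^*` with `i < j` and `z ∈ 𝕆`. -/
noncomputable def AN7 : Subgroup (GLc (HO × ℝ)) :=
  Subgroup.closure {g |
    (∃ v : HO, ∀ X t, g.app (X, t) = (X + t • v, t)) ∨
    (∃ a : Fin 3 → ℝ, (∀ i, 0 < a i) ∧ ∀ X t, ∃ Y, g.app (X, t) = (Y, t) ∧ DiagAct a X Y) ∨
    ∃ (i j : Fin 3) (z : Oct), i < j ∧ ∀ X t, ∃ Y, g.app (X, t) = (Y, t) ∧ RootAct i j z X Y}

/-! ### The spaces of types `A_n` and `C_n` -/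

/-- The irreducible symmetric spaces of type `A_n` (`n ≥ 2`), with the multiplicity of the roots:
those of `SL_{n+1}(ℝ)`, `SL_{n+1}(ℂ)`, `SL_{n+1}(ℍ)` and, for `n = 2`, `E_6(-26)`. -/
inductive TypeA : ℕ → ℕ → SymSpace → Prop
  | slR (n : ℕ) : TypeA n 1 (space (ANSL n ℝ) dMat)
  | slC (n : ℕ) : TypeA n 2 (space (ANSL n ℂ) dMat)
  | slH (n : ℕ) : TypeA n 4 (space (ANSL n ℍ[ℝ]) dMat)
  | e6 : TypeA 2 8 (space AN6 d6)

/-- The irreducible symmetric spaces of type `C_n` (`n ≥ 2`), with the multiplicities of the short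
and of the long roots: those of `Sp_{2n}(ℝ)`, `Sp_{2n}(ℂ)`, `SU(n, n)`, `SO^*(4n)`, `Sp(n, n)`,
for `n = 2` also `SO₀(2, 2 + k)`, `k ≥ 1`, and for `n = 3` also `E_7(-25)`. For `E_7(-25)` the
distance `d` is arbitrary. -/
inductive TypeC : ℕ → ℕ → ℕ → SymSpace → Prop
  | spR (n : ℕ) : TypeC n 1 1 (space (ANC n formSpR) dMat)
  | spC (n : ℕ) : TypeC n 2 2 (space (ANC n formSpC) dMat)
  | su (n : ℕ) : TypeC n 2 1 (space (ANC n formSU) dMat)
  | sos (n : ℕ) : TypeC n 4 1 (space (ANC n formSOs) dMat)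
  | spnn (n : ℕ) : TypeC n 4 3 (space (ANC n formSpnn) dMat)
  | so2 (k : ℕ) (hk : 1 ≤ k) : TypeC 2 k 1 (space (ANO k) dMat)
  | e7 (d : GLc (HO × ℝ) → GLc (HO × ℝ) → ℝ) : TypeC 3 8 1 (space AN7 d)

end Pool.Agent.ANMS
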