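import Pool.Agent.ANM51.So12
import Pool.Agent.ANM51.Neg
import Pool.Agent.ANM65.Psi

/-!
# AN-maps for the classical pairs of `A_n` to `C_n` type
-/

namespace Pool.Agent.ANMTab

open Pool.Agent.ANM51 Pool.Agent.ANM65
open scoped Quaternion

/-- There is an AN-map: an injective continuous group homomorphism `A₁N₁ → A₂N₂`. -/
def HasANMap (n : ℕ) (D₁ : Type) [NormedDivisionRing D₁] [NormedAlgebra ℝ D₁]
    {D₂ : Type} [NormedDivisionRing D₂] [NormedAlgebra ℝ D₂] (F : FormData D₂) : Prop :=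
  ∃ φ : ANSL n D₁ →* ANC n F, Continuous φ ∧ Function.Injective φ

theorem hasANMap_of_data {n : ℕ} {D₁ : Type} [NormedDivisionRing D₁] [NormedAlgebra ℝ D₁]
    {D₂ : Type} [NormedDivisionRing D₂] [NormedAlgebra ℝ D₂] [FiniteDimensional ℝ D₂]
    {F : FormData D₂} (H : HomData n D₁ F) : HasANMap n D₁ F :=
  ⟨H.hom, H.hom_continuous, H.hom_injective⟩

section pos

variable {n : ℕ} [NeZero n]

theorem two_ne {D : Type} [NormedDivisionRing D] [NormedAlgebra ℝ D] {z : D} (hz : z ≠ 0) :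
    z + z ≠ 0 := by
  rw [← two_smul ℝ]
  exact smul_ne_zero two_ne_zero hz

theorem R_SpR : HasANMap n ℝ formSpR :=
  hasANMap_of_data (famData formSpR (Algebra.ofId ℝ ℝ) 1 fun u hu => by
    change (Algebra.ofId ℝ ℝ u) * 1 + (1 : ℝ) • ((Algebra.ofId ℝ ℝ u) * 1) ≠ 0
    rw [one_smul, mul_one]
    exact two_ne hu)

theorem R_SpC : HasANMap n ℝ formSpC :=
  hasANMap_of_data (famData formSpC (Algebra.ofId ℝ ℂ) 1 fun u hu => by
    change (Algebra.ofId ℝ ℂ u) * 1 + (1 : ℝ) • ((Algebra.ofId ℝ ℂ u) * 1) ≠ 0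
    rw [one_smul, mul_one]
    exact two_ne (Complex.ofReal_ne_zero.2 hu))

theorem R_SU : HasANMap n ℝ formSU :=
  hasANMap_of_data (famData formSU (Algebra.ofId ℝ ℂ) 1 fun u hu => by
    change (Algebra.ofId ℝ ℂ u) * 1 + (1 : ℝ) • star ((Algebra.ofId ℝ ℂ u) * 1) ≠ 0
    rw [one_smul, mul_one]
    have h1 : star (Algebra.ofId ℝ ℂ u) = Algebra.ofId ℝ ℂ u := Complex.conj_ofReal u
    rw [h1]
    exact two_ne (Complex.ofReal_ne_zero.2 hu))

theorem algH_ne {u : ℝ} (hu : u ≠ 0) : (algebraMap ℝ ℍ[ℝ] u) ≠ 0 := by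
  intro h
  exact hu ((algebraMap ℝ ℍ[ℝ]).injective (by rw [h, map_zero]))

theorem R_SOs : HasANMap n ℝ formSOs :=
  hasANMap_of_data (famData formSOs (Algebra.ofId ℝ ℍ[ℝ]) 1 fun u hu => by
    change (algebraMap ℝ ℍ[ℝ] u) * 1 + (1 : ℝ) • star ((algebraMap ℝ ℍ[ℝ] u) * 1) ≠ 0
    have h1 : star (algebraMap ℝ ℍ[ℝ] u) = algebraMap ℝ ℍ[ℝ] u := formSOs.σ_real u
    rw [one_smul, mul_one, h1]
    exact two_ne (algH_ne hu))

/-- the quaternion `i` -/
def qi : ℍ[ℝ] := ⟨0, 1, 0, 0⟩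

theorem qi_ne : qi ≠ 0 := by
  intro h
  have := congrArg (fun q : ℍ[ℝ] => q.imI) h
  simp [qi] at this

theorem star_qi : star qi = -qi := by
  ext <;> simp [qi]

theorem qj_ne : qj ≠ 0 := by
  intro h
  have := congrArg (fun q : ℍ[ℝ] => q.imJ) h
  simp [qj] at this

theorem R_Spnn : HasANMap n ℝ formSpnn :=
  hasANMap_of_data (famData formSpnn (Algebra.ofId ℝ ℍ[ℝ]) qi fun u hu => by
    change (algebraMap ℝ ℍ[ℝ] u) * qi + (-1 : ℝ) • star ((algebraMap ℝ ℍ[ℝ] u) * qi) ≠ 0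
    have h1 : star (algebraMap ℝ ℍ[ℝ] u) = algebraMap ℝ ℍ[ℝ] u := formSOs.σ_real u
    rw [star_mul, h1, star_qi, neg_mul, ← Algebra.commutes, smul_neg, neg_smul, one_smul, neg_neg]
    exact two_ne (mul_ne_zero (algH_ne hu) qi_ne))

theorem C_SpC : HasANMap n ℂ formSpC :=
  hasANMap_of_data (famData formSpC (AlgHom.id ℝ ℂ) 1 fun u hu => by
    change u * 1 + (1 : ℝ) • (u * 1) ≠ 0
    rw [one_smul, mul_one]
    exact two_ne hu)

theorem C_Spnn : HasANMap n ℂ formSpnn :=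
  hasANMap_of_data (famData formSpnn Quaternion.ofComplex qj fun u hu => by
    change Quaternion.ofComplex u * qj + (-1 : ℝ) • star (Quaternion.ofComplex u * qj) ≠ 0
    rw [star_mul_qj, smul_neg, neg_smul, one_smul, neg_neg]
    refine two_ne (mul_ne_zero ?_ qj_ne)
    intro h
    exact hu (ofComplex_injective (by rw [h, map_zero])))

end pos

theorem C_SOs3 : HasANMap 3 ℂ formSOs := hasANMap_of_data soData

section dims

variable {D₂ : Type} [NormedDivisionRing D₂] [NormedAlgebra ℝ D₂] [FiniteDimensional ℝ D₂]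
  {F : FormData D₂}

/-- the dimension of `{σ z = - ε z}` when `{σ z = ε z}` is not zero -/
theorem FM_lt {z : D₂} (hz : z ≠ 0) (hzL : z ∈ F.L) :
    Module.finrank ℝ (FM F) < Module.finrank ℝ D₂ := by
  refine Submodule.finrank_lt ?_
  intro h
  have h1 : z ∈ FM F := by rw [h]; trivial
  rw [mem_FM, (F.mem_L z).1 hzL] at h1
  have h2 : (2 * F.ε) • z = 0 := by
    rw [mul_smul, two_smul]
    nth_rewrite 1 [h1]
    exact neg_add_cancel _
  rcases smul_eq_zero.1 h2 with h3 | h3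
  · exact F.ε_ne_zero (by linarith)
  · exact hz h3

end dims

theorem one_mem_L_SU : (1 : ℂ) ∈ formSU.L := by
  rw [FormData.mem_L]
  change star (1 : ℂ) = (1 : ℝ) • (1 : ℂ)
  rw [star_one, one_smul]

theorem one_mem_L_SOs : (1 : ℍ[ℝ]) ∈ formSOs.L := by
  rw [FormData.mem_L]
  change star (1 : ℍ[ℝ]) = (1 : ℝ) • (1 : ℍ[ℝ])
  rw [star_one, one_smul]

theorem qi_mem_L_Spnn : qi ∈ formSpnn.L := by
  rw [FormData.mem_L]
  change star qi = (-1 : ℝ) • qi
  rw [star_qi, neg_smul, one_smul]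

end Pool.Agent.ANMTab
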