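import Pool.Agent.ANM65.VRoot

/-!
# Root algebra for the difference elements: the orthogonal groups of signature `(n, n + k)`
-/

namespace Pool.Agent.ANM65

open Matrix Filter Topology Pool.Agent.ANM51 Pool.Agent.ANQ

set_option linter.unusedSectionVars false

section wts

variable {n k : ℕ}

/-- the symmetric form of signature `(n, n + k)`: hyperbolic planes and the identity -/
def iformSO (n k : ℕ) : IForm ((Fin n ⊕ Fin n) ⊕ Fin k) where
  bar := Sum.map Sum.swap id
  bar_bar p := by rcases p with p | z <;> simp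
  jc _ := 1
  jc_sq _ := by norm_num

/-- the weights of the standard representation -/
noncomputable def wSO (n k : ℕ) : (Fin n ⊕ Fin n) ⊕ Fin k → (Fin n → ℝ) →ₗ[ℝ] ℝ :=
  Sum.elim wl fun _ => 0

/-- the weights as vectors -/
def vc : (Fin n ⊕ Fin n) ⊕ Fin k → Fin n → ℝ := Sum.elim (fun p m => (wt p m : ℝ)) fun _ => 0

theorem wSO_single (a : (Fin n ⊕ Fin n) ⊕ Fin k) (m : Fin n) :
    wSO n k a (Pi.single m 1) = vc a m := by
  rcases a with p | z
  · exact wl_single p m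
  · rfl

theorem wSO_bar (a : (Fin n ⊕ Fin n) ⊕ Fin k) :
    wSO n k ((iformSO n k).bar a) = - wSO n k a := by
  rcases a with p | z
  · apply LinearMap.ext
    intro w
    exact wl_swap p w
  · change (0 : (Fin n → ℝ) →ₗ[ℝ] ℝ) = -0
    rw [neg_zero]

theorem vc_ne {p : Fin n ⊕ Fin n} : vc (k := k) (Sum.inl p) (ix p) ≠ 0 := by
  change ((wt p (ix p) : ℤ) : ℝ) ≠ 0
  rcases wt_apply_ix p with h | h <;> rw [h] <;> norm_num

theorem vc_sq {p : Fin n ⊕ Fin n} :
    vc (k := k) (Sum.inl p) (ix p) * vc (k := k) (Sum.inl p) (ix p) = 1 := by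
  change ((wt p (ix p) : ℤ) : ℝ) * ((wt p (ix p) : ℤ) : ℝ) = 1
  rcases wt_apply_ix p with h | h <;> rw [h] <;> norm_num

theorem vc_zero {p : Fin n ⊕ Fin n} {m : Fin n} (h : m ≠ ix p) :
    vc (k := k) (Sum.inl p) m = 0 := by
  change ((wt p m : ℤ) : ℝ) = 0
  rw [wt_apply_of_ne h, Int.cast_zero]

theorem vc_swap (p : Fin n ⊕ Fin n) (m : Fin n) :
    vc (k := k) (Sum.inl p.swap) m = - vc (k := k) (Sum.inl p) m := by
  change ((wt p.swap m : ℤ) : ℝ) = -((wt p m : ℤ) : ℝ)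
  rw [wt_swap, Pi.neg_apply, Int.cast_neg]

theorem vc_inr (z : Fin k) (m : Fin n) : vc (n := n) (Sum.inr z) m = 0 := rfl

/-- positively proportional weights are equal -/
theorem eq_of_vc {p t : Fin n ⊕ Fin n} {x y : ℝ} (hx : 0 < x) (hy : 0 < y) {m : Fin n}
    (hp : m = ix p) (ht : m = ix t)
    (h : x * vc (k := k) (Sum.inl p) m = y * vc (k := k) (Sum.inl t) m) : p = t := by
  rcases eq_or_swap_of_ix (hp.symm.trans ht) with h1 | h1
  · exact h1.symm
  · exfalso
    rw [h1, vc_swap, hp] at h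
    have h2 := vc_sq (k := k) (p := p)
    have h3 : x * vc (k := k) (Sum.inl p) (ix p) * vc (k := k) (Sum.inl p) (ix p) =
        y * -vc (k := k) (Sum.inl p) (ix p) * vc (k := k) (Sum.inl p) (ix p) := by rw [h]
    rw [mul_assoc, h2, mul_neg, neg_mul, mul_assoc, h2] at h3
    linarith

theorem wSO_sp (p : Fin n ⊕ Fin n) (a : (Fin n ⊕ Fin n) ⊕ Fin k)
    (h : wSO n k a = wSO n k (Sum.inl p)) : a = Sum.inl p := by
  have h1 : ∀ m, vc a m = vc (k := k) (Sum.inl p) m := fun m => by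
    rw [← wSO_single, ← wSO_single, h]
  rcases a with q | z
  · have h2 : ix p = ix q := by
      by_contra hne
      have h3 := h1 (ix p)
      rw [vc_zero hne] at h3
      exact vc_ne h3.symm
    rw [eq_of_vc (k := k) (p := q) (t := p) one_pos one_pos h2 rfl (by
      rw [one_mul, one_mul]; exact h1 _)]
  · have h3 := h1 (ix p)
    exact absurd h3.symm vc_ne

variable {T : (Fin n → ℝ) ≃ₗ[ℝ] (Fin n → ℝ)}

theorem vc_rel {i j : Fin (n + 1)} {a b a' b' : (Fin n ⊕ Fin n) ⊕ Fin k} {c c' : ℝ}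
    (h : RtW (wSO n k) T i j a b c) (h' : RtW (wSO n k) T i j a' b' c') (m : Fin n) :
    c' * (vc a m - vc b m) = c * (vc a' m - vc b' m) := by
  obtain ⟨w, hw⟩ := T.surjective (Pi.single m 1)
  have h1 := h w
  have h2 := h' w
  rw [hw, wSO_single, wSO_single] at h1 h2
  rw [h1, h2]; ring

/-- the root `(i, j)` corresponds to the short root `e_t` -/
structure ShortAt (T : (Fin n → ℝ) ≃ₗ[ℝ] (Fin n → ℝ)) (i j : Fin (n + 1))
    (t : Fin n ⊕ Fin n) (c : ℝ) : Prop where
  pos : 0 < c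
  eq : ∀ w, wl t (T w) = c * rootE i j w

/-- classification of the roots -/
theorem long_or_short {i j : Fin (n + 1)} (hij : i < j) {a b : (Fin n ⊕ Fin n) ⊕ Fin k} {c : ℝ}
    (hc : 0 < c) (h : RtW (wSO n k) T i j a b c) :
    (∃ p q, a = Sum.inl p ∧ b = Sum.inl q ∧ ix p ≠ ix q) ∨ ∃ t c', ShortAt T i j t c' := by
  rcases a with p | z <;> rcases b with q | z'
  · by_cases hix : ix p = ix q
    · right
      rcases eq_or_swap_of_ix hix with h1 | h1
      · exact absurd (congrArg Sum.inl h1.symm) (RtW.ne hij hc h)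
      · refine ⟨p, c / 2, half_pos hc, fun w => ?_⟩
        have h2 := h w
        rw [h1] at h2
        change wl p (T w) - wl p.swap (T w) = _ at h2
        rw [wl_swap] at h2
        linarith
    · left
      exact ⟨p, q, rfl, rfl, hix⟩
  · right
    refine ⟨p, c, hc, fun w => ?_⟩
    have h2 := h w
    change wl p (T w) - 0 = _ at h2
    rwa [sub_zero] at h2
  · right
    refine ⟨q.swap, c, hc, fun w => ?_⟩
    have h2 := h w
    change 0 - wl q (T w) = _ at h2
    rw [wl_swap]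
    linarith
  · exfalso
    obtain ⟨w, hw⟩ := exists_rootE hij 1
    have h2 := h w
    rw [hw] at h2
    change (0 : ℝ) - 0 = c * 1 at h2
    linarith

/-- a long root -/
theorem patRoot_long {i j : Fin (n + 1)} {p q : Fin n ⊕ Fin n} {κ : ℝ}
    (hκ : 0 < κ) (h : RtW (wSO n k) T i j (Sum.inl p) (Sum.inl q) κ) (hix : ix p ≠ ix q) :
    PatRoot (iformSO n k) (wSO n k) T i j (Sum.inl p) (Sum.inl q) κ where
  pos := hκ
  rt := h
  sp := wSO_sp p
  sq := wSO_sp q
  bar := wSO_bar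
  pat := by
    intro a b c hc hr
    have hrel := vc_rel h hr
    have hpq : p ≠ q := fun h' => hix (by rw [h'])
    have hP : vc (k := k) (Sum.inl p) (ix p) - vc (k := k) (Sum.inl q) (ix p) ≠ 0 := by
      rw [vc_zero hix, sub_zero]; exact vc_ne
    have hQ : vc (k := k) (Sum.inl p) (ix q) - vc (k := k) (Sum.inl q) (ix q) ≠ 0 := by
      rw [vc_zero (Ne.symm hix), zero_sub]; exact neg_ne_zero.2 vc_ne
    rcases a with p' | z <;> rcases b with q' | z'
    · have hne : p' ≠ q' := by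
        rintro rfl
        have h1 := hrel (ix p)
        rw [sub_self, mul_zero] at h1
        exact (mul_ne_zero hc.ne' hP) h1
      have h1 := (root_prop hne hpq hκ hc (fun m => by
        have h2 := hrel m
        change c * (((wt p m : ℤ) : ℝ) - ((wt q m : ℤ) : ℝ)) =
          κ * (((wt p' m : ℤ) : ℝ) - ((wt q' m : ℤ) : ℝ)) at h2
        simp only [Pi.sub_apply, Int.cast_sub]
        exact h2.symm)).1
      rcases wt_sub_eq h1.symm hpq with ⟨rfl, rfl⟩ | ⟨rfl, rfl⟩
      · left; exact ⟨rfl, rfl⟩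
      · right; exact ⟨rfl, rfl⟩
    · exfalso
      by_cases h1 : ix p = ix p'
      · have h2 := hrel (ix q)
        rw [vc_inr, sub_zero, vc_zero (p := p') (fun h' => hix (h1.trans h'.symm)), mul_zero] at h2
        exact (mul_ne_zero hc.ne' hQ) h2
      · have h2 := hrel (ix p)
        rw [vc_inr, sub_zero, vc_zero (p := p') h1, mul_zero] at h2
        exact (mul_ne_zero hc.ne' hP) h2
    · exfalso
      by_cases h1 : ix p = ix q'
      · have h2 := hrel (ix q)
        rw [vc_inr, zero_sub, vc_zero (p := q') (fun h' => hix (h1.trans h'.symm)), neg_zero,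
          mul_zero] at h2
        exact (mul_ne_zero hc.ne' hQ) h2
      · have h2 := hrel (ix p)
        rw [vc_inr, zero_sub, vc_zero (p := q') h1, neg_zero, mul_zero] at h2
        exact (mul_ne_zero hc.ne' hP) h2
    · exfalso
      have h2 := hrel (ix p)
      rw [vc_inr, vc_inr, sub_zero, mul_zero] at h2
      exact (mul_ne_zero hc.ne' hP) h2

/-- the entries of weight a positive multiple of a short root -/
theorem short_pat {i j : Fin (n + 1)} {t : Fin n ⊕ Fin n} {c : ℝ} (h : ShortAt T i j t c)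
    {a b : (Fin n ⊕ Fin n) ⊕ Fin k} {c' : ℝ} (hc' : 0 < c')
    (hr : RtW (wSO n k) T i j a b c') :
    (a = Sum.inl t ∧ ∃ z, b = Sum.inr z) ∨ ((∃ z, a = Sum.inr z) ∧ b = Sum.inl t.swap) ∨
      (a = Sum.inl t ∧ b = Sum.inl t.swap) := by
  have hrel : ∀ m, c * (vc a m - vc b m) = c' * vc (k := k) (Sum.inl t) m := by
    intro m
    obtain ⟨w, hw⟩ := T.surjective (Pi.single m 1)
    have h1 := h.eq w
    have h2 := hr w
    rw [hw, wSO_single, wSO_single] at h2
    rw [hw, wl_single] at h1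
    change c * (vc a m - vc b m) = c' * ((wt t m : ℤ) : ℝ)
    rw [h1, h2]; ring
  have htne : c' * vc (k := k) (Sum.inl t) (ix t) ≠ 0 := mul_ne_zero hc'.ne' vc_ne
  rcases a with p | z <;> rcases b with q | z'
  · right; right
    have hp : ix t = ix p := by
      by_contra hne
      have hq : ix t = ix q := by
        by_contra hne2
        have h1 := hrel (ix t)
        rw [vc_zero hne, vc_zero hne2, sub_zero, mul_zero] at h1
        exact htne h1.symm
      have h1 := hrel (ix p)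
      rw [vc_zero (p := t) (Ne.symm hne), vc_zero (p := q) (by rw [← hq]; exact Ne.symm hne),
        sub_zero, mul_zero] at h1
      exact (mul_ne_zero h.pos.ne' vc_ne) h1
    have hq : ix t = ix q := by
      by_contra hne
      have h1 := hrel (ix q)
      rw [vc_zero (p := t) (Ne.symm hne), vc_zero (p := p) (by rw [← hp]; exact Ne.symm hne),
        zero_sub, mul_zero, mul_neg, neg_eq_zero] at h1
      exact (mul_ne_zero h.pos.ne' vc_ne) h1
    rcases eq_or_swap_of_ix hp with rfl | h1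
    · rcases eq_or_swap_of_ix hq with rfl | h2
      · exfalso
        have h1 := hrel (ix q)
        rw [sub_self, mul_zero] at h1
        exact htne h1.symm
      · rw [h2]; exact ⟨rfl, rfl⟩
    · exfalso
      rcases eq_or_swap_of_ix hq with h2 | h2
      · have h3 := hrel (ix t)
        rw [h1, h2, vc_swap] at h3
        have h4 : (2 * c + c') * vc (k := k) (Sum.inl t) (ix t) = 0 := by linarith
        have h5 := h.pos
        exact (mul_ne_zero (by linarith) vc_ne) h4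
      · have h3 := hrel (ix t)
        rw [h1, h2, sub_self, mul_zero] at h3
        exact htne h3.symm
  · left
    refine ⟨?_, z', rfl⟩
    have hp : ix t = ix p := by
      by_contra hne
      have h1 := hrel (ix t)
      rw [vc_zero hne, vc_inr, sub_zero, mul_zero] at h1
      exact htne h1.symm
    rw [eq_of_vc (k := k) (p := p) (t := t) h.pos hc' hp rfl (by
      have h1 := hrel (ix t)
      rwa [vc_inr, sub_zero] at h1)]
  · right; left
    refine ⟨⟨z, rfl⟩, ?_⟩
    have hp : ix t = ix q := by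
      by_contra hne
      have h1 := hrel (ix t)
      rw [vc_zero hne, vc_inr, sub_zero, mul_zero] at h1
      exact htne h1.symm
    rw [eq_of_vc (k := k) (p := q) (t := t.swap) h.pos hc' hp (ix_swap t).symm (by
      have h1 := hrel (ix t)
      rw [vc_inr, zero_sub] at h1
      rw [vc_swap]
      linarith)]
  · exfalso
    have h1 := hrel (ix t)
    rw [vc_inr, vc_inr, sub_zero, mul_zero] at h1
    exact htne h1.symm

end wts

section alg

variable {n k : ℕ} {K : Type} [DivisionRing K] [Algebra ℝ K] {v : K → ℝ} {S : FormK v}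
  {T : (Fin n → ℝ) ≃ₗ[ℝ] (Fin n → ℝ)}

/-- the entries of a unipotent element of the ray of a short root -/
theorem short_off {i j : Fin (n + 1)} {t : Fin n ⊕ Fin n} {c : ℝ} (h : ShortAt T i j t c)
    {M : Matrix ((Fin n ⊕ Fin n) ⊕ Fin k) ((Fin n ⊕ Fin n) ⊕ Fin k) K}
    (hM : Ray (wSO n k) T i j M) {a b : (Fin n ⊕ Fin n) ⊕ Fin k} (hab : a ≠ b)
    (hne : M a b ≠ 0) :
    (a = Sum.inl t ∧ ∃ z, b = Sum.inr z) ∨ ((∃ z, a = Sum.inr z) ∧ b = Sum.inl t.swap) ∨
      (a = Sum.inl t ∧ b = Sum.inl t.swap) := by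
  obtain ⟨c', hc', hc0, hcw⟩ := hM.off a b hne
  exact short_pat h (lt_of_le_of_ne hc' fun h' => hab (hc0 h'.symm)) hcw

theorem inl_swap_ne (t : Fin n ⊕ Fin n) :
    (Sum.inl t.swap : (Fin n ⊕ Fin n) ⊕ Fin k) ≠ Sum.inl t := fun h => swap_ne (Sum.inl_injective h)

/-- first relation of the form for short roots -/
theorem short_rel1 {i j : Fin (n + 1)} {t : Fin n ⊕ Fin n} {c : ℝ} (h : ShortAt T i j t c)
    {M : Matrix ((Fin n ⊕ Fin n) ⊕ Fin k) ((Fin n ⊕ Fin n) ⊕ Fin k) K}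
    (hM : Ray (wSO n k) T i j M)
    (hF : ct S.σ M * JI (iformSO n k) K * M = JI (iformSO n k) K) (z : Fin k) :
    M (Sum.inr z) (Sum.inl t.swap) + S.σ (M (Sum.inl t) (Sum.inr z)) = 0 := by
  have h1 := formK_entry (B := iformSO n k) S.σ M (Sum.inr z) (Sum.inl t.swap)
  have hne : (Sum.inr z : (Fin n ⊕ Fin n) ⊕ Fin k) ≠ Sum.inl t := Sum.inr_ne_inl
  rw [hF, JI, if_neg (by
      change (Sum.inl t.swap : (Fin n ⊕ Fin n) ⊕ Fin k) ≠ Sum.inr z
      exact Sum.inl_ne_inr),
    ← Finset.add_sum_erase _ _ (Finset.mem_univ (Sum.inr z)),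
    ← Finset.add_sum_erase _ _ (Finset.mem_erase.2 ⟨Ne.symm hne, Finset.mem_univ (Sum.inl t)⟩),
    Finset.sum_eq_zero, add_zero] at h1
  · change 0 = (1 : ℝ) • (S.σ (M (Sum.inr z) (Sum.inr z)) * M (Sum.inr z) (Sum.inl t.swap)) +
      (1 : ℝ) • (S.σ (M (Sum.inl t) (Sum.inr z)) * M (Sum.inl t.swap) (Sum.inl t.swap)) at h1
    rw [hM.diag, hM.diag, FormK.σ_one, one_mul, mul_one, one_smul, one_smul] at h1
    exact h1.symm
  · intro a ha
    rw [Finset.mem_erase, Finset.mem_erase] at ha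
    have h0 : M a (Sum.inr z) = 0 := by
      by_contra hne0
      rcases short_off h hM ha.2.1 hne0 with ⟨h2, -⟩ | ⟨-, h2⟩ | ⟨-, h2⟩
      · exact ha.1 h2
      · exact Sum.inr_ne_inl h2
      · exact Sum.inr_ne_inl h2
    rw [h0, map_zero, zero_mul, smul_zero]

/-- second relation of the form for short roots -/
theorem short_rel2 {i j : Fin (n + 1)} {t : Fin n ⊕ Fin n} {c : ℝ} (h : ShortAt T i j t c)
    {M : Matrix ((Fin n ⊕ Fin n) ⊕ Fin k) ((Fin n ⊕ Fin n) ⊕ Fin k) K}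
    (hM : Ray (wSO n k) T i j M)
    (hF : ct S.σ M * JI (iformSO n k) K * M = JI (iformSO n k) K) :
    M (Sum.inl t) (Sum.inl t.swap) + S.σ (M (Sum.inl t) (Sum.inl t.swap)) +
      ∑ z, S.σ (M (Sum.inr z) (Sum.inl t.swap)) * M (Sum.inr z) (Sum.inl t.swap) = 0 := by
  have h1 := formK_entry (B := iformSO n k) S.σ M (Sum.inl t.swap) (Sum.inl t.swap)
  have hz : ∀ p : Fin n ⊕ Fin n, p ≠ t → p ≠ t.swap → M (Sum.inl p) (Sum.inl t.swap) = 0 := by
    intro p hp hp'
    by_contra hne0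
    rcases short_off h hM (fun h' => hp' (Sum.inl_injective h')) hne0 with
      ⟨h2, -⟩ | ⟨⟨z, h2⟩, -⟩ | ⟨h2, -⟩
    · exact hp (Sum.inl_injective h2)
    · exact Sum.inl_ne_inr h2
    · exact hp (Sum.inl_injective h2)
  rw [hF, JI, if_neg (by
      change (Sum.inl t.swap : (Fin n ⊕ Fin n) ⊕ Fin k) ≠ Sum.inl t.swap.swap
      rw [Sum.swap_swap]
      exact inl_swap_ne t), Fintype.sum_sum_type,
    ← Finset.add_sum_erase _ _ (Finset.mem_univ t.swap),
    ← Finset.add_sum_erase _ _ (Finset.mem_erase.2 ⟨Ne.symm swap_ne, Finset.mem_univ t⟩),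
    Finset.sum_eq_zero, add_zero] at h1
  · change 0 = (1 : ℝ) • (S.σ (M (Sum.inl t.swap) (Sum.inl t.swap)) *
        M (Sum.inl t.swap.swap) (Sum.inl t.swap)) +
      (1 : ℝ) • (S.σ (M (Sum.inl t) (Sum.inl t.swap)) * M (Sum.inl t.swap) (Sum.inl t.swap)) +
      ∑ z, (1 : ℝ) • (S.σ (M (Sum.inr z) (Sum.inl t.swap)) * M (Sum.inr z) (Sum.inl t.swap)) at h1
    rw [hM.diag, Sum.swap_swap, FormK.σ_one, one_mul, mul_one, one_smul, one_smul] at h1
    simp only [one_smul] at h1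
    exact h1.symm
  · intro p hp
    rw [Finset.mem_erase, Finset.mem_erase] at hp
    rw [hz p hp.1 hp.2.1, map_zero, zero_mul, smul_zero]

/-- an element of the ray of a short root with vanishing `(t, t')` entry is trivial -/
theorem short_trivial {i j : Fin (n + 1)} {t : Fin n ⊕ Fin n} {c : ℝ} (h : ShortAt T i j t c)
    {M : Matrix ((Fin n ⊕ Fin n) ⊕ Fin k) ((Fin n ⊕ Fin n) ⊕ Fin k) K}
    (hM : Ray (wSO n k) T i j M)
    (hF : ct S.σ M * JI (iformSO n k) K * M = JI (iformSO n k) K)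
    (hreal : ∀ x : Fin k → K, ∑ z, S.σ (x z) * x z = 0 → x = 0)
    (h0 : M (Sum.inl t) (Sum.inl t.swap) = 0) {a b : (Fin n ⊕ Fin n) ⊕ Fin k} (hab : a ≠ b) :
    M a b = 0 := by
  have h2 := short_rel2 h hM hF
  rw [h0, map_zero, add_zero, zero_add] at h2
  have h3 := hreal _ h2
  by_contra hne
  rcases short_off h hM hab hne with ⟨rfl, z, rfl⟩ | ⟨⟨z, rfl⟩, rfl⟩ | ⟨rfl, rfl⟩
  · have h4 := short_rel1 h hM hF z
    have h5 : M (Sum.inr z) (Sum.inl t.swap) = 0 := congrFun h3 z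
    rw [h5, zero_add] at h4
    apply hne
    rw [← S.invol (M (Sum.inl t) (Sum.inr z)), h4, map_zero]
  · exact hne (congrFun h3 z)
  · exact hne h0

/-- an element of the ray of a short root with vanishing `(t, z)` entries is trivial -/
theorem short_trivial' {i j : Fin (n + 1)} {t : Fin n ⊕ Fin n} {c : ℝ} (h : ShortAt T i j t c)
    {M : Matrix ((Fin n ⊕ Fin n) ⊕ Fin k) ((Fin n ⊕ Fin n) ⊕ Fin k) K}
    (hM : Ray (wSO n k) T i j M)
    (hF : ct S.σ M * JI (iformSO n k) K * M = JI (iformSO n k) K)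
    (hσ : ∀ x : K, S.σ x = x)
    (h0 : ∀ z, M (Sum.inl t) (Sum.inr z) = 0) {a b : (Fin n ⊕ Fin n) ⊕ Fin k} (hab : a ≠ b) :
    M a b = 0 := by
  have h1 : ∀ z, M (Sum.inr z) (Sum.inl t.swap) = 0 := by
    intro z
    have h4 := short_rel1 h hM hF z
    rwa [h0, map_zero, add_zero] at h4
  have h2 := short_rel2 h hM hF
  rw [Finset.sum_eq_zero (fun z _ => by rw [h1, map_zero, zero_mul]), add_zero, hσ,
    ← two_smul ℝ, smul_eq_zero] at h2
  have h3 := h2.resolve_left two_ne_zero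
  by_contra hne
  rcases short_off h hM hab hne with ⟨rfl, z, rfl⟩ | ⟨⟨z, rfl⟩, rfl⟩ | ⟨rfl, rfl⟩
  · exact hne (h0 z)
  · exact hne (h1 z)
  · exact hne h3

theorem PatRoot.entry_ne {I : Type} [Fintype I] [DecidableEq I] {B : IForm I}
    {wI : I → (Fin n → ℝ) →ₗ[ℝ] ℝ} {i j : Fin (n + 1)} (hij : i < j) {p q : I} {κ : ℝ}
    (hp : PatRoot B wI T i j p q κ) {M : Matrix I I K} (hM : Ray wI T i j M)
    (hF : ct S.σ M * JI B K * M = JI B K) {a b : I} {c : ℝ} (hc : 0 < c)
    (hr : RtW wI T i j a b c) (hne : M a b ≠ 0) : M p q ≠ 0 := by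
  rcases hp.pat a b c hc hr with ⟨rfl, rfl⟩ | ⟨rfl, rfl⟩
  · exact hne
  · intro h0
    have h1 := hp.partner hij hM hF
    rw [h0, map_zero, smul_zero, add_zero, smul_eq_zero] at h1
    rcases h1 with h1 | h1
    · have h2 := B.jc_sq q
      rw [h1, mul_zero] at h2
      exact zero_ne_one h2
    · exact hne h1

theorem short_indep {i j k' l : Fin (n + 1)} (hij : i < j) (hkl : k' < l) (hne : i ≠ k' ∨ j ≠ l)
    {s t : Fin n ⊕ Fin n} {c d : ℝ} (hs : ShortAt T i j s c) (ht : ShortAt T k' l t d) :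
    ix s ≠ ix t := by
  intro h
  rcases eq_or_swap_of_ix h with h1 | h1
  · have h2 : ∀ w : Fin n → ℝ, c * rootE i j w = d * rootE k' l w := fun w => by
      rw [← hs.eq, ← ht.eq, h1]
    exact hs.pos.ne' (root_indep hij hkl hne h2).1
  · have h2 : ∀ w : Fin n → ℝ, c * rootE i j w = (-d) * rootE k' l w := fun w => by
      rw [← hs.eq, neg_mul, ← ht.eq, h1, wl_swap, neg_neg]
    exact hs.pos.ne' (root_indep hij hkl hne h2).1

end alg

section two

variable {k : ℕ} {K : Type} [DivisionRing K] [Algebra ℝ K] {v : K → ℝ} {S : FormK v}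
  {T : (Fin 2 → ℝ) ≃ₗ[ℝ] (Fin 2 → ℝ)}

theorem long_id {a b s t : Fin 2 ⊕ Fin 2} {x y z : ℝ} (hx : 0 < x) (hy : 0 < y) (hz : 0 < z)
    (hab : ix a ≠ ix b) (hst : ix s ≠ ix t)
    (h : ∀ m : Fin 2, x * vc (k := k) (Sum.inl s) m =
      y * (vc (k := k) (Sum.inl a) m - vc (k := k) (Sum.inl b) m) +
        z * vc (k := k) (Sum.inl t) m) :
    (a = s ∧ b = t) ∨ (a = t.swap ∧ b = s.swap) := by
  have hcase : (ix s = ix a ∧ ix t = ix b) ∨ (ix s = ix b ∧ ix t = ix a) := by
    revert hab hst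
    generalize ix a = a'
    generalize ix b = b'
    generalize ix s = s'
    generalize ix t = t'
    revert a' b' s' t'
    decide
  rcases hcase with ⟨h1, h2⟩ | ⟨h1, h2⟩
  · left
    constructor
    · have h3 := h (ix s)
      rw [vc_zero (p := t) hst, vc_zero (p := b) (by rw [h1]; exact hab), sub_zero, mul_zero,
        add_zero] at h3
      exact eq_of_vc (k := k) hy hx h1 rfl h3.symm
    · have h3 := h (ix t)
      rw [vc_zero (p := s) (Ne.symm hst), vc_zero (p := a) (by rw [h2]; exact Ne.symm hab),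
        mul_zero, zero_sub] at h3
      exact eq_of_vc (k := k) hy hz h2 rfl (by linarith)
  · right
    constructor
    · have h3 := h (ix t)
      rw [vc_zero (p := s) (Ne.symm hst), vc_zero (p := b) (by rw [h2]; exact hab),
        mul_zero, sub_zero] at h3
      refine eq_of_vc (k := k) hy hz h2 (ix_swap t).symm ?_
      rw [vc_swap]
      linarith
    · have h3 := h (ix s)
      rw [vc_zero (p := t) hst, vc_zero (p := a) (by rw [h1]; exact Ne.symm hab), zero_sub,
        mul_zero, add_zero] at h3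
      refine eq_of_vc (k := k) hy hx h1 (ix_swap s).symm ?_
      rw [vc_swap]
      linarith

/-- In signature `(2, 2 + k)` the root `(0, 2)` is long. -/
theorem so_long {i j l : Fin (2 + 1)} (hij : i < j) (hjl : j < l)
    {P Q R : Matrix ((Fin 2 ⊕ Fin 2) ⊕ Fin k) ((Fin 2 ⊕ Fin 2) ⊕ Fin k) K}
    (hP : Ray (wSO 2 k) T i j P) (hQ : Ray (wSO 2 k) T j l Q) (hR : Ray (wSO 2 k) T i l R)
    (fP : ct S.σ P * JI (iformSO 2 k) K * P = JI (iformSO 2 k) K)
    (fQ : ct S.σ Q * JI (iformSO 2 k) K * Q = JI (iformSO 2 k) K)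
    (fR : ct S.σ R * JI (iformSO 2 k) K * R = JI (iformSO 2 k) K)
    (nP : ∃ a b c, 0 < c ∧ RtW (wSO 2 k) T i j a b c ∧ P a b ≠ 0)
    (nQ : ∃ a b c, 0 < c ∧ RtW (wSO 2 k) T j l a b c ∧ Q a b ≠ 0)
    (nR : ∃ a b c, 0 < c ∧ RtW (wSO 2 k) T i l a b c ∧ R a b ≠ 0)
    (hσ : ∀ x : K, S.σ x = x)
    (hreal : ∀ x : Fin k → K, ∑ z, S.σ (x z) * x z = 0 → x = 0)
    (hPQ : P * Q = Q * P * R) :
    ∃ p q κ, PatRoot (iformSO 2 k) (wSO 2 k) T i l (Sum.inl p) (Sum.inl q) κ := by
  obtain ⟨aP, bP, cP, hcP, rP, neP⟩ := nP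
  obtain ⟨aQ, bQ, cQ, hcQ, rQ, neQ⟩ := nQ
  obtain ⟨aR, bR, cR, hcR, rR, neR⟩ := nR
  rcases long_or_short (hij.trans hjl) hcR rR with ⟨p, q, rfl, rfl, hix⟩ | ⟨s, cs, hs⟩
  · exact ⟨p, q, cR, patRoot_long hcR rR hix⟩
  exfalso
  have hneR := RtW.ne (hij.trans hjl) hcR rR
  have hneP := RtW.ne hij hcP rP
  have hneQ := RtW.ne hjl hcQ rQ
  -- a column of `R` which is trivial
  have colR : ∀ t : Fin 2 ⊕ Fin 2, ix s ≠ ix t → ∀ M : Matrix ((Fin 2 ⊕ Fin 2) ⊕ Fin k)
      ((Fin 2 ⊕ Fin 2) ⊕ Fin k) K,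
      (M * R) (Sum.inl s) (Sum.inl t) = M (Sum.inl s) (Sum.inl t) := by
    intro t hst M
    rw [Matrix.mul_apply, Finset.sum_eq_single (Sum.inl t)]
    · rw [hR.diag, mul_one]
    · intro a _ ha
      by_contra hne0
      rcases short_off hs hR ha (right_ne_zero_of_mul hne0) with ⟨-, z, h2⟩ | ⟨-, h2⟩ | ⟨-, h2⟩
      · exact Sum.inl_ne_inr h2
      · rw [Sum.inl_injective h2, ix_swap] at hst; exact hst rfl
      · rw [Sum.inl_injective h2, ix_swap] at hst; exact hst rfl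
    · intro h'; exact absurd (Finset.mem_univ _) h'
  rcases long_or_short hij hcP rP with ⟨a, b, rfl, rfl, hab⟩ | ⟨t₁, c₁, h₁⟩ <;>
    rcases long_or_short hjl hcQ rQ with ⟨a', b', rfl, rfl, hab'⟩ | ⟨t₂, c₂, h₂⟩
  · -- both long
    have pP := patRoot_long hcP rP hab
    have pQ := patRoot_long hcQ rQ hab'
    have colz : ∀ (i' j' : Fin (2 + 1)) (M N : Matrix ((Fin 2 ⊕ Fin 2) ⊕ Fin k)
        ((Fin 2 ⊕ Fin 2) ⊕ Fin k) K) (p q : Fin 2 ⊕ Fin 2) (κ : ℝ) (_ : i' < j'),
        PatRoot (iformSO 2 k) (wSO 2 k) T i' j' (Sum.inl p) (Sum.inl q) κ →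
        Ray (wSO 2 k) T i' j' M → ∀ z, (N * M) (Sum.inl s) (Sum.inr z) =
          N (Sum.inl s) (Sum.inr z) := by
      intro i' j' M N p q κ hij' hp hM z
      rw [Matrix.mul_apply, Finset.sum_eq_single (Sum.inr z)]
      · rw [hM.diag, mul_one]
      · intro a _ ha
        rw [hp.off_zero hij' hM ha (fun h' => Sum.inr_ne_inl h'.2)
          (fun h' => Sum.inr_ne_inl (h'.2.trans rfl)), mul_zero]
      · intro h'; exact absurd (Finset.mem_univ _) h'
    have zP : ∀ z, P (Sum.inl s) (Sum.inr z) = 0 := fun z =>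
      pP.off_zero hij hP Sum.inl_ne_inr (fun h' => Sum.inr_ne_inl h'.2)
          (fun h' => Sum.inr_ne_inl (h'.2.trans rfl))
    have zQ : ∀ z, Q (Sum.inl s) (Sum.inr z) = 0 := fun z =>
      pQ.off_zero hjl hQ Sum.inl_ne_inr (fun h' => Sum.inr_ne_inl h'.2)
          (fun h' => Sum.inr_ne_inl (h'.2.trans rfl))
    have hR0 : ∀ z, R (Sum.inl s) (Sum.inr z) = 0 := by
      intro z
      have h1 := congrFun (congrFun hPQ (Sum.inl s)) (Sum.inr z)
      rw [colz _ _ Q P a' b' cQ hjl pQ hQ, zP] at h1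
      rw [Matrix.mul_apply, ← Finset.add_sum_erase _ _ (Finset.mem_univ (Sum.inr z)),
        ← Finset.add_sum_erase _ _ (Finset.mem_erase.2
          ⟨(Sum.inl_ne_inr : (Sum.inl s : (Fin 2 ⊕ Fin 2) ⊕ Fin k) ≠ Sum.inr z),
            Finset.mem_univ (Sum.inl s)⟩), Finset.sum_eq_zero, add_zero,
        colz _ _ P Q a b cP hij pP hP, zQ, zero_mul, zero_add,
        Ray.mul_left (T := T) hjl hij (Or.inl (ne_of_gt hij)) hQ hP (p := Sum.inl s)
          (q := Sum.inl s) (c := 0) (fun w => by rw [sub_self, zero_mul]), hQ.diag, one_mul] at h1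
      · exact h1.symm
      · intro x hx
        rw [Finset.mem_erase, Finset.mem_erase] at hx
        have h0 : R x (Sum.inr z) = 0 := by
          by_contra hne0
          rcases short_off hs hR hx.2.1 hne0 with ⟨h2, -⟩ | ⟨-, h2⟩ | ⟨-, h2⟩
          · exact hx.1 h2
          · exact Sum.inr_ne_inl h2
          · exact Sum.inr_ne_inl h2
        rw [h0, mul_zero]
    exact neR (short_trivial' hs hR fR hσ hR0 hneR)
  · -- `P` long, `Q` short
    have hst : ix s ≠ ix t₂ := short_indep (hij.trans hjl) hjl (Or.inl (ne_of_lt hij)) hs h₂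
    have hid := long_id (k := k) (x := cP * c₂) (y := cs * c₂) (z := cs * cP)
      (mul_pos hcP h₂.pos) (mul_pos hs.pos h₂.pos) (mul_pos hs.pos hcP) hab hst (fun m => by
        obtain ⟨w, hw⟩ := T.surjective (Pi.single m 1)
        have e1 := rP w
        have e2 := h₂.eq w
        have e3 := hs.eq w
        rw [hw, wSO_single, wSO_single] at e1
        rw [hw, wl_single] at e2 e3
        rw [e1]
        change cP * c₂ * ((wt s m : ℤ) : ℝ) = cs * c₂ * (cP * rootE i j w) +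
          cs * cP * ((wt t₂ m : ℤ) : ℝ)
        rw [e2, e3, rootE_trans i j l]
        ring)
    have rP' : RtW (wSO 2 k) T i j (Sum.inl s) (Sum.inl t₂) cP := by
      rcases hid with ⟨rfl, rfl⟩ | ⟨rfl, rfl⟩
      · exact rP
      · have := RtW.partner (B := iformSO 2 k) wSO_bar rP
        change RtW (wSO 2 k) T i j (Sum.inl s.swap.swap) (Sum.inl t₂.swap.swap) cP at this
        rwa [Sum.swap_swap, Sum.swap_swap] at this
    have pP := patRoot_long hcP rP' hst
    have hPst := pP.entry_ne hij hP fP hcP rP neP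
    have hsne : (Sum.inl s : (Fin 2 ⊕ Fin 2) ⊕ Fin k) ≠ Sum.inl t₂ := fun h' =>
      hst (by rw [Sum.inl_injective h'])
    have hsne' : (Sum.inl s : (Fin 2 ⊕ Fin 2) ⊕ Fin k) ≠ Sum.inl t₂.swap := fun h' =>
      hst (by rw [Sum.inl_injective h', ix_swap])
    have rowQ : ∀ x, x ≠ Sum.inl s → Q (Sum.inl s) x = 0 := by
      intro x hx
      by_contra hne0
      rcases short_off h₂ hQ (Ne.symm hx) hne0 with ⟨h2, -⟩ | ⟨⟨z, h2⟩, -⟩ | ⟨h2, -⟩
      · exact hsne h2
      · exact Sum.inl_ne_inr h2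
      · exact hsne h2
    have rowP : ∀ x, x ≠ Sum.inl s → x ≠ Sum.inl t₂ → P (Sum.inl s) x = 0 := fun x hx hx' =>
      pP.off_zero hij hP (Ne.symm hx) (fun h' => hx' h'.2) (fun h' => hsne' h'.1)
    have h1 := congrFun (congrFun hPQ (Sum.inl s)) (Sum.inl t₂.swap)
    rw [colR t₂.swap (by rw [ix_swap]; exact hst), Matrix.mul_apply, Matrix.mul_apply,
      Finset.sum_eq_single (Sum.inl t₂), Finset.sum_eq_single (Sum.inl s), hQ.diag, one_mul,
      rowP _ (Ne.symm hsne') (inl_swap_ne t₂)] at h1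
    · exact neQ (short_trivial h₂ hQ fQ hreal ((mul_eq_zero.1 h1).resolve_left hPst) hneQ)
    · intro x _ hx
      rw [rowQ x hx, zero_mul]
    · intro h'; exact absurd (Finset.mem_univ _) h'
    · intro x _ hx
      by_cases hx' : x = Sum.inl s
      · rw [hx', rowQ _ (Ne.symm hsne'), mul_zero]
      · rw [rowP x hx' hx, zero_mul]
    · intro h'; exact absurd (Finset.mem_univ _) h'
  · -- `P` short, `Q` long
    have hst : ix s ≠ ix t₁ := short_indep (hij.trans hjl) hij (Or.inr (ne_of_gt hjl)) hs h₁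
    have hid := long_id (k := k) (x := cQ * c₁) (y := cs * c₁) (z := cs * cQ)
      (mul_pos hcQ h₁.pos) (mul_pos hs.pos h₁.pos) (mul_pos hs.pos hcQ) hab' hst (fun m => by
        obtain ⟨w, hw⟩ := T.surjective (Pi.single m 1)
        have e1 := rQ w
        have e2 := h₁.eq w
        have e3 := hs.eq w
        rw [hw, wSO_single, wSO_single] at e1
        rw [hw, wl_single] at e2 e3
        rw [e1]
        change cQ * c₁ * ((wt s m : ℤ) : ℝ) = cs * c₁ * (cQ * rootE j l w) +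
          cs * cQ * ((wt t₁ m : ℤ) : ℝ)
        rw [e2, e3, rootE_trans i j l]
        ring)
    have rQ' : RtW (wSO 2 k) T j l (Sum.inl s) (Sum.inl t₁) cQ := by
      rcases hid with ⟨rfl, rfl⟩ | ⟨rfl, rfl⟩
      · exact rQ
      · have := RtW.partner (B := iformSO 2 k) wSO_bar rQ
        change RtW (wSO 2 k) T j l (Sum.inl s.swap.swap) (Sum.inl t₁.swap.swap) cQ at this
        rwa [Sum.swap_swap, Sum.swap_swap] at this
    have pQ := patRoot_long hcQ rQ' hst
    have hQst := pQ.entry_ne hjl hQ fQ hcQ rQ neQ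
    have hsne : (Sum.inl s : (Fin 2 ⊕ Fin 2) ⊕ Fin k) ≠ Sum.inl t₁ := fun h' =>
      hst (by rw [Sum.inl_injective h'])
    have hsne' : (Sum.inl s : (Fin 2 ⊕ Fin 2) ⊕ Fin k) ≠ Sum.inl t₁.swap := fun h' =>
      hst (by rw [Sum.inl_injective h', ix_swap])
    have rowP : ∀ x, x ≠ Sum.inl s → P (Sum.inl s) x = 0 := by
      intro x hx
      by_contra hne0
      rcases short_off h₁ hP (Ne.symm hx) hne0 with ⟨h2, -⟩ | ⟨⟨z, h2⟩, -⟩ | ⟨h2, -⟩
      · exact hsne h2
      · exact Sum.inl_ne_inr h2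
      · exact hsne h2
    have rowQ : ∀ x, x ≠ Sum.inl s → x ≠ Sum.inl t₁ → Q (Sum.inl s) x = 0 := fun x hx hx' =>
      pQ.off_zero hjl hQ (Ne.symm hx) (fun h' => hx' h'.2) (fun h' => hsne' h'.1)
    have h1 := congrFun (congrFun hPQ (Sum.inl s)) (Sum.inl t₁.swap)
    rw [colR t₁.swap (by rw [ix_swap]; exact hst), Matrix.mul_apply, Matrix.mul_apply,
      Finset.sum_eq_single (Sum.inl s), Finset.sum_eq_single (Sum.inl t₁), hP.diag, one_mul,
      rowQ _ (Ne.symm hsne') (inl_swap_ne t₁)] at h1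
    · exact neP (short_trivial h₁ hP fP hreal ((mul_eq_zero.1 h1.symm).resolve_left hQst) hneP)
    · intro x _ hx
      by_cases hx' : x = Sum.inl s
      · rw [hx', rowP _ (Ne.symm hsne'), mul_zero]
      · rw [rowQ x hx' hx, zero_mul]
    · intro h'; exact absurd (Finset.mem_univ _) h'
    · intro x _ hx
      rw [rowP x hx, zero_mul]
    · intro h'; exact absurd (Finset.mem_univ _) h'
  · -- both short
    have h12 : ix t₁ ≠ ix t₂ := short_indep hij hjl (Or.inl (ne_of_lt hij)) h₁ h₂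
    have hs1 : ix s ≠ ix t₁ := short_indep (hij.trans hjl) hij (Or.inr (ne_of_gt hjl)) hs h₁
    have hs2 : ix s ≠ ix t₂ := short_indep (hij.trans hjl) hjl (Or.inl (ne_of_lt hij)) hs h₂
    revert h12 hs1 hs2
    generalize ix t₁ = a
    generalize ix t₂ = b
    generalize ix s = c
    revert a b c
    decide

end two

section out

variable {k : ℕ} {D₁ : Type} [NormedDivisionRing D₁] [NormedAlgebra ℝ D₁]
  {U : Ultrafilter ℕ} {r : ℕ → ℝ} {K : Type} [DivisionRing K] [Algebra ℝ K] {v : K → ℝ}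

theorem expGe_one (hr : Tendsto r (U : Filter ℕ) atTop) :
    ExpGe U r (fun _ => (1 : D₁)) 0 := by
  intro η hη
  filter_upwards [hr.eventually_ge_atTop 0] with i hi
  rw [norm_one, Real.exp_le_one_iff]
  nlinarith

/-- **J for the orthogonal groups of signature `(2, 2 + k)`.** -/
theorem alg_out_so (hr : Tendsto r (U : Filter ℕ) atTop) (hv : UNorm v) (S : FormK v)
    (hσ : ∀ x : K, S.σ x = x)
    (hreal : ∀ x : Fin k → K, ∑ z, S.σ (x z) * x z = 0 → x = 0)
    (T : (Fin 2 → ℝ) ≃ₗ[ℝ] (Fin 2 → ℝ)) (GG : Set (ℕ → ANSL 2 D₁))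
    (V : (ℕ → ANSL 2 D₁) → (ℕ → ANSL 2 D₁) →
      Matrix ((Fin 2 ⊕ Fin 2) ⊕ Fin k) ((Fin 2 ⊕ Fin 2) ⊕ Fin k) K)
    (hV : VData U r v S (iformSO 2 k) (wSO 2 k) T GG V) (hm : ModG U r GG)
    (g : ℕ → ANSL 2 D₁)
    (c2 : ∀ (i j k : Fin (2 + 1)) (hij : i < j) (hjk : j < k),
      Cfg GG g hij hjk (fun _ => 0) (fun _ => 1)) :
    ∃ (i j l : Fin (2 + 1)) (hij : i < j) (hjl : j < l) (p q : Fin 2 ⊕ Fin 2) (κ : ℝ), 0 < κ ∧
      (∀ u w, Cfg GG g hij hjl u w →
        psiV V g (hij.trans hjl) (Sum.inl p) (Sum.inl q) (u + w) =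
          psiV V g (hij.trans hjl) (Sum.inl p) (Sum.inl q) u +
          psiV V g (hij.trans hjl) (Sum.inl p) (Sum.inl q) w) ∧
      (∀ (a b : ℕ → D₁) (τ : ℝ), g * rts (hij.trans hjl) a ∈ GG →
        g * rts (hij.trans hjl) b ∈ GG →
        (ExpGe U r (b - a) τ → Real.exp (κ * τ) ≤
          v (psiV V g (hij.trans hjl) (Sum.inl p) (Sum.inl q) b -
            psiV V g (hij.trans hjl) (Sum.inl p) (Sum.inl q) a)) ∧
        (ExpLe U r (b - a) τ →
          v (psiV V g (hij.trans hjl) (Sum.inl p) (Sum.inl q) b -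
            psiV V g (hij.trans hjl) (Sum.inl p) (Sum.inl q) a) ≤ Real.exp (κ * τ))) := by
  have l01 : (0 : Fin (2 + 1)) < 1 := by decide
  have l12 : (1 : Fin (2 + 1)) < 2 := by decide
  obtain ⟨x1, x2, x3, x4, x5, x6, x7⟩ := c2 0 1 2 l01 l12 g (by simp)
  have rel := gau_rel hV hv hm x1 l01 l12 x1 x2 x3 x4 x5 x6 x7
  obtain ⟨p, q, κ, hp⟩ := so_long (v := v) (S := S) l01 l12
    (gau_ray' hV hv hm x1 x1 l01 x2) (gau_ray' hV hv hm x1 x1 l12 x3)
    (gau_ray' hV hv hm x1 x1 (l01.trans l12) x6) (gau_form hV wSO_bar x1 x1 x2)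
    (gau_form hV wSO_bar x1 x1 x3) (gau_form hV wSO_bar x1 x1 x6)
    (exists_gau_ne hV hv hm x1 x1 l01 x2 (expGe_one hr))
    (exists_gau_ne hV hv hm x1 x1 l12 x3 (expGe_one hr))
    (exists_gau_ne hV hv hm x1 x1 (l01.trans l12) x6 (expGe_one hr)) hσ hreal rel
  refine ⟨0, 1, 2, l01, l12, p, q, κ, hp.pos, fun u w hc => ?_, fun a b τ ha hb => ⟨?_, ?_⟩⟩
  · exact psi_add hV hv hm x1 l01 l12 hp hc
  · exact psi_lower hV hv hm x1 (l01.trans l12) hp ha hb
  · exact psi_upper hV hv hm x1 (l01.trans l12) hp ha hb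

end out

end Pool.Agent.ANM65
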