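import Pool.Agent.ANQ.FinMain
import Pool.Agent.ANQ.FinSo
import Pool.Agent.ANQ.Bridge
import Pool.Agent.ANQ.E7Ex
import Pool.Agent.ANM65.OctQI
import Pool.Agent.ANM65.Tab
import Pool.Agent.ANM65.Spaces

/-!
# The proof of the theorem for each pair of spaces
-/

namespace Pool.Agent.ANMS

open Matrix Pool.Agent.ANM51 Pool.Agent.ANM65 Pool.Agent.ANQ Pool.Agent.ANMTab
open scoped Quaternion

/-! ### The exceptional groups -/

theorem diagAct_iff (a : Fin 3 → ℝ) (X Y : JJ) : Y = DJ a X ↔ DiagAct a X Y := by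
  refine ⟨?_, fun h => Subtype.ext ?_⟩
  · rintro rfl k l
    rfl
  · ext1 ⟨k, l⟩
    exact h k l

theorem rootAct_iff (i j : Fin 3) (z : OO) (X Y : JJ) : Y = TJ i j z X ↔ RootAct i j z X Y := by
  refine ⟨?_, fun h => Subtype.ext ?_⟩
  · rintro rfl k l
    rfl
  · ext1 ⟨k, l⟩
    exact h k l

theorem AN6_eq : AN6 = (ANE6 : Subgroup (JJ →L[ℝ] JJ)ˣ) := by
  refine congrArg Subgroup.closure (Set.ext fun g => ?_)
  refine or_congr (exists_congr fun a => and_congr Iff.rfl (and_congr Iff.rfl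
    (forall_congr' fun X => (diagAct_iff a X _).symm))) ?_
  exact exists_congr fun i => exists_congr fun j => exists_congr fun z => and_congr Iff.rfl
    (forall_congr' fun X => (rootAct_iff i j z X _).symm)

theorem space6_eq : space AN6 d6 = space (G := (JJ →L[ℝ] JJ)ˣ) ANE6 dE6 :=
  congrArg (fun S : Subgroup (GLc HO) => space S d6) AN6_eq

theorem AN7_eq : AN7 = (ANE7 : Subgroup (E7sp →L[ℝ] E7sp)ˣ) := by
  refine congrArg Subgroup.closure (Set.ext fun g => ?_)
  refine Iff.trans ?_ (or_assoc (a := ∃ v : JJ, ∀ (X : JJ) (t : ℝ), Units.val g (X, t) =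
    (X + t • v, t)) (b := ∃ a : Fin 3 → ℝ, (∀ i, 0 < a i) ∧ ∀ (X : JJ) (t : ℝ),
    Units.val g (X, t) = (DJ a X, t)) (c := ∃ (i j : Fin 3) (z : OO), i < j ∧
    ∀ (X : JJ) (t : ℝ), Units.val g (X, t) = (TJ i j z X, t))).symm
  refine or_congr Iff.rfl (or_congr (exists_congr fun a => and_congr Iff.rfl
    (forall_congr' fun X => forall_congr' fun t => ?_))
    (exists_congr fun i => exists_congr fun j => exists_congr fun z => and_congr Iff.rfl
      (forall_congr' fun X => forall_congr' fun t => ?_)))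
  · constructor
    · rintro ⟨Y, h1, h2⟩
      rw [← (diagAct_iff a X Y).2 h2]
      exact h1
    · intro h
      exact ⟨_, h, (diagAct_iff a X _).1 rfl⟩
  · constructor
    · rintro ⟨Y, h1, h2⟩
      rw [← (rootAct_iff i j z X Y).2 h2]
      exact h1
    · intro h
      exact ⟨_, h, (rootAct_iff i j z X _).1 rfl⟩

theorem space7_eq (d : GLc (HO × ℝ) → GLc (HO × ℝ) → ℝ) :
    space AN7 d = space (G := (E7sp →L[ℝ] E7sp)ˣ) ANE7 d :=
  congrArg (fun S : Subgroup (GLc (HO × ℝ)) => space S d) AN7_eq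

theorem spaceO_eq (k : ℕ) : space (ANO k) dMat = space (ANSO k) dX := by
  rw [ANO_eq]
  rfl

/-! ### The table -/

/-- the numerical condition -/
def Cond (n m ms ml : ℕ) : Prop := m ≤ ml ∨ (n = 3 ∧ m + ml ≤ ms)

theorem form_eq {n : ℕ} {D : Type} [NormedDivisionRing D] [NormedAlgebra ℝ D] (F : FormData D) :
    JI (iform0 n F) D = Jmat F n := by
  ext a b
  rw [Jmat_apply]
  rcases a with i | i <;> rfl

theorem form_eq_SO (k : ℕ) : JI (iformSO 2 k) ℝ = JSO k := by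
  ext a b
  rcases a with p | z
  · change (if b = Sum.inl p.swap then algebraMap ℝ ℝ 1 else 0) = if b = Sum.inl p.swap then 1 else 0
    rw [map_one]
  · change (if b = Sum.inr z then algebraMap ℝ ℝ 1 else 0) = if b = Sum.inr z then 1 else 0
    rw [map_one]

section neg

variable {n : ℕ} {D₁ : Type} [NormedDivisionRing D₁] [NormedAlgebra ℝ D₁]
  [FiniteDimensional ℝ D₁]

theorem neg_C {D₂ : Type} [NormedDivisionRing D₂] [NormedAlgebra ℝ D₂] [FiniteDimensional ℝ D₂]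
    (hn : 2 ≤ n) {F : FormData D₂}
    {d₁ : (Matrix (Fin (n + 1)) (Fin (n + 1)) D₁)ˣ → (Matrix (Fin (n + 1)) (Fin (n + 1)) D₁)ˣ → ℝ}
    {d₂ : (Matrix (Fin n ⊕ Fin n) (Fin n ⊕ Fin n) D₂)ˣ →
      (Matrix (Fin n ⊕ Fin n) (Fin n ⊕ Fin n) D₂)ˣ → ℝ} (h₁ : LinComp d₁) (h₂ : LinComp d₂)
    (h : QIEmbeds (space (ANSL n D₁) d₁) (space (ANC n F) d₂)) :
    Module.finrank ℝ D₁ ≤ Module.finrank ℝ F.L ∨
      (n = 3 ∧ Module.finrank ℝ D₁ ≤ Module.finrank ℝ (FM F)) := by
  obtain ⟨f, K, C, hK, -, hf⟩ := h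
  have : Nonempty (Fin n ⊕ Fin n) := ⟨.inl ⟨0, by omega⟩⟩
  obtain ⟨L, C', hQ⟩ := qie_of_metric (B := iform0 n F) (F := F) h₁ h₂
    (f := fun x : ANSL n D₁ => (f x).1) (fun x => by
      rw [form_eq]
      exact ANC_mem_FormGrp (f x)) hK hf
  exact main hn F _ hQ

theorem neg_SO {d₁ : (Matrix (Fin (2 + 1)) (Fin (2 + 1)) D₁)ˣ →
      (Matrix (Fin (2 + 1)) (Fin (2 + 1)) D₁)ˣ → ℝ} (h₁ : LinComp d₁) {k : ℕ}
    (h : QIEmbeds (space (ANSL 2 D₁) d₁) (space (ANO k) dMat)) : Module.finrank ℝ D₁ ≤ 1 := by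
  rw [spaceO_eq] at h
  obtain ⟨f, K, C, hK, -, hf⟩ := h
  have : Nonempty ((Fin 2 ⊕ Fin 2) ⊕ Fin k) := ⟨.inl (.inl 0)⟩
  obtain ⟨L, C', hQ⟩ := qie_of_metric (B := iformSO 2 k) (F := formSpR) h₁
    (dX_linComp (D := ℝ) (I := (Fin 2 ⊕ Fin 2) ⊕ Fin k))
    (f := fun x : ANSL 2 D₁ => (f x).1) (fun x => by
      rw [form_eq_SO]
      exact (f x).2.2.1) hK hf
  exact main_so k formSpR _ hQ

end neg

/-- a quasi-isometric embedding of `E_6(-26)/F_4` gives one of `SL_3(ℍ)/Sp(3)` -/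
theorem e6_restrict {X₂ : SymSpace} (h : QIEmbeds (space AN6 d6) X₂) : QIEmbeds (space (ANSL 2 ℍ[ℝ]) dMat) X₂ := by
  rw [space6_eq] at h
  obtain ⟨f, K, C, hK, hC, hf⟩ := h
  exact ⟨f ∘ rhoE, IsQIEmb.comp (dY := fun x y : ANE6 => dE6 x.1 y.1) ⟨K, C, hK, hC, hf⟩ rhoE_qi⟩

theorem finrank_le_R (W : Submodule ℝ ℝ) : Module.finrank ℝ W ≤ 1 := by
  have h := Submodule.finrank_le W
  rwa [Module.finrank_self] at h

theorem finrank_le_C (W : Submodule ℝ ℂ) : Module.finrank ℝ W ≤ 2 := by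
  have h := Submodule.finrank_le W
  rwa [Complex.finrank_real_complex] at h

/-- the bounds for the dimensions attached to the forms -/
structure Dims {D : Type} [NormedDivisionRing D] [NormedAlgebra ℝ D] (F : FormData D)
    (ms ml : ℕ) : Prop where
  hL : Module.finrank ℝ F.L ≤ ml
  hM : Module.finrank ℝ (FM F) + ml ≤ ms

theorem dims_spR : Dims formSpR 1 1 where
  hL := finrank_le_R _
  hM := by
    have h1 : (1 : ℝ) ∈ formSpR.L := by
      rw [FormData.mem_L]
      change (1 : ℝ) = (1 : ℝ) • (1 : ℝ)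
      rw [one_smul]
    have h2 := FM_lt one_ne_zero h1
    rw [Module.finrank_self] at h2
    omega

theorem dims_spC : Dims formSpC 2 2 where
  hL := finrank_le_C _
  hM := by
    have h1 : FM formSpC = ⊥ := by
      rw [Submodule.eq_bot_iff]
      intro z hz
      rw [mem_FM] at hz
      change z = -((1 : ℝ) • z) at hz
      rw [one_smul] at hz
      by_contra hne
      exact two_ne hne (by nth_rewrite 1 [hz]; exact neg_add_cancel z)
    rw [h1, finrank_bot]

theorem dims_su : Dims formSU 2 1 where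
  hL := L_SU_le
  hM := by
    have h2 := FM_lt one_ne_zero one_mem_L_SU
    rw [Complex.finrank_real_complex] at h2
    omega

theorem dims_sos : Dims formSOs 4 1 where
  hL := L_SOs_le
  hM := by
    have h2 := FM_lt one_ne_zero one_mem_L_SOs
    rw [finrank_H] at h2
    omega

theorem dims_spnn : Dims formSpnn 4 3 where
  hL := by
    have := L_Spnn_lt
    omega
  hM := by
    have h1 : FM formSpnn = formSOs.L := by
      ext z
      rw [mem_FM, FormData.mem_L]
      change star z = -((-1 : ℝ) • z) ↔ star z = (1 : ℝ) • z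
      rw [neg_smul, one_smul, neg_neg]
    have h2 := L_SOs_le
    rw [h1]
    omega

theorem cond_C {n m ms ml : ℕ} {D₁ D₂ : Type} [NormedDivisionRing D₁] [NormedAlgebra ℝ D₁]
    [FiniteDimensional ℝ D₁] [NormedDivisionRing D₂] [NormedAlgebra ℝ D₂]
    [FiniteDimensional ℝ D₂] (hn : 2 ≤ n) {F : FormData D₂} (hF : Dims F ms ml)
    (hm : Module.finrank ℝ D₁ = m)
    {d₁ : (Matrix (Fin (n + 1)) (Fin (n + 1)) D₁)ˣ → (Matrix (Fin (n + 1)) (Fin (n + 1)) D₁)ˣ → ℝ}
    {d₂ : (Matrix (Fin n ⊕ Fin n) (Fin n ⊕ Fin n) D₂)ˣ →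
      (Matrix (Fin n ⊕ Fin n) (Fin n ⊕ Fin n) D₂)ˣ → ℝ} (h₁ : LinComp d₁) (h₂ : LinComp d₂)
    (h : QIEmbeds (space (ANSL n D₁) d₁) (space (ANC n F) d₂)) : Cond n m ms ml := by
  have hL := hF.hL
  have hM := hF.hM
  rcases neg_C hn h₁ h₂ h with h3 | ⟨h3, h4⟩
  · left; omega
  · right; exact ⟨h3, by omega⟩

theorem an_C {n : ℕ} {D₁ D₂ : Type} [NormedDivisionRing D₁] [NormedAlgebra ℝ D₁]
    [NormedDivisionRing D₂] [NormedAlgebra ℝ D₂] {F : FormData D₂}
    {d₁ : (Matrix (Fin (n + 1)) (Fin (n + 1)) D₁)ˣ → (Matrix (Fin (n + 1)) (Fin (n + 1)) D₁)ˣ → ℝ}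
    {d₂ : (Matrix (Fin n ⊕ Fin n) (Fin n ⊕ Fin n) D₂)ˣ →
      (Matrix (Fin n ⊕ Fin n) (Fin n ⊕ Fin n) D₂)ˣ → ℝ} (h : HasANMap n D₁ F) :
    ANEmbeds (space (ANSL n D₁) d₁) (space (ANC n F) d₂) := h

theorem an_SO {k : ℕ} (hk : 1 ≤ k) : ANEmbeds (space (ANSL 2 ℝ) dMat) (space (ANO k) dMat) := by
  rw [spaceO_eq]
  exact exists_anmap_so hk

theorem an_7 {D : Type} [NormedDivisionRing D] [NormedAlgebra ℝ D]
    {d₁ : (Matrix (Fin (3 + 1)) (Fin (3 + 1)) D)ˣ → (Matrix (Fin (3 + 1)) (Fin (3 + 1)) D)ˣ → ℝ}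
    {d : GLc (HO × ℝ) → GLc (HO × ℝ) → ℝ}
    (h : ∃ φ : ANSL 3 D →* ANE7, Continuous φ ∧ Function.Injective φ) :
    ANEmbeds (space (ANSL 3 D) d₁) (space AN7 d) := by
  rw [space7_eq]
  exact h

theorem both (n : ℕ) (hn : 2 ≤ n) (m ms ml : ℕ) (X₁ X₂ : SymSpace) (h₁ : TypeA n m X₁)
    (h₂ : TypeC n ms ml X₂) :
    (QIEmbeds X₁ X₂ → Cond n m ms ml) ∧ (Cond n m ms ml → ANEmbeds X₁ X₂) := by
  have : NeZero n := ⟨by omega⟩
  have dR : Module.finrank ℝ ℝ = 1 := Module.finrank_self ℝ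
  have dC : Module.finrank ℝ ℂ = 2 := Complex.finrank_real_complex
  have dH : Module.finrank ℝ ℍ[ℝ] = 4 := finrank_H
  rcases h₁ with n | n | n | _
  · rcases h₂ with n | n | n | n | n | ⟨k, hk⟩ | d
    · exact ⟨cond_C hn dims_spR dR dX_linComp dX_linComp, fun _ => an_C R_SpR⟩
    · exact ⟨cond_C hn dims_spC dR dX_linComp dX_linComp, fun _ => an_C R_SpC⟩
    · exact ⟨cond_C hn dims_su dR dX_linComp dX_linComp, fun _ => an_C R_SU⟩
    · exact ⟨cond_C hn dims_sos dR dX_linComp dX_linComp, fun _ => an_C R_SOs⟩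
    · exact ⟨cond_C hn dims_spnn dR dX_linComp dX_linComp, fun _ => an_C R_Spnn⟩
    · exact ⟨fun _ => Or.inl le_rfl, fun _ => an_SO hk⟩
    · exact ⟨fun _ => Or.inl le_rfl, fun _ => an_7 exists_anmap_e7.1⟩
  · rcases h₂ with n | n | n | n | n | ⟨k, hk⟩ | d
    · refine ⟨cond_C hn dims_spR dC dX_linComp dX_linComp, fun h => ?_⟩
      unfold Cond at h; omega
    · exact ⟨cond_C hn dims_spC dC dX_linComp dX_linComp, fun _ => an_C C_SpC⟩
    · refine ⟨cond_C hn dims_su dC dX_linComp dX_linComp, fun h => ?_⟩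
      unfold Cond at h; omega
    · refine ⟨cond_C hn dims_sos dC dX_linComp dX_linComp, fun h => ?_⟩
      unfold Cond at h
      obtain rfl : n = 3 := by omega
      exact an_C C_SOs3
    · exact ⟨cond_C hn dims_spnn dC dX_linComp dX_linComp, fun _ => an_C C_Spnn⟩
    · refine ⟨fun h => ?_, fun h => ?_⟩
      · have h1 := neg_SO dX_linComp h
        rw [dC] at h1
        omega
      · unfold Cond at h; omega
    · exact ⟨fun _ => Or.inr ⟨rfl, by norm_num⟩, fun _ => an_7 exists_anmap_e7.2.1⟩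
  · rcases h₂ with n | n | n | n | n | ⟨k, hk⟩ | d
    · refine ⟨cond_C hn dims_spR dH dX_linComp dX_linComp, fun h => ?_⟩
      unfold Cond at h; omega
    · refine ⟨cond_C hn dims_spC dH dX_linComp dX_linComp, fun h => ?_⟩
      unfold Cond at h; omega
    · refine ⟨cond_C hn dims_su dH dX_linComp dX_linComp, fun h => ?_⟩
      unfold Cond at h; omega
    · refine ⟨cond_C hn dims_sos dH dX_linComp dX_linComp, fun h => ?_⟩
      unfold Cond at h; omega
    · refine ⟨cond_C hn dims_spnn dH dX_linComp dX_linComp, fun h => ?_⟩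
      unfold Cond at h; omega
    · refine ⟨fun h => ?_, fun h => ?_⟩
      · have h1 := neg_SO dX_linComp h
        rw [dH] at h1
        omega
      · unfold Cond at h; omega
    · exact ⟨fun _ => Or.inr ⟨rfl, by norm_num⟩, fun _ => an_7 exists_anmap_e7.2.2⟩
  · have hno : ∀ {ms ml : ℕ}, ml < 8 → Cond 2 8 ms ml → False := by
      intro ms ml hml h
      unfold Cond at h; omega
    rcases h₂ with n | n | n | n | n | ⟨k, hk⟩
    · refine ⟨fun h => ?_, fun h => (hno (by norm_num) h).elim⟩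
      have h1 := cond_C hn dims_spR dH dX_linComp dX_linComp (e6_restrict h)
      unfold Cond at h1; omega
    · refine ⟨fun h => ?_, fun h => (hno (by norm_num) h).elim⟩
      have h1 := cond_C hn dims_spC dH dX_linComp dX_linComp (e6_restrict h)
      unfold Cond at h1; omega
    · refine ⟨fun h => ?_, fun h => (hno (by norm_num) h).elim⟩
      have h1 := cond_C hn dims_su dH dX_linComp dX_linComp (e6_restrict h)
      unfold Cond at h1; omega
    · refine ⟨fun h => ?_, fun h => (hno (by norm_num) h).elim⟩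
      have h1 := cond_C hn dims_sos dH dX_linComp dX_linComp (e6_restrict h)
      unfold Cond at h1; omega
    · refine ⟨fun h => ?_, fun h => (hno (by norm_num) h).elim⟩
      have h1 := cond_C hn dims_spnn dH dX_linComp dX_linComp (e6_restrict h)
      unfold Cond at h1; omega
    · refine ⟨fun h => ?_, fun h => (hno (by norm_num) h).elim⟩
      have h1 := neg_SO dX_linComp (e6_restrict h)
      rw [dH] at h1
      omega


end Pool.Agent.ANMS
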