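import Pool.Agent.ANQ.VDef
import Pool.Agent.ANM65.Core

/-!
# Root algebra for the difference elements over the Robinson division ring: generalities
-/

namespace Pool.Agent.ANM65

open Matrix Filter Topology Pool.Agent.ANM51 Pool.Agent.ANQ

set_option linter.unusedSectionVars false

section lin

variable {n : ℕ}

theorem ext_add (p q : Fin n → ℝ) : ext (p + q) = ext p + ext q := by
  funext i
  refine Fin.lastCases ?_ (fun i => ?_) i <;> simp [ANQ.ext]

theorem ext_smul (c : ℝ) (p : Fin n → ℝ) : ext (c • p) = c • ext p := by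
  funext i
  refine Fin.lastCases ?_ (fun i => ?_) i <;> simp [ANQ.ext]

/-- the projection of `Fin (n + 1) → ℝ` along the constants -/
def prj (n : ℕ) : (Fin (n + 1) → ℝ) →ₗ[ℝ] (Fin n → ℝ) where
  toFun s k := s (Fin.castSucc k) - s (Fin.last n)
  map_add' s t := by
    funext k
    simp only [Pi.add_apply]
    ring
  map_smul' c s := by
    funext k
    simp only [Pi.smul_apply, smul_eq_mul, RingHom.id_apply]
    ring

theorem prj_ext (w : Fin n → ℝ) : prj n (ext w) = w := by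
  funext k
  change ext w (Fin.castSucc k) - ext w (Fin.last n) = w k
  simp [ANQ.ext]

theorem ext_prj (s : Fin (n + 1) → ℝ) (i : Fin (n + 1)) :
    ext (prj n s) i = s i - s (Fin.last n) := by
  refine Fin.lastCases ?_ (fun i => ?_) i
  · simp [ANQ.ext]
  · simp [ANQ.ext, prj]

theorem rootE_prj (i j : Fin (n + 1)) (s : Fin (n + 1) → ℝ) :
    rootE i j (prj n s) = s i - s j := by
  rw [rootE, ext_prj, ext_prj]; ring

theorem rootE_add (i j : Fin (n + 1)) (p q : Fin n → ℝ) :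
    rootE i j (p + q) = rootE i j p + rootE i j q := by
  rw [rootE, rootE, rootE, ext_add, Pi.add_apply, Pi.add_apply]; ring

theorem rootE_smul (i j : Fin (n + 1)) (c : ℝ) (p : Fin n → ℝ) :
    rootE i j (c • p) = c * rootE i j p := by
  rw [rootE, rootE, ext_smul, Pi.smul_apply, Pi.smul_apply, smul_eq_mul, smul_eq_mul]; ring

theorem rootE_trans (i j k : Fin (n + 1)) (p : Fin n → ℝ) :
    rootE i k p = rootE i j p + rootE j k p := by
  rw [rootE, rootE, rootE]; ring

theorem exists_rootE {i j : Fin (n + 1)} (hij : i < j) (t : ℝ) :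
    ∃ w : Fin n → ℝ, rootE i j w = t := by
  refine ⟨prj n (t • Pi.single i 1), ?_⟩
  rw [rootE_prj, Pi.smul_apply, Pi.smul_apply, Pi.single_eq_same,
    Pi.single_eq_of_ne (ne_of_gt hij), smul_eq_mul, smul_eq_mul]
  ring

/-- distinct positive roots are linearly independent -/
theorem root_indep {i j k l : Fin (n + 1)} (hij : i < j) (hkl : k < l) (hne : i ≠ k ∨ j ≠ l)
    {a b : ℝ} (h : ∀ w : Fin n → ℝ, a * rootE i j w = b * rootE k l w) : a = 0 ∧ b = 0 := by
  have key : ∀ s : Fin (n + 1) → ℝ, a * (s i - s j) = b * (s k - s l) := fun s => by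
    rw [← rootE_prj, ← rootE_prj]; exact h _
  have hi := key (Pi.single i 1)
  have hj := key (Pi.single j 1)
  have hk := key (Pi.single k 1)
  have hl := key (Pi.single l 1)
  rw [Pi.single_eq_same, Pi.single_eq_of_ne (ne_of_gt hij)] at hi
  rw [Pi.single_eq_same, Pi.single_eq_of_ne (ne_of_lt hij)] at hj
  rw [Pi.single_eq_same, Pi.single_eq_of_ne (ne_of_gt hkl)] at hk
  rw [Pi.single_eq_same, Pi.single_eq_of_ne (ne_of_lt hkl)] at hl
  by_cases h1 : i = k
  · have h2 : j ≠ l := by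
      rcases hne with h | h
      · exact absurd h1 h
      · exact h
    subst h1
    rw [Pi.single_eq_of_ne (ne_of_lt hij), Pi.single_eq_of_ne (Ne.symm h2)] at hj
    have ha : a = 0 := by linarith
    refine ⟨ha, ?_⟩
    rw [ha] at hi
    rw [Pi.single_eq_same, Pi.single_eq_of_ne (ne_of_gt hkl)] at hi
    linarith
  · rw [Pi.single_eq_of_ne (Ne.symm h1)] at hi
    rw [Pi.single_eq_of_ne h1] at hk
    by_cases h2 : l = i
    · have h3 : j ≠ k := by
        rintro rfl
        rw [h2] at hkl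
        exact absurd hij (not_lt.2 hkl.le)
      rw [h2, Pi.single_eq_same] at hi
      rw [Pi.single_eq_of_ne h3] at hk
      have hb : b = 0 := by linarith
      refine ⟨?_, hb⟩
      rw [hb] at hi
      linarith
    · rw [Pi.single_eq_of_ne h2] at hi
      have ha : a = 0 := by linarith
      refine ⟨ha, ?_⟩
      rw [ha] at hk
      linarith

theorem lin_of_bdd {i j : Fin (n + 1)} (hij : i < j) (l : (Fin n → ℝ) →ₗ[ℝ] ℝ)
    {L m : ℝ} (h : ∀ w : Fin n → ℝ, L ≤ rootE i j w → m ≤ l w) :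
    ∃ c : ℝ, 0 ≤ c ∧ ∀ w, l w = c * rootE i j w := by
  obtain ⟨c, hc, hcs⟩ := lin_of_bdd_below hij (l ∘ₗ prj n) (L := L) (m := m) (fun s hs => by
    rw [LinearMap.comp_apply]
    apply h
    rw [rootE_prj]
    exact hs)
  refine ⟨c, hc, fun w => ?_⟩
  have h1 := hcs (ext w)
  rw [LinearMap.comp_apply, prj_ext] at h1
  rw [h1, rootE]

/-- the closed Weyl chamber spans -/
theorem cone_span (l : (Fin n → ℝ) →ₗ[ℝ] ℝ)
    (h : ∀ w : Fin n → ℝ, Antitone (ext w) → l w = 0) (w : Fin n → ℝ) : l w = 0 := by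
  set s₀ : Fin (n + 1) → ℝ := fun k => -((k : ℕ) : ℝ) with hs₀
  have hanti : ∀ s : Fin (n + 1) → ℝ, Antitone s → l (prj n s) = 0 := by
    intro s hs
    apply h
    intro a b hab
    rw [ext_prj, ext_prj]
    have := hs hab
    linarith
  set C : ℝ := 2 * ∑ k, |ext w k| with hC
  have hCk : ∀ k, |ext w k| ≤ ∑ k, |ext w k| := fun k =>
    Finset.single_le_sum (f := fun k => |ext w k|) (fun k _ => abs_nonneg _) (Finset.mem_univ k)
  have hC0 : 0 ≤ C := by
    rw [hC]
    have : 0 ≤ ∑ k, |ext w k| := Finset.sum_nonneg fun k _ => abs_nonneg _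
    linarith
  have h0 : l (prj n s₀) = 0 := hanti s₀ (by
    intro a b hab
    have : ((a : ℕ) : ℝ) ≤ ((b : ℕ) : ℝ) := by exact_mod_cast hab
    change -((b : ℕ) : ℝ) ≤ -((a : ℕ) : ℝ)
    linarith)
  have h1 : l (prj n (ext w + C • s₀)) = 0 := hanti _ (by
    intro a b hab
    rcases eq_or_lt_of_le hab with rfl | hlt
    · exact le_rfl
    · have h2 : ((a : ℕ) : ℝ) + 1 ≤ ((b : ℕ) : ℝ) := by exact_mod_cast hlt
      change ext w b + C * -((b : ℕ) : ℝ) ≤ ext w a + C * -((a : ℕ) : ℝ)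
      have h3 := hCk a
      have h4 := hCk b
      have h5 := neg_abs_le (ext w a)
      have h6 := le_abs_self (ext w b)
      have h7 : C * (((a : ℕ) : ℝ) + 1) ≤ C * ((b : ℕ) : ℝ) := mul_le_mul_of_nonneg_left h2 hC0
      nlinarith)
  rw [map_add, map_smul, map_add, map_smul, h0, prj_ext, smul_zero, add_zero] at h1
  exact h1

end lin

section gen

variable {n : ℕ} {D₁ : Type} [NormedDivisionRing D₁] [NormedAlgebra ℝ D₁]
  {U : Ultrafilter ℕ} {r : ℕ → ℝ} {K : Type} [DivisionRing K] [Algebra ℝ K] {v : K → ℝ}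
  {S : FormK v} {I : Type} [Fintype I] [DecidableEq I] {B : IForm I}
  {wI : I → (Fin n → ℝ) →ₗ[ℝ] ℝ} {T : (Fin n → ℝ) ≃ₗ[ℝ] (Fin n → ℝ)}

/-- `wI p ∘ T - wI q ∘ T = c * root` -/
def RtW (wI : I → (Fin n → ℝ) →ₗ[ℝ] ℝ) (T : (Fin n → ℝ) ≃ₗ[ℝ] (Fin n → ℝ))
    (i j : Fin (n + 1)) (p q : I) (c : ℝ) : Prop :=
  ∀ w, wI p (T w) - wI q (T w) = c * rootE i j w

theorem wI_eq_of_zero {p q : I} (h : ∀ w, wI p (T w) - wI q (T w) = 0) : wI p = wI q := by
  apply LinearMap.ext
  intro t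
  obtain ⟨w, rfl⟩ := T.surjective t
  have := h w
  linarith

theorem wI_eq_of_cone {p q : I}
    (h : ∀ w, Antitone (ext w) → wI p (T w) - wI q (T w) = 0) : wI p = wI q := by
  apply wI_eq_of_zero (T := T)
  intro w
  exact cone_span ((wI p - wI q) ∘ₗ T.toLinearMap) h w

/-- the entries vanish unless the weight is non-negative on the cone -/
def TriW (wI : I → (Fin n → ℝ) →ₗ[ℝ] ℝ) (T : (Fin n → ℝ) ≃ₗ[ℝ] (Fin n → ℝ))
    (M : Matrix I I K) : Prop :=
  ∀ p q, M p q ≠ 0 → ∀ w : Fin n → ℝ, Antitone (ext w) → 0 ≤ wI p (T w) - wI q (T w)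

open scoped Classical in
/-- the part of weight zero -/
noncomputable def zp (wI : I → (Fin n → ℝ) →ₗ[ℝ] ℝ) (M : Matrix I I K) : Matrix I I K :=
  fun p q => if wI p = wI q then M p q else 0

theorem zp_eq {M : Matrix I I K} {p q : I} (h : wI p = wI q) : zp wI M p q = M p q := by
  rw [zp, if_pos h]

theorem zp_ne {M : Matrix I I K} {p q : I} (h : wI p ≠ wI q) : zp wI M p q = 0 := by
  rw [zp, if_neg h]

theorem zp_one : zp wI (1 : Matrix I I K) = 1 := by
  ext p q
  by_cases h : wI p = wI q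
  · rw [zp_eq h]
  · rw [zp_ne h, Matrix.one_apply_ne]
    rintro rfl
    exact h rfl

theorem zp_mul {M N : Matrix I I K} (hM : TriW wI T M) (hN : TriW wI T N) :
    zp wI (M * N) = zp wI M * zp wI N := by
  ext p q
  rw [Matrix.mul_apply]
  by_cases h : wI p = wI q
  · rw [zp_eq h, Matrix.mul_apply]
    refine Finset.sum_congr rfl fun a _ => ?_
    by_cases ha : wI p = wI a
    · rw [zp_eq ha, zp_eq (ha ▸ h)]
    · rw [zp_ne ha, zero_mul]
      by_contra hne
      apply ha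
      apply wI_eq_of_cone (T := T)
      intro w hw
      have h1 := hM p a (left_ne_zero_of_mul hne) w hw
      have h2 := hN a q (right_ne_zero_of_mul hne) w hw
      rw [← h] at h2
      linarith
  · rw [zp_ne h, Finset.sum_eq_zero]
    intro a _
    by_cases ha : wI p = wI a
    · rw [zp_ne (M := N) (by rw [← ha]; exact h), mul_zero]
    · rw [zp_ne ha, zero_mul]

theorem zp_zp_mul (M N : Matrix I I K) : zp wI (zp wI M * N) = zp wI M * zp wI N := by
  ext p q
  rw [Matrix.mul_apply]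
  by_cases h : wI p = wI q
  · rw [zp_eq h, Matrix.mul_apply]
    refine Finset.sum_congr rfl fun a _ => ?_
    by_cases ha : wI p = wI a
    · rw [zp_eq (M := N) (ha ▸ h)]
    · rw [zp_ne ha, zero_mul, zero_mul]
  · rw [zp_ne h, Finset.sum_eq_zero]
    intro a _
    by_cases ha : wI p = wI a
    · rw [zp_ne (M := N) (by rw [← ha]; exact h), mul_zero]
    · rw [zp_ne ha, zero_mul]

theorem zp_mul_zp (M N : Matrix I I K) : zp wI (M * zp wI N) = zp wI M * zp wI N := by
  ext p q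
  rw [Matrix.mul_apply]
  by_cases h : wI p = wI q
  · rw [zp_eq h, Matrix.mul_apply]
    refine Finset.sum_congr rfl fun a _ => ?_
    by_cases ha : wI p = wI a
    · rw [zp_eq ha]
    · rw [zp_ne (M := N) (by rw [← h]; exact fun h' => ha h'.symm), mul_zero, mul_zero]
  · rw [zp_ne h, Finset.sum_eq_zero]
    intro a _
    by_cases ha : wI p = wI a
    · rw [zp_ne (M := N) (by rw [← ha]; exact h), mul_zero]
    · rw [zp_ne ha, zero_mul]

theorem TriW.zp (M : Matrix I I K) : TriW wI T (zp wI M) := by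
  intro p q hpq w _
  by_cases h : wI p = wI q
  · rw [h, sub_self]
  · exact absurd (zp_ne h) hpq

theorem TriW.mul {M N : Matrix I I K} (hM : TriW wI T M) (hN : TriW wI T N) :
    TriW wI T (M * N) := by
  intro p q hpq w hw
  rw [Matrix.mul_apply] at hpq
  obtain ⟨a, -, ha⟩ := Finset.exists_ne_zero_of_sum_ne_zero hpq
  have h1 := hM p a (left_ne_zero_of_mul ha) w hw
  have h2 := hN a q (right_ne_zero_of_mul ha) w hw
  linarith

/-- Unipotent matrices all of whose entries have weight a positive multiple of the root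
`(i, j)`. -/
structure Ray (wI : I → (Fin n → ℝ) →ₗ[ℝ] ℝ) (T : (Fin n → ℝ) ≃ₗ[ℝ] (Fin n → ℝ))
    (i j : Fin (n + 1)) (M : Matrix I I K) : Prop where
  diag : ∀ p, M p p = 1
  off : ∀ p q, M p q ≠ 0 → ∃ c : ℝ, 0 ≤ c ∧ (c = 0 → p = q) ∧ RtW wI T i j p q c

theorem Ray.mul_left {i j k l : Fin (n + 1)} (hij : i < j) (hkl : k < l) (hne : i ≠ k ∨ j ≠ l)
    {P Q : Matrix I I K} (hP : Ray wI T i j P) (hQ : Ray wI T k l Q) {p q : I} {c : ℝ}
    (hw : RtW wI T i j p q c) : (P * Q) p q = P p q := by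
  rw [Matrix.mul_apply, Finset.sum_eq_single q]
  · rw [hQ.diag, mul_one]
  · intro a _ ha
    by_contra hne0
    obtain ⟨x, hx, -, hxw⟩ := hP.off p a (left_ne_zero_of_mul hne0)
    obtain ⟨y, hy, hy0, hyw⟩ := hQ.off a q (right_ne_zero_of_mul hne0)
    have h2 : ∀ w : Fin n → ℝ, (c - x) * rootE i j w = y * rootE k l w := by
      intro w
      have e1 := hw w
      have e2 := hxw w
      have e3 := hyw w
      linarith
    exact ha (hy0 (root_indep hij hkl hne h2).2)
  · intro h'; exact absurd (Finset.mem_univ _) h'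

theorem Ray.mul_right {i j k l : Fin (n + 1)} (hij : i < j) (hkl : k < l) (hne : i ≠ k ∨ j ≠ l)
    {P Q : Matrix I I K} (hP : Ray wI T i j P) (hQ : Ray wI T k l Q) {p q : I} {c : ℝ}
    (hw : RtW wI T i j p q c) : (Q * P) p q = P p q := by
  rw [Matrix.mul_apply, Finset.sum_eq_single p]
  · rw [hQ.diag, one_mul]
  · intro a _ ha
    by_contra hne0
    obtain ⟨y, hy, hy0, hyw⟩ := hQ.off p a (left_ne_zero_of_mul hne0)
    obtain ⟨x, hx, -, hxw⟩ := hP.off a q (right_ne_zero_of_mul hne0)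
    have h2 : ∀ w : Fin n → ℝ, (c - x) * rootE i j w = y * rootE k l w := by
      intro w
      have e1 := hw w
      have e2 := hxw w
      have e3 := hyw w
      linarith
    exact ha (hy0 (root_indep hij hkl hne h2).2).symm
  · intro h'; exact absurd (Finset.mem_univ _) h'

theorem Ray.ext {i j : Fin (n + 1)} {P P' : Matrix I I K} (hP : Ray wI T i j P)
    (hP' : Ray wI T i j P') (h : ∀ p q c, RtW wI T i j p q c → P p q = P' p q) : P = P' := by
  ext p q
  by_cases h1 : P p q = 0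
  · by_cases h2 : P' p q = 0
    · rw [h1, h2]
    · obtain ⟨c, hc, hc0, hcw⟩ := hP'.off p q h2
      exact h p q c hcw
  · obtain ⟨c, hc, hc0, hcw⟩ := hP.off p q h1
    exact h p q c hcw

/-- J2 -/
theorem Ray.comm {i j k l : Fin (n + 1)} (hij : i < j) (hkl : k < l) (hne : i ≠ k ∨ j ≠ l)
    {P Q P' Q' : Matrix I I K} (hP : Ray wI T i j P) (hP' : Ray wI T i j P')
    (hQ : Ray wI T k l Q) (hQ' : Ray wI T k l Q') (h : P * Q = Q' * P') : P = P' := by
  refine Ray.ext hP hP' fun p q c hw => ?_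
  rw [← Ray.mul_left hij hkl hne hP hQ hw, h, Ray.mul_right hij hkl hne hP' hQ' hw]

/-- the factor `R` of ray `(i, k)` does not contribute to entries of ray `(i, j)` or `(j, k)` -/
theorem Ray.mul3 {i j k : Fin (n + 1)} (hij : i < j) (hjk : j < k)
    {P Q R : Matrix I I K} (hP : Ray wI T i j P) (hQ : Ray wI T j k Q) (hR : Ray wI T i k R)
    {p q : I} {c d : ℝ} (hw : ∀ w, wI p (T w) - wI q (T w) = c * rootE i j w + d * rootE j k w)
    (hcd : c = 0 ∨ d = 0) : (Q * P * R) p q = (Q * P) p q := by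
  rw [Matrix.mul_apply, Finset.sum_eq_single q]
  · rw [hR.diag, mul_one]
  · intro a _ ha
    by_contra hne0
    obtain ⟨y, hy, hy0, hyw⟩ := hR.off a q (right_ne_zero_of_mul hne0)
    have h1 := left_ne_zero_of_mul hne0
    rw [Matrix.mul_apply] at h1
    obtain ⟨b, -, hb⟩ := Finset.exists_ne_zero_of_sum_ne_zero h1
    obtain ⟨z, hz, -, hzw⟩ := hQ.off p b (left_ne_zero_of_mul hb)
    obtain ⟨x, hx, -, hxw⟩ := hP.off b a (right_ne_zero_of_mul hb)
    have h2 : ∀ w : Fin n → ℝ, (c - x - y) * rootE i j w = (z + y - d) * rootE j k w := by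
      intro w
      have e1 := hw w
      have e2 := hxw w
      have e3 := hyw w
      have e4 := hzw w
      rw [rootE_trans i j k] at e3
      linarith
    have h3 := root_indep hij hjk (Or.inl (ne_of_lt hij)) h2
    apply ha
    apply hy0
    rcases hcd with h4 | h4
    · have := h3.1
      linarith
    · have := h3.2
      linarith
  · intro h'; exact absurd (Finset.mem_univ _) h'

/-- J3 -/
theorem Ray.comm3 {i j k : Fin (n + 1)} (hij : i < j) (hjk : j < k)
    {P Q P' Q' R : Matrix I I K} (hP : Ray wI T i j P) (hP' : Ray wI T i j P')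
    (hQ : Ray wI T j k Q) (hQ' : Ray wI T j k Q') (hR : Ray wI T i k R)
    (h : P * Q = Q' * P' * R) : P = P' ∧ Q = Q' := by
  have hne : i ≠ j ∨ j ≠ k := Or.inl (ne_of_lt hij)
  have hne' : j ≠ i ∨ k ≠ j := Or.inl (ne_of_gt hij)
  constructor
  · refine Ray.ext hP hP' fun p q c hw => ?_
    rw [← Ray.mul_left hij hjk hne hP hQ hw, h,
      Ray.mul3 hij hjk hP' hQ' hR (c := c) (d := 0) (fun w => by rw [hw w]; ring) (Or.inr rfl),
      Ray.mul_right hij hjk hne hP' hQ' hw]
  · refine Ray.ext hQ hQ' fun p q c hw => ?_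
    rw [← Ray.mul_right hjk hij hne' hQ hP hw, h,
      Ray.mul3 hij hjk hP' hQ' hR (c := 0) (d := c) (fun w => by rw [hw w]; ring) (Or.inl rfl),
      Ray.mul_left hjk hij hne' hQ' hP' hw]

/-! ### The gauged difference elements -/

/-- gauge transformation with base point `g` -/
noncomputable def gau (wI : I → (Fin n → ℝ) →ₗ[ℝ] ℝ)
    (V : (ℕ → ANSL n D₁) → (ℕ → ANSL n D₁) → Matrix I I K) (g x y : ℕ → ANSL n D₁) :
    Matrix I I K :=
  zp wI (V g x) * V x y * zp wI (V y g)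

section vd

variable {GG : Set (ℕ → ANSL n D₁)}
  {V : (ℕ → ANSL n D₁) → (ℕ → ANSL n D₁) → Matrix I I K}
  (h : VData U r v S B wI T GG V)

include h

theorem vd_zp_mul {x y z : ℕ → ANSL n D₁} (hx : x ∈ GG) (hy : y ∈ GG) (hz : z ∈ GG) :
    zp wI (V x y) * zp wI (V y z) = zp wI (V x z) := by
  rw [← zp_mul (T := T) (h.tri x hx y hy) (h.tri y hy z hz), h.mul x hx y hy z hz]

theorem vd_zp_inv {x y : ℕ → ANSL n D₁} (hx : x ∈ GG) (hy : y ∈ GG) :
    zp wI (V x y) * zp wI (V y x) = 1 := by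
  rw [vd_zp_mul h hx hy hx, h.one x hx, zp_one]

theorem gau_mul {g x y z : ℕ → ANSL n D₁} (hg : g ∈ GG) (hx : x ∈ GG) (hy : y ∈ GG)
    (hz : z ∈ GG) : gau wI V g x y * gau wI V g y z = gau wI V g x z := by
  rw [gau, gau, gau, ← h.mul x hx y hy z hz]
  calc zp wI (V g x) * V x y * zp wI (V y g) * (zp wI (V g y) * V y z * zp wI (V z g))
      = zp wI (V g x) * V x y * (zp wI (V y g) * zp wI (V g y)) * (V y z * zp wI (V z g)) := by
        simp only [mul_assoc]
    _ = _ := by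
        rw [vd_zp_inv h hy hg, mul_one]
        simp only [mul_assoc]

theorem gau_one {g x : ℕ → ANSL n D₁} (hg : g ∈ GG) (hx : x ∈ GG) : gau wI V g x x = 1 := by
  rw [gau, h.one x hx, mul_one, vd_zp_inv h hg hx]

theorem gau_zp {g x y : ℕ → ANSL n D₁} (hg : g ∈ GG) (hx : x ∈ GG) (hy : y ∈ GG) :
    zp wI (gau wI V g x y) = 1 := by
  rw [gau, zp_mul_zp, zp_zp_mul, vd_zp_mul h hg hx hy, vd_zp_inv h hg hy]

/-- recover `V` from the gauged elements -/
theorem gau_undo {g x y : ℕ → ANSL n D₁} (hg : g ∈ GG) (hx : x ∈ GG) (hy : y ∈ GG) :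
    V x y = zp wI (V x g) * gau wI V g x y * zp wI (V g y) := by
  rw [gau]
  calc V x y = 1 * V x y * 1 := by rw [one_mul, mul_one]
    _ = zp wI (V x g) * zp wI (V g x) * V x y * (zp wI (V y g) * zp wI (V g y)) := by
        rw [vd_zp_inv h hx hg, vd_zp_inv h hy hg]
    _ = _ := by simp only [mul_assoc]

theorem gau_ne {g x y : ℕ → ANSL n D₁} {p q : I} (hne : gau wI V g x y p q ≠ 0) :
    ∃ p' q', wI p' = wI p ∧ wI q' = wI q ∧ V x y p' q' ≠ 0 := by
  rw [gau, Matrix.mul_apply] at hne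
  obtain ⟨b, -, hb⟩ := Finset.exists_ne_zero_of_sum_ne_zero hne
  have hb2 := right_ne_zero_of_mul hb
  have hb1 := left_ne_zero_of_mul hb
  rw [Matrix.mul_apply] at hb1
  obtain ⟨a, -, ha⟩ := Finset.exists_ne_zero_of_sum_ne_zero hb1
  have ha1 := left_ne_zero_of_mul ha
  refine ⟨a, b, ?_, ?_, right_ne_zero_of_mul ha⟩
  · by_contra hc
    exact ha1 (zp_ne fun h' => hc h'.symm)
  · by_contra hc
    exact hb2 (zp_ne hc)

theorem ne_gau {g x y : ℕ → ANSL n D₁} (hg : g ∈ GG) (hx : x ∈ GG) (hy : y ∈ GG) {p q : I}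
    (hne : V x y p q ≠ 0) :
    ∃ p' q', wI p' = wI p ∧ wI q' = wI q ∧ gau wI V g x y p' q' ≠ 0 := by
  rw [gau_undo h hg hx hy, Matrix.mul_apply] at hne
  obtain ⟨b, -, hb⟩ := Finset.exists_ne_zero_of_sum_ne_zero hne
  have hb2 := right_ne_zero_of_mul hb
  have hb1 := left_ne_zero_of_mul hb
  rw [Matrix.mul_apply] at hb1
  obtain ⟨a, -, ha⟩ := Finset.exists_ne_zero_of_sum_ne_zero hb1
  have ha1 := left_ne_zero_of_mul ha
  refine ⟨a, b, ?_, ?_, right_ne_zero_of_mul ha⟩
  · by_contra hc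
    exact ha1 (zp_ne fun h' => hc h'.symm)
  · by_contra hc
    exact hb2 (zp_ne hc)

/-- an entry of a difference element of a root sequence -/
theorem entry_ray {x : ℕ → ANSL n D₁} (hx : x ∈ GG) {i j : Fin (n + 1)} (hij : i < j)
    {y : ℕ → D₁} (hxy : x * rts hij y ∈ GG) {τ : ℝ} (hy : ExpLe U r y τ) (hv : UNorm v) {p q : I}
    (hne : V x (x * rts hij y) p q ≠ 0) :
    ∃ c : ℝ, 0 ≤ c ∧ RtW wI T i j p q c ∧ v (V x (x * rts hij y) p q) ≤ Real.exp (c * τ) := by
  have hpos : 0 < v (V x (x * rts hij y) p q) :=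
    lt_of_le_of_ne (hv.nonneg _) fun h0 => hne ((hv.eq_zero _).1 h0.symm)
  obtain ⟨c, hc, hcw⟩ := lin_of_bdd hij ((wI p - wI q) ∘ₗ T.toLinearMap) (L := τ)
    (m := Real.log (v (V x (x * rts hij y) p q))) (fun w hw => by
      have h1 := Real.log_le_log hpos (h.up x hx i j hij y hxy τ w hy hw p q)
      rw [Real.log_exp] at h1
      exact h1)
  refine ⟨c, hc, hcw, ?_⟩
  obtain ⟨w, hw⟩ := exists_rootE hij τ
  have h1 := h.up x hx i j hij y hxy τ w hy hw.ge p q
  have h2 : wI p (T w) - wI q (T w) = c * rootE i j w := hcw w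
  rwa [h2, hw] at h1

/-- J1 -/
theorem gau_ray {g x : ℕ → ANSL n D₁} (hg : g ∈ GG) (hx : x ∈ GG) {i j : Fin (n + 1)}
    (hij : i < j) {y : ℕ → D₁} (hxy : x * rts hij y ∈ GG) {τ : ℝ} (hy : ExpLe U r y τ)
    (hv : UNorm v) : Ray wI T i j (gau wI V g x (x * rts hij y)) := by
  have hz := gau_zp h hg hx hxy
  refine ⟨fun p => ?_, fun p q hne => ?_⟩
  · have h1 := congrFun (congrFun hz p) p
    rwa [zp_eq rfl, Matrix.one_apply_eq] at h1
  · obtain ⟨a, b, ha, hb, hab⟩ := gau_ne h hne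
    obtain ⟨c, hc, hcw, -⟩ := entry_ray h hx hij hxy hy hv hab
    refine ⟨c, hc, ?_, fun w => by rw [← ha, ← hb]; exact hcw w⟩
    rintro rfl
    have hpq : wI p = wI q := by
      rw [← ha, ← hb]
      exact wI_eq_of_zero (T := T) fun w => by rw [hcw w, zero_mul]
    by_contra hne'
    have h1 := congrFun (congrFun hz p) q
    rw [zp_eq hpq, Matrix.one_apply_ne hne'] at h1
    exact hne h1

/-- all root differences in `GG` are moderate -/
def ModG (U : Ultrafilter ℕ) (r : ℕ → ℝ) (GG : Set (ℕ → ANSL n D₁)) : Prop :=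
  ∀ x ∈ GG, ∀ (i j : Fin (n + 1)) (hij : i < j) (y : ℕ → D₁), x * rts hij y ∈ GG →
    ∃ τ, ExpLe U r y τ

omit h in
theorem rts_comm {i j k l : Fin (n + 1)} (hij : i < j) (hkl : k < l) (hjk : j ≠ k) (hli : l ≠ i)
    (x : ℕ → ANSL n D₁) (y z : ℕ → D₁) :
    x * rts hij y * rts hkl z = x * rts hkl z * rts hij y := by
  rw [mul_assoc, mul_assoc]
  congr 1
  funext t
  exact rt_comm hij hkl hjk hli _ _

omit h in
theorem rts_add {i j : Fin (n + 1)} (hij : i < j) (x : ℕ → ANSL n D₁) (y z : ℕ → D₁) :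
    x * rts hij y * rts hij z = x * rts hij (y + z) := by
  rw [mul_assoc]
  congr 1
  funext t
  exact (rt_add hij _ _).symm

omit h in
theorem rt_comm3 {i j k : Fin (n + 1)} (hij : i < j) (hjk : j < k) (y z : D₁) :
    (rt hij y * rt hjk z : ANSL n D₁) = rt hjk z * rt hij y * rt (hij.trans hjk) (y * z) := by
  apply Subtype.ext
  apply Units.ext
  change rtM i j y * rtM j k z = rtM j k z * rtM i j y * rtM i k (y * z)
  simp only [rtM]
  have h1 : (Matrix.single j k z : Matrix (Fin (n + 1)) (Fin (n + 1)) D₁) * Matrix.single i j y = 0 :=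
    Matrix.single_mul_single_of_ne _ _ _ _ (ne_of_gt (hij.trans hjk)) _
  have h2 : (Matrix.single i j y : Matrix (Fin (n + 1)) (Fin (n + 1)) D₁) * Matrix.single j k z =
      Matrix.single i k (y * z) := Matrix.single_mul_single_same _ _ _ _ _
  have h3 : (Matrix.single i j y : Matrix (Fin (n + 1)) (Fin (n + 1)) D₁) *
      Matrix.single i k (y * z) = 0 := Matrix.single_mul_single_of_ne _ _ _ _ (ne_of_gt hij) _
  have h4 : (Matrix.single j k z : Matrix (Fin (n + 1)) (Fin (n + 1)) D₁) *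
      Matrix.single i k (y * z) = 0 :=
    Matrix.single_mul_single_of_ne _ _ _ _ (ne_of_gt (hij.trans hjk)) _
  simp only [add_mul, mul_add, one_mul, mul_one, h1, h2, h3, h4, add_zero]
  abel

omit h in
theorem rts_comm3 {i j k : Fin (n + 1)} (hij : i < j) (hjk : j < k) (x : ℕ → ANSL n D₁)
    (y z : ℕ → D₁) : x * rts hij y * rts hjk z =
      x * rts hjk z * rts hij y * rts (hij.trans hjk) (y * z) := by
  rw [mul_assoc, mul_assoc, mul_assoc]
  congr 1
  funext t
  have := rt_comm3 (D₁ := D₁) hij hjk (y t) (z t)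
  rw [mul_assoc] at this
  exact this

variable (hv : UNorm v) (hm : ModG U r GG)

include hv hm

theorem gau_ray' {g x : ℕ → ANSL n D₁} (hg : g ∈ GG) (hx : x ∈ GG) {i j : Fin (n + 1)}
    (hij : i < j) {y : ℕ → D₁} (hxy : x * rts hij y ∈ GG) :
    Ray wI T i j (gau wI V g x (x * rts hij y)) := by
  obtain ⟨τ, hτ⟩ := hm x hx i j hij y hxy
  exact gau_ray h hg hx hij hxy hτ hv

/-- J2 : the difference elements of type `(i, j)` do not change under commuting root
sequences of a different type. -/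
theorem gau_comm {g x : ℕ → ANSL n D₁} (hg : g ∈ GG) {i j k l : Fin (n + 1)}
    (hij : i < j) (hkl : k < l) (hne : i ≠ k ∨ j ≠ l) {y z : ℕ → D₁} (hx : x ∈ GG)
    (hb : x * rts hij y ∈ GG) (hc : x * rts hkl z ∈ GG)
    (hcb : x * rts hkl z * rts hij y ∈ GG)
    (hcomm : x * rts hij y * rts hkl z = x * rts hkl z * rts hij y) :
    gau wI V g x (x * rts hij y) =
      gau wI V g (x * rts hkl z) (x * rts hkl z * rts hij y) := by
  have hbc : x * rts hij y * rts hkl z ∈ GG := by rw [hcomm]; exact hcb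
  refine Ray.comm (T := T) hij hkl hne (gau_ray' h hv hm hg hx hij hb)
    (gau_ray' h hv hm hg hc hij hcb)
    (Q := gau wI V g (x * rts hij y) (x * rts hij y * rts hkl z))
    (Q' := gau wI V g x (x * rts hkl z)) (gau_ray' h hv hm hg hb hkl hbc)
    (gau_ray' h hv hm hg hx hkl hc) ?_
  rw [gau_mul h hg hx hb hbc, gau_mul h hg hx hc hcb, hcomm]

/-- J3 -/
theorem gau_comm3 {g x : ℕ → ANSL n D₁} (hg : g ∈ GG) {i j k : Fin (n + 1)}
    (hij : i < j) (hjk : j < k) {y z : ℕ → D₁} (hx : x ∈ GG)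
    (hA : x * rts hij y ∈ GG) (hB : x * rts hjk z ∈ GG) (hAB : x * rts hij y * rts hjk z ∈ GG)
    (hBA : x * rts hjk z * rts hij y ∈ GG) :
    gau wI V g x (x * rts hij y) * gau wI V g x (x * rts hjk z) =
      gau wI V g x (x * rts hjk z) * gau wI V g x (x * rts hij y) *
        gau wI V g (x * rts hjk z * rts hij y) (x * rts hij y * rts hjk z) := by
  have hR : Ray wI T i k
      (gau wI V g (x * rts hjk z * rts hij y) (x * rts hij y * rts hjk z)) := by
    have h1 := rts_comm3 hij hjk x y z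
    rw [h1]
    exact gau_ray' h hv hm hg hBA (hij.trans hjk) (by rw [← h1]; exact hAB)
  obtain ⟨e1, e2⟩ := Ray.comm3 (T := T) hij hjk (gau_ray' h hv hm hg hx hij hA)
    (gau_ray' h hv hm hg hB hij hBA) (gau_ray' h hv hm hg hA hjk hAB)
    (gau_ray' h hv hm hg hx hjk hB) hR (by
      rw [gau_mul h hg hx hA hAB, gau_mul h hg hx hB hBA, gau_mul h hg hx hBA hAB])
  calc gau wI V g x (x * rts hij y) * gau wI V g x (x * rts hjk z)
      = gau wI V g x (x * rts hij y) * gau wI V g (x * rts hij y)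
          (x * rts hij y * rts hjk z) := by rw [e2]
    _ = gau wI V g x (x * rts hij y * rts hjk z) := gau_mul h hg hx hA hAB
    _ = gau wI V g x (x * rts hjk z) * gau wI V g (x * rts hjk z) (x * rts hjk z * rts hij y) *
        gau wI V g (x * rts hjk z * rts hij y) (x * rts hij y * rts hjk z) := by
        rw [gau_mul h hg hx hB hBA, gau_mul h hg hx hBA hAB]
    _ = _ := by rw [← e1]

omit hv hm in
/-- cancelling -/
theorem gau_cancel {g x y : ℕ → ANSL n D₁} (hg : g ∈ GG) (hx : x ∈ GG) (hy : y ∈ GG)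
    {M N : Matrix I I K} (hMN : gau wI V g x y * M = gau wI V g x y * N) : M = N := by
  have h1 := congrArg (fun M => gau wI V g y x * M) hMN
  simp only [← mul_assoc] at h1
  rwa [gau_mul h hg hy hx hy, gau_one h hg hy, one_mul, one_mul] at h1

/-- the commutator relation at the base point `z`, `C = (i, k)` -/
theorem gau_rel {g z : ℕ → ANSL n D₁} (hg : g ∈ GG) {i j k : Fin (n + 1)}
    (hij : i < j) (hjk : j < k) {w : ℕ → D₁} (hz : z ∈ GG)
    (hA : z * rts hij w ∈ GG) (hB : z * rts hjk (fun _ => 1) ∈ GG)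
    (hAB : z * rts hij w * rts hjk (fun _ => 1) ∈ GG)
    (hBA : z * rts hjk (fun _ => 1) * rts hij w ∈ GG)
    (hC : z * rts (hij.trans hjk) w ∈ GG)
    (hBC : z * rts hjk (fun _ => 1) * rts (hij.trans hjk) w ∈ GG) :
    gau wI V g z (z * rts hij w) * gau wI V g z (z * rts hjk (fun _ => 1)) =
      gau wI V g z (z * rts hjk (fun _ => 1)) * gau wI V g z (z * rts hij w) *
        gau wI V g z (z * rts (hij.trans hjk) w) := by
  have h1 := gau_comm3 h hv hm hg hij hjk hz hA hB hAB hBA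
  have hw : (w * fun _ => 1 : ℕ → D₁) = w := by funext t; exact mul_one _
  have h0 := rts_comm3 hij hjk z w (fun _ => 1)
  rw [hw] at h0
  have h2 := gau_comm h hv hm hg (hij.trans hjk) hjk (Or.inl (ne_of_lt hij)) hz hC hB hBC
    (rts_comm (hij.trans hjk) hjk (ne_of_gt hjk) (ne_of_gt (hij.trans hjk)) z w (fun _ => 1))
  have h3 := gau_comm h hv hm hg (hij.trans hjk) hij (Or.inr (ne_of_gt hjk)) hB hBC hBA
    (by rw [← h0]; exact hAB)
    (rts_comm (hij.trans hjk) hij (ne_of_gt (hij.trans hjk)) (ne_of_gt hij) _ w w)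
  rw [h1, h0, h2, h3]

/-- J4 -/
theorem gau_shift {g x : ℕ → ANSL n D₁} (hg : g ∈ GG) {i j k : Fin (n + 1)}
    (hij : i < j) (hjk : j < k) {u w : ℕ → D₁} (hc : Cfg GG x hij hjk u w) :
    gau wI V g x (x * rts (hij.trans hjk) w) =
      gau wI V g (x * rts (hij.trans hjk) u)
        (x * rts (hij.trans hjk) u * rts (hij.trans hjk) w) := by
  obtain ⟨x1, x2, x3, x4, x5, x6, x7⟩ := hc x (by simp)
  obtain ⟨y1, y2, y3, y4, y5, y6, y7⟩ := hc (x * rts (hij.trans hjk) u) (by simp)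
  have e1 := gau_rel h hv hm hg hij hjk x1 x2 x3 x4 x5 x6 x7
  have e2 := gau_rel h hv hm hg hij hjk y1 y2 y3 y4 y5 y6 y7
  have e3 := gau_comm h hv hm hg hij (hij.trans hjk) (Or.inr (ne_of_lt hjk)) x1 x2 y1 y2
    (rts_comm hij (hij.trans hjk) (ne_of_gt hij) (ne_of_gt (hij.trans hjk)) x w u)
  have e4 := gau_comm h hv hm hg hjk (hij.trans hjk) (Or.inl (ne_of_gt hij)) x1 x3 y1 y3
    (rts_comm hjk (hij.trans hjk) (ne_of_gt (hij.trans hjk)) (ne_of_gt hjk) x (fun _ => 1) u)
  rw [← e3, ← e4, e1, mul_assoc, mul_assoc] at e2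
  exact gau_cancel h hg x1 x2 (gau_cancel h hg x1 x3 e2)

/-- J4 -/
theorem gau_add {g x : ℕ → ANSL n D₁} (hg : g ∈ GG) {i j k : Fin (n + 1)}
    (hij : i < j) (hjk : j < k) {u w : ℕ → D₁} (hc : Cfg GG x hij hjk u w) :
    gau wI V g x (x * rts (hij.trans hjk) (u + w)) =
      gau wI V g x (x * rts (hij.trans hjk) u) * gau wI V g x (x * rts (hij.trans hjk) w) := by
  obtain ⟨x1, x2, x3, x4, x5, x6, x7⟩ := hc x (by simp)
  obtain ⟨y1, y2, y3, y4, y5, y6, y7⟩ := hc (x * rts (hij.trans hjk) u) (by simp)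
  rw [gau_shift h hv hm hg hij hjk hc, gau_mul h hg x1 y1 y6, rts_add]

end vd

end gen

end Pool.Agent.ANM65
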