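import Pool.Agent.ANM65.VGen

/-!
# Root algebra for the difference elements over the Robinson division ring: root patterns
-/

namespace Pool.Agent.ANM65

open Matrix Filter Topology Pool.Agent.ANM51 Pool.Agent.ANQ

set_option linter.unusedSectionVars false

section gen

variable {n : ℕ} {D₁ : Type} [NormedDivisionRing D₁] [NormedAlgebra ℝ D₁]
  {U : Ultrafilter ℕ} {r : ℕ → ℝ} {K : Type} [DivisionRing K] [Algebra ℝ K] {v : K → ℝ}
  {S : FormK v} {I : Type} [Fintype I] [DecidableEq I] {B : IForm I}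
  {wI : I → (Fin n → ℝ) →ₗ[ℝ] ℝ} {T : (Fin n → ℝ) ≃ₗ[ℝ] (Fin n → ℝ)}

theorem FormK.σ_one (S : FormK v) : S.σ 1 = 1 := by
  have h := S.anti 1 (S.σ 1)
  rw [one_mul, S.invol, one_mul] at h
  exact h.symm

theorem UNorm.one (hv : UNorm v) : v 1 = 1 := by
  have h1 := hv.mul 1 1
  rw [one_mul] at h1
  have h2 : v 1 ≠ 0 := fun h => one_ne_zero ((hv.eq_zero 1).1 h)
  exact mul_left_cancel₀ h2 (by rw [← h1, mul_one])

theorem UNorm.sq_one (hv : UNorm v) {a : K} (ha : a * a = 1) : v a = 1 := by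
  have h1 := hv.mul a a
  rw [ha, UNorm.one hv] at h1
  have h2 := hv.nonneg a
  nlinarith

theorem UNorm.neg (hv : UNorm v) (a : K) : v (-a) = v a := by
  rw [← neg_one_mul, hv.mul, UNorm.sq_one hv (by norm_num), one_mul]

theorem UNorm.smul_pm (hv : UNorm v) {s : ℝ} (hs : s * s = 1) (a : K) : v (s • a) = v a := by
  rw [Algebra.smul_def, hv.mul, UNorm.sq_one hv (by rw [← map_mul, hs, map_one]), one_mul]

theorem JI_mul_apply (M : Matrix I I K) (a b : I) :
    (JI B K * M) a b = B.jc a • M (B.bar a) b := by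
  rw [Matrix.mul_apply, Finset.sum_eq_single (B.bar a)]
  · rw [JI, if_pos rfl, Algebra.smul_def]
  · intro c _ hc
    rw [JI, if_neg hc, zero_mul]
  · intro h; exact absurd (Finset.mem_univ _) h

theorem formK_entry (σ : K → K) (M : Matrix I I K) (a b : I) :
    (ct σ M * JI B K * M) a b = ∑ c, B.jc c • (σ (M c a) * M (B.bar c) b) := by
  rw [mul_assoc, Matrix.mul_apply]
  refine Finset.sum_congr rfl fun c _ => ?_
  rw [JI_mul_apply, ct, mul_smul_comm]

/-- `(p, q)` and its partner `(q', p')` are the only entries whose weights are positive multiples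
of the root `(i, j)`; the weights of `p`, `q` are multiplicity free. -/
structure PatRoot (B : IForm I) (wI : I → (Fin n → ℝ) →ₗ[ℝ] ℝ)
    (T : (Fin n → ℝ) ≃ₗ[ℝ] (Fin n → ℝ)) (i j : Fin (n + 1)) (p q : I) (κ : ℝ) : Prop where
  pos : 0 < κ
  rt : RtW wI T i j p q κ
  sp : ∀ a, wI a = wI p → a = p
  sq : ∀ a, wI a = wI q → a = q
  bar : ∀ a, wI (B.bar a) = - wI a
  pat : ∀ a b c, 0 < c → RtW wI T i j a b c →
    (a = p ∧ b = q) ∨ (a = B.bar q ∧ b = B.bar p)

theorem bar_inj {a b : I} (h : B.bar a = B.bar b) : a = b := by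
  rw [← B.bar_bar a, h, B.bar_bar]

theorem RtW.ne {i j : Fin (n + 1)} (hij : i < j) {p q : I} {c : ℝ} (hc : 0 < c)
    (h : RtW wI T i j p q c) : p ≠ q := by
  rintro rfl
  obtain ⟨w, hw⟩ := exists_rootE hij 1
  have h1 := h w
  rw [hw, sub_self, mul_one] at h1
  exact hc.ne h1

theorem RtW.unique {i j : Fin (n + 1)} (hij : i < j) {p q : I} {c d : ℝ}
    (h : RtW wI T i j p q c) (h' : RtW wI T i j p q d) : c = d := by
  obtain ⟨w, hw⟩ := exists_rootE hij 1
  have h1 := h w
  have h2 := h' w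
  rw [hw, mul_one] at h1 h2
  rw [← h1, h2]

theorem RtW.partner (hbar : ∀ a, wI (B.bar a) = - wI a) {i j : Fin (n + 1)} {p q : I} {c : ℝ}
    (h : RtW wI T i j p q c) : RtW wI T i j (B.bar q) (B.bar p) c := by
  intro w
  rw [hbar, hbar, LinearMap.neg_apply, LinearMap.neg_apply, ← h w]
  ring

namespace PatRoot

variable {i j : Fin (n + 1)} {p q : I} {κ : ℝ} (hp : PatRoot B wI T i j p q κ) (hij : i < j)

include hp

theorem spb {a : I} (h : wI a = wI (B.bar p)) : a = B.bar p := by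
  rw [← B.bar_bar a, hp.sp (B.bar a)]
  rw [hp.bar, h, hp.bar, neg_neg]

theorem sqb {a : I} (h : wI a = wI (B.bar q)) : a = B.bar q := by
  rw [← B.bar_bar a, hp.sq (B.bar a)]
  rw [hp.bar, h, hp.bar, neg_neg]

include hij

theorem ne : p ≠ q := RtW.ne hij hp.pos hp.rt

theorem off_zero {M : Matrix I I K} (hM : Ray wI T i j M) {a b : I} (hab : a ≠ b)
    (h1 : ¬ (a = p ∧ b = q)) (h2 : ¬ (a = B.bar q ∧ b = B.bar p)) : M a b = 0 := by
  by_contra hne
  obtain ⟨c, hc, hc0, hcw⟩ := hM.off a b hne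
  rcases hp.pat a b c (lt_of_le_of_ne hc fun h => hab (hc0 h.symm)) hcw with h3 | h3
  · exact h1 h3
  · exact h2 h3

theorem mul_entry {M N : Matrix I I K} (hM : Ray wI T i j M) (hN : Ray wI T i j N) :
    (M * N) p q = M p q + N p q := by
  have hne := hp.ne hij
  rw [Matrix.mul_apply, ← Finset.add_sum_erase _ _ (Finset.mem_univ q),
    ← Finset.add_sum_erase _ _ (Finset.mem_erase.2 ⟨hne, Finset.mem_univ p⟩),
    Finset.sum_eq_zero, hM.diag, hN.diag, one_mul, mul_one, add_zero]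
  intro a ha
  rw [Finset.mem_erase, Finset.mem_erase] at ha
  have h0 : M p a = 0 := by
    refine hp.off_zero hij hM (Ne.symm ha.1) (fun h => ha.2.1 h.2) fun h => ?_
    apply ha.2.1
    rw [h.2, h.1, B.bar_bar]
  rw [h0, zero_mul]

theorem partner {M : Matrix I I K} (hM : Ray wI T i j M)
    (hF : ct S.σ M * JI B K * M = JI B K) :
    B.jc q • M (B.bar q) (B.bar p) + B.jc p • S.σ (M p q) = 0 := by
  have hne := hp.ne hij
  have h1 := formK_entry (B := B) S.σ M q (B.bar p)
  rw [hF, JI, if_neg (fun h => hne (bar_inj h)),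
    ← Finset.add_sum_erase _ _ (Finset.mem_univ q),
    ← Finset.add_sum_erase _ _ (Finset.mem_erase.2 ⟨hne, Finset.mem_univ p⟩),
    Finset.sum_eq_zero, hM.diag, hM.diag, FormK.σ_one, one_mul, mul_one, add_zero] at h1
  · exact h1.symm
  · intro a ha
    rw [Finset.mem_erase, Finset.mem_erase] at ha
    have h0 : M a q = 0 := by
      refine hp.off_zero hij hM ha.2.1 (fun h => ha.1 h.1) fun h => ?_
      apply ha.1
      rw [h.1, h.2, B.bar_bar]
    rw [h0, map_zero, zero_mul, smul_zero]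

theorem norm_partner (hv : UNorm v) {M : Matrix I I K} (hM : Ray wI T i j M)
    (hF : ct S.σ M * JI B K * M = JI B K) : v (M (B.bar q) (B.bar p)) = v (M p q) := by
  have h1 := eq_neg_of_add_eq_zero_left (hp.partner hij hM hF)
  have h2 := congrArg v h1
  rwa [UNorm.neg hv, UNorm.smul_pm hv (B.jc_sq _), UNorm.smul_pm hv (B.jc_sq _), S.norm_σ] at h2

end PatRoot

section vd

variable {GG : Set (ℕ → ANSL n D₁)}
  {V : (ℕ → ANSL n D₁) → (ℕ → ANSL n D₁) → Matrix I I K}
  (h : VData U r v S B wI T GG V) (hv : UNorm v) (hm : ModG U r GG)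

include h

/-- entries of the gauged elements for multiplicity free weights -/
theorem gau_entry {g x y : ℕ → ANSL n D₁} {p q : I} (sp : ∀ a, wI a = wI p → a = p)
    (sq : ∀ a, wI a = wI q → a = q) :
    gau wI V g x y p q = V g x p p * V x y p q * V y g q q := by
  rw [gau, Matrix.mul_apply, Finset.sum_eq_single q]
  · rw [zp_eq rfl, Matrix.mul_apply, Finset.sum_eq_single p]
    · rw [zp_eq rfl]
    · intro a _ ha
      rw [zp_ne (fun h' => ha (sp a h'.symm)), zero_mul]
    · intro h'; exact absurd (Finset.mem_univ _) h'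
  · intro a _ ha
    rw [zp_ne (fun h' => ha (sq a h')), mul_zero]
  · intro h'; exact absurd (Finset.mem_univ _) h'

theorem diag_mul_inv {x y : ℕ → ANSL n D₁} (hx : x ∈ GG) (hy : y ∈ GG) {p : I}
    (sp : ∀ a, wI a = wI p → a = p) : V x y p p * V y x p p = 1 := by
  have h1 := congrFun (congrFun (vd_zp_inv h hx hy) p) p
  rw [Matrix.one_apply_eq, Matrix.mul_apply, Finset.sum_eq_single p] at h1
  · rwa [zp_eq rfl, zp_eq rfl] at h1
  · intro a _ ha
    rw [zp_ne (fun h' => ha (sp a h'.symm)), zero_mul]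
  · intro h'; exact absurd (Finset.mem_univ _) h'

theorem psiV_eq {g : ℕ → ANSL n D₁} (hg : g ∈ GG) {i j : Fin (n + 1)} (hij : i < j) {p q : I}
    (sp : ∀ a, wI a = wI p → a = p) (sq : ∀ a, wI a = wI q → a = q) {u : ℕ → D₁}
    (hu : g * rts hij u ∈ GG) :
    psiV V g hij p q u = gau wI V g g (g * rts hij u) p q := by
  rw [gau_entry h sp sq, h.one g hg, Matrix.one_apply_eq, one_mul, psiV]
  congr 1
  exact inv_eq_of_mul_eq_one_right (diag_mul_inv h hg hu sq)

/-- the gauged elements preserve the form -/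
theorem gau_form (hbar : ∀ a, wI (B.bar a) = - wI a) {g x y : ℕ → ANSL n D₁} (hg : g ∈ GG)
    (hx : x ∈ GG) (hy : y ∈ GG) :
    ct S.σ (gau wI V g x y) * JI B K * gau wI V g x y = JI B K := by
  have ctm : ∀ M N : Matrix I I K, ct S.σ (M * N) = ct S.σ N * ct S.σ M := by
    intro M N
    ext a b
    simp only [ct, Matrix.mul_apply, map_sum, S.anti]
  have hz : ∀ a ∈ GG, ∀ b ∈ GG,
      ct S.σ (zp wI (V a b)) * JI B K * zp wI (V a b) = JI B K := by
    intro a ha b hb
    have h0 := h.form a ha b hb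
    ext p q
    have h1 := formK_entry (B := B) S.σ (zp wI (V a b)) p q
    have h2 := formK_entry (B := B) S.σ (V a b) p q
    rw [h0] at h2
    rw [h1]
    by_cases hpq : wI q = - wI p
    · rw [h2]
      refine Finset.sum_congr rfl fun c _ => ?_
      by_cases hc : wI c = wI p
      · rw [zp_eq hc, zp_eq (by rw [hbar, hc, hpq])]
      · rw [zp_ne hc, map_zero, zero_mul, smul_zero]
        by_contra hne
        have hne1 : S.σ (V a b c p) * V a b (B.bar c) q ≠ 0 := fun h' => hne (by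
          rw [h', smul_zero])
        have hne2 : V a b c p ≠ 0 := fun h' => left_ne_zero_of_mul hne1 (by rw [h', map_zero])
        have hne3 := right_ne_zero_of_mul hne1
        apply hc
        apply wI_eq_of_cone (T := T)
        intro w hw
        have e1 := h.tri a ha b hb c p hne2 w hw
        have e2 := h.tri a ha b hb _ q hne3 w hw
        rw [hbar, hpq, LinearMap.neg_apply, LinearMap.neg_apply] at e2
        linarith
    · rw [JI, if_neg (fun h' => hpq (by rw [h', hbar])), Finset.sum_eq_zero]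
      intro c _
      by_cases hc : wI c = wI p
      · rw [zp_ne (p := B.bar c) (q := q) (fun h' => hpq (by rw [← h', hbar, hc])), mul_zero,
          smul_zero]
      · rw [zp_ne hc, map_zero, zero_mul, smul_zero]
  rw [gau, ctm, ctm]
  calc ct S.σ (zp wI (V y g)) * (ct S.σ (V x y) * ct S.σ (zp wI (V g x))) * JI B K *
        (zp wI (V g x) * V x y * zp wI (V y g))
      = ct S.σ (zp wI (V y g)) * (ct S.σ (V x y) * (ct S.σ (zp wI (V g x)) * JI B K *
        zp wI (V g x)) * V x y) * zp wI (V y g) := by simp only [mul_assoc]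
    _ = JI B K := by rw [hz g hg x hx, h.form x hx y hy, hz y hy g hg]

/-- lower bound for some entry of positive weight -/
theorem exists_big {x : ℕ → ANSL n D₁} (hv : UNorm v) (hx : x ∈ GG) {i j : Fin (n + 1)}
    (hij : i < j) {y : ℕ → D₁} (hxy : x * rts hij y ∈ GG) {τ' : ℝ} (hy : ExpLe U r y τ') {τ ρ : ℝ}
    (hy' : ExpGe U r y τ) (hρ : ρ < τ) :
    ∃ p q c, 0 < c ∧ RtW wI T i j p q c ∧ Real.exp (c * ρ) < v (V x (x * rts hij y) p q) := by
  obtain ⟨w, hw⟩ := exists_rootE hij ρ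
  obtain ⟨p, q, hpq⟩ := h.lo x hx i j hij y hxy τ w hy' (by rw [hw]; exact hρ)
  have hne : V x (x * rts hij y) p q ≠ 0 := by
    intro h0
    rw [(hv.eq_zero _).2 h0] at hpq
    exact absurd hpq (not_lt.2 (Real.exp_pos _).le)
  obtain ⟨c, hc, hcw, hle⟩ := entry_ray h hx hij hxy hy hv hne
  rw [hcw w, hw] at hpq
  refine ⟨p, q, c, lt_of_le_of_ne hc ?_, hcw, hpq⟩
  rintro rfl
  rw [zero_mul] at hpq hle
  exact absurd hpq (not_lt.2 hle)

include hv hm

/-- the diagonal entries at points which differ by a root sequence have norm one -/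
theorem norm_diag_one {x : ℕ → ANSL n D₁} (hx : x ∈ GG) {i j : Fin (n + 1)}
    (hij : i < j) {y : ℕ → D₁} (hxy : x * rts hij y ∈ GG) {p : I}
    (sp : ∀ a, wI a = wI p → a = p) :
    v (V x (x * rts hij y) p p) = 1 ∧ v (V (x * rts hij y) x p p) = 1 := by
  have hx' : x * rts hij y * rts hij (-y) = x := by
    rw [rts_add, add_neg_cancel]
    have : (rts hij (0 : ℕ → D₁)) = 1 := by funext t; exact rt_zero hij
    rw [this, mul_one]
  obtain ⟨τ, hτ⟩ := hm x hx i j hij y hxy
  obtain ⟨τ', hτ'⟩ := hm _ hxy i j hij (-y) (by rw [hx']; exact hx)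
  have h1 := diag_mul_inv h hx hxy sp
  have le1 : v (V x (x * rts hij y) p p) ≤ 1 := by
    obtain ⟨w, hw⟩ := exists_rootE hij τ
    have := h.up x hx i j hij y hxy τ w hτ hw.ge p p
    rwa [sub_self, Real.exp_zero] at this
  have le2 : v (V (x * rts hij y) x p p) ≤ 1 := by
    obtain ⟨w, hw⟩ := exists_rootE hij τ'
    have := h.up _ hxy i j hij (-y) (by rw [hx']; exact hx) τ' w hτ' hw.ge p p
    rwa [sub_self, Real.exp_zero, hx'] at this
  have h2 := congrArg v h1
  rw [hv.mul, UNorm.one hv] at h2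
  have n1 := hv.nonneg (V x (x * rts hij y) p p)
  have n2 := hv.nonneg (V (x * rts hij y) x p p)
  constructor
  · apply le_antisymm le1
    nlinarith
  · apply le_antisymm le2
    nlinarith

/-- The three properties of the leading coordinate of a root pattern. -/
theorem psi_sub_eq {g : ℕ → ANSL n D₁} (hg : g ∈ GG) {i j : Fin (n + 1)} (hij : i < j)
    {p q : I} {κ : ℝ} (hp : PatRoot B wI T i j p q κ) {a b : ℕ → D₁}
    (ha : g * rts hij a ∈ GG) (hb : g * rts hij b ∈ GG) :
    psiV V g hij p q b - psiV V g hij p q a =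
      gau wI V g (g * rts hij a) (g * rts hij a * rts hij (b - a)) p q := by
  have hab : g * rts hij a * rts hij (b - a) = g * rts hij b := by
    rw [rts_add, add_sub_cancel]
  rw [psiV_eq h hg hij hp.sp hp.sq ha, psiV_eq h hg hij hp.sp hp.sq hb, ← hab]
  have hb' : g * rts hij a * rts hij (b - a) ∈ GG := by rw [hab]; exact hb
  rw [← gau_mul h hg hg ha hb', hp.mul_entry hij (gau_ray' h hv hm hg hg hij ha)
    (gau_ray' h hv hm hg ha hij hb'), add_sub_cancel_left]

theorem psi_sub_norm {g : ℕ → ANSL n D₁} (hg : g ∈ GG) {i j : Fin (n + 1)} (hij : i < j)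
    {p q : I} {κ : ℝ} (hp : PatRoot B wI T i j p q κ) {a b : ℕ → D₁}
    (ha : g * rts hij a ∈ GG) (hb : g * rts hij b ∈ GG) :
    v (psiV V g hij p q b - psiV V g hij p q a) =
      v (V (g * rts hij a) (g * rts hij a * rts hij (b - a)) p q) := by
  have hab : g * rts hij a * rts hij (b - a) = g * rts hij b := by
    rw [rts_add, add_sub_cancel]
  rw [psi_sub_eq h hv hm hg hij hp ha hb, gau_entry h hp.sp hp.sq, hv.mul, hv.mul,
    (norm_diag_one h hv hm hg hij ha hp.sp).1, one_mul, hab,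
    (norm_diag_one h hv hm hg hij hb hp.sq).2, mul_one]

theorem psi_upper {g : ℕ → ANSL n D₁} (hg : g ∈ GG) {i j : Fin (n + 1)} (hij : i < j)
    {p q : I} {κ : ℝ} (hp : PatRoot B wI T i j p q κ) {a b : ℕ → D₁}
    (ha : g * rts hij a ∈ GG) (hb : g * rts hij b ∈ GG) {τ : ℝ} (hτ : ExpLe U r (b - a) τ) :
    v (psiV V g hij p q b - psiV V g hij p q a) ≤ Real.exp (κ * τ) := by
  have hab : g * rts hij a * rts hij (b - a) = g * rts hij b := by
    rw [rts_add, add_sub_cancel]
  rw [psi_sub_norm h hv hm hg hij hp ha hb]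
  by_cases hne : V (g * rts hij a) (g * rts hij a * rts hij (b - a)) p q = 0
  · rw [(hv.eq_zero _).2 hne]
    exact (Real.exp_pos _).le
  · obtain ⟨c, hc, hcw, hle⟩ := entry_ray h ha hij (by rw [hab]; exact hb) hτ hv hne
    rwa [RtW.unique hij hcw hp.rt] at hle

theorem psi_lower {g : ℕ → ANSL n D₁} (hg : g ∈ GG) {i j : Fin (n + 1)} (hij : i < j)
    {p q : I} {κ : ℝ} (hp : PatRoot B wI T i j p q κ) {a b : ℕ → D₁}
    (ha : g * rts hij a ∈ GG) (hb : g * rts hij b ∈ GG) {τ : ℝ} (hτ : ExpGe U r (b - a) τ) :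
    Real.exp (κ * τ) ≤ v (psiV V g hij p q b - psiV V g hij p q a) := by
  have hab : g * rts hij a * rts hij (b - a) = g * rts hij b := by
    rw [rts_add, add_sub_cancel]
  have hb' : g * rts hij a * rts hij (b - a) ∈ GG := by rw [hab]; exact hb
  obtain ⟨τ', hτ'⟩ := hm _ ha i j hij (b - a) hb'
  have key : ∀ ρ, ρ < τ → Real.exp (κ * ρ) <
      v (V (g * rts hij a) (g * rts hij a * rts hij (b - a)) p q) := by
    intro ρ hρ
    obtain ⟨p', q', c, hc, hcw, hlt⟩ := exists_big h hv ha hij hb' hτ' hτ hρ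
    rcases hp.pat p' q' c hc hcw with ⟨rfl, rfl⟩ | ⟨rfl, rfl⟩
    · rwa [RtW.unique hij hcw hp.rt] at hlt
    · rw [RtW.unique hij hcw (RtW.partner hp.bar hp.rt)] at hlt
      refine hlt.trans_le (le_of_eq ?_)
      have e1 := hp.norm_partner hij (S := S) hv (gau_ray' h hv hm hg ha hij hb')
        (gau_form h hp.bar hg ha hb')
      rw [gau_entry h hp.sp hp.sq, gau_entry h (fun a h' => hp.sqb h') (fun a h' => hp.spb h'),
        hv.mul, hv.mul, hv.mul, hv.mul, (norm_diag_one h hv hm hg hij ha hp.sp).1,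
        (norm_diag_one h hv hm hg hij ha (fun a h' => hp.sqb h')).1, hab,
        (norm_diag_one h hv hm hg hij hb hp.sq).2,
        (norm_diag_one h hv hm hg hij hb (fun a h' => hp.spb h')).2] at e1
      simpa [hab] using e1
  rw [psi_sub_norm h hv hm hg hij hp ha hb]
  by_contra hcon
  push Not at hcon
  set y := v (V (g * rts hij a) (g * rts hij a * rts hij (b - a)) p q) with hy
  have h1 := key (τ - 1) (by linarith)
  have hypos : 0 < y := (Real.exp_pos _).trans h1
  have h2 : Real.log y < κ * τ := by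
    rwa [Real.log_lt_iff_lt_exp hypos]
  have h3 := key (Real.log y / κ) (by
    rw [div_lt_iff₀ hp.pos]; linarith)
  rw [mul_div_cancel₀ _ hp.pos.ne', Real.exp_log hypos] at h3
  exact lt_irrefl _ h3

theorem psi_add {g : ℕ → ANSL n D₁} (hg : g ∈ GG) {i j k : Fin (n + 1)} (hij : i < j)
    (hjk : j < k) {p q : I} {κ : ℝ} (hp : PatRoot B wI T i k p q κ) {u w : ℕ → D₁}
    (hc : Cfg GG g hij hjk u w) :
    psiV V g (hij.trans hjk) p q (u + w) = psiV V g (hij.trans hjk) p q u +
      psiV V g (hij.trans hjk) p q w := by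
  obtain ⟨x1, x2, x3, x4, x5, x6, x7⟩ := hc g (by simp)
  obtain ⟨y1, y2, y3, y4, y5, y6, y7⟩ := hc (g * rts (hij.trans hjk) u) (by simp)
  have huw : g * rts (hij.trans hjk) (u + w) ∈ GG := by rw [← rts_add]; exact y6
  rw [psiV_eq h hg _ hp.sp hp.sq y1, psiV_eq h hg _ hp.sp hp.sq x6,
    psiV_eq h hg _ hp.sp hp.sq huw, gau_add h hv hm hg hij hjk hc,
    hp.mul_entry (hij.trans hjk) (gau_ray' h hv hm hg hg _ y1) (gau_ray' h hv hm hg hg _ x6)]

/-- some entry of positive weight does not vanish -/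
theorem exists_gau_ne {g x : ℕ → ANSL n D₁} (hg : g ∈ GG) (hx : x ∈ GG) {i j : Fin (n + 1)}
    (hij : i < j) {y : ℕ → D₁} (hxy : x * rts hij y ∈ GG) {τ : ℝ} (hy : ExpGe U r y τ) :
    ∃ p q c, 0 < c ∧ RtW wI T i j p q c ∧ gau wI V g x (x * rts hij y) p q ≠ 0 := by
  obtain ⟨τ', hτ'⟩ := hm x hx i j hij y hxy
  obtain ⟨p, q, c, hc, hcw, hlt⟩ := exists_big h hv hx hij hxy hτ' hy (ρ := τ - 1) (by linarith)
  have hne : V x (x * rts hij y) p q ≠ 0 := by
    intro h0
    rw [(hv.eq_zero _).2 h0] at hlt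
    exact absurd hlt (not_lt.2 (Real.exp_pos _).le)
  obtain ⟨p', q', hp', hq', hne'⟩ := ne_gau h hg hx hxy hne
  exact ⟨p', q', c, hc, fun w => by rw [hp', hq']; exact hcw w, hne'⟩

end vd

end gen

end Pool.Agent.ANM65
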